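import Pool.Agent.Helper60.LX.LieMC

/-!
# Project LX: the bracket is the bracket of the Lie algebra of Mathlib

PROOF OF LBR_EQ_BRACKET. By GroupLieAlgebra.bracket_def the right side is
mlieBracket (X_u) (X_v) 1 with X_v g = mulInvariantVectorField v g = mfderiv (g * ·) 1 v. mlieBracket at 1
is by definition (mlieBracket = mlieBracketWithin univ) the mpullback by extChartAt 1 of the Lie bracket in
E of the pullbacks V_u, V_v by the inverse chart ps, at e = ch 1, and V_v a = (mfderiv ps a)⁻¹ (X_v (ps a))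
= D(c ↦ ch (ps a * ps c))(e) v = fderiv M (a, e) (0, v) for a near e (M = MM E G; the derivative of the chart
ch at ps a is the inverse of mfderiv ps a; mfderiv ps e = id, mfderiv ch 1 = id as maps E → E because the
tangent space at 1 is trivialised by the chart at 1). Only the germs of V_u, V_v at e matter.
lieBracket V W e = fderiv W e (V e) - fderiv V e (W e), V_u e = u, and fderiv V_v e u = D2 M (e,e) (u,0) (0,v) =
BB u v. So the bracket is BB u v - BB v u = lbr u v (lbr_eq_BB). See Helper91/HeisGroup.lean (bracket_eq)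
for a similar computation in a global chart. (LieGroup with minSmoothness ℝ 3 is only needed for
properties of the bracket; the Bracket instance needs nothing.)
-/

open scoped ContDiff Topology Manifold
open Module

noncomputable section

namespace Pool.Agent.Helper60.LX

variable {E : Type} [NormedAddCommGroup E] [NormedSpace ℝ E]
  {G : Type} [TopologicalSpace G] [ChartedSpace E G] [Group G] [LieGroup 𝓘(ℝ, E) ∞ G]

omit [LieGroup 𝓘(ℝ, E) ∞ G] in
private theorem ps_symm (a : E) : (extChartAt 𝓘(ℝ, E) (1 : G)).symm a = ps G a := rfl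

set_option backward.isDefEq.respectTransparency false in
/-- The invariant vector field in the chart at `1`. -/
private theorem pull_eq (v : GroupLieAlgebra 𝓘(ℝ, E) G) :
    ∀ᶠ a in 𝓝 (ch E (1 : G)),
      (VectorField.mpullbackWithin 𝓘(ℝ, E) 𝓘(ℝ, E) (extChartAt 𝓘(ℝ, E) (1 : G)).symm
        (mulInvariantVectorField v) (Set.range 𝓘(ℝ, E)) a : E) =
      fderiv ℝ (MM E G) (a, ch E (1 : G)) (0, (v : E)) := by
  have : IsManifold 𝓘(ℝ, E) 1 G := IsManifold.of_le (n := ∞) (by exact_mod_cast le_top)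
  have hM : ∀ᶠ z in 𝓝 ((ch E (1 : G), ch E (1 : G)) : E × E), DifferentiableAt ℝ (MM E G) z := by
    have h1 : ContDiffAt ℝ 1 (MM E G) (ch E (1 : G), ch E (1 : G)) :=
      (MM_smooth (E := E) (G := G)).of_le (by exact_mod_cast le_top)
    exact (h1.eventually (by simp)).mono fun z hz => hz.differentiableAt (by simp)
  have hM' : ∀ᶠ a in 𝓝 (ch E (1 : G)), DifferentiableAt ℝ (MM E G) (a, ch E (1 : G)) := by
    have hc : ContinuousAt (fun a : E => (a, ch E (1 : G))) (ch E (1 : G)) := by fun_prop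
    exact hc.eventually hM
  have hT : (extChartAt 𝓘(ℝ, E) (1 : G)).target ∈ 𝓝 (ch E (1 : G)) :=
    extChartAt_target_mem_nhds (1 : G)
  filter_upwards [hT, hM'] with a ha hMa
  have hsrc : ps G a ∈ (chartAt E (1 : G)).source := by
    have := (extChartAt 𝓘(ℝ, E) (1 : G)).map_target ha
    rwa [extChartAt_source] at this
  have hinv : (mfderivWithin 𝓘(ℝ, E) 𝓘(ℝ, E) (extChartAt 𝓘(ℝ, E) (1 : G)).symm
      (Set.range 𝓘(ℝ, E)) a).inverse =
      mfderiv 𝓘(ℝ, E) 𝓘(ℝ, E) (extChartAt 𝓘(ℝ, E) (1 : G))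
        ((extChartAt 𝓘(ℝ, E) (1 : G)).symm a) :=
    ContinuousLinearMap.inverse_eq (mfderivWithin_extChartAt_symm_comp_mfderiv_extChartAt ha)
      (mfderiv_extChartAt_comp_mfderivWithin_extChartAt_symm ha)
  rw [VectorField.mpullbackWithin_apply, hinv]
  -- the three derivatives
  have hps : HasMFDerivAt 𝓘(ℝ, E) 𝓘(ℝ, E) (ps G) (ch E (1 : G))
      (ContinuousLinearMap.id ℝ E) := by
    have h1 : mfderivWithin 𝓘(ℝ, E) 𝓘(ℝ, E) (extChartAt 𝓘(ℝ, E) (1 : G)).symm
        (Set.range 𝓘(ℝ, E)) (extChartAt 𝓘(ℝ, E) (1 : G) 1) = ContinuousLinearMap.id ℝ E :=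
      mfderivWithin_range_extChartAt_symm
    have h2 : MDifferentiableWithinAt 𝓘(ℝ, E) 𝓘(ℝ, E) (extChartAt 𝓘(ℝ, E) (1 : G)).symm
        (Set.range 𝓘(ℝ, E)) (extChartAt 𝓘(ℝ, E) (1 : G) 1) :=
      mdifferentiableWithinAt_extChartAt_symm (mem_extChartAt_target (1 : G))
    have h3 := h2.hasMFDerivWithinAt
    rw [h1] at h3
    rw [ModelWithCorners.range_eq_univ, hasMFDerivWithinAt_univ] at h3
    exact h3
  have hmul : HasMFDerivAt 𝓘(ℝ, E) 𝓘(ℝ, E) (ps G a * ·) (ps G (ch E (1 : G)))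
      (mfderiv 𝓘(ℝ, E) 𝓘(ℝ, E) (ps G a * ·) (1 : G) : E →L[ℝ] E) := by
    rw [ps_ch_one]
    have h1 : ContMDiffAt 𝓘(ℝ, E) 𝓘(ℝ, E) ∞ (ps G a * ·) (1 : G) :=
      contMDiff_mul_left.contMDiffAt
    exact (h1.mdifferentiableAt (by simp)).hasMFDerivAt
  have hch : HasMFDerivAt 𝓘(ℝ, E) 𝓘(ℝ, E) (ch E : G → E) (ps G a * ps G (ch E (1 : G)))
      (mfderiv 𝓘(ℝ, E) 𝓘(ℝ, E) (extChartAt 𝓘(ℝ, E) (1 : G)) (ps G a) : E →L[ℝ] E) := by
    rw [ps_ch_one, mul_one]
    exact (mdifferentiableAt_extChartAt hsrc).hasMFDerivAt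
  have hcomp := (hch.comp (ch E (1 : G)) (hmul.comp (ch E (1 : G)) hps)).hasFDerivAt
  have hfd : HasFDerivAt (fun c => MM E G (a, c))
      ((fderiv ℝ (MM E G) (a, ch E (1 : G))).comp (ContinuousLinearMap.inr ℝ E E))
      (ch E (1 : G)) :=
    HasFDerivAt.comp (ch E (1 : G)) hMa.hasFDerivAt (hasFDerivAt_prodMk_right a (ch E (1 : G)))
  have heq := HasFDerivAt.unique hcomp hfd
  exact congrArg (fun T : E →L[ℝ] E => T v) heq

/-- The derivative of the invariant vector field at the centre of the chart. -/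
private theorem fderiv_pull (u v : E) :
    fderiv ℝ (fun a => fderiv ℝ (MM E G) (a, ch E (1 : G)) ((0 : E), v)) (ch E (1 : G)) u =
      BB E G u v := by
  have h1 : ContDiffAt ℝ 1 (fderiv ℝ (MM E G)) (ch E (1 : G), ch E (1 : G)) :=
    (MM_smooth (E := E) (G := G)).fderiv_right (m := 1)
      (WithTop.coe_le_coe.2 (le_top : (2 : ℕ∞) ≤ ⊤))
  have h2 : HasFDerivAt (fun z => fderiv ℝ (MM E G) z)
      (fderiv ℝ (fun z => fderiv ℝ (MM E G) z) (ch E (1 : G), ch E (1 : G)))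
      (ch E (1 : G), ch E (1 : G)) := (h1.differentiableAt (by simp)).hasFDerivAt
  have h3 : HasFDerivAt (fun a : E => fderiv ℝ (MM E G) (a, ch E (1 : G)))
      ((fderiv ℝ (fun z => fderiv ℝ (MM E G) z) (ch E (1 : G), ch E (1 : G))).comp
        (ContinuousLinearMap.inl ℝ E E)) (ch E (1 : G)) :=
    HasFDerivAt.comp (ch E (1 : G)) h2 (hasFDerivAt_prodMk_left (ch E (1 : G)) (ch E (1 : G)))
  have h4 := h3.clm_apply (hasFDerivAt_const ((0 : E), v) (ch E (1 : G)))
  rw [h4.fderiv]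
  simp [BB, D2]

set_option backward.isDefEq.respectTransparency false in
theorem lbr_eq_bracket (u v : GroupLieAlgebra 𝓘(ℝ, E) G) :
    (lbr E G u v : E) = (⁅u, v⁆ : GroupLieAlgebra 𝓘(ℝ, E) G) := by
  have : IsManifold 𝓘(ℝ, E) 1 G := IsManifold.of_le (n := ∞) (by exact_mod_cast le_top)
  have h1 : ⁅u, v⁆ = VectorField.mlieBracketWithin 𝓘(ℝ, E) (mulInvariantVectorField u)
      (mulInvariantVectorField v) Set.univ (1 : G) := by
    rw [GroupLieAlgebra.bracket_def, VectorField.mlieBracketWithin_univ]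
  rw [h1, VectorField.mlieBracketWithin_apply, mfderiv_extChartAt_self,
    ContinuousLinearMap.inverse_id]
  have h2 : ((extChartAt 𝓘(ℝ, E) (1 : G)).symm ⁻¹' Set.univ ∩ Set.range 𝓘(ℝ, E)) = Set.univ := by
    rw [Set.preimage_univ, ModelWithCorners.range_eq_univ, Set.univ_inter]
  rw [h2]
  have hU : (VectorField.mpullbackWithin 𝓘(ℝ, E) 𝓘(ℝ, E) (extChartAt 𝓘(ℝ, E) (1 : G)).symm
      (mulInvariantVectorField u) (Set.range 𝓘(ℝ, E)) : E → E) =ᶠ[𝓝 (ch E (1 : G))]
      fun a => fderiv ℝ (MM E G) (a, ch E (1 : G)) (0, (u : E)) := pull_eq (E := E) (G := G) u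
  have hV : (VectorField.mpullbackWithin 𝓘(ℝ, E) 𝓘(ℝ, E) (extChartAt 𝓘(ℝ, E) (1 : G)).symm
      (mulInvariantVectorField v) (Set.range 𝓘(ℝ, E)) : E → E) =ᶠ[𝓝 (ch E (1 : G))]
      fun a => fderiv ℝ (MM E G) (a, ch E (1 : G)) (0, (v : E)) := pull_eq (E := E) (G := G) v
  have h3 : VectorField.lieBracketWithin ℝ
      (VectorField.mpullbackWithin 𝓘(ℝ, E) 𝓘(ℝ, E) (extChartAt 𝓘(ℝ, E) (1 : G)).symm
        (mulInvariantVectorField u) (Set.range 𝓘(ℝ, E)) : E → E)
      (VectorField.mpullbackWithin 𝓘(ℝ, E) 𝓘(ℝ, E) (extChartAt 𝓘(ℝ, E) (1 : G)).symm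
        (mulInvariantVectorField v) (Set.range 𝓘(ℝ, E)) : E → E) Set.univ (ch E (1 : G)) =
      BB E G u v - BB E G v u := by
    rw [VectorField.lieBracketWithin_univ, VectorField.lieBracket_eq]
    change fderiv ℝ _ _ _ - fderiv ℝ _ _ _ = _
    rw [hV.fderiv_eq, hU.fderiv_eq, hU.eq_of_nhds, hV.eq_of_nhds, fderiv_MM, fderiv_MM, zero_add,
      zero_add, fderiv_pull, fderiv_pull]
  rw [lbr_eq_BB]
  exact h3.symm

end Pool.Agent.Helper60.LX
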