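import Pool.Agent.Helper60.LX.LieSmooth

/-!
# Project LX: second derivatives, the Maurer-Cartan equation

PROOFS. e = ch 1, M = MM E G. D2 f p X Y is the second derivative. D2_COMP: differentiate
q ↦ fderiv (f ∘ g) q Y = fderiv f (g q) (fderiv g q Y) (valid near p) at p. D2_SYMM: Mathlib,
ContDiffAt.isSymmSndFDerivAt (minSmoothness ℝ 2 = 2). BB u v = D2 M (e, e) (u, 0) (0, v).
D2_MM: M (a, e) = a near e, so D2 M (e,e) (u, 0) (u', 0) = 0 (restrict M to a ↦ (a, e): D2_COMP with an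
affine map), the same for (0, v), (0, v'); bilinearity and symmetry give
D2 M (e,e) (u, v) (u', v') = BB u v' + BB u' v.
LBR_EQ_BB: J a = ch ((ps a)⁻¹) is smooth at e with J e = e and derivative - id (M (a, J a) = e near e, FDERIV_MM).
Γ (a, c) = ch (ps a * ps c * (ps a)⁻¹) = M (M (a, c), J a) near (e, e). lAd (ps a) v =
fderiv Γ (a, e) (0, v) for a near e, so lbr u v = D2 Γ (e,e) (u, 0) (0, v). D2_COMP with
g (a, c) = (M (a, c), J a): Dg (u, 0) = (u, -u), Dg (0, v) = (v, 0), D2 g (u,0) (0,v) = (BB u v, 0) (the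
second component J a does not depend on c). So lbr u v = D2 M (u, -u) (v, 0) + (BB u v + 0) =
- BB v u + BB u v (D2_MM, FDERIV_MM).
LMC: for q near p let α q = x q * (x p)⁻¹, α p = 1, a q = ch (α q), smooth at p, a p = e, Da(p) = ldl x p =: ζ.
H (q, q') = ch (x q' * (x q)⁻¹) = ch (α q' * (α q)⁻¹) = M (a q', J (a q)) near (p, p). ldl x q Y =
fderiv H (q, q) (0, Y) for q near p, so D(ldl x)(p) X Y = D2 H (p,p) (X, X) (0, Y) = D2 H (X, 0) (0, Y) +
D2 H (0, X) (0, Y); the last term is symmetric in X, Y (D2_SYMM). D2_COMP with g (q, q') = (a q', J (a q)):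
Dg (X, 0) = (0, - ζ X), Dg (0, Y) = (ζ Y, 0), D2 g (X, 0) (0, Y) = 0: D2 H (X, 0) (0, Y) =
D2 M (0, - ζ X) (ζ Y, 0) = - BB (ζ Y) (ζ X). So the difference is - BB (ζ Y) (ζ X) + BB (ζ X) (ζ Y) =
lbr (ζ X) (ζ Y).
-/

open scoped ContDiff Topology Manifold
open Module

noncomputable section

namespace Pool.Agent.Helper60.LX

/-- The second derivative. -/
def D2 {E₁ E₂ : Type} [NormedAddCommGroup E₁] [NormedSpace ℝ E₁] [NormedAddCommGroup E₂]
    [NormedSpace ℝ E₂] (f : E₁ → E₂) (p : E₁) (X Y : E₁) : E₂ :=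
  fderiv ℝ (fun q => fderiv ℝ f q) p X Y

section aux

variable {E₁ E₂ E₃ : Type} [NormedAddCommGroup E₁] [NormedSpace ℝ E₁]
  [NormedAddCommGroup E₂] [NormedSpace ℝ E₂] [NormedAddCommGroup E₃] [NormedSpace ℝ E₃]

private theorem diffAt {f : E₁ → E₂} {p : E₁} (hf : ContDiffAt ℝ ∞ f p) :
    DifferentiableAt ℝ f p := hf.differentiableAt (by simp)

private theorem diff_near {f : E₁ → E₂} {p : E₁} (hf : ContDiffAt ℝ ∞ f p) :
    ∀ᶠ q in 𝓝 p, DifferentiableAt ℝ f q := by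
  have h1 : ContDiffAt ℝ 1 f p := hf.of_le (by exact_mod_cast le_top)
  filter_upwards [h1.eventually (by simp)] with q hq
  exact hq.differentiableAt (by simp)

private theorem diff_fderiv {f : E₁ → E₂} {p : E₁} (hf : ContDiffAt ℝ ∞ f p) :
    DifferentiableAt ℝ (fderiv ℝ f) p := by
  have h1 : ContDiffAt ℝ ∞ (fderiv ℝ f) p := hf.fderiv_right (m := ∞) le_rfl
  exact h1.differentiableAt (by simp)

private theorem D2_congr {f f' : E₁ → E₂} {p : E₁} (h : f =ᶠ[𝓝 p] f') (X Y : E₁) :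
    D2 f p X Y = D2 f' p X Y := by
  unfold D2
  rw [h.fderiv.fderiv_eq]

private theorem D2_add_left (f : E₁ → E₂) (p X X' Y : E₁) :
    D2 f p (X + X') Y = D2 f p X Y + D2 f p X' Y := by
  unfold D2
  rw [map_add]
  rfl

private theorem D2_add_right (f : E₁ → E₂) (p X Y Y' : E₁) :
    D2 f p X (Y + Y') = D2 f p X Y + D2 f p X Y' := by
  unfold D2
  rw [map_add]

private theorem D2_zero_left (f : E₁ → E₂) (p Y : E₁) : D2 f p 0 Y = 0 := by
  unfold D2
  rw [map_zero]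
  rfl

private theorem D2_zero_right (f : E₁ → E₂) (p X : E₁) : D2 f p X 0 = 0 := by
  unfold D2
  rw [map_zero]

/-- A map with constant derivative has no second derivative. -/
private theorem D2_const_fderiv {f : E₁ → E₂} {L : E₁ →L[ℝ] E₂} (h : ∀ q, HasFDerivAt f L q)
    (p X Y : E₁) : D2 f p X Y = 0 := by
  unfold D2
  have h1 : (fun q => fderiv ℝ f q) = fun _ => L := by
    funext q
    exact (h q).fderiv
  rw [h1, fderiv_fun_const]
  rfl

end aux

theorem D2_comp {E₁ E₂ E₃ : Type} [NormedAddCommGroup E₁] [NormedSpace ℝ E₁]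
    [NormedAddCommGroup E₂] [NormedSpace ℝ E₂] [NormedAddCommGroup E₃] [NormedSpace ℝ E₃]
    {f : E₂ → E₃} {g : E₁ → E₂} {p : E₁} (hf : ContDiffAt ℝ ∞ f (g p)) (hg : ContDiffAt ℝ ∞ g p)
    (X Y : E₁) : D2 (fun q => f (g q)) p X Y =
      D2 f (g p) (fderiv ℝ g p X) (fderiv ℝ g p Y) + fderiv ℝ f (g p) (D2 g p X Y) := by
  have h1 : (fun q => fderiv ℝ (fun q => f (g q)) q) =ᶠ[𝓝 p]
      (fun q => (fderiv ℝ f (g q)).comp (fderiv ℝ g q)) := by
    filter_upwards [hg.continuousAt.eventually (diff_near hf), diff_near hg] with q h2 h3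
    exact (h2.hasFDerivAt.comp q h3.hasFDerivAt).fderiv
  have h4 : HasFDerivAt (fun q => fderiv ℝ f (g q))
      ((fderiv ℝ (fderiv ℝ f) (g p)).comp (fderiv ℝ g p)) p :=
    (diff_fderiv hf).hasFDerivAt.comp p (diffAt hg).hasFDerivAt
  have h5 := h4.clm_comp (diff_fderiv hg).hasFDerivAt
  unfold D2
  rw [h1.fderiv_eq, h5.fderiv, add_comm]
  rfl

theorem D2_symm {E₁ E₂ : Type} [NormedAddCommGroup E₁] [NormedSpace ℝ E₁]
    [NormedAddCommGroup E₂] [NormedSpace ℝ E₂] {f : E₁ → E₂} {p : E₁}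
    (hf : ContDiffAt ℝ ∞ f p) (X Y : E₁) : D2 f p X Y = D2 f p Y X := by
  have h1 : IsSymmSndFDerivAt ℝ f p := hf.isSymmSndFDerivAt (by
    rw [minSmoothness_of_isRCLikeNormedField]
    exact WithTop.coe_le_coe.mpr le_top)
  exact h1 X Y

section aux2

variable {E₁ E₂ E₃ : Type} [NormedAddCommGroup E₁] [NormedSpace ℝ E₁]
  [NormedAddCommGroup E₂] [NormedSpace ℝ E₂] [NormedAddCommGroup E₃] [NormedSpace ℝ E₃]

private theorem D2_fst {h : E₁ → E₂ × E₃} {p : E₁} (hh : ContDiffAt ℝ ∞ h p) (X Y : E₁) :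
    (D2 h p X Y).1 = D2 (fun q => (h q).1) p X Y := by
  have h1 := D2_comp (f := (Prod.fst : E₂ × E₃ → E₂)) (g := h) (p := p) contDiffAt_fst hh X Y
  rw [h1, D2_const_fderiv (f := (Prod.fst : E₂ × E₃ → E₂)) (fun q => hasFDerivAt_fst), zero_add,
    fderiv_fst]
  rfl

private theorem D2_snd {h : E₁ → E₂ × E₃} {p : E₁} (hh : ContDiffAt ℝ ∞ h p) (X Y : E₁) :
    (D2 h p X Y).2 = D2 (fun q => (h q).2) p X Y := by
  have h1 := D2_comp (f := (Prod.snd : E₂ × E₃ → E₃)) (g := h) (p := p) contDiffAt_snd hh X Y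
  rw [h1, D2_const_fderiv (f := (Prod.snd : E₂ × E₃ → E₃)) (fun q => hasFDerivAt_snd), zero_add,
    fderiv_snd]
  rfl

private theorem D2_pair {f : E₁ → E₂} {g : E₁ → E₃} {p : E₁} (hf : ContDiffAt ℝ ∞ f p)
    (hg : ContDiffAt ℝ ∞ g p) (X Y : E₁) :
    D2 (fun q => (f q, g q)) p X Y = (D2 f p X Y, D2 g p X Y) := by
  have h1 : ContDiffAt ℝ ∞ (fun q => (f q, g q)) p := hf.prodMk hg
  exact Prod.ext (D2_fst h1 X Y) (D2_snd h1 X Y)

/-- A function of the first variable: derivatives. -/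
private theorem D2_left {f : E₁ → E₃} {p : E₁ × E₂} (hf : ContDiffAt ℝ ∞ f p.1)
    (X Y : E₁ × E₂) : D2 (fun z : E₁ × E₂ => f z.1) p X Y = D2 f p.1 X.1 Y.1 := by
  have h1 := D2_comp (f := f) (g := (Prod.fst : E₁ × E₂ → E₁)) (p := p) hf contDiffAt_fst X Y
  rw [h1, D2_const_fderiv (f := (Prod.fst : E₁ × E₂ → E₁)) (fun q => hasFDerivAt_fst), map_zero,
    add_zero, fderiv_fst]
  rfl

private theorem D2_right {f : E₂ → E₃} {p : E₁ × E₂} (hf : ContDiffAt ℝ ∞ f p.2)
    (X Y : E₁ × E₂) : D2 (fun z : E₁ × E₂ => f z.2) p X Y = D2 f p.2 X.2 Y.2 := by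
  have h1 := D2_comp (f := f) (g := (Prod.snd : E₁ × E₂ → E₂)) (p := p) hf contDiffAt_snd X Y
  rw [h1, D2_const_fderiv (f := (Prod.snd : E₁ × E₂ → E₂)) (fun q => hasFDerivAt_snd), map_zero,
    add_zero, fderiv_snd]
  rfl

private theorem fderiv_left {f : E₁ → E₃} {p : E₁ × E₂} (hf : DifferentiableAt ℝ f p.1)
    (X : E₁ × E₂) : fderiv ℝ (fun z : E₁ × E₂ => f z.1) p X = fderiv ℝ f p.1 X.1 := by
  have h1 : HasFDerivAt (fun z : E₁ × E₂ => f z.1)
      ((fderiv ℝ f p.1).comp (ContinuousLinearMap.fst ℝ E₁ E₂)) p :=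
    hf.hasFDerivAt.comp p hasFDerivAt_fst
  rw [h1.fderiv]
  rfl

private theorem fderiv_right' {f : E₂ → E₃} {p : E₁ × E₂} (hf : DifferentiableAt ℝ f p.2)
    (X : E₁ × E₂) : fderiv ℝ (fun z : E₁ × E₂ => f z.2) p X = fderiv ℝ f p.2 X.2 := by
  have h1 : HasFDerivAt (fun z : E₁ × E₂ => f z.2)
      ((fderiv ℝ f p.2).comp (ContinuousLinearMap.snd ℝ E₁ E₂)) p :=
    hf.hasFDerivAt.comp p hasFDerivAt_snd
  rw [h1.fderiv]
  rfl

private theorem fderiv_pair {f : E₁ → E₂} {g : E₁ → E₃} {p : E₁} (hf : DifferentiableAt ℝ f p)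
    (hg : DifferentiableAt ℝ g p) (X : E₁) :
    fderiv ℝ (fun q => (f q, g q)) p X = (fderiv ℝ f p X, fderiv ℝ g p X) := by
  rw [(hf.hasFDerivAt.prodMk hg.hasFDerivAt).fderiv]
  rfl

/-- Derivative of a derivative in the second variable. -/
private theorem fderiv_mixed {H : E₁ × E₂ → E₃} {s : E₁ → E₂} {p : E₁}
    (hH : ContDiffAt ℝ ∞ H (p, s p)) (hs : DifferentiableAt ℝ s p) (X : E₁) (Y : E₂) :
    fderiv ℝ (fun q => fderiv ℝ (fun r => H (q, r)) (s q)) p X Y =
      D2 H (p, s p) (X, fderiv ℝ s p X) (0, Y) := by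
  have hc : ContinuousAt (fun q => (q, s q)) p := continuousAt_id.prodMk hs.continuousAt
  have h1 : (fun q => fderiv ℝ (fun r => H (q, r)) (s q)) =ᶠ[𝓝 p]
      (fun q => (fderiv ℝ H (q, s q)).comp (ContinuousLinearMap.inr ℝ E₁ E₂)) := by
    filter_upwards [hc.eventually (diff_near hH)] with q hq
    exact (hq.hasFDerivAt.comp (s q) (hasFDerivAt_prodMk_right q (s q))).fderiv
  have h2 : HasFDerivAt (fun q => (q, s q))
      ((ContinuousLinearMap.id ℝ E₁).prod (fderiv ℝ s p)) p :=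
    (hasFDerivAt_id p).prodMk hs.hasFDerivAt
  have h3 : HasFDerivAt (fun q => fderiv ℝ H (q, s q))
      ((fderiv ℝ (fderiv ℝ H) (p, s p)).comp
        ((ContinuousLinearMap.id ℝ E₁).prod (fderiv ℝ s p))) p :=
    (diff_fderiv hH).hasFDerivAt.comp p h2
  have h4 := h3.clm_comp (hasFDerivAt_const (ContinuousLinearMap.inr ℝ E₁ E₂) p)
  rw [h1.fderiv_eq, h4.fderiv]
  simp [D2]

end aux2

variable {E : Type} [NormedAddCommGroup E] [NormedSpace ℝ E]
  {G : Type} [TopologicalSpace G] [ChartedSpace E G] [Group G]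
  {F : Type} [NormedAddCommGroup F] [NormedSpace ℝ F]

/-- The mixed second derivative of the product at `1`. -/
def BB (E : Type) [NormedAddCommGroup E] [NormedSpace ℝ E] (G : Type) [TopologicalSpace G]
    [ChartedSpace E G] [Group G] (u v : E) : E :=
  D2 (MM E G) (ch E (1 : G), ch E (1 : G)) (u, 0) (0, v)

private theorem BB_zero_left (v : E) : BB E G 0 v = 0 := by
  have h : ((0 : E), (0 : E)) = 0 := rfl
  rw [BB, h, D2_zero_left]

private theorem BB_zero_right (u : E) : BB E G u 0 = 0 := by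
  have h : ((0 : E), (0 : E)) = 0 := rfl
  rw [BB, h, D2_zero_right]

private theorem BB_neg_right (u v : E) : BB E G u (-v) = - BB E G u v := by
  have h : ((0 : E), -v) = -((0 : E), v) := by rw [Prod.neg_mk, neg_zero]
  unfold BB D2
  rw [h, map_neg]

private theorem MM_left : ∀ᶠ a in 𝓝 (ch E (1 : G)), MM E G (a, ch E (1 : G)) = a := by
  filter_upwards [ch_ps (E := E) (G := G)] with a ha
  show ch E (ps G a * ps G (ch E (1 : G))) = a
  rw [ps_ch_one, mul_one, ha]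

private theorem MM_right : ∀ᶠ a in 𝓝 (ch E (1 : G)), MM E G (ch E (1 : G), a) = a := by
  filter_upwards [ch_ps (E := E) (G := G)] with a ha
  show ch E (ps G (ch E (1 : G)) * ps G a) = a
  rw [ps_ch_one, one_mul, ha]

private theorem MM_one : MM E G (ch E (1 : G), ch E (1 : G)) = ch E (1 : G) := by
  show ch E (ps G (ch E (1 : G)) * ps G (ch E (1 : G))) = ch E (1 : G)
  rw [ps_ch_one, one_mul]

/-- The inverse in the chart. -/
private def JJ (E : Type) [NormedAddCommGroup E] [NormedSpace ℝ E] (G : Type) [TopologicalSpace G]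
    [ChartedSpace E G] [Group G] (a : E) : E := ch E ((ps G a)⁻¹)

private theorem JJ_one : JJ E G (ch E (1 : G)) = ch E (1 : G) := by
  show ch E ((ps G (ch E (1 : G)))⁻¹) = ch E (1 : G)
  rw [ps_ch_one, inv_one]

private theorem ps_ch_near {X : Type} [TopologicalSpace X] {z : X → G} {p : X}
    (hz : ContinuousAt z p) (h1 : z p = 1) :
    ∀ᶠ q in 𝓝 p, ps G (ch E (z q)) = z q := by
  have h2 : Filter.Tendsto z (𝓝 p) (𝓝 (1 : G)) := by
    rw [← h1]
    exact hz
  exact h2.eventually (ps_ch (E := E) (G := G))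

variable [LieGroup 𝓘(ℝ, E) ∞ G]

private theorem D2_MM_left (u u' : E) :
    D2 (MM E G) (ch E (1 : G), ch E (1 : G)) (u, 0) (u', 0) = 0 := by
  have hg : ∀ q : E, HasFDerivAt (fun a : E => (a, ch E (1 : G)))
      (ContinuousLinearMap.inl ℝ E E) q := fun q => hasFDerivAt_prodMk_left q _
  have h1 := D2_comp (f := MM E G) (g := fun a : E => (a, ch E (1 : G))) (p := ch E (1 : G))
    MM_smooth (contDiffAt_id.prodMk contDiffAt_const) u u'
  rw [D2_const_fderiv hg, map_zero, add_zero, (hg _).fderiv, D2_congr MM_left,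
    D2_const_fderiv (f := fun a : E => a) (fun q => hasFDerivAt_id q)] at h1
  exact h1.symm

private theorem D2_MM_right (v v' : E) :
    D2 (MM E G) (ch E (1 : G), ch E (1 : G)) (0, v) (0, v') = 0 := by
  have hg : ∀ q : E, HasFDerivAt (fun a : E => (ch E (1 : G), a))
      (ContinuousLinearMap.inr ℝ E E) q := fun q => hasFDerivAt_prodMk_right _ q
  have h1 := D2_comp (f := MM E G) (g := fun a : E => (ch E (1 : G), a)) (p := ch E (1 : G))
    MM_smooth (contDiffAt_const.prodMk contDiffAt_id) v v'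
  rw [D2_const_fderiv hg, map_zero, add_zero, (hg _).fderiv, D2_congr MM_right,
    D2_const_fderiv (f := fun a : E => a) (fun q => hasFDerivAt_id q)] at h1
  exact h1.symm

theorem D2_MM (u v u' v' : E) :
    D2 (MM E G) (ch E (1 : G), ch E (1 : G)) (u, v) (u', v') = BB E G u v' + BB E G u' v := by
  have h1 : (u, v) = (u, (0 : E)) + ((0 : E), v) := by
    rw [Prod.mk_add_mk, add_zero, zero_add]
  have h2 : (u', v') = (u', (0 : E)) + ((0 : E), v') := by
    rw [Prod.mk_add_mk, add_zero, zero_add]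
  rw [h1, h2, D2_add_left, D2_add_right, D2_add_right, D2_MM_left, D2_MM_right,
    D2_symm MM_smooth (0, v) (u', 0), zero_add, add_zero]
  rfl

private theorem ps_sm_one : lSm E (ps G) (ch E (1 : G)) := ps_sm.self_of_nhds

private theorem JJ_smooth : ContDiffAt ℝ ∞ (JJ E G) (ch E (1 : G)) :=
  ch_smooth (lSm_inv ps_sm_one) (by rw [ps_ch_one, inv_one])

private theorem fderiv_JJ (u : E) : fderiv ℝ (JJ E G) (ch E (1 : G)) u = -u := by
  have h1 : ∀ᶠ a in 𝓝 (ch E (1 : G)), MM E G (a, JJ E G a) = ch E (1 : G) := by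
    filter_upwards [ps_ch_near (E := E) (lSm.continuousAt (lSm_inv (ps_sm_one (E := E) (G := G))))
      (by rw [ps_ch_one, inv_one])] with a ha
    show ch E (ps G a * ps G (ch E ((ps G a)⁻¹))) = ch E (1 : G)
    rw [ha, mul_inv_cancel]
  have h2 : HasFDerivAt (fun a => (a, JJ E G a)) ((ContinuousLinearMap.id ℝ E).prod
      (fderiv ℝ (JJ E G) (ch E (1 : G)))) (ch E (1 : G)) :=
    (hasFDerivAt_id _).prodMk (diffAt JJ_smooth).hasFDerivAt
  have h3 : HasFDerivAt (MM E G) (fderiv ℝ (MM E G) (ch E (1 : G), ch E (1 : G)))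
      (ch E (1 : G), JJ E G (ch E (1 : G))) := by
    rw [JJ_one]
    exact (diffAt MM_smooth).hasFDerivAt
  have h4 := (HasFDerivAt.comp (g := MM E G) (f := fun a => (a, JJ E G a)) (ch E (1 : G))
    h3 h2).fderiv
  have h5 : fderiv ℝ (MM E G ∘ fun a => (a, JJ E G a)) (ch E (1 : G)) =
      fderiv ℝ (fun _ : E => ch E (1 : G)) (ch E (1 : G)) := Filter.EventuallyEq.fderiv_eq h1
  rw [h5, fderiv_fun_const] at h4
  have h6 := congrArg (fun L : E →L[ℝ] E => L u) h4
  have h7 : (0 : E) = fderiv ℝ (MM E G) (ch E (1 : G), ch E (1 : G))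
    (u, fderiv ℝ (JJ E G) (ch E (1 : G)) u) := h6
  rw [fderiv_MM] at h7
  exact (neg_eq_of_add_eq_zero_right h7.symm).symm

theorem lbr_eq_BB (u v : E) : lbr E G u v = BB E G u v - BB E G v u := by
  have hp1 : lSm E (fun z : E × E => ps G z.1) (ch E (1 : G), ch E (1 : G)) :=
    lSm_comp (x := ps G) (f := (Prod.fst : E × E → E)) ps_sm_one contDiffAt_fst
  have hp2 : lSm E (fun z : E × E => ps G z.2) (ch E (1 : G), ch E (1 : G)) :=
    lSm_comp (x := ps G) (f := (Prod.snd : E × E → E)) ps_sm_one contDiffAt_snd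
  have hH : ContDiffAt ℝ ∞ (fun z : E × E => ch E (ps G z.1 * ps G z.2 * (ps G z.1)⁻¹))
      (ch E (1 : G), ch E (1 : G)) :=
    ch_smooth (lSm_mul (lSm_mul hp1 hp2) (lSm_inv hp1)) (by simp [ps_ch_one])
  have h1 := fderiv_mixed (H := fun z : E × E => ch E (ps G z.1 * ps G z.2 * (ps G z.1)⁻¹))
    (s := fun _ : E => ch E (1 : G)) (p := ch E (1 : G)) hH (differentiableAt_const _) u v
  rw [fderiv_fun_const] at h1
  have h2 : lbr E G u v = D2 (fun z : E × E => ch E (ps G z.1 * ps G z.2 * (ps G z.1)⁻¹))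
      (ch E (1 : G), ch E (1 : G)) (u, 0) (0, v) := h1
  have h3 : (fun z : E × E => ch E (ps G z.1 * ps G z.2 * (ps G z.1)⁻¹))
      =ᶠ[𝓝 (ch E (1 : G), ch E (1 : G))] (fun z => MM E G (MM E G z, JJ E G z.1)) := by
    filter_upwards [ps_ch_near (E := E) (lSm.continuousAt (lSm_mul hp1 hp2))
      (by simp [ps_ch_one]), ps_ch_near (E := E) (lSm.continuousAt (lSm_inv hp1))
      (by simp [ps_ch_one])] with z hz1 hz2
    show ch E (ps G z.1 * ps G z.2 * (ps G z.1)⁻¹) =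
      ch E (ps G (ch E (ps G z.1 * ps G z.2)) * ps G (ch E ((ps G z.1)⁻¹)))
    rw [hz1, hz2]
  have hJ : ContDiffAt ℝ ∞ (fun z : E × E => JJ E G z.1) (ch E (1 : G), ch E (1 : G)) :=
    ContDiffAt.comp (g := JJ E G) (f := (Prod.fst : E × E → E)) _ JJ_smooth contDiffAt_fst
  have hg : ContDiffAt ℝ ∞ (fun z : E × E => (MM E G z, JJ E G z.1))
      (ch E (1 : G), ch E (1 : G)) := MM_smooth.prodMk hJ
  have hM : ContDiffAt ℝ ∞ (MM E G) (MM E G (ch E (1 : G), ch E (1 : G)),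
      JJ E G (ch E (1 : G))) := by
    rw [MM_one, JJ_one]
    exact MM_smooth
  have h4 := D2_comp (f := MM E G) (g := fun z : E × E => (MM E G z, JJ E G z.1))
    (p := (ch E (1 : G), ch E (1 : G))) hM hg (u, 0) (0, v)
  rw [fderiv_pair (diffAt MM_smooth) (diffAt hJ), fderiv_pair (diffAt MM_smooth) (diffAt hJ),
    D2_pair MM_smooth hJ, fderiv_left (diffAt JJ_smooth), fderiv_left (diffAt JJ_smooth),
    D2_left JJ_smooth, D2_zero_right, fderiv_MM, fderiv_MM, fderiv_JJ, map_zero, add_zero,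
    zero_add] at h4
  have h5 : D2 (fun z : E × E => MM E G (MM E G z, JJ E G z.1)) (ch E (1 : G), ch E (1 : G))
      (u, 0) (0, v) = BB E G u 0 + BB E G v (-u) + (BB E G u v + 0) := by
    rw [h4]
    show D2 (MM E G) (MM E G (ch E (1 : G), ch E (1 : G)), JJ E G (ch E (1 : G)))
      (u, -u) (v, 0) + fderiv ℝ (MM E G) (MM E G (ch E (1 : G), ch E (1 : G)),
      JJ E G (ch E (1 : G))) (D2 (MM E G) (ch E (1 : G), ch E (1 : G)) (u, 0) (0, v), 0) = _
    rw [MM_one, JJ_one, D2_MM, fderiv_MM]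
    rfl
  rw [h2, D2_congr h3, h5, BB_zero_right, BB_neg_right]
  abel

theorem lmc {x : F → G} {p : F} (hx : lSm E x p) (X Y : F) :
    fderiv ℝ (fun q => ldl E x q) p X Y - fderiv ℝ (fun q => ldl E x q) p Y X =
      lbr E G (ldl E x p X) (ldl E x p Y) := by
  have hx1 : lSm E (fun z : F × F => x z.1) (p, p) :=
    lSm_comp (x := x) (f := (Prod.fst : F × F → F)) hx contDiffAt_fst
  have hx2 : lSm E (fun z : F × F => x z.2) (p, p) :=
    lSm_comp (x := x) (f := (Prod.snd : F × F → F)) hx contDiffAt_snd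
  have hH : ContDiffAt ℝ ∞ (fun z : F × F => ch E (x z.2 * (x z.1)⁻¹)) (p, p) :=
    ch_smooth (lSm_mul hx2 (lSm_inv hx1)) (by simp)
  have hmix : ∀ X Y : F, fderiv ℝ (fun q => ldl E x q) p X Y =
      D2 (fun z : F × F => ch E (x z.2 * (x z.1)⁻¹)) (p, p) (X, X) (0, Y) := by
    intro X Y
    have h1 := fderiv_mixed (H := fun z : F × F => ch E (x z.2 * (x z.1)⁻¹))
      (s := fun q : F => q) (p := p) hH differentiableAt_id X Y
    rw [fderiv_fun_id] at h1
    exact h1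
  -- the map in the chart
  have ha : lSm E (fun q => x q * (x p)⁻¹) p := lSm_mul hx (lSm_const _ p)
  have ha1 : (fun q => x q * (x p)⁻¹) p = 1 := mul_inv_cancel _
  obtain ⟨a, hadef⟩ : ∃ a : F → E, a = fun q => ch E (x q * (x p)⁻¹) := ⟨_, rfl⟩
  have hasm : ContDiffAt ℝ ∞ a p := by
    rw [hadef]
    exact ch_smooth ha ha1
  have hap : a p = ch E (1 : G) := by
    rw [hadef]
    show ch E (x p * (x p)⁻¹) = ch E (1 : G)
    rw [mul_inv_cancel]
  have hda : ∀ X, fderiv ℝ a p X = ldl E x p X := by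
    intro X
    rw [hadef]
    rfl
  have hJsm : ContDiffAt ℝ ∞ (fun q => JJ E G (a q)) p := by
    have h1 : ContDiffAt ℝ ∞ (JJ E G) (a p) := by
      rw [hap]
      exact JJ_smooth
    exact ContDiffAt.comp (g := JJ E G) (f := a) p h1 hasm
  have hdJ : ∀ X, fderiv ℝ (fun q => JJ E G (a q)) p X = - ldl E x p X := by
    intro X
    have h1 : HasFDerivAt (JJ E G) (fderiv ℝ (JJ E G) (ch E (1 : G))) (a p) := by
      rw [hap]
      exact (diffAt JJ_smooth).hasFDerivAt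
    have h2 : HasFDerivAt (fun q => JJ E G (a q))
        ((fderiv ℝ (JJ E G) (ch E (1 : G))).comp (fderiv ℝ a p)) p :=
      h1.comp p (diffAt hasm).hasFDerivAt
    rw [h2.fderiv, ContinuousLinearMap.comp_apply, fderiv_JJ, hda]
  have hga : ContDiffAt ℝ ∞ (fun z : F × F => a z.2) (p, p) :=
    ContDiffAt.comp (g := a) (f := (Prod.snd : F × F → F)) _ hasm contDiffAt_snd
  have hgJ : ContDiffAt ℝ ∞ (fun z : F × F => JJ E G (a z.1)) (p, p) :=
    ContDiffAt.comp (g := fun q => JJ E G (a q)) (f := (Prod.fst : F × F → F)) _ hJsm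
      contDiffAt_fst
  have hM : ContDiffAt ℝ ∞ (MM E G) (a p, JJ E G (a p)) := by
    rw [hap, JJ_one]
    exact MM_smooth
  have hev : (fun z : F × F => ch E (x z.2 * (x z.1)⁻¹)) =ᶠ[𝓝 (p, p)]
      (fun z => MM E G (a z.2, JJ E G (a z.1))) := by
    have hc := ps_ch_near (E := E) (lSm.continuousAt ha) ha1
    have hc2 := ps_ch_near (E := E) (lSm.continuousAt (lSm_inv ha))
      (by show (x p * (x p)⁻¹)⁻¹ = 1; rw [mul_inv_cancel, inv_one])
    have ht1 : Filter.Tendsto (Prod.fst : F × F → F) (𝓝 (p, p)) (𝓝 p) :=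
      continuous_fst.tendsto (p, p)
    have ht2 : Filter.Tendsto (Prod.snd : F × F → F) (𝓝 (p, p)) (𝓝 p) :=
      continuous_snd.tendsto (p, p)
    filter_upwards [ht2.eventually hc, ht1.eventually hc, ht1.eventually hc2] with z h1 h2 h3
    show ch E (x z.2 * (x z.1)⁻¹) = ch E (ps G (a z.2) * ps G (ch E ((ps G (a z.1))⁻¹)))
    rw [hadef]
    show ch E (x z.2 * (x z.1)⁻¹) = ch E (ps G (ch E (x z.2 * (x p)⁻¹)) *
      ps G (ch E ((ps G (ch E (x z.1 * (x p)⁻¹)))⁻¹)))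
    rw [h1, h2, h3]
    congr 1
    group
  have key : ∀ X Y : F, D2 (fun z : F × F => ch E (x z.2 * (x z.1)⁻¹)) (p, p) (X, 0) (0, Y) =
      - BB E G (ldl E x p Y) (ldl E x p X) := by
    intro X Y
    have h4 := D2_comp (f := MM E G) (g := fun z : F × F => (a z.2, JJ E G (a z.1)))
      (p := (p, p)) hM (hga.prodMk hgJ) (X, 0) (0, Y)
    have g1 : fderiv ℝ (fun z : F × F => (a z.2, JJ E G (a z.1))) (p, p) (X, 0) =
        (0, - ldl E x p X) := by
      rw [fderiv_pair (diffAt hga) (diffAt hgJ), fderiv_right' (diffAt hasm),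
        fderiv_left (f := fun q => JJ E G (a q)) (diffAt hJsm)]
      exact Prod.ext (map_zero _) (hdJ X)
    have g2 : fderiv ℝ (fun z : F × F => (a z.2, JJ E G (a z.1))) (p, p) (0, Y) =
        (ldl E x p Y, 0) := by
      rw [fderiv_pair (diffAt hga) (diffAt hgJ), fderiv_right' (diffAt hasm),
        fderiv_left (f := fun q => JJ E G (a q)) (diffAt hJsm)]
      exact Prod.ext (hda Y) (map_zero _)
    have g3 : D2 (fun z : F × F => (a z.2, JJ E G (a z.1))) (p, p) (X, 0) (0, Y) =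
        (0, 0) := by
      rw [D2_pair hga hgJ, D2_right hasm, D2_left (f := fun q => JJ E G (a q)) hJsm]
      exact Prod.ext (D2_zero_left _ _ _) (D2_zero_right _ _ _)
    rw [g1, g2, g3] at h4
    rw [D2_congr hev, h4]
    show D2 (MM E G) (a p, JJ E G (a p)) (0, - ldl E x p X) (ldl E x p Y, 0) +
      fderiv ℝ (MM E G) (a p, JJ E G (a p)) (0, 0) = _
    rw [hap, JJ_one, D2_MM, fderiv_MM, BB_zero_left, BB_neg_right, zero_add, add_zero, add_zero]
  have hsplit : ∀ X Y : F, D2 (fun z : F × F => ch E (x z.2 * (x z.1)⁻¹)) (p, p) (X, X) (0, Y) =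
      D2 (fun z : F × F => ch E (x z.2 * (x z.1)⁻¹)) (p, p) (X, 0) (0, Y) +
      D2 (fun z : F × F => ch E (x z.2 * (x z.1)⁻¹)) (p, p) (0, X) (0, Y) := by
    intro X Y
    rw [← D2_add_left, Prod.mk_add_mk, add_zero, zero_add]
  rw [hmix, hmix, hsplit, hsplit, key, key, D2_symm hH (0, X) (0, Y), lbr_eq_BB]
  abel

end Pool.Agent.Helper60.LX
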