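import Pool.Agent.Helper60.LX.LieAd
import Pool.Agent.Helper60.LX.LieMC

/-!
# Project LX: the calculus of a Lie group
-/

open scoped ContDiff Topology Manifold
open Module

noncomputable section

namespace Pool.Agent.Helper60.LX

/-- The calculus of a Lie group. -/
def lieCalc (E : Type) [NormedAddCommGroup E] [NormedSpace ℝ E] (G : Type) [TopologicalSpace G]
    [ChartedSpace E G] [Group G] [LieGroup 𝓘(ℝ, E) ∞ G] : Calc G E where
  br := lbr E G
  br_self u := by rw [lbr_eq_BB, sub_self]
  jacobi := lbr_jacobi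
  Ad := lAd E
  Ad_one := lAd_one
  Ad_mul := lAd_mul
  Ad_br := lAd_br
  Sm := fun x p => lSm E x p
  dl := fun x p => ldl E x p
  sm_const := lSm_const
  sm_mul := lSm_mul
  sm_inv := lSm_inv
  sm_comp := lSm_comp
  dl_const := ldl_const
  dl_mul := ldl_mul
  dl_comp := ldl_comp
  dl_smooth := ldl_smooth
  mc := lmc
  ad_smooth := lAd_smooth
  ad_deriv := lAd_deriv
  κ := ch E
  κ_smooth := ch_smooth
  κ_eq := ch_eq
  κ_ker := ch_ker
  ex := fun a => ps G (a + ch E (1 : G))
  ex_zero := by rw [zero_add]; exact ps_ch_one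
  ex_sm := ex_sm'
  ex_dl := ex_dl'

end Pool.Agent.Helper60.LX
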