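import Pool.Agent.Helper60.LX.Induct
import Pool.Agent.Helper60.LX.LieCalc

/-!
# Project LX: triples with the triple product property
-/

open scoped ContDiff Topology Manifold
open Module

noncomputable section

namespace Pool.Agent.Helper60.LX

/-- The system of three parametrised submanifolds. -/
def tppSys {G : Type} [Group G] {E : Type} [NormedAddCommGroup E] [NormedSpace ℝ E] (C : Calc G E)
    {V0 V1 V2 : Type} [NormedAddCommGroup V0] [NormedSpace ℝ V0] [NormedAddCommGroup V1]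
    [NormedSpace ℝ V1] [NormedAddCommGroup V2] [NormedSpace ℝ V2]
    {U0 : Set V0} {U1 : Set V1} {U2 : Set V2} (o0 : IsOpen U0) (o1 : IsOpen U1) (o2 : IsOpen U2)
    (n0 : U0.Nonempty) (n1 : U1.Nonempty) (n2 : U2.Nonempty)
    {x0 : V0 → G} {x1 : V1 → G} {x2 : V2 → G}
    (s0 : ∀ p ∈ U0, C.Sm x0 p) (s1 : ∀ p ∈ U1, C.Sm x1 p) (s2 : ∀ p ∈ U2, C.Sm x2 p)
    (i0 : Set.InjOn x0 U0) (i1 : Set.InjOn x1 U1) (i2 : Set.InjOn x2 U2)
    (tpp : ∀ p ∈ U0, ∀ p' ∈ U0, ∀ q ∈ U1, ∀ q' ∈ U1, ∀ r ∈ U2, ∀ r' ∈ U2,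
      x0 p * (x0 p')⁻¹ * (x1 q * (x1 q')⁻¹) * (x2 r * (x2 r')⁻¹) = 1 →
        x0 p = x0 p' ∧ x1 q = x1 q' ∧ x2 r = x2 r') :
    Sys C ⊤ (V0 × V1 × V2) (V0 × V1 × V2) where
  U := U0 ×ˢ U1 ×ˢ U2
  isOpen := o0.prod (o1.prod o2)
  nonempty := n0.prod (n1.prod n2)
  x := ![fun z => x0 z.1, fun z => x1 z.2.1, fun z => x2 z.2.2]
  m := ![fun z => (z.1, 0, 0), fun z => (0, z.2.1, 0), fun z => (0, 0, z.2.2)]
  lam := fun _ => 0
  sm := by
    rintro i ⟨p, q, r⟩ ⟨hp, hq, hr⟩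
    fin_cases i
    · exact C.sm_comp (x := x0) (f := fun z : V0 × V1 × V2 => z.1) (s0 p hp) contDiffAt_fst
    · exact C.sm_comp (x := x1) (f := fun z : V0 × V1 × V2 => z.2.1) (s1 q hq)
        (contDiffAt_fst.comp _ contDiffAt_snd)
    · exact C.sm_comp (x := x2) (f := fun z : V0 × V1 × V2 => z.2.2) (s2 r hr)
        (contDiffAt_snd.comp _ contDiffAt_snd)
  msm := by
    rintro i p hp
    fin_cases i
    · exact contDiffAt_fst.prodMk contDiffAt_const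
    · exact contDiffAt_const.prodMk
        ((contDiffAt_fst.comp _ contDiffAt_snd).prodMk contDiffAt_const)
    · exact contDiffAt_const.prodMk
        (contDiffAt_const.prodMk (contDiffAt_snd.comp _ contDiffAt_snd))
  lsm := fun _ _ => contDiffAt_const
  tpp := by
    rintro ⟨p, q, r⟩ ⟨hp, hq, hr⟩ ⟨p', q', r'⟩ ⟨hp', hq', hr'⟩ ⟨p'', q'', r''⟩ ⟨hp'', hq'', hr''⟩ h
    obtain ⟨h0, h1, h2⟩ := tpp p hp p' hp' q' hq' q'' hq'' r'' hr'' r hr h
    have e0 : p = p' := i0 hp hp' h0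
    have e1 : q' = q'' := i1 hq' hq'' h1
    have e2 : r'' = r := i2 hr'' hr h2
    subst e0 e1 e2
    exact ⟨rfl, rfl, rfl⟩
  val := fun _ _ _ _ => Submodule.mem_top
  ad := fun _ _ _ _ _ => Submodule.mem_top
  perp := fun _ _ _ _ => by simp
  imm := by
    intro z hz X hX
    have h0 := hX 0
    have h1 := hX 1
    have h2 := hX 2
    have d0 : HasFDerivAt (fun z : V0 × V1 × V2 => ((z.1, 0, 0) : V0 × V1 × V2))
        ((ContinuousLinearMap.fst ℝ V0 (V1 × V2)).prod 0) z :=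
      hasFDerivAt_fst.prodMk (hasFDerivAt_const _ _)
    have d1 : HasFDerivAt (fun z : V0 × V1 × V2 => ((0, z.2.1, 0) : V0 × V1 × V2))
        ((0 : V0 × V1 × V2 →L[ℝ] V0).prod
          (((ContinuousLinearMap.fst ℝ V1 V2).comp (ContinuousLinearMap.snd ℝ V0 (V1 × V2))).prod
            0)) z :=
      (hasFDerivAt_const _ _).prodMk ((hasFDerivAt_fst.comp z hasFDerivAt_snd).prodMk
        (hasFDerivAt_const _ _))
    have d2 : HasFDerivAt (fun z : V0 × V1 × V2 => ((0, 0, z.2.2) : V0 × V1 × V2))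
        ((0 : V0 × V1 × V2 →L[ℝ] V0).prod
          ((0 : V0 × V1 × V2 →L[ℝ] V1).prod
          ((ContinuousLinearMap.snd ℝ V1 V2).comp (ContinuousLinearMap.snd ℝ V0 (V1 × V2))))) z :=
      (hasFDerivAt_const _ _).prodMk ((hasFDerivAt_const _ _).prodMk
        (hasFDerivAt_snd.comp z hasFDerivAt_snd))
    have h0' : fderiv ℝ (fun z : V0 × V1 × V2 => ((z.1, 0, 0) : V0 × V1 × V2)) z X = 0 := h0
    have h1' : fderiv ℝ (fun z : V0 × V1 × V2 => ((0, z.2.1, 0) : V0 × V1 × V2)) z X = 0 := h1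
    have h2' : fderiv ℝ (fun z : V0 × V1 × V2 => ((0, 0, z.2.2) : V0 × V1 × V2)) z X = 0 := h2
    rw [d0.fderiv] at h0'
    rw [d1.fderiv] at h1'
    rw [d2.fderiv] at h2'
    have hX0 : X = 0 := by
      refine Prod.ext ?_ (Prod.ext ?_ ?_)
      · simpa using congrArg Prod.fst h0'
      · simpa using congrArg (fun w => w.2.1) h1'
      · simpa using congrArg (fun w => w.2.2) h2'
    refine ⟨fun i => by rw [hX0, map_zero], fun _ => hX0⟩

theorem tpp_bound {E : Type} [NormedAddCommGroup E] [NormedSpace ℝ E] [FiniteDimensional ℝ E]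
    {G : Type} [TopologicalSpace G] [ChartedSpace E G] [Group G] [LieGroup 𝓘(ℝ, E) ∞ G]
    {s : ℕ} (hs : ∀ μ : E →L[ℝ] ℝ, rk (lbr E G) ⊤ μ ≤ s)
    {V0 V1 V2 : Type} [NormedAddCommGroup V0] [NormedSpace ℝ V0] [NormedAddCommGroup V1]
    [NormedSpace ℝ V1] [NormedAddCommGroup V2] [NormedSpace ℝ V2] [FiniteDimensional ℝ V0]
    [FiniteDimensional ℝ V1] [FiniteDimensional ℝ V2]
    {U0 : Set V0} {U1 : Set V1} {U2 : Set V2} (o0 : IsOpen U0) (o1 : IsOpen U1) (o2 : IsOpen U2)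
    (n0 : U0.Nonempty) (n1 : U1.Nonempty) (n2 : U2.Nonempty)
    {x0 : V0 → G} {x1 : V1 → G} {x2 : V2 → G}
    (s0 : ∀ p ∈ U0, lSm E x0 p) (s1 : ∀ p ∈ U1, lSm E x1 p) (s2 : ∀ p ∈ U2, lSm E x2 p)
    (i0 : Set.InjOn x0 U0) (i1 : Set.InjOn x1 U1) (i2 : Set.InjOn x2 U2)
    (tpp : ∀ p ∈ U0, ∀ p' ∈ U0, ∀ q ∈ U1, ∀ q' ∈ U1, ∀ r ∈ U2, ∀ r' ∈ U2,
      x0 p * (x0 p')⁻¹ * (x1 q * (x1 q')⁻¹) * (x2 r * (x2 r')⁻¹) = 1 →
        x0 p = x0 p' ∧ x1 q = x1 q' ∧ x2 r = x2 r') :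
    finrank ℝ V0 + finrank ℝ V1 + finrank ℝ V2 ≤ finrank ℝ E ∨
      2 * (finrank ℝ V0 + finrank ℝ V1 + finrank ℝ V2 + 1) ≤ 2 * finrank ℝ E + s := by
  have h := top_bound (C := lieCalc E G) hs
    (tppSys (lieCalc E G) o0 o1 o2 n0 n1 n2 s0 s1 s2 i0 i1 i2 tpp) (fun _ _ => rfl)
  rw [Module.finrank_prod, Module.finrank_prod, ← add_assoc] at h
  exact h

end Pool.Agent.Helper60.LX
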