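import Pool.Agent.Helper60.LX.Defs
import Pool.Agent.Helper60.LX.Top
import Pool.Agent.Helper60.LX.LieBr

/-!
# Project LX: the bound for triples
-/

set_option autoImplicit false

open Set Filter Topology Manifold Module
open scoped Manifold ContDiff

noncomputable section

namespace Pool.Agent.Helper60.LX

/-- The identification of the Lie algebra with the model space. -/
def iota (K : RealLieGroup) : K.lieAlg ≃ₗ[ℝ] K.E := LinearEquiv.refl ℝ K.E

theorem iota_br (K : RealLieGroup) (u v : K.lieAlg) :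
    iota K ⁅u, v⁆ = (lieCalc K.E K.G).br (iota K u) (iota K v) :=
  (lbr_eq_bracket u v).symm

theorem rk_eq (K : RealLieGroup) (μ : K.E →L[ℝ] ℝ) :
    rk (lieCalc K.E K.G).br ⊤ μ +
      finrank ℝ (stab K ((μ : K.E →ₗ[ℝ] ℝ) ∘ₗ (iota K : K.lieAlg →ₗ[ℝ] K.E))) = K.dim := by
  have h1 := LinearMap.finrank_range_add_finrank_ker (form (lieCalc K.E K.G).br ⊤ μ)
  rw [finrank_top] at h1
  unfold rk RealLieGroup.dim
  rw [← h1]
  congr 1
  let e : (⊤ : Submodule ℝ K.E) ≃ₗ[ℝ] K.lieAlg := Submodule.topEquiv.trans (iota K).symm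
  have hmap : (LinearMap.ker (form (lieCalc K.E K.G).br ⊤ μ)).map
      (e : (⊤ : Submodule ℝ K.E) →ₗ[ℝ] K.lieAlg) =
      stab K ((μ : K.E →ₗ[ℝ] ℝ) ∘ₗ (iota K : K.lieAlg →ₗ[ℝ] K.E)) := by
    ext y
    constructor
    · rintro ⟨u, hu, rfl⟩ v
      have h2 := LinearMap.congr_fun (LinearMap.mem_ker.1 hu) ⟨iota K v, Submodule.mem_top⟩
      have h3 : μ ((lieCalc K.E K.G).br (u : K.E) (iota K v)) = 0 := h2
      have h4 := iota_br K (e u) v
      change μ (iota K ⁅e u, v⁆) = 0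
      rw [h4]
      exact h3
    · intro hy
      refine ⟨⟨iota K y, Submodule.mem_top⟩, ?_, rfl⟩
      rw [SetLike.mem_coe, LinearMap.mem_ker]
      ext v
      have h2 := hy ((iota K).symm v)
      have h3 : μ (iota K ⁅y, (iota K).symm v⁆) = 0 := h2
      rw [iota_br] at h3
      exact h3
  rw [← hmap]
  exact (LinearEquiv.finrank_map_eq e _)

theorem index_le (K : RealLieGroup) (φ : Module.Dual ℝ K.lieAlg) :
    K.index ≤ finrank ℝ (stab K φ) := Nat.sInf_le ⟨φ, rfl⟩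

theorem rk_le (K : RealLieGroup) (μ : K.E →L[ℝ] ℝ) :
    rk (lbr K.E K.G) ⊤ μ ≤ K.dim - K.index := by
  have h1 := rk_eq K μ
  have h2 := index_le K ((μ : K.E →ₗ[ℝ] ℝ) ∘ₗ (iota K : K.lieAlg →ₗ[ℝ] K.E))
  have h3 : rk (lbr K.E K.G) ⊤ μ = rk (lieCalc K.E K.G).br ⊤ μ := rfl
  omega

theorem index_le_dim (K : RealLieGroup) : K.index ≤ K.dim := by
  have h1 := rk_eq K 0
  have h2 := index_le K (((0 : K.E →L[ℝ] ℝ) : K.E →ₗ[ℝ] ℝ) ∘ₗ (iota K : K.lieAlg →ₗ[ℝ] K.E))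
  omega

/-- A submanifold has a smooth injective parametrisation of an open piece. -/
theorem exists_param {K : RealLieGroup} {m : ℕ} {X : Set K.G} (h : IsSubmanifold K m X) :
    ∃ (U : Set (EuclideanSpace ℝ (Fin m))) (x : EuclideanSpace ℝ (Fin m) → K.G),
      IsOpen U ∧ U.Nonempty ∧ (∀ p ∈ U, lSm K.E x p) ∧ Set.InjOn x U ∧ ∀ p, x p ∈ X := by
  obtain ⟨M, _, _, _, f, ⟨c⟩, hf, rfl⟩ := h
  refine ⟨(extChartAt (𝓡 m) c).target, fun p => f ((extChartAt (𝓡 m) c).symm p),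
    isOpen_extChartAt_target c, ⟨_, mem_extChartAt_target c⟩, ?_, ?_, fun p => ⟨_, rfl⟩⟩
  · intro p hp
    have h1 : ContMDiffAt 𝓘(ℝ, EuclideanSpace ℝ (Fin m)) (𝓡 m) ∞ (extChartAt (𝓡 m) c).symm p :=
      (contMDiffOn_extChartAt_symm c).contMDiffAt
        ((isOpen_extChartAt_target c).mem_nhds hp)
    exact (hf.contMDiff.contMDiffAt).comp p h1
  · intro p hp q hq hpq
    exact (extChartAt (𝓡 m) c).symm.injOn hp hq (hf.isEmbedding.injective hpq)

theorem main_ineq (K : RealLieGroup) {m₁ m₂ m₃ : ℕ} {M₁ M₂ M₃ : Set K.G}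
    (h₁ : IsSubmanifold K m₁ M₁) (h₂ : IsSubmanifold K m₂ M₂) (h₃ : IsSubmanifold K m₃ M₃)
    (hT : TripleProductProperty M₁ M₂ M₃) :
    m₁ + m₂ + m₃ ≤ K.dim ∨ 2 * (m₁ + m₂ + m₃) + K.index + 2 ≤ 3 * K.dim := by
  obtain ⟨U0, x0, o0, n0, s0, i0, r0⟩ := exists_param h₁
  obtain ⟨U1, x1, o1, n1, s1, i1, r1⟩ := exists_param h₂
  obtain ⟨U2, x2, o2, n2, s2, i2, r2⟩ := exists_param h₃
  have h := tpp_bound (rk_le K) o0 o1 o2 n0 n1 n2 s0 s1 s2 i0 i1 i2
    (fun p _ p' _ q _ q' _ r _ r' _ he => by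
      obtain ⟨a, b, c⟩ := hT _ ⟨x0 p, r0 p, x0 p', r0 p', rfl⟩ _ ⟨x1 q, r1 q, x1 q', r1 q', rfl⟩ _
        ⟨x2 r, r2 r, x2 r', r2 r', rfl⟩ he
      exact ⟨mul_inv_eq_one.1 a, mul_inv_eq_one.1 b, mul_inv_eq_one.1 c⟩)
  simp only [finrank_euclideanSpace_fin] at h
  have h4 := index_le_dim K
  unfold RealLieGroup.dim at *
  omega

theorem index_add_two_le (K : RealLieGroup) (hK : IsNonabelian K) : K.index + 2 ≤ K.dim := by
  obtain ⟨u, v, huv⟩ := hK
  have _ : FiniteDimensional ℝ K.lieAlg := inferInstanceAs (FiniteDimensional ℝ K.E)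
  obtain ⟨φ, hφ⟩ : ∃ φ : Module.Dual ℝ K.lieAlg, φ ⁅u, v⁆ ≠ 0 := by
    by_contra h
    push Not at h
    exact huv ((Module.forall_dual_apply_eq_zero_iff ℝ _).1 h)
  have h1 := index_le K φ
  -- `u`, `v` are independent modulo the stabiliser
  have hvu : φ ⁅v, u⁆ ≠ 0 := by
    rw [← lie_skew, map_neg]
    exact neg_ne_zero.2 hφ
  have h2 : LinearIndependent ℝ ![(stab K φ).mkQ u, (stab K φ).mkQ v] := by
    rw [LinearIndependent.pair_iff]
    intro a b hab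
    rw [← map_smul, ← map_smul, ← map_add, Submodule.mkQ_apply,
      Submodule.Quotient.mk_eq_zero] at hab
    have h3 := hab u
    have h4 := hab v
    rw [add_lie, smul_lie, smul_lie, lie_self, smul_zero, zero_add, map_smul, smul_eq_mul] at h3
    rw [add_lie, smul_lie, smul_lie, lie_self, smul_zero, add_zero, map_smul, smul_eq_mul] at h4
    exact ⟨(mul_eq_zero.1 h4).resolve_right hφ, (mul_eq_zero.1 h3).resolve_right hvu⟩
  have h3 := h2.fintype_card_le_finrank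
  rw [Fintype.card_fin] at h3
  have h4 := Submodule.finrank_quotient_add_finrank (stab K φ)
  have h5 : finrank ℝ K.lieAlg = K.dim := rfl
  omega

/-- For a nonabelian Lie group the second alternative always holds. -/
theorem main_ineq' (K : RealLieGroup) (hK : IsNonabelian K) {m₁ m₂ m₃ : ℕ} {M₁ M₂ M₃ : Set K.G}
    (h₁ : IsSubmanifold K m₁ M₁) (h₂ : IsSubmanifold K m₂ M₂) (h₃ : IsSubmanifold K m₃ M₃)
    (hT : TripleProductProperty M₁ M₂ M₃) :
    2 * (m₁ + m₂ + m₃) + K.index + 2 ≤ 3 * K.dim := by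
  have h := main_ineq K h₁ h₂ h₃ hT
  have h' := index_add_two_le K hK
  omega

end Pool.Agent.Helper60.LX
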