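import Pool.Agent.Helper60.LX.Calc

/-!
# Project LX: the rank of ad z

PROOFS. OPEN_KER: Φ : E × Hs → E, Φ (a, w) = Ad (ex a) (w + h0), C^∞ at (0, 0) (C.ad_smooth, C.ex_sm,
C.sm_comp with Prod.fst), Φ (0, 0) = h0 (ex_zero, Ad_one), derivative (u, w) ↦ br u h0 + w (C.ad_deriv,
C.ex_dl). It is onto: the map E → E ⧸ Hs, u ↦ br u h0 has kernel Hs (br u h0 = - br h0 u; hreg, habel), so
its rank is dim E - dim Hs = dim (E ⧸ Hs). ContDiffAt.hasStrictFDerivAt and
HasStrictFDerivAt.map_nhds_eq_of_surj: the range of Φ is a neighbourhood of h0; let O be its interior. For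
z = Ad g (w + h0), w ∈ Hs, g = ex a: br z (Ad g w') = Ad g (br (w + h0) w') = 0 for w' ∈ Hs; Ad g is
injective (Ad g⁻¹ Ad g = id), so finrank (ker (br z)) ≥ finrank Hs.
RANK_LE_OF_OPEN: let z0 ∈ O and z arbitrary, B = A (z - z0): A (z0 + t (z - z0)) = A z0 + t B. If
rank (A z) ≥ k + 1, choose vectors v_j and functionals φ_i (k + 1 of each) with det (φ_i (A z v_j)) ≠ 0. The
polynomial t ↦ det (φ_i ((A z0 + t B) v_j)) is nonzero (at t = 1), so it has finitely many zeros, but it
vanishes for all small t (z0 + t (z - z0) ∈ O): contradiction. (Or use lower semicontinuity and any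
analytic continuation argument.)
-/

open scoped ContDiff Topology
open Module

noncomputable section

namespace Pool.Agent.Helper60.LX

variable {G : Type} [Group G] {E : Type} [NormedAddCommGroup E] [NormedSpace ℝ E]
  [FiniteDimensional ℝ E]

theorem open_ker (C : Calc G E) (Hs : Submodule ℝ E) (habel : ∀ u ∈ Hs, ∀ v ∈ Hs, C.br u v = 0)
    {h0 : E} (h0H : h0 ∈ Hs) (hreg : ∀ w, C.br h0 w ∈ Hs → w ∈ Hs) :
    ∃ O : Set E, IsOpen O ∧ O.Nonempty ∧
      ∀ z ∈ O, finrank ℝ Hs ≤ finrank ℝ (LinearMap.ker (C.br z : E →ₗ[ℝ] E)) := by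
  have hanti : ∀ u v, C.br u v = - C.br v u := by
    intro u v
    have h := C.br_self (u + v)
    simp only [map_add, ContinuousLinearMap.add_apply, C.br_self, zero_add, add_zero] at h
    exact eq_neg_of_add_eq_zero_right h
  -- the map u ↦ br u h0 modulo Hs
  let T : E →ₗ[ℝ] E ⧸ Hs := Hs.mkQ ∘ₗ ((C.br.flip h0 : E →L[ℝ] E) : E →ₗ[ℝ] E)
  have hTker : LinearMap.ker T = Hs := by
    ext u
    rw [LinearMap.mem_ker]
    show Hs.mkQ (C.br u h0) = 0 ↔ _
    rw [Submodule.mkQ_apply, Submodule.Quotient.mk_eq_zero]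
    constructor
    · intro h
      apply hreg
      rw [hanti]
      exact Hs.neg_mem h
    · intro h
      rw [habel u h h0 h0H]
      exact Hs.zero_mem
  have hTsurj : LinearMap.range T = ⊤ := by
    apply Submodule.eq_top_of_finrank_eq
    have h1 := LinearMap.finrank_range_add_finrank_ker T
    rw [hTker] at h1
    have h2 := Submodule.finrank_quotient_add_finrank Hs
    omega
  have hsurj : ∀ e : E, ∃ u : E, ∃ w : Hs, C.br u h0 + (w : E) = e := by
    intro e
    have h1 : Hs.mkQ e ∈ LinearMap.range T := by rw [hTsurj]; trivial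
    obtain ⟨u, hu⟩ := h1
    have h2 : Hs.mkQ (C.br u h0) = Hs.mkQ e := hu
    rw [Submodule.mkQ_apply, Submodule.mkQ_apply, Submodule.Quotient.eq] at h2
    refine ⟨u, ⟨e - C.br u h0, ?_⟩, ?_⟩
    · have := Hs.neg_mem h2
      rwa [neg_sub] at this
    · show C.br u h0 + (e - C.br u h0) = e
      abel
  let xx : E × Hs → G := fun q => C.ex q.1
  let ff : E × Hs → E := fun q => (q.2 : E) + h0
  have hfst : ContDiffAt ℝ ∞ (Prod.fst : E × Hs → E) (0, 0) := contDiffAt_fst
  have hxs : C.Sm xx (0, 0) := C.sm_comp (f := Prod.fst) (p := ((0, 0) : E × Hs)) C.ex_sm hfst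
  have hAd : ContDiffAt ℝ ∞ (fun q => C.Ad (xx q)) (0, 0) := C.ad_smooth hxs
  let L2 : E × Hs →L[ℝ] E := Hs.subtypeL.comp (ContinuousLinearMap.snd ℝ E Hs)
  have hff' : ff = fun q => L2 q + h0 := rfl
  have hff : ContDiffAt ℝ ∞ ff (0, 0) := by
    rw [hff']
    exact (L2.contDiff.contDiffAt).add contDiffAt_const
  let Φ : E × Hs → E := fun q => C.Ad (xx q) (ff q)
  have hΦ : ContDiffAt ℝ ∞ Φ (0, 0) := hAd.clm_apply hff
  have hx0 : xx (0, 0) = 1 := C.ex_zero
  have hΦ0 : Φ (0, 0) = h0 := by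
    show C.Ad (xx (0, 0)) (ff (0, 0)) = h0
    rw [hx0, C.Ad_one]
    show ((0 : Hs) : E) + h0 = h0
    simp
  have hdl : C.dl xx (0, 0) = ContinuousLinearMap.fst ℝ E Hs := by
    have h1 := C.dl_comp (x := C.ex) (f := Prod.fst) (p := ((0, 0) : E × Hs)) C.ex_sm hfst
    have h2 : C.dl xx (0, 0) = (C.dl C.ex 0).comp (fderiv ℝ Prod.fst (0, 0)) := h1
    rw [h2, C.ex_dl, fderiv_fst, ContinuousLinearMap.id_comp]
  have hstrict := hΦ.hasStrictFDerivAt (by simp)
  have hfd : ∀ (u : E) (w : Hs), fderiv ℝ Φ (0, 0) (u, w) = C.br u h0 + (w : E) := by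
    intro u w
    have h1 : DifferentiableAt ℝ (fun q => C.Ad (xx q)) (0, 0) := hAd.differentiableAt (by simp)
    have h2 : DifferentiableAt ℝ ff (0, 0) := hff.differentiableAt (by simp)
    have h3 : fderiv ℝ Φ (0, 0) = (C.Ad (xx (0, 0))).comp (fderiv ℝ ff (0, 0)) +
        (fderiv ℝ (fun q => C.Ad (xx q)) (0, 0)).flip (ff (0, 0)) :=
      fderiv_clm_apply h1 h2
    rw [h3, ContinuousLinearMap.add_apply, ContinuousLinearMap.comp_apply,
      ContinuousLinearMap.flip_apply, C.ad_deriv hxs, hdl, hx0, C.Ad_one]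
    have h4 : fderiv ℝ ff (0, 0) = L2 := by
      rw [hff']
      exact (L2.hasFDerivAt.add_const h0).fderiv
    rw [h4]
    have h5 : ff (0, 0) = h0 := by
      show ((0 : Hs) : E) + h0 = h0
      simp
    rw [h5]
    show (w : E) + C.br u h0 = _
    rw [add_comm]
  have hrange : LinearMap.range (fderiv ℝ Φ (0, 0) : E × Hs →ₗ[ℝ] E) = ⊤ := by
    rw [LinearMap.range_eq_top]
    intro e
    obtain ⟨u, w, h⟩ := hsurj e
    exact ⟨(u, w), (hfd u w).trans h⟩
  have hmap := hstrict.map_nhds_eq_of_surj hrange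
  rw [hΦ0] at hmap
  have hmem : Set.range Φ ∈ 𝓝 h0 := by
    rw [← hmap]
    exact Filter.range_mem_map
  refine ⟨interior (Set.range Φ), isOpen_interior, ⟨h0, mem_interior_iff_mem_nhds.2 hmem⟩, ?_⟩
  intro z hz
  obtain ⟨q, hq⟩ := interior_subset hz
  set g := xx q with hg
  have hwH : ff q ∈ Hs := Hs.add_mem q.2.2 h0H
  have hker : ∀ w' ∈ Hs, C.br z (C.Ad g w') = 0 := by
    intro w' hw'
    have h1 : z = C.Ad g (ff q) := hq.symm
    rw [h1, ← C.Ad_br, habel _ hwH _ hw', map_zero]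
  let ψ : Hs →ₗ[ℝ] LinearMap.ker (C.br z : E →ₗ[ℝ] E) :=
    LinearMap.codRestrict _ (((C.Ad g : E →L[ℝ] E) : E →ₗ[ℝ] E) ∘ₗ Hs.subtype) (by
      intro w'
      rw [LinearMap.mem_ker]
      exact hker w' w'.2)
  refine LinearMap.finrank_le_finrank_of_injective (f := ψ) ?_
  intro a b hab
  have h1 : C.Ad g (a : E) = C.Ad g (b : E) := congrArg Subtype.val hab
  have h2 : ∀ e : E, C.Ad g⁻¹ (C.Ad g e) = e := by
    intro e
    have h3 := C.Ad_mul g⁻¹ g
    rw [inv_mul_cancel, C.Ad_one] at h3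
    have h4 := congrArg (fun L : E →L[ℝ] E => L e) h3
    exact h4.symm
  apply Subtype.ext
  rw [← h2 (a : E), h1, h2]

theorem rank_le_of_open (A : E →ₗ[ℝ] (E →ₗ[ℝ] E)) {O : Set E} (hO : IsOpen O)
    (hne : O.Nonempty) {k : ℕ} (h : ∀ z ∈ O, finrank ℝ (LinearMap.range (A z)) ≤ k) (z : E) :
    finrank ℝ (LinearMap.range (A z)) ≤ k := by
  by_contra hcon
  rw [not_le] at hcon
  obtain ⟨z0, hz0⟩ := hne
  let b := Module.finBasis ℝ (LinearMap.range (A z))
  let ι : Fin (k + 1) → Fin (finrank ℝ (LinearMap.range (A z))) := Fin.castLE hcon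
  have hv : ∀ j : Fin (k + 1), ∃ v : E, A z v = (b (ι j) : E) := fun j => (b (ι j)).2
  choose v hv using hv
  have hφ : ∀ i : Fin (k + 1), ∃ φ : E →ₗ[ℝ] ℝ, φ ∘ₗ (LinearMap.range (A z)).subtype =
      b.coord (ι i) := fun i => LinearMap.exists_extend _
  choose φ hφ using hφ
  let M : ℝ → Matrix (Fin (k + 1)) (Fin (k + 1)) ℝ := fun t =>
    Matrix.of fun i j => φ i (A (z0 + t • (z - z0)) (v j))
  have hM1 : M 1 = 1 := by
    ext i j
    show φ i (A (z0 + (1 : ℝ) • (z - z0)) (v j)) = _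
    rw [one_smul, add_sub_cancel, hv]
    have h1 := congrArg (fun L : LinearMap.range (A z) →ₗ[ℝ] ℝ => L (b (ι j))) (hφ i)
    have h2 : φ i (b (ι j) : E) = b.coord (ι i) (b (ι j)) := h1
    rw [h2, Module.Basis.coord_apply, Module.Basis.repr_self, Matrix.one_apply,
      Finsupp.single_apply]
    by_cases hij : i = j
    · rw [if_pos hij, if_pos (by rw [hij])]
    · rw [if_neg hij, if_neg]
      intro h3
      exact hij (Fin.castLE_injective hcon h3).symm
  have hM0 : ∀ t, z0 + t • (z - z0) ∈ O → (M t).det = 0 := by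
    intro t ht
    by_contra hdet
    have hli : LinearIndependent ℝ (fun j : Fin (k + 1) =>
        (⟨A (z0 + t • (z - z0)) (v j), LinearMap.mem_range_self _ _⟩ :
          LinearMap.range (A (z0 + t • (z - z0))))) := by
      rw [Fintype.linearIndependent_iff]
      intro c hc i
      have h1 : ∑ j, c j • A (z0 + t • (z - z0)) (v j) = 0 := by
        have h2 := congrArg (Submodule.subtype _) hc
        rw [map_sum, map_zero] at h2
        exact h2
      have h2 : (M t).mulVec c = 0 := by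
        funext i
        show ∑ j, φ i (A (z0 + t • (z - z0)) (v j)) * c j = 0
        have h3 := congrArg (φ i) h1
        rw [map_sum, map_zero] at h3
        rw [← h3]
        refine Finset.sum_congr rfl fun j _ => ?_
        rw [map_smul, smul_eq_mul, mul_comm]
      have h3 := Matrix.eq_zero_of_mulVec_eq_zero hdet h2
      exact congrFun h3 i
    have h1 := hli.fintype_card_le_finrank
    rw [Fintype.card_fin] at h1
    have h2 := h _ ht
    omega
  let M0 : Matrix (Fin (k + 1)) (Fin (k + 1)) ℝ := Matrix.of fun i j => φ i (A z0 (v j))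
  let M1 : Matrix (Fin (k + 1)) (Fin (k + 1)) ℝ := Matrix.of fun i j => φ i (A (z - z0) (v j))
  let P : Polynomial ℝ := (M0.map Polynomial.C + (Polynomial.X : Polynomial ℝ) •
    M1.map Polynomial.C).det
  have hP : ∀ t : ℝ, P.eval t = (M t).det := by
    intro t
    have h1 : P.eval t = ((Polynomial.evalRingHom t).mapMatrix (M0.map Polynomial.C +
        (Polynomial.X : Polynomial ℝ) • M1.map Polynomial.C)).det := by
      rw [← RingHom.map_det]
      rfl
    rw [h1]
    congr 1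
    ext i j
    rw [RingHom.mapMatrix_apply, Matrix.map_apply, Matrix.add_apply, Matrix.smul_apply,
      Matrix.map_apply, Matrix.map_apply, map_add, smul_eq_mul, map_mul]
    simp only [Polynomial.coe_evalRingHom, Polynomial.eval_C, Polynomial.eval_X]
    show φ i (A z0 (v j)) + t * φ i (A (z - z0) (v j)) = φ i (A (z0 + t • (z - z0)) (v j))
    rw [map_add, map_smul, LinearMap.add_apply, LinearMap.smul_apply, map_add, map_smul,
      smul_eq_mul]
  have hP0 : P = 0 := by
    apply Polynomial.eq_zero_of_infinite_isRoot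
    have hcont : Continuous fun t : ℝ => z0 + t • (z - z0) := by fun_prop
    have hnh : (fun t : ℝ => z0 + t • (z - z0)) ⁻¹' O ∈ 𝓝 (0 : ℝ) := by
      apply (hO.preimage hcont).mem_nhds
      show z0 + (0 : ℝ) • (z - z0) ∈ O
      rw [zero_smul, add_zero]
      exact hz0
    refine (infinite_of_mem_nhds (0 : ℝ) hnh).mono ?_
    intro t ht
    show P.IsRoot t
    rw [Polynomial.IsRoot.def, hP]
    exact hM0 t ht
  have h1 := hP 1
  rw [hP0, hM1, Polynomial.eval_zero, Matrix.det_one] at h1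
  exact zero_ne_one h1

end Pool.Agent.Helper60.LX
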