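import Pool.Agent.Helper60.LX.RedEngel
import Pool.Agent.Helper60.LX.RedOpen

/-!
# Project LX: the index of a reductive Lie algebra

PROOF OF RK_REDUCTIVE. Hs = ι H is an abelian subspace of E (cartan_abelian, hι), with h0 from
exists_regular: OPEN_KER and RANK_LE_OF_OPEN (A = br as a linear map, k = finrank E - finrank H; rank
nullity) give finrank (ker (br z)) ≥ finrank H for ALL z ∈ E. Let μ be given. The linear form s ↦ μ (ι s)
on 𝔰 is killingForm ℝ 𝔰 z for some z ∈ 𝔰 (IsKilling: the Killing form is nondegenerate, finite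
dimension). Claim: if ⁅z, u⁆ = 0 then μ (br (ι u) (ι v)) = 0 for all v: write u = c + u', v = c' + v' with c,
c' central, u', v' ∈ 𝔰; ⁅u, v⁆ = ⁅u', v'⁆ ∈ 𝔰 and ⁅z, u'⁆ = ⁅z, u⁆ = 0; μ (ι ⁅u', v'⁆) = killingForm z ⁅u', v'⁆ =
killingForm ⁅z, u'⁆ v' = 0 (invariance: LieModule.traceForm_apply_lie_apply or similar). So ker (br (ι z)) is
contained in the kernel of form br ⊤ μ, and rk ≤ finrank E - finrank (ker (br (ι z))) ≤ finrank E - finrank H.
-/

open scoped ContDiff Topology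
open Module

noncomputable section

namespace Pool.Agent.Helper60.LX

theorem rk_reductive {G : Type} [Group G] {E : Type} [NormedAddCommGroup E] [NormedSpace ℝ E]
    [FiniteDimensional ℝ E] (C : Calc G E) {𝔩 : Type} [LieRing 𝔩] [LieAlgebra ℝ 𝔩]
    [FiniteDimensional ℝ 𝔩] (ι : 𝔩 ≃ₗ[ℝ] E) (hι : ∀ u v, ι ⁅u, v⁆ = C.br (ι u) (ι v))
    (𝔰 : LieIdeal ℝ 𝔩) (hc : IsCompl (LieAlgebra.center ℝ 𝔩) 𝔰)
    (hK : LieAlgebra.IsKilling ℝ 𝔰) (H : LieSubalgebra ℝ 𝔩) (hH : H.IsCartanSubalgebra)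
    (μ : E →L[ℝ] ℝ) : rk C.br ⊤ μ + finrank ℝ H ≤ finrank ℝ E := by
  classical
  let Hs : Submodule ℝ E := H.toSubmodule.map (ι : 𝔩 →ₗ[ℝ] E)
  have hfin : finrank ℝ Hs = finrank ℝ H :=
    (ι.submoduleMap H.toSubmodule).finrank_eq.symm
  have habelH := cartan_abelian 𝔰 hc hK H hH
  have habel : ∀ u ∈ Hs, ∀ v ∈ Hs, C.br u v = 0 := by
    rintro _ ⟨u, hu, rfl⟩ _ ⟨v, hv, rfl⟩
    have h1 := hι u v
    rw [habelH u hu v hv, map_zero] at h1
    exact h1.symm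
  obtain ⟨h0, h0H, hreg⟩ := exists_regular H hH
  obtain ⟨O, hO, hne, hk⟩ := open_ker C Hs habel (h0 := ι h0) ⟨h0, h0H, rfl⟩ (by
    intro w hw
    obtain ⟨x, hx, hxe⟩ := hw
    refine ⟨ι.symm w, ?_, by simp⟩
    apply hreg
    have h1 := hι h0 (ι.symm w)
    rw [LinearEquiv.apply_symm_apply] at h1
    have h2 : x = ⁅h0, ι.symm w⁆ := ι.injective (hxe.trans h1.symm)
    rw [← h2]
    exact hx)
  let A : E →ₗ[ℝ] (E →ₗ[ℝ] E) :=
    { toFun := fun z => (C.br z : E →ₗ[ℝ] E)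
      map_add' := fun a b => by ext w; simp
      map_smul' := fun c a => by ext w; simp }
  have hHE : finrank ℝ Hs ≤ finrank ℝ E := Submodule.finrank_le _
  have hr : ∀ z, finrank ℝ (LinearMap.range (A z)) ≤ finrank ℝ E - finrank ℝ Hs := by
    apply rank_le_of_open A hO hne
    intro z hz
    have h1 := LinearMap.finrank_range_add_finrank_ker (A z)
    have h2 : finrank ℝ Hs ≤ finrank ℝ (LinearMap.ker (A z)) := hk z hz
    omega
  have hker : ∀ z : E, finrank ℝ Hs ≤ finrank ℝ (LinearMap.ker (C.br z : E →ₗ[ℝ] E)) := by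
    intro z
    have h1 := LinearMap.finrank_range_add_finrank_ker (A z)
    have h2 := hr z
    have h3 : finrank ℝ (LinearMap.ker (A z)) =
      finrank ℝ (LinearMap.ker (C.br z : E →ₗ[ℝ] E)) := rfl
    omega
  -- the Killing element of the form
  have hnd := LieAlgebra.IsKilling.killingForm_nondegenerate ℝ 𝔰
  let f : Module.Dual ℝ 𝔰 := ((μ : E →ₗ[ℝ] ℝ) ∘ₗ (ι : 𝔩 →ₗ[ℝ] E)) ∘ₗ (𝔰 : Submodule ℝ 𝔩).subtype
  obtain ⟨z, hz⟩ : ∃ z : 𝔰, ∀ s : 𝔰, killingForm ℝ 𝔰 z s = μ (ι (s : 𝔩)) := by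
    refine ⟨((killingForm ℝ 𝔰).toDual hnd).symm f, fun s => ?_⟩
    exact LinearMap.BilinForm.apply_toDual_symm_apply (hB := hnd) f s
  have hdec : ∀ u : 𝔩, ∃ c ∈ LieAlgebra.center ℝ 𝔩, ∃ s : 𝔰, c + (s : 𝔩) = u := by
    intro u
    have h1 : u ∈ (LieAlgebra.center ℝ 𝔩 ⊔ 𝔰 : LieIdeal ℝ 𝔩) := by
      rw [hc.sup_eq_top]; trivial
    rw [LieSubmodule.mem_sup] at h1
    obtain ⟨c, hcc, s, hs, h2⟩ := h1
    exact ⟨c, hcc, ⟨s, hs⟩, h2⟩
  have hcen : ∀ c ∈ LieAlgebra.center ℝ 𝔩, ∀ u : 𝔩, ⁅u, c⁆ = 0 := by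
    intro c hc' u
    exact (LieModule.mem_maxTrivSubmodule ℝ 𝔩 𝔩 c).1 hc' u
  have hcen' : ∀ c ∈ LieAlgebra.center ℝ 𝔩, ∀ u : 𝔩, ⁅c, u⁆ = 0 := by
    intro c hc' u
    rw [← lie_skew, hcen c hc' u, neg_zero]
  have hkey : ∀ u : 𝔩, ⁅(z : 𝔩), u⁆ = 0 → ∀ v : 𝔩, μ (ι ⁅u, v⁆) = 0 := by
    intro u hu v
    obtain ⟨c, hc1, u', rfl⟩ := hdec u
    obtain ⟨c', hc2, v', rfl⟩ := hdec v
    have h1 : ⁅c + (u' : 𝔩), c' + (v' : 𝔩)⁆ = ((⁅u', v'⁆ : 𝔰) : 𝔩) := by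
      rw [add_lie, hcen' c hc1, zero_add, lie_add, hcen c' hc2, zero_add]
      rfl
    have h2 : ⁅z, u'⁆ = 0 := by
      apply Subtype.ext
      rw [lie_add, hcen c hc1, zero_add] at hu
      exact hu
    rw [h1, ← hz]
    have h3 := LieModule.traceForm_apply_lie_apply ℝ 𝔰 𝔰 z u' v'
    have h4 : killingForm ℝ 𝔰 ⁅z, u'⁆ v' = killingForm ℝ 𝔰 z ⁅u', v'⁆ := h3
    rw [← h4, h2, map_zero, LinearMap.zero_apply]
  -- compare the kernels
  have hle : finrank ℝ (LinearMap.ker (C.br (ι z) : E →ₗ[ℝ] E)) ≤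
      finrank ℝ (LinearMap.ker (form C.br ⊤ μ)) := by
    let g : LinearMap.ker (C.br (ι z) : E →ₗ[ℝ] E) →ₗ[ℝ] LinearMap.ker (form C.br ⊤ μ) :=
      LinearMap.codRestrict _ ((LinearMap.ker (C.br (ι z) : E →ₗ[ℝ] E)).subtype.codRestrict ⊤
        (fun _ => Submodule.mem_top)) (by
        intro w
        rw [LinearMap.mem_ker]
        ext v
        show μ (C.br (w : E) (v : E)) = 0
        have h1 : C.br (ι z) (w : E) = 0 := w.2
        have h2 := hι z (ι.symm w)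
        rw [LinearEquiv.apply_symm_apply, h1] at h2
        have h3 : ⁅(z : 𝔩), ι.symm (w : E)⁆ = 0 := by
          apply ι.injective
          rw [h2, map_zero]
        have h4 := hkey _ h3 (ι.symm v)
        rw [hι, LinearEquiv.apply_symm_apply, LinearEquiv.apply_symm_apply] at h4
        exact h4)
    refine LinearMap.finrank_le_finrank_of_injective (f := g) ?_
    intro a b hab
    apply Subtype.ext
    have h1 := congrArg (fun y : LinearMap.ker (form C.br ⊤ μ) => ((y : (⊤ : Submodule ℝ E)) : E)) hab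
    exact h1
  have h1 := LinearMap.finrank_range_add_finrank_ker (form C.br ⊤ μ)
  have h2 := hker (ι z)
  have h3 : finrank ℝ (⊤ : Submodule ℝ E) = finrank ℝ E := finrank_top ℝ E
  have h4 : rk C.br ⊤ μ = finrank ℝ (LinearMap.range (form C.br ⊤ μ)) := rfl
  omega

end Pool.Agent.Helper60.LX
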