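import Pool.Agent.Helper60.LX.RedEngel
import Pool.Agent.Helper60.LX.RedOpen

/-!
# Project LX: a linear form of maximal rank

PROOF OF EXISTS_MU. h0 from exists_regular. h0 = c + s0, c central, s0 ∈ 𝔰. Let proj : 𝔩 → 𝔰 be the
projection along the center (Submodule.linearProjOfIsCompl or similar) and μ (ι w) = killingForm ℝ 𝔰 s0
(proj w) (a linear form on a finite dimensional space, hence continuous: LinearMap.toContinuousLinearMap).
For u, v ∈ 𝔩: ⁅u, v⁆ = ⁅proj u, proj v⁆ ∈ 𝔰, so μ (br (ι u) (ι v)) = killingForm s0 ⁅proj u, proj v⁆ =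
killingForm ⁅s0, proj u⁆ (proj v) (invariance). If this vanishes for all v then ⁅s0, proj u⁆ = 0
(nondegenerate), i.e. ⁅h0, u⁆ = 0 ∈ H, so u ∈ H. So the kernel of form br ⊤ μ is contained in ι H and
rk ≥ finrank E - finrank H.
-/

open scoped ContDiff Topology
open Module

noncomputable section

namespace Pool.Agent.Helper60.LX

theorem exists_mu {G : Type} [Group G] {E : Type} [NormedAddCommGroup E] [NormedSpace ℝ E]
    [FiniteDimensional ℝ E] (C : Calc G E) {𝔩 : Type} [LieRing 𝔩] [LieAlgebra ℝ 𝔩]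
    [FiniteDimensional ℝ 𝔩] (ι : 𝔩 ≃ₗ[ℝ] E) (hι : ∀ u v, ι ⁅u, v⁆ = C.br (ι u) (ι v))
    (𝔰 : LieIdeal ℝ 𝔩) (hc : IsCompl (LieAlgebra.center ℝ 𝔩) 𝔰)
    (hK : LieAlgebra.IsKilling ℝ 𝔰) (H : LieSubalgebra ℝ 𝔩) (hH : H.IsCartanSubalgebra) :
    ∃ μ : E →L[ℝ] ℝ, finrank ℝ E ≤ rk C.br ⊤ μ + finrank ℝ H := by
  classical
  obtain ⟨h0, hh0, hreg⟩ := exists_regular H hH
  have hc' : IsCompl (LieSubmodule.toSubmodule 𝔰)
      (LieSubmodule.toSubmodule (LieAlgebra.center ℝ 𝔩)) := by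
    have h := hc.symm
    rw [isCompl_iff, codisjoint_iff, disjoint_iff] at h ⊢
    refine ⟨?_, ?_⟩
    · rw [← LieSubmodule.inf_toSubmodule, h.1, LieSubmodule.bot_toSubmodule]
    · rw [← LieSubmodule.sup_toSubmodule, h.2, LieSubmodule.top_toSubmodule]
  let pr : 𝔩 →ₗ[ℝ] 𝔰 := Submodule.projectionOnto _ _ hc'
  have hprs : ∀ x : 𝔰, pr (x : 𝔩) = x := fun x => Submodule.projectionOnto_apply_left hc' x
  have hcen : ∀ u : 𝔩, u - (pr u : 𝔩) ∈ LieAlgebra.center ℝ 𝔩 := by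
    intro u
    have h1 : pr (u - (pr u : 𝔩)) = 0 := by rw [map_sub, hprs, sub_self]
    exact (Submodule.projectionOnto_apply_eq_zero_iff hc').mp h1
  have hlie : ∀ u v : 𝔩, ⁅u, v⁆ = ((⁅pr u, pr v⁆ : 𝔰) : 𝔩) := by
    intro u v
    have h1 : ⁅u - (pr u : 𝔩), v⁆ = 0 := by
      have h2 := (LieModule.mem_maxTrivSubmodule ℝ 𝔩 𝔩 (u - (pr u : 𝔩))).mp (hcen u) v
      rw [← lie_skew, h2, neg_zero]
    have h3 : ⁅(pr u : 𝔩), v - (pr v : 𝔩)⁆ = 0 :=
      (LieModule.mem_maxTrivSubmodule ℝ 𝔩 𝔩 (v - (pr v : 𝔩))).mp (hcen v) _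
    rw [sub_lie, sub_eq_zero] at h1
    rw [lie_sub, sub_eq_zero] at h3
    rw [h1, h3]
    rfl
  have hprlie : ∀ u v : 𝔩, pr ⁅u, v⁆ = ⁅pr u, pr v⁆ := by
    intro u v
    rw [hlie u v, hprs]
  let s0 : 𝔰 := pr h0
  let μ0 : E →ₗ[ℝ] ℝ := ((killingForm ℝ 𝔰 s0) ∘ₗ pr) ∘ₗ (ι.symm : E →ₗ[ℝ] 𝔩)
  refine ⟨LinearMap.toContinuousLinearMap μ0, ?_⟩
  set μ : E →L[ℝ] ℝ := LinearMap.toContinuousLinearMap μ0 with hμ
  have hμι : ∀ x : 𝔩, μ (ι x) = killingForm ℝ 𝔰 s0 (pr x) := by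
    intro x
    change killingForm ℝ 𝔰 s0 (pr (ι.symm (ι x))) = _
    rw [ι.symm_apply_apply]
  have hker : ∀ u : (⊤ : Submodule ℝ E), form C.br ⊤ μ u = 0 → ι.symm (u : E) ∈ H := by
    intro u hu
    set x : 𝔩 := ι.symm (u : E) with hx
    have hux : (u : E) = ι x := (ι.apply_symm_apply _).symm
    apply hreg
    have h1 : ∀ y : 𝔩, killingForm ℝ 𝔰 ⁅s0, pr x⁆ (pr y) = 0 := by
      intro y
      have h2 : μ (C.br (u : E) (ι y)) = 0 :=
        congrArg (fun φ : Dual ℝ (⊤ : Submodule ℝ E) => φ ⟨ι y, trivial⟩) hu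
      rw [hux, ← hι, hμι, hprlie] at h2
      rw [LieModule.traceForm_apply_lie_apply]
      exact h2
    have h3 : ⁅s0, pr x⁆ = 0 := by
      have h4 : ⁅s0, pr x⁆ ∈ LinearMap.ker (killingForm ℝ 𝔰) := by
        rw [LinearMap.mem_ker]
        ext y
        have := h1 (y : 𝔩)
        rw [hprs] at this
        rw [this]
        rfl
      rw [LieAlgebra.IsKilling.ker_killingForm_eq_bot] at h4
      exact (Submodule.mem_bot ℝ).mp h4
    rw [hlie h0 x, h3]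
    exact H.zero_mem
  have hrn := LinearMap.finrank_range_add_finrank_ker (form C.br ⊤ μ)
  have htop : finrank ℝ (⊤ : Submodule ℝ E) = finrank ℝ E := finrank_top ℝ E
  have hle : finrank ℝ (LinearMap.ker (form C.br ⊤ μ)) ≤ finrank ℝ H := by
    let g : LinearMap.ker (form C.br ⊤ μ) →ₗ[ℝ] H :=
      { toFun := fun u => ⟨ι.symm ((u : (⊤ : Submodule ℝ E)) : E), hker u u.2⟩
        map_add' := fun a b => Subtype.ext (map_add ι.symm _ _)
        map_smul' := fun c a => Subtype.ext (map_smul ι.symm c _) }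
    apply LinearMap.finrank_le_finrank_of_injective (f := g)
    intro a b hab
    have h1 : ι.symm ((a : (⊤ : Submodule ℝ E)) : E) = ι.symm ((b : (⊤ : Submodule ℝ E)) : E) :=
      congrArg Subtype.val hab
    exact Subtype.ext (Subtype.ext (ι.symm.injective h1))
  have hrk : rk C.br ⊤ μ = finrank ℝ (LinearMap.range (form C.br ⊤ μ)) := rfl
  omega

end Pool.Agent.Helper60.LX
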