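import Pool.Agent.Helper60.LX.Bound
import Pool.Agent.Helper60.LX.RedForm
import Pool.Agent.Helper60.LX.RedRank

/-!
# Project LX: the Lie exponent of reductive groups
-/

set_option autoImplicit false

open Set Filter Topology Manifold Module
open scoped Manifold ContDiff

noncomputable section

namespace Pool.Agent.Helper60.LX

theorem rank_eq_index (K : RealLieGroup) (hK : IsReductive K) {r : ℕ} (hr : HasRank K r) :
    r = K.index := by
  obtain ⟨s, hs, hs'⟩ := hK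
  obtain ⟨H, hH, rfl⟩ := hr
  have _ : FiniteDimensional ℝ K.lieAlg := inferInstanceAs (FiniteDimensional ℝ K.E)
  apply le_antisymm
  · refine le_csInf (Set.range_nonempty _) ?_
    rintro _ ⟨φ, rfl⟩
    let μ : K.E →L[ℝ] ℝ := LinearMap.toContinuousLinearMap
      (φ ∘ₗ ((iota K).symm : K.E →ₗ[ℝ] K.lieAlg))
    have h1 := rk_reductive (lieCalc K.E K.G) (iota K) (iota_br K) s hs hs' H hH μ
    have h2 := rk_eq K μ
    have h3 : ((μ : K.E →ₗ[ℝ] ℝ) ∘ₗ (iota K : K.lieAlg →ₗ[ℝ] K.E)) = φ := by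
      ext w
      simp [μ]
    rw [h3] at h2
    change finrank ℝ H ≤ finrank ℝ (stab K φ)
    have h4 : K.dim = finrank ℝ K.E := rfl
    omega
  · obtain ⟨μ, hμ⟩ := exists_mu (lieCalc K.E K.G) (iota K) (iota_br K) s hs hs' H hH
    have h2 := rk_eq K μ
    have h3 := index_le K ((μ : K.E →ₗ[ℝ] ℝ) ∘ₗ (iota K : K.lieAlg →ₗ[ℝ] K.E))
    have h4 : K.dim = finrank ℝ K.E := rfl
    omega

theorem three_le (K : RealLieGroup) (hK : IsReductive K) : (3 : EReal) ≤ lieExponent K := by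
  apply le_sInf
  rintro w ⟨r, m₁, m₂, m₃, M₁, M₂, M₃, hr, h₁, h₂, h₃, hT, hpos, rfl⟩
  have hri := rank_eq_index K hK hr
  have hm := main_ineq K h₁ h₂ h₃ hT
  have hd := index_le_dim K
  have h3 : 2 * (m₁ + m₂ + m₃) + r ≤ 3 * K.dim := by omega
  have h3' : 2 * ((m₁ : ℝ) + m₂ + m₃) + r ≤ 3 * K.dim := by exact_mod_cast h3
  have h4 : (3 : ℝ) ≤ (r : ℝ) / denom K.dim r m₁ m₂ m₃ := by
    rw [le_div_iff₀ hpos]
    unfold denom
    linarith
  have h5 : ((3 : ℝ) : EReal) ≤ (((r : ℝ) / denom K.dim r m₁ m₂ m₃ : ℝ) : EReal) :=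
    EReal.coe_le_coe_iff.2 h4
  exact h5

theorem exponentSet_nonabelian (K : RealLieGroup) (hK : IsReductive K) (hn : IsNonabelian K)
    {r : ℕ} (hr : HasRank K r) {w : EReal} (hw : w ∈ exponentSet K) :
    2 ≤ r ∧ ((3 * (r : ℝ) / ((r : ℝ) - 1) : ℝ) : EReal) ≤ w := by
  obtain ⟨r', m₁, m₂, m₃, M₁, M₂, M₃, hr', h₁, h₂, h₃, hT, hpos, rfl⟩ := hw
  have e1 := rank_eq_index K hK hr
  have e2 := rank_eq_index K hK hr'
  have e3 : r' = r := by rw [e1, e2]
  subst e3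
  have hm := main_ineq' K hn h₁ h₂ h₃ hT
  rw [← e1] at hm
  have hm' : 2 * ((m₁ : ℝ) + m₂ + m₃) + r' + 2 ≤ 3 * K.dim := by exact_mod_cast hm
  have hden : denom K.dim r' m₁ m₂ m₃ ≤ ((r' : ℝ) - 1) / 3 := by
    unfold denom
    linarith
  have hr1 : (1 : ℝ) < r' := by linarith
  have hr2 : 2 ≤ r' := by
    have : 1 < r' := by exact_mod_cast hr1
    omega
  refine ⟨hr2, EReal.coe_le_coe_iff.2 ?_⟩
  rw [le_div_iff₀ hpos, div_mul_eq_mul_div, div_le_iff₀ (by linarith)]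
  have h0 : (0 : ℝ) ≤ r' := Nat.cast_nonneg _
  nlinarith

end Pool.Agent.Helper60.LX
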