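import Mathlib

/-!
# Project LX (MP_56bb89): calculus with smooth maps into a Lie group, systems

`Calc G E` collects what the induction uses of the differential calculus of smooth maps `x : F → G`
from normed spaces into a Lie group `G` with Lie algebra `E`: the bracket `br`, the adjoint
representation `Ad`, the right logarithmic derivative `dl x p = dx x⁻¹` (a linear map `F → E`), the
Maurer-Cartan equation. The instance for Lie groups is constructed in `LX/LieCalc`.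

A system over a subspace `h` of `E` is a nonempty open set `U` of `F` with three smooth maps `x i`
into `G`, three smooth labels `m i`, a smooth family `lam` of linear forms, with the properties
`tpp`, `val`, `ad`, `perp`, `imm` below.
-/

open scoped ContDiff Topology
open Module

noncomputable section

namespace Pool.Agent.Helper60.LX

/-- Differential calculus of smooth maps into a group `G` with Lie algebra `E`. -/
structure Calc (G : Type) [Group G] (E : Type) [NormedAddCommGroup E] [NormedSpace ℝ E] where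
  /-- the Lie bracket -/
  br : E →L[ℝ] E →L[ℝ] E
  br_self : ∀ u, br u u = 0
  jacobi : ∀ u v w, br (br u v) w = br u (br v w) - br v (br u w)
  /-- the adjoint representation -/
  Ad : G → E →L[ℝ] E
  Ad_one : Ad 1 = ContinuousLinearMap.id ℝ E
  Ad_mul : ∀ g k, Ad (g * k) = (Ad g).comp (Ad k)
  Ad_br : ∀ g u v, Ad g (br u v) = br (Ad g u) (Ad g v)
  /-- `x` is smooth at `p` -/
  Sm : ∀ {F : Type} [NormedAddCommGroup F] [NormedSpace ℝ F], (F → G) → F → Prop
  /-- the right logarithmic derivative of `x` at `p` -/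
  dl : ∀ {F : Type} [NormedAddCommGroup F] [NormedSpace ℝ F], (F → G) → F → (F →L[ℝ] E)
  sm_const : ∀ {F : Type} [NormedAddCommGroup F] [NormedSpace ℝ F] (g : G) (p : F),
    Sm (fun _ : F => g) p
  sm_mul : ∀ {F : Type} [NormedAddCommGroup F] [NormedSpace ℝ F] {x y : F → G} {p : F},
    Sm x p → Sm y p → Sm (fun q => x q * y q) p
  sm_inv : ∀ {F : Type} [NormedAddCommGroup F] [NormedSpace ℝ F] {x : F → G} {p : F},
    Sm x p → Sm (fun q => (x q)⁻¹) p
  sm_comp : ∀ {F F' : Type} [NormedAddCommGroup F] [NormedSpace ℝ F] [NormedAddCommGroup F']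
    [NormedSpace ℝ F'] {x : F → G} {f : F' → F} {p : F'},
    Sm x (f p) → ContDiffAt ℝ ∞ f p → Sm (fun q => x (f q)) p
  dl_const : ∀ {F : Type} [NormedAddCommGroup F] [NormedSpace ℝ F] (g : G) (p : F),
    dl (fun _ : F => g) p = 0
  dl_mul : ∀ {F : Type} [NormedAddCommGroup F] [NormedSpace ℝ F] {x y : F → G} {p : F},
    Sm x p → Sm y p → dl (fun q => x q * y q) p = dl x p + (Ad (x p)).comp (dl y p)
  dl_comp : ∀ {F F' : Type} [NormedAddCommGroup F] [NormedSpace ℝ F] [NormedAddCommGroup F']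
    [NormedSpace ℝ F'] {x : F → G} {f : F' → F} {p : F'},
    Sm x (f p) → ContDiffAt ℝ ∞ f p →
      dl (fun q => x (f q)) p = (dl x (f p)).comp (fderiv ℝ f p)
  dl_smooth : ∀ {F : Type} [NormedAddCommGroup F] [NormedSpace ℝ F] {x : F → G} {p : F},
    Sm x p → ContDiffAt ℝ ∞ (fun q => dl x q) p
  mc : ∀ {F : Type} [NormedAddCommGroup F] [NormedSpace ℝ F] {x : F → G} {p : F},
    Sm x p → ∀ X Y : F, fderiv ℝ (fun q => dl x q) p X Y - fderiv ℝ (fun q => dl x q) p Y X =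
      br (dl x p X) (dl x p Y)
  ad_smooth : ∀ {F : Type} [NormedAddCommGroup F] [NormedSpace ℝ F] {x : F → G} {p : F},
    Sm x p → ContDiffAt ℝ ∞ (fun q => Ad (x q)) p
  ad_deriv : ∀ {F : Type} [NormedAddCommGroup F] [NormedSpace ℝ F] {x : F → G} {p : F},
    Sm x p → ∀ (X : F) (w : E),
      fderiv ℝ (fun q => Ad (x q)) p X w = br (dl x p X) (Ad (x p) w)
  /-- local coordinates near `1` -/
  κ : G → E
  κ_smooth : ∀ {F : Type} [NormedAddCommGroup F] [NormedSpace ℝ F] {x : F → G} {p : F},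
    Sm x p → x p = 1 → ContDiffAt ℝ ∞ (fun q => κ (x q)) p
  κ_eq : ∀ {F : Type} [NormedAddCommGroup F] [NormedSpace ℝ F] {x : F → G} {p : F},
    Sm x p → x p = 1 → ∀ᶠ q in 𝓝 p, κ (x q) = κ 1 ↔ x q = 1
  κ_ker : ∀ {F : Type} [NormedAddCommGroup F] [NormedSpace ℝ F] {x : F → G} {p : F},
    Sm x p → x p = 1 → ∀ᶠ q in 𝓝 p, ∀ X : F,
      fderiv ℝ (fun q' => κ (x q')) q X = 0 ↔ dl x q X = 0
  /-- a local parametrisation of `G` near `1` -/
  ex : E → G
  ex_zero : ex 0 = 1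
  ex_sm : Sm ex 0
  ex_dl : dl ex 0 = ContinuousLinearMap.id ℝ E

/-- The bilinear form `(u, v) ↦ μ [u, v]` on the subspace `h`, as a map from `h` to its dual. -/
def form {E : Type} [NormedAddCommGroup E] [NormedSpace ℝ E] (br : E →L[ℝ] E →L[ℝ] E)
    (h : Submodule ℝ E) (μ : E →L[ℝ] ℝ) : h →ₗ[ℝ] Module.Dual ℝ h where
  toFun u :=
    { toFun := fun v => μ (br u v)
      map_add' := fun v w => by simp
      map_smul' := fun c v => by simp }
  map_add' u v := by ext w; simp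
  map_smul' c v := by ext w; simp

/-- The rank of the form `(u, v) ↦ μ [u, v]` on `h`. -/
def rk {E : Type} [NormedAddCommGroup E] [NormedSpace ℝ E] (br : E →L[ℝ] E →L[ℝ] E)
    (h : Submodule ℝ E) (μ : E →L[ℝ] ℝ) : ℕ := finrank ℝ (LinearMap.range (form br h μ))

/-- The span of the images of the differences of the logarithmic derivatives. -/
def Rsp {G : Type} [Group G] {E : Type} [NormedAddCommGroup E] [NormedSpace ℝ E] (C : Calc G E)
    {F : Type} [NormedAddCommGroup F] [NormedSpace ℝ F] (x : Fin 3 → F → G) (p : F) :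
    Submodule ℝ E :=
  LinearMap.range ((C.dl (x 0) p - C.dl (x 2) p : F →L[ℝ] E) : F →ₗ[ℝ] E) ⊔
    LinearMap.range ((C.dl (x 1) p - C.dl (x 2) p : F →L[ℝ] E) : F →ₗ[ℝ] E)

/-- A system over the subspace `h`. -/
structure Sys {G : Type} [Group G] {E : Type} [NormedAddCommGroup E] [NormedSpace ℝ E]
    (C : Calc G E) (h : Submodule ℝ E) (F : Type) [NormedAddCommGroup F] [NormedSpace ℝ F]
    (L : Type) [NormedAddCommGroup L] [NormedSpace ℝ L] where
  U : Set F
  isOpen : IsOpen U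
  nonempty : U.Nonempty
  x : Fin 3 → F → G
  m : Fin 3 → F → L
  lam : F → E →L[ℝ] ℝ
  sm : ∀ i, ∀ p ∈ U, C.Sm (x i) p
  msm : ∀ i, ∀ p ∈ U, ContDiffAt ℝ ∞ (m i) p
  lsm : ∀ p ∈ U, ContDiffAt ℝ ∞ lam p
  tpp : ∀ p ∈ U, ∀ p' ∈ U, ∀ p'' ∈ U,
    x 0 p * (x 0 p')⁻¹ * (x 1 p' * (x 1 p'')⁻¹) * (x 2 p'' * (x 2 p)⁻¹) = 1 →
      m 0 p = m 0 p' ∧ m 1 p' = m 1 p'' ∧ m 2 p'' = m 2 p
  val : ∀ i, ∀ p ∈ U, ∀ X, C.dl (x i) p X ∈ h
  ad : ∀ i, ∀ p ∈ U, ∀ w ∈ h, C.Ad (x i p) w ∈ h
  perp : ∀ i, ∀ p ∈ U, ∀ X, lam p (C.dl (x i) p X) = lam p (C.dl (x 0) p X)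
  imm : ∀ p ∈ U, ∀ X, (∀ i, fderiv ℝ (m i) p X = 0) →
    (∀ i, C.dl (x i) p X = 0) ∧ ((∀ w ∈ h, fderiv ℝ lam p X w = 0) → X = 0)

end Pool.Agent.Helper60.LX
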