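import Pool.Agent.Helper60.LX.Calc

/-!
# Project LX: fibres of maps of constant rank

PROOF. K = ker (fderiv ν p0), V0 a complement of K in F, D = fderiv ν p0 restricted to V0 is
injective, Q : W → V0 linear with Q D = id on V0. Φ : F → K × V0, Φ p = (π_K (p - p0), Q (ν p - ν p0)),
where π_K is the projection along V0. DΦ(p0) = (π_K, Q Dν(p0)) is bijective; inverse function theorem
(ContDiffAt.toOpenPartialHomeomorph, ContDiffAt.to_localInverse, and
OpenPartialHomeomorph.contDiffAt_symm for all points near 0, since DΦ(p) is invertible for p near p0):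
γ q = Φ⁻¹(q, 0) on a small ball V around 0 in K. So γ 0 = p0, π_K (γ q - p0) = q, Q (ν (γ q) - ν p0) = 0.
From the first identity Dγ(q) is injective and at 0, Dγ(0) = inclusion (Dγ(0) v = v + a V0-part and
Q Dν(p0) Dγ(0) v = 0 so the V0-part is 0). Near p0, finrank (ker (Q Dν(p))) ≤ finrank K (Q Dν(p) is onto
V0 near p0: it is an isomorphism on V0, an open condition) and ker Dν(p) ⊆ ker (Q Dν(p)) have the same
dimension by the constancy hypothesis, so they are equal; so Dν(γ q) Dγ(q) = 0 on a ball, and ν ∘ γ is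
constant there (IsOpen.is_const_of_fderiv_eq_zero or Convex.is_const_of_fderivWithin_eq_zero).
-/

open scoped ContDiff Topology
open Module

noncomputable section

namespace Pool.Agent.Helper60.LX

private theorem split_data {F W : Type} [AddCommGroup F] [Module ℝ F] [AddCommGroup W]
    [Module ℝ W] (A : F →ₗ[ℝ] W) :
    ∃ (π : F →ₗ[ℝ] LinearMap.ker A) (σ : W →ₗ[ℝ] F),
      (∀ v : LinearMap.ker A, π (v : F) = v) ∧ (∀ w, π (σ w) = 0) ∧
      ∀ v, (π v : F) + σ (A v) = v := by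
  obtain ⟨π, hπ⟩ := (LinearMap.ker A).subtype.exists_leftInverse_of_injective
    (LinearMap.ker_eq_bot.2 Subtype.val_injective)
  have hπ' : ∀ v : LinearMap.ker A, π (v : F) = v := fun v => LinearMap.congr_fun hπ v
  have hker : LinearMap.ker (A.domRestrict (LinearMap.ker π)) = ⊥ := by
    rw [LinearMap.ker_eq_bot']
    rintro ⟨v, hv⟩ h
    have h1 : A v = 0 := h
    have h2 : π v = 0 := hv
    have h3 := hπ' ⟨v, h1⟩
    rw [Subtype.ext_iff]
    have h4 : (π v : F) = v := congrArg Subtype.val h3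
    rw [h2] at h4
    exact h4.symm
  obtain ⟨Q, hQ⟩ := (A.domRestrict (LinearMap.ker π)).exists_leftInverse_of_injective hker
  have hQ' : ∀ v : LinearMap.ker π, Q (A (v : F)) = v := fun v => LinearMap.congr_fun hQ v
  refine ⟨π, (LinearMap.ker π).subtype.comp Q, hπ', fun w => (Q w).2, ?_⟩
  intro v
  have h1 : v - (π v : F) ∈ LinearMap.ker π := by
    rw [LinearMap.mem_ker, map_sub, hπ', sub_self]
  have h2 := hQ' ⟨v - (π v : F), h1⟩
  have h3 : A (v - (π v : F)) = A v := by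
    rw [map_sub]
    have : A (π v : F) = 0 := (π v).2
    rw [this, sub_zero]
  have h4 : ((LinearMap.ker π).subtype.comp Q) (A v) = v - (π v : F) := by
    rw [LinearMap.comp_apply, ← h3]
    exact congrArg Subtype.val h2
  rw [h4]
  abel

theorem const_rank_fiber {F W : Type} [NormedAddCommGroup F] [NormedSpace ℝ F]
    [FiniteDimensional ℝ F] [NormedAddCommGroup W] [NormedSpace ℝ W] [FiniteDimensional ℝ W]
    {n : WithTop ℕ∞} (hn : n = 1 ∨ n = ∞) {U : Set F} (hU : IsOpen U) {ν : F → W}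
    (hν : ∀ p ∈ U, ContDiffAt ℝ n ν p) {p₀ : F} (hp : p₀ ∈ U)
    (hc : ∀ p ∈ U, finrank ℝ (LinearMap.ker (fderiv ℝ ν p : F →ₗ[ℝ] W)) =
      finrank ℝ (LinearMap.ker (fderiv ℝ ν p₀ : F →ₗ[ℝ] W))) :
    ∃ (V : Set (LinearMap.ker (fderiv ℝ ν p₀ : F →ₗ[ℝ] W)))
      (γ : LinearMap.ker (fderiv ℝ ν p₀ : F →ₗ[ℝ] W) → F),
      IsOpen V ∧ 0 ∈ V ∧ γ 0 = p₀ ∧
      (∀ q ∈ V, ContDiffAt ℝ n γ q ∧ γ q ∈ U ∧ ν (γ q) = ν p₀ ∧
        Function.Injective (fderiv ℝ γ q)) ∧
      ∀ v, fderiv ℝ γ 0 v = v := by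
  have hn0 : n ≠ 0 := by
    rcases hn with rfl | rfl
    · exact one_ne_zero
    · simp
  have : CompleteSpace F := FiniteDimensional.complete ℝ F
  obtain ⟨A, hA⟩ : ∃ A : F →ₗ[ℝ] W, A = (fderiv ℝ ν p₀ : F →ₗ[ℝ] W) := ⟨_, rfl⟩
  have hA' : ∀ v, A v = fderiv ℝ ν p₀ v := fun v => by rw [hA]; rfl
  rw [← hA] at hc ⊢
  obtain ⟨π₀, σ₀, h1, h2, h3⟩ := split_data A
  obtain ⟨π, hπ⟩ : ∃ π : F →L[ℝ] LinearMap.ker A, ∀ v, π v = π₀ v :=
    ⟨LinearMap.toContinuousLinearMap π₀, fun v => rfl⟩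
  obtain ⟨σ, hσ⟩ : ∃ σ : W →L[ℝ] F, ∀ v, σ v = σ₀ v :=
    ⟨LinearMap.toContinuousLinearMap σ₀, fun v => rfl⟩
  simp only [← hπ, ← hσ] at h1 h2 h3
  clear hπ hσ π₀ σ₀
  obtain ⟨ι, hι⟩ : ∃ ι : LinearMap.ker A →L[ℝ] F, ∀ v, ι v = (v : F) :=
    ⟨(LinearMap.ker A).subtypeL, fun v => rfl⟩
  obtain ⟨Ψ, hΨ⟩ : ∃ Ψ : F → F, Ψ = fun p => (ι.comp π) (p - p₀) + σ (ν p - ν p₀) := ⟨_, rfl⟩
  have hΨp : ∀ p, Ψ p = ((π (p - p₀) : LinearMap.ker A) : F) + σ (ν p - ν p₀) := by
    intro p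
    rw [hΨ]
    simp only [ContinuousLinearMap.comp_apply, hι]
  have hπΨ : ∀ p, π (Ψ p) = π (p - p₀) := by
    intro p
    rw [hΨp, map_add, h1, h2, add_zero]
  have hD : ∀ p ∈ U, HasFDerivAt Ψ (ι.comp π + σ.comp (fderiv ℝ ν p)) p := by
    intro p hpU
    rw [hΨ]
    have ha : HasFDerivAt (fun p => (ι.comp π) (p - p₀)) (ι.comp π) p := by
      have := (ι.comp π).hasFDerivAt (x := p - p₀)
      have hb : HasFDerivAt (fun p : F => p - p₀) (ContinuousLinearMap.id ℝ F) p :=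
        (hasFDerivAt_id p).sub_const p₀
      exact this.comp p hb
    have hb : HasFDerivAt (fun p => σ (ν p - ν p₀)) (σ.comp (fderiv ℝ ν p)) p := by
      have hc : HasFDerivAt (fun p => ν p - ν p₀) (fderiv ℝ ν p) p :=
        (((hν p hpU).differentiableAt hn0).hasFDerivAt).sub_const (ν p₀)
      exact (σ.hasFDerivAt (x := ν p - ν p₀)).comp p hc
    exact ha.add hb
  have hsm : ∀ p ∈ U, ContDiffAt ℝ n Ψ p := by
    intro p hpU
    rw [hΨ]
    refine ContDiffAt.add ?_ ?_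
    · exact (ι.comp π).contDiff.contDiffAt.comp p (contDiffAt_id.sub contDiffAt_const)
    · exact σ.contDiff.contDiffAt.comp p ((hν p hpU).sub contDiffAt_const)
  have hD0 : ι.comp π + σ.comp (fderiv ℝ ν p₀) =
      ((ContinuousLinearEquiv.refl ℝ F : F ≃L[ℝ] F) : F →L[ℝ] F) := by
    ext v
    simp only [_root_.add_apply, ContinuousLinearMap.comp_apply, hι]
    rw [← hA', h3]
    rfl
  have hD1 : HasFDerivAt Ψ ((ContinuousLinearEquiv.refl ℝ F : F ≃L[ℝ] F) : F →L[ℝ] F) p₀ := by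
    rw [← hD0]
    exact hD p₀ hp
  obtain ⟨e, he, hes⟩ : ∃ e : OpenPartialHomeomorph F F, (e : F → F) = Ψ ∧ p₀ ∈ e.source :=
    ⟨(hsm p₀ hp).toOpenPartialHomeomorph Ψ hD1 hn0, rfl,
      (hsm p₀ hp).mem_toOpenPartialHomeomorph_source hD1 hn0⟩
  have hΨ0 : Ψ p₀ = 0 := by
    rw [hΨ]
    simp
  have h0t : (0 : F) ∈ e.target := by
    rw [← hΨ0, ← he]
    exact e.map_source hes
  have hs0 : e.symm 0 = p₀ := by
    rw [← hΨ0, ← he]
    exact e.left_inv hes
  -- the good points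
  obtain ⟨S, hS⟩ : ∃ S : Set F, S = {p | p ∈ U ∧ ι.comp π + σ.comp (fderiv ℝ ν p) ∈
    Set.range (fun f : F ≃L[ℝ] F => (f : F →L[ℝ] F))} := ⟨_, rfl⟩
  have hSn : S ∈ 𝓝 p₀ := by
    rw [hS]
    refine Filter.inter_mem (hU.mem_nhds hp) ?_
    have hcont : ContinuousAt (fun p => ι.comp π + σ.comp (fderiv ℝ ν p)) p₀ := by
      have h5 : ContinuousAt (fderiv ℝ ν) p₀ := (hν p₀ hp).continuousAt_fderiv hn0
      have h6 : ContinuousAt (fun p => σ.comp (fderiv ℝ ν p)) p₀ :=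
        ((ContinuousLinearMap.compL ℝ F W F σ).continuous.continuousAt).comp h5
      exact continuousAt_const.add h6
    have h7 : Set.range (fun f : F ≃L[ℝ] F => (f : F →L[ℝ] F)) ∈
        𝓝 (ι.comp π + σ.comp (fderiv ℝ ν p₀)) := by
      rw [hD0]
      exact ContinuousLinearEquiv.nhds _
    exact hcont h7
  have hγc : ContinuousAt (fun q : LinearMap.ker A => e.symm (ι q)) 0 := by
    have h5 : ContinuousAt e.symm (ι (0 : LinearMap.ker A)) := by
      rw [map_zero]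
      exact e.continuousAt_symm h0t
    exact ContinuousAt.comp (f := fun q : LinearMap.ker A => ι q) h5 ι.continuous.continuousAt
  have hN1 : ∀ᶠ q : LinearMap.ker A in 𝓝 0, e.symm (ι q) ∈ S := by
    apply hγc
    have h6 : (fun q : LinearMap.ker A => e.symm (ι q)) 0 = p₀ := by
      change e.symm (ι 0) = p₀
      rw [map_zero, hs0]
    rw [h6]
    exact hSn
  have hN2 : ∀ᶠ q : LinearMap.ker A in 𝓝 0, ι q ∈ e.target := by
    have h5 : ContinuousAt (fun q : LinearMap.ker A => ι q) 0 := ι.continuous.continuousAt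
    apply h5
    have h6 : (fun q : LinearMap.ker A => ι q) 0 = 0 := map_zero ι
    rw [h6]
    exact e.open_target.mem_nhds h0t
  obtain ⟨r, hr, hball⟩ := Metric.eventually_nhds_iff_ball.1 (hN1.and hN2)
  obtain ⟨γ, hγ⟩ : ∃ γ : LinearMap.ker A → F, γ = fun q => e.symm (ι q) := ⟨_, rfl⟩
  have hγq : ∀ q, γ q = e.symm (ι q) := fun q => by rw [hγ]
  have hγ0 : γ 0 = p₀ := by rw [hγq, map_zero, hs0]
  have hfacts : ∀ q ∈ Metric.ball (0 : LinearMap.ker A) r, γ q ∈ U ∧ ContDiffAt ℝ n γ q ∧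
      Ψ (γ q) = ι q ∧ ∀ v, ∃ g : F ≃L[ℝ] F, (∀ x, g x = ι (π x) + σ (fderiv ℝ ν (γ q) x)) ∧
        g (fderiv ℝ γ q v) = ι v := by
    intro q hq
    obtain ⟨h5, h6⟩ := hball q hq
    rw [hS] at h5
    obtain ⟨h7, g, hg⟩ := h5
    have hg' : (g : F →L[ℝ] F) = ι.comp π + σ.comp (fderiv ℝ ν (e.symm (ι q))) := hg
    have hd1 : HasFDerivAt e (g : F →L[ℝ] F) (e.symm (ι q)) := by
      rw [he, hg']
      exact hD _ h7
    have hd2 : ContDiffAt ℝ n e (e.symm (ι q)) := by
      rw [he]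
      exact hsm _ h7
    have h8 : ContDiffAt ℝ n e.symm (ι q) := e.contDiffAt_symm h6 hd1 hd2
    have h9 : ContDiffAt ℝ n γ q := by
      rw [hγ]
      exact ContDiffAt.comp (f := fun q : LinearMap.ker A => ι q) q h8 ι.contDiff.contDiffAt
    refine ⟨by rw [hγq]; exact h7, h9, ?_, ?_⟩
    · rw [hγq, ← he]
      exact e.right_inv h6
    · intro v
      refine ⟨g, fun x => ?_, ?_⟩
      · rw [hγq]
        have := DFunLike.congr_fun hg' x
        simpa only [ContinuousLinearEquiv.coe_coe, _root_.add_apply,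
          ContinuousLinearMap.comp_apply] using this
      · have h10 : HasFDerivAt (fun q' => Ψ (γ q')) ((g : F →L[ℝ] F).comp (fderiv ℝ γ q)) q := by
          rw [← he]
          have h11 : HasFDerivAt e (g : F →L[ℝ] F) (γ q) := by
            rw [hγq]
            exact hd1
          exact h11.comp q (h9.differentiableAt hn0).hasFDerivAt
        have h12 : HasFDerivAt (fun q' => Ψ (γ q')) ι q := by
          refine (ι.hasFDerivAt (x := q)).congr_of_eventuallyEq ?_
          have : Metric.ball (0 : LinearMap.ker A) r ∈ 𝓝 q := Metric.isOpen_ball.mem_nhds hq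
          filter_upwards [this] with q' hq'
          rw [hγq, ← he]
          exact e.right_inv (hball q' hq').2
        have h13 := h10.unique h12
        have h14 := DFunLike.congr_fun h13 v
        simpa only [ContinuousLinearEquiv.coe_coe, ContinuousLinearMap.comp_apply] using h14
  have hinj : ∀ q ∈ Metric.ball (0 : LinearMap.ker A) r, ∀ v, π (fderiv ℝ γ q v) = v ∧
      σ (fderiv ℝ ν (γ q) (fderiv ℝ γ q v)) = 0 := by
    intro q hq v
    obtain ⟨_, _, _, h8⟩ := hfacts q hq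
    obtain ⟨g, hg, hgv⟩ := h8 v
    rw [hg, hι, hι] at hgv
    have h9 : π (fderiv ℝ γ q v) = v := by
      have := congrArg π hgv
      rwa [map_add, h1, h1, h2, add_zero] at this
    refine ⟨h9, ?_⟩
    rw [h9] at hgv
    exact add_eq_left.1 hgv
  have hkill : ∀ q ∈ Metric.ball (0 : LinearMap.ker A) r, ∀ v,
      fderiv ℝ ν (γ q) (fderiv ℝ γ q v) = 0 := by
    intro q hq v
    obtain ⟨hqU, _, _, h8⟩ := hfacts q hq
    obtain ⟨g, hg, -⟩ := h8 v
    have hle : LinearMap.ker (fderiv ℝ ν (γ q) : F →ₗ[ℝ] W) ≤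
        LinearMap.ker ((σ.comp (fderiv ℝ ν (γ q)) : F →L[ℝ] F) : F →ₗ[ℝ] F) := by
      intro x hx
      rw [LinearMap.mem_ker] at hx ⊢
      have hx' : fderiv ℝ ν (γ q) x = 0 := hx
      change σ (fderiv ℝ ν (γ q) x) = 0
      rw [hx', map_zero]
    have hfr : finrank ℝ (LinearMap.ker ((σ.comp (fderiv ℝ ν (γ q)) : F →L[ℝ] F) :
        F →ₗ[ℝ] F)) ≤ finrank ℝ (LinearMap.ker (fderiv ℝ ν (γ q) : F →ₗ[ℝ] W)) := by
      rw [hc _ hqU]
      refine LinearMap.finrank_le_finrank_of_injective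
        (f := (π : F →ₗ[ℝ] LinearMap.ker A).domRestrict _) ?_
      rw [← LinearMap.ker_eq_bot, LinearMap.ker_eq_bot']
      rintro ⟨x, hx⟩ hx'
      have hx1 : σ (fderiv ℝ ν (γ q) x) = 0 := hx
      have hx2 : π x = 0 := hx'
      have hx3 := hg x
      rw [hx1, hx2, map_zero, add_zero] at hx3
      have hx4 : x = 0 := by
        rw [← map_zero g] at hx3
        exact g.injective hx3
      subst hx4
      rfl
    have heq := Submodule.eq_of_le_of_finrank_le hle hfr
    have hmem : fderiv ℝ γ q v ∈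
        LinearMap.ker ((σ.comp (fderiv ℝ ν (γ q)) : F →L[ℝ] F) : F →ₗ[ℝ] F) := (hinj q hq v).2
    rw [← heq] at hmem
    exact hmem
  have h0r : (0 : LinearMap.ker A) ∈ Metric.ball (0 : LinearMap.ker A) r :=
    Metric.mem_ball_self hr
  refine ⟨Metric.ball 0 r, γ, Metric.isOpen_ball, h0r, hγ0, ?_, ?_⟩
  · intro q hq
    obtain ⟨hqU, hsmq, _, _⟩ := hfacts q hq
    refine ⟨hsmq, hqU, ?_, ?_⟩
    · have hdiff : ∀ q ∈ Metric.ball (0 : LinearMap.ker A) r,
          HasFDerivAt (fun q => ν (γ q)) ((fderiv ℝ ν (γ q)).comp (fderiv ℝ γ q)) q := by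
        intro q hq
        obtain ⟨hqU, hsmq, _, _⟩ := hfacts q hq
        exact (((hν _ hqU).differentiableAt hn0).hasFDerivAt).comp q
          (hsmq.differentiableAt hn0).hasFDerivAt
      have hconst := Metric.isOpen_ball.is_const_of_fderiv_eq_zero (𝕜 := ℝ)
        (f := fun q : LinearMap.ker A => ν (γ q)) (s := Metric.ball (0 : LinearMap.ker A) r)
        (convex_ball _ _).isPreconnected
        (fun q hq => (hdiff q hq).differentiableAt.differentiableWithinAt)
        (fun q hq => by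
          rw [(hdiff q hq).fderiv]
          ext v
          exact hkill q hq v) hq h0r
      rw [hγ0] at hconst
      exact hconst
    · intro x y hxy
      rw [← (hinj q hq x).1, ← (hinj q hq y).1, hxy]
  · intro v
    have h5 := (hinj 0 h0r v)
    rw [hγ0, ← hA'] at h5
    have h6 := h3 (fderiv ℝ γ 0 v)
    rw [h5.1, h5.2, add_zero] at h6
    exact h6.symm

end Pool.Agent.Helper60.LX
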