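import Pool.Agent.Helper60.LX.Point
import Pool.Agent.Helper60.LX.ConstRank

/-!
# Project LX: the case lam = 0, Rsp = h

PROOF. Ξ (p, p', p'') = x 0 p * (x 0 p')⁻¹ * (x 1 p' * (x 1 p'')⁻¹) * (x 2 p'' * (x 2 p)⁻¹) on U × U × U in
F × F × F, Ξ = 1 at P₀ = (p₀, p₀, p₀). By dl_mul, dl_comp (and 0 = dl (x⁻¹ * x): dl x⁻¹ = - Ad x⁻¹ dl x) its
logarithmic derivative has values in h (Ad (x i p) and Ad (x i p)⁻¹ map h into h), and at P₀ it is
(X, X', X'') ↦ (ζ0 - ζ2) (X - X') + (ζ1 - ζ2) (X' - X''), whose range is Rsp = h. Let ξ = κ ∘ Ξ: by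
κ_smooth it is C^∞ at P₀, so C^1 on a neighbourhood; by κ_ker finrank ker (fderiv ξ P) =
finrank ker (dl Ξ P) = 3n - rank (dl Ξ P), and rank (dl Ξ P) ≤ finrank h, with equality at P₀, hence near
P₀ (lower semicontinuity of the rank: r vectors whose images are independent at P₀; dl_smooth gives
continuity). CONST_RANK_FIBER with n = 1: γ : K → F × F × F, K = ker (fderiv ξ P₀) = ker (dl Ξ P₀),
finrank K = 3 n - finrank h, κ (Ξ (γ q)) = κ 1, so Ξ (γ q) = 1 near 0 (κ_eq), so by tpp m 0 (γ1 q) =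
m 0 (γ2 q), m 1 (γ2 q) = m 1 (γ3 q), m 2 (γ3 q) = m 2 (γ1 q); derivative at 0 (fderiv γ 0 v = v): for all
(X, X', X'') ∈ K: Dm0 (X - X') = 0, Dm1 (X' - X'') = 0, Dm2 (X'' - X) = 0, Dmi = fderiv (m i) p₀. The map
K → F × F, (X, X', X'') ↦ (X, X - 2 X' + X'') is injective: if X = 0 and X - 2X' + X'' = 0 then
A := X - X' = X' - X'' satisfies Dm0 A = Dm1 A = 0, Dm2 (2A) = 0, so A = 0 by imm (fderiv lam p₀ = 0 on h
since lam = 0 on h on U). So 3 n - finrank h ≤ 2 n.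
-/

open scoped ContDiff Topology
open Module

noncomputable section

namespace Pool.Agent.Helper60.LX

variable {G : Type} [Group G] {E : Type} [NormedAddCommGroup E] [NormedSpace ℝ E]
  {C : Calc G E} {h : Submodule ℝ E} {F : Type} [NormedAddCommGroup F] [NormedSpace ℝ F]
  {L : Type} [NormedAddCommGroup L] [NormedSpace ℝ L]

private theorem dl_inv_aux {F : Type} [NormedAddCommGroup F] [NormedSpace ℝ F] {x : F → G} {p : F}
    (hx : C.Sm x p) :
    C.dl (fun q => (x q)⁻¹) p = -((C.Ad (x p)⁻¹).comp (C.dl x p)) := by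
  have h1 := C.dl_mul (C.sm_inv hx) hx
  have h2 : (fun q => (x q)⁻¹ * x q) = fun _ : F => (1 : G) := by
    funext q; simp
  rw [h2, C.dl_const] at h1
  exact eq_neg_of_add_eq_zero_left h1.symm

private theorem dl_div_aux {F : Type} [NormedAddCommGroup F] [NormedSpace ℝ F] {x y : F → G} {p : F}
    (hx : C.Sm x p) (hy : C.Sm y p) (X : F) :
    C.dl (fun q => x q * (y q)⁻¹) p X =
      C.dl x p X - C.Ad (x p * (y p)⁻¹) (C.dl y p X) := by
  rw [C.dl_mul hx (C.sm_inv hy), dl_inv_aux hy, C.Ad_mul]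
  simp [sub_eq_add_neg]

private theorem ad_inv_mem [FiniteDimensional ℝ E] (S : Sys C h F L) (i : Fin 3) {p : F}
    (hp : p ∈ S.U) {w : E} (hw : w ∈ h) : C.Ad (S.x i p)⁻¹ w ∈ h := by
  have hinv : ∀ u : E, C.Ad (S.x i p)⁻¹ (C.Ad (S.x i p) u) = u := by
    intro u
    have := C.Ad_mul (S.x i p)⁻¹ (S.x i p)
    rw [inv_mul_cancel, C.Ad_one] at this
    have h2 := congrArg (fun T : E →L[ℝ] E => T u) this
    simpa using h2.symm
  let T : h →ₗ[ℝ] h :=
    ((C.Ad (S.x i p) : E →L[ℝ] E) : E →ₗ[ℝ] E).restrict (fun u hu => S.ad i p hp u hu)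
  have hT : Function.Injective T := by
    intro a b hab
    have h1 : C.Ad (S.x i p) (a : E) = C.Ad (S.x i p) (b : E) := congrArg Subtype.val hab
    have h2 := congrArg (C.Ad (S.x i p)⁻¹) h1
    rw [hinv, hinv] at h2
    exact Subtype.ext h2
  obtain ⟨w', hw'⟩ := (LinearMap.injective_iff_surjective.mp hT) ⟨w, hw⟩
  have h3 : C.Ad (S.x i p) (w' : E) = w := congrArg Subtype.val hw'
  rw [← h3, hinv]
  exact w'.2

/-- The product map on `F × F × F`. -/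
private def Xi (S : Sys C h F L) (P : F × F × F) : G :=
  S.x 0 P.1 * (S.x 0 P.2.1)⁻¹ * (S.x 1 P.2.1 * (S.x 1 P.2.2)⁻¹) *
    (S.x 2 P.2.2 * (S.x 2 P.1)⁻¹)

private theorem cd1 (P : F × F × F) : ContDiffAt ℝ ∞ (fun Q : F × F × F => Q.1) P :=
  contDiffAt_fst

private theorem cd2 (P : F × F × F) : ContDiffAt ℝ ∞ (fun Q : F × F × F => Q.2.1) P :=
  contDiffAt_fst.comp P contDiffAt_snd

private theorem cd3 (P : F × F × F) : ContDiffAt ℝ ∞ (fun Q : F × F × F => Q.2.2) P :=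
  contDiffAt_snd.comp P contDiffAt_snd

private theorem fd1 (P X : F × F × F) : fderiv ℝ (fun Q : F × F × F => Q.1) P X = X.1 := by
  rw [show (fun Q : F × F × F => Q.1) = ⇑(ContinuousLinearMap.fst ℝ F (F × F)) from rfl,
    ContinuousLinearMap.fderiv]
  rfl

private theorem fd2 (P X : F × F × F) : fderiv ℝ (fun Q : F × F × F => Q.2.1) P X = X.2.1 := by
  rw [show (fun Q : F × F × F => Q.2.1) =
    ⇑((ContinuousLinearMap.fst ℝ F F).comp (ContinuousLinearMap.snd ℝ F (F × F))) from rfl,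
    ContinuousLinearMap.fderiv]
  rfl

private theorem fd3 (P X : F × F × F) : fderiv ℝ (fun Q : F × F × F => Q.2.2) P X = X.2.2 := by
  rw [show (fun Q : F × F × F => Q.2.2) =
    ⇑((ContinuousLinearMap.snd ℝ F F).comp (ContinuousLinearMap.snd ℝ F (F × F))) from rfl,
    ContinuousLinearMap.fderiv]
  rfl

section
variable (S : Sys C h F L)

private theorem smA (i : Fin 3) {P : F × F × F} (h1 : P.1 ∈ S.U) :
    C.Sm (fun Q : F × F × F => S.x i Q.1) P := C.sm_comp (S.sm i _ h1) (cd1 P)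

private theorem smB (i : Fin 3) {P : F × F × F} (h1 : P.2.1 ∈ S.U) :
    C.Sm (fun Q : F × F × F => S.x i Q.2.1) P := C.sm_comp (S.sm i _ h1) (cd2 P)

private theorem smC (i : Fin 3) {P : F × F × F} (h1 : P.2.2 ∈ S.U) :
    C.Sm (fun Q : F × F × F => S.x i Q.2.2) P := C.sm_comp (S.sm i _ h1) (cd3 P)

private theorem dlA (i : Fin 3) {P : F × F × F} (h1 : P.1 ∈ S.U) (X : F × F × F) :
    C.dl (fun Q : F × F × F => S.x i Q.1) P X = C.dl (S.x i) P.1 X.1 := by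
  have h2 := C.dl_comp (x := S.x i) (f := fun Q : F × F × F => Q.1) (p := P)
    (S.sm i _ h1) (cd1 P)
  rw [h2, ContinuousLinearMap.comp_apply, fd1]

private theorem dlB (i : Fin 3) {P : F × F × F} (h1 : P.2.1 ∈ S.U) (X : F × F × F) :
    C.dl (fun Q : F × F × F => S.x i Q.2.1) P X = C.dl (S.x i) P.2.1 X.2.1 := by
  have h2 := C.dl_comp (x := S.x i) (f := fun Q : F × F × F => Q.2.1) (p := P)
    (S.sm i _ h1) (cd2 P)
  rw [h2, ContinuousLinearMap.comp_apply, fd2]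

private theorem dlC (i : Fin 3) {P : F × F × F} (h1 : P.2.2 ∈ S.U) (X : F × F × F) :
    C.dl (fun Q : F × F × F => S.x i Q.2.2) P X = C.dl (S.x i) P.2.2 X.2.2 := by
  have h2 := C.dl_comp (x := S.x i) (f := fun Q : F × F × F => Q.2.2) (p := P)
    (S.sm i _ h1) (cd3 P)
  rw [h2, ContinuousLinearMap.comp_apply, fd3]

private theorem sm_Xi {P : F × F × F} (h1 : P.1 ∈ S.U) (h2 : P.2.1 ∈ S.U) (h3 : P.2.2 ∈ S.U) :
    C.Sm (Xi S) P :=
  C.sm_mul (C.sm_mul (C.sm_mul (smA S 0 h1) (C.sm_inv (smB S 0 h2)))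
    (C.sm_mul (smB S 1 h2) (C.sm_inv (smC S 1 h3))))
    (C.sm_mul (smC S 2 h3) (C.sm_inv (smA S 2 h1)))

private theorem dl_Xi {P : F × F × F} (h1 : P.1 ∈ S.U) (h2 : P.2.1 ∈ S.U) (h3 : P.2.2 ∈ S.U)
    (X : F × F × F) :
    C.dl (Xi S) P X =
      (C.dl (S.x 0) P.1 X.1 - C.Ad (S.x 0 P.1 * (S.x 0 P.2.1)⁻¹) (C.dl (S.x 0) P.2.1 X.2.1)) +
      C.Ad (S.x 0 P.1 * (S.x 0 P.2.1)⁻¹)
        (C.dl (S.x 1) P.2.1 X.2.1 -
          C.Ad (S.x 1 P.2.1 * (S.x 1 P.2.2)⁻¹) (C.dl (S.x 1) P.2.2 X.2.2)) +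
      C.Ad (S.x 0 P.1 * (S.x 0 P.2.1)⁻¹ * (S.x 1 P.2.1 * (S.x 1 P.2.2)⁻¹))
        (C.dl (S.x 2) P.2.2 X.2.2 -
          C.Ad (S.x 2 P.2.2 * (S.x 2 P.1)⁻¹) (C.dl (S.x 2) P.1 X.1)) := by
  have a1 := C.sm_mul (smA S 0 h1) (C.sm_inv (smB S 0 h2))
  have a2 := C.sm_mul (smB S 1 h2) (C.sm_inv (smC S 1 h3))
  have a3 := C.sm_mul (smC S 2 h3) (C.sm_inv (smA S 2 h1))
  have e1 := C.dl_mul (C.sm_mul a1 a2) a3
  have e2 := C.dl_mul a1 a2
  have e0 : C.dl (Xi S) P = _ := e1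
  rw [e0, e2]
  simp only [ContinuousLinearMap.add_apply, ContinuousLinearMap.comp_apply]
  rw [dl_div_aux (smA S 0 h1) (smB S 0 h2), dl_div_aux (smB S 1 h2) (smC S 1 h3),
    dl_div_aux (smC S 2 h3) (smA S 2 h1), dlA S 0 h1, dlB S 0 h2, dlB S 1 h2, dlC S 1 h3,
    dlC S 2 h3, dlA S 2 h1]

private theorem dl_Xi_mem [FiniteDimensional ℝ E] {P : F × F × F} (h1 : P.1 ∈ S.U)
    (h2 : P.2.1 ∈ S.U) (h3 : P.2.2 ∈ S.U) (X : F × F × F) : C.dl (Xi S) P X ∈ h := by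
  have key : ∀ (i : Fin 3) {a b : F}, a ∈ S.U → b ∈ S.U → ∀ w ∈ h,
      C.Ad (S.x i a * (S.x i b)⁻¹) w ∈ h := by
    intro i a b ha hb w hw
    rw [C.Ad_mul]
    exact S.ad i a ha _ (ad_inv_mem S i hb hw)
  rw [dl_Xi S h1 h2 h3]
  refine h.add_mem (h.add_mem (h.sub_mem (S.val 0 _ h1 _) (key 0 h1 h2 _ (S.val 0 _ h2 _)))
    (key 0 h1 h2 _ (h.sub_mem (S.val 1 _ h2 _) (key 1 h2 h3 _ (S.val 1 _ h3 _))))) ?_
  rw [C.Ad_mul]
  exact key 0 h1 h2 _ (key 1 h2 h3 _ (h.sub_mem (S.val 2 _ h3 _) (key 2 h3 h1 _ (S.val 2 _ h1 _))))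

private theorem dl_Xi_diag {p₀ : F} (hp : p₀ ∈ S.U) (X : F × F × F) :
    C.dl (Xi S) (p₀, p₀, p₀) X =
      (C.dl (S.x 0) p₀ - C.dl (S.x 2) p₀) (X.1 - X.2.1) +
      (C.dl (S.x 1) p₀ - C.dl (S.x 2) p₀) (X.2.1 - X.2.2) := by
  rw [dl_Xi S (P := (p₀, p₀, p₀)) hp hp hp]
  simp only [mul_inv_cancel, mul_one, C.Ad_one, ContinuousLinearMap.id_apply,
    ContinuousLinearMap.sub_apply, map_sub]
  abel

end

private theorem case_A_end [FiniteDimensional ℝ E] [FiniteDimensional ℝ F] (S : Sys C h F L)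
    (hl : ∀ p ∈ S.U, ∀ w ∈ h, S.lam p w = 0) {p₀ : F} (hp : p₀ ∈ S.U)
    (K : Submodule ℝ (F × F × F)) (hKfin : finrank ℝ K + finrank ℝ h = finrank ℝ (F × F × F))
    (V : Set K) (γ : K → F × F × F) (hVo : IsOpen V) (h0V : (0 : K) ∈ V)
    (hγ0 : γ 0 = (p₀, p₀, p₀)) (hγ1 : ContDiffAt ℝ 1 γ 0)
    (hγd : ∀ v : K, fderiv ℝ γ 0 v = (v : F × F × F))
    (hlab : ∀ q ∈ V, S.m 0 (γ q).1 = S.m 0 (γ q).2.1 ∧ S.m 1 (γ q).2.1 = S.m 1 (γ q).2.2 ∧
      S.m 2 (γ q).2.2 = S.m 2 (γ q).1) : finrank ℝ F ≤ finrank ℝ h := by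
  have hVn : V ∈ 𝓝 (0 : K) := hVo.mem_nhds h0V
  have hγdiff : HasFDerivAt γ (fderiv ℝ γ 0) 0 :=
    (hγ1.differentiableAt (by simp)).hasFDerivAt
  have hsubt : fderiv ℝ γ 0 = K.subtypeL := by
    ext1 w
    exact hγd w
  rw [hsubt] at hγdiff
  have hmd : ∀ i, HasFDerivAt (S.m i) (fderiv ℝ (S.m i) p₀) p₀ := fun i =>
    ((S.msm i p₀ hp).differentiableAt (by simp)).hasFDerivAt
  have hd1 : ∀ i, HasFDerivAt (fun q => S.m i (γ q).1)
      ((fderiv ℝ (S.m i) p₀).comp ((ContinuousLinearMap.fst ℝ F (F × F)).comp K.subtypeL))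
      (0 : K) := by
    intro i
    have h1 : HasFDerivAt (fun q => (γ q).1)
      ((ContinuousLinearMap.fst ℝ F (F × F)).comp K.subtypeL) (0 : K) := hγdiff.fst
    have h2 : HasFDerivAt (S.m i) (fderiv ℝ (S.m i) p₀) ((fun q => (γ q).1) (0 : K)) := by
      show HasFDerivAt (S.m i) (fderiv ℝ (S.m i) p₀) (γ 0).1
      rw [hγ0]; exact hmd i
    exact h2.comp (0 : K) h1
  have hd2 : ∀ i, HasFDerivAt (fun q => S.m i (γ q).2.1)
      ((fderiv ℝ (S.m i) p₀).comp ((ContinuousLinearMap.fst ℝ F F).comp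
        ((ContinuousLinearMap.snd ℝ F (F × F)).comp K.subtypeL)))
      (0 : K) := by
    intro i
    have h1 : HasFDerivAt (fun q => (γ q).2.1)
      ((ContinuousLinearMap.fst ℝ F F).comp
        ((ContinuousLinearMap.snd ℝ F (F × F)).comp K.subtypeL)) (0 : K) := hγdiff.snd.fst
    have h2 : HasFDerivAt (S.m i) (fderiv ℝ (S.m i) p₀) ((fun q => (γ q).2.1) (0 : K)) := by
      show HasFDerivAt (S.m i) (fderiv ℝ (S.m i) p₀) (γ 0).2.1
      rw [hγ0]; exact hmd i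
    exact h2.comp (0 : K) h1
  have hd3 : ∀ i, HasFDerivAt (fun q => S.m i (γ q).2.2)
      ((fderiv ℝ (S.m i) p₀).comp ((ContinuousLinearMap.snd ℝ F F).comp
        ((ContinuousLinearMap.snd ℝ F (F × F)).comp K.subtypeL)))
      (0 : K) := by
    intro i
    have h1 : HasFDerivAt (fun q => (γ q).2.2)
      ((ContinuousLinearMap.snd ℝ F F).comp
        ((ContinuousLinearMap.snd ℝ F (F × F)).comp K.subtypeL)) (0 : K) := hγdiff.snd.snd
    have h2 : HasFDerivAt (S.m i) (fderiv ℝ (S.m i) p₀) ((fun q => (γ q).2.2) (0 : K)) := by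
      show HasFDerivAt (S.m i) (fderiv ℝ (S.m i) p₀) (γ 0).2.2
      rw [hγ0]; exact hmd i
    exact h2.comp (0 : K) h1
  have hD0 : ∀ w : K, fderiv ℝ (S.m 0) p₀ (w : F × F × F).1 =
      fderiv ℝ (S.m 0) p₀ (w : F × F × F).2.1 := by
    intro w
    have h1 : (fun q => S.m 0 (γ q).1) =ᶠ[𝓝 (0 : K)] fun q => S.m 0 (γ q).2.1 := by
      filter_upwards [hVn] with q hq using (hlab q hq).1
    have h2 := (hd1 0).unique ((hd2 0).congr_of_eventuallyEq h1)
    exact congrArg (fun T : K →L[ℝ] L => T w) h2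
  have hD1 : ∀ w : K, fderiv ℝ (S.m 1) p₀ (w : F × F × F).2.1 =
      fderiv ℝ (S.m 1) p₀ (w : F × F × F).2.2 := by
    intro w
    have h1 : (fun q => S.m 1 (γ q).2.1) =ᶠ[𝓝 (0 : K)] fun q => S.m 1 (γ q).2.2 := by
      filter_upwards [hVn] with q hq using (hlab q hq).2.1
    have h2 := (hd2 1).unique ((hd3 1).congr_of_eventuallyEq h1)
    exact congrArg (fun T : K →L[ℝ] L => T w) h2
  have hD2 : ∀ w : K, fderiv ℝ (S.m 2) p₀ (w : F × F × F).2.2 =
      fderiv ℝ (S.m 2) p₀ (w : F × F × F).1 := by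
    intro w
    have h1 : (fun q => S.m 2 (γ q).2.2) =ᶠ[𝓝 (0 : K)] fun q => S.m 2 (γ q).1 := by
      filter_upwards [hVn] with q hq using (hlab q hq).2.2
    have h2 := (hd3 2).unique ((hd1 2).congr_of_eventuallyEq h1)
    exact congrArg (fun T : K →L[ℝ] L => T w) h2
  -- the derivative of lam vanishes on h
  have hlam : ∀ X : F, ∀ w ∈ h, fderiv ℝ S.lam p₀ X w = 0 := by
    intro X w hw
    have h1 : HasFDerivAt S.lam (fderiv ℝ S.lam p₀) p₀ :=
      ((S.lsm p₀ hp).differentiableAt (by simp)).hasFDerivAt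
    have h2 := h1.clm_apply (hasFDerivAt_const w p₀)
    have h3 : (fun q => S.lam q w) =ᶠ[𝓝 p₀] fun _ => (0 : ℝ) := by
      filter_upwards [S.isOpen.mem_nhds hp] with q hq using hl q hq w hw
    have h4 := h2.unique ((hasFDerivAt_const (0 : ℝ) p₀).congr_of_eventuallyEq h3)
    have h5 := congrArg (fun T : F →L[ℝ] ℝ => T X) h4
    simpa using h5
  -- the injective map
  let T : K →ₗ[ℝ] F × F :=
    (LinearMap.prod (LinearMap.fst ℝ F (F × F))
      (LinearMap.fst ℝ F (F × F) - (2 : ℝ) • ((LinearMap.fst ℝ F F).comp (LinearMap.snd ℝ F (F × F)))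
        + (LinearMap.snd ℝ F F).comp (LinearMap.snd ℝ F (F × F)))).comp K.subtype
  have hTinj : Function.Injective T := by
    rw [← LinearMap.ker_eq_bot, LinearMap.ker_eq_bot']
    intro w hw
    have w1 : (w : F × F × F).1 = 0 := congrArg Prod.fst hw
    have w2 : (w : F × F × F).1 - (2 : ℝ) • (w : F × F × F).2.1 + (w : F × F × F).2.2 = 0 :=
      congrArg Prod.snd hw
    have w3 : (w : F × F × F).2.2 = (2 : ℝ) • (w : F × F × F).2.1 := by
      rw [w1, zero_sub] at w2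
      have := eq_neg_of_add_eq_zero_right w2
      rw [this, neg_neg]
    have m0 : fderiv ℝ (S.m 0) p₀ (w : F × F × F).2.1 = 0 := by
      rw [← hD0 w, w1, map_zero]
    have m2 : fderiv ℝ (S.m 2) p₀ (w : F × F × F).2.1 = 0 := by
      have := hD2 w
      rw [w1, map_zero, w3, map_smul] at this
      exact (smul_eq_zero.mp this).resolve_left (by norm_num)
    have m1 : fderiv ℝ (S.m 1) p₀ (w : F × F × F).2.1 = 0 := by
      have := hD1 w
      rw [w3, map_smul, two_smul] at this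
      exact (left_eq_add.mp this)
    have hall : ∀ i, fderiv ℝ (S.m i) p₀ (w : F × F × F).2.1 = 0 := by
      intro i
      fin_cases i
      · exact m0
      · exact m1
      · exact m2
    have z : (w : F × F × F).2.1 = 0 := (S.imm p₀ hp _ hall).2 (fun u hu => hlam _ u hu)
    apply Subtype.ext
    refine Prod.ext w1 (Prod.ext z ?_)
    rw [w3, z, smul_zero]
    rfl
  have hfin := LinearMap.finrank_le_finrank_of_injective hTinj
  have e1 := hKfin
  rw [Module.finrank_prod] at hfin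
  rw [Module.finrank_prod, Module.finrank_prod] at e1
  have e2 : finrank ℝ K + finrank ℝ h = finrank ℝ F + (finrank ℝ F + finrank ℝ F) := e1
  omega

theorem case_A [FiniteDimensional ℝ E] [FiniteDimensional ℝ F] (S : Sys C h F L)
    (hl : ∀ p ∈ S.U, ∀ w ∈ h, S.lam p w = 0) {p₀ : F} (hp : p₀ ∈ S.U)
    (hR : Rsp C S.x p₀ = h) : finrank ℝ F ≤ finrank ℝ h := by
  classical
  set P₀ : F × F × F := (p₀, p₀, p₀) with hP₀
  have hXi1 : Xi S P₀ = 1 := by simp [Xi, hP₀]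
  have hsm : C.Sm (Xi S) P₀ := sm_Xi S hp hp hp
  -- the range at P₀
  have hrange : LinearMap.range ((C.dl (Xi S) P₀ : F × F × F →L[ℝ] E) : F × F × F →ₗ[ℝ] E) = h := by
    apply le_antisymm
    · rintro _ ⟨X, rfl⟩
      exact dl_Xi_mem S (P := P₀) hp hp hp X
    · conv_lhs => rw [← hR]
      refine sup_le ?_ ?_
      · rintro _ ⟨X, rfl⟩
        refine ⟨(X, 0, 0), ?_⟩
        have := dl_Xi_diag S hp (X, 0, 0)
        simpa using this
      · rintro _ ⟨X, rfl⟩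
        refine ⟨(X, X, 0), ?_⟩
        have := dl_Xi_diag S hp (X, X, 0)
        simpa using this
  -- vectors with independent images
  obtain ⟨v, hv⟩ : ∃ v : Fin (finrank ℝ h) → F × F × F,
      LinearIndependent ℝ (fun j => C.dl (Xi S) P₀ (v j)) := by
    have b := Module.finBasis ℝ h
    have hmem : ∀ j, ∃ X : F × F × F, C.dl (Xi S) P₀ X = (b j : E) := by
      intro j
      have : (b j : E) ∈ LinearMap.range
          ((C.dl (Xi S) P₀ : F × F × F →L[ℝ] E) : F × F × F →ₗ[ℝ] E) := by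
        rw [hrange]; exact (b j).2
      obtain ⟨X, hX⟩ := this
      exact ⟨X, hX⟩
    choose v hv using hmem
    refine ⟨v, ?_⟩
    have h1 : (fun j => C.dl (Xi S) P₀ (v j)) = fun j => ((b j : h) : E) := funext hv
    rw [h1]
    have h2 := b.linearIndependent.map' h.subtype (Submodule.ker_subtype h)
    exact h2
  -- the good neighbourhood
  have hUU : ∀ᶠ P in 𝓝 P₀, P.1 ∈ S.U ∧ P.2.1 ∈ S.U ∧ P.2.2 ∈ S.U := by
    have o : IsOpen (S.U ×ˢ (S.U ×ˢ S.U)) := S.isOpen.prod (S.isOpen.prod S.isOpen)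
    have := o.mem_nhds (show P₀ ∈ S.U ×ˢ (S.U ×ˢ S.U) from ⟨hp, hp, hp⟩)
    filter_upwards [this] with P hP
    exact ⟨hP.1, hP.2.1, hP.2.2⟩
  have hLI : ∀ᶠ P in 𝓝 P₀, LinearIndependent ℝ (fun j => C.dl (Xi S) P (v j)) := by
    have hc : ContinuousAt (fun P => fun j => C.dl (Xi S) P (v j)) P₀ := by
      refine continuousAt_pi.mpr (fun j => ?_)
      exact ((C.dl_smooth hsm).continuousAt).clm_apply continuousAt_const
    exact hc.eventually (isOpen_setOf_linearIndependent.mem_nhds hv)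
  have hcd : ∀ᶠ P in 𝓝 P₀, ContDiffAt ℝ 1 (fun Q => C.κ (Xi S Q)) P := by
    have := (C.κ_smooth hsm hXi1).of_le (m := 1) (by exact_mod_cast le_top)
    exact this.eventually (by simp)
  have hker := C.κ_ker hsm hXi1
  have heq := C.κ_eq hsm hXi1
  have hall := hUU.and (hLI.and (hcd.and (hker.and heq)))
  obtain ⟨W, hW, hWo, hWP⟩ := eventually_nhds_iff.mp hall
  have hfr : ∀ P ∈ W, finrank ℝ (LinearMap.ker
      (fderiv ℝ (fun Q => C.κ (Xi S Q)) P : F × F × F →ₗ[ℝ] E)) + finrank ℝ h =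
      finrank ℝ (F × F × F) := by
    intro P hP
    obtain ⟨⟨a1, a2, a3⟩, a4, a5, a6, a7⟩ := hW P hP
    have e1 : LinearMap.ker (fderiv ℝ (fun Q => C.κ (Xi S Q)) P : F × F × F →ₗ[ℝ] E) =
        LinearMap.ker ((C.dl (Xi S) P : F × F × F →L[ℝ] E) : F × F × F →ₗ[ℝ] E) := by
      ext X
      simp only [LinearMap.mem_ker, ContinuousLinearMap.coe_coe]
      exact a6 X
    have e2 : LinearMap.range ((C.dl (Xi S) P : F × F × F →L[ℝ] E) : F × F × F →ₗ[ℝ] E) ≤ h := by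
      rintro _ ⟨X, rfl⟩
      exact dl_Xi_mem S a1 a2 a3 X
    have e3 : finrank ℝ h ≤ finrank ℝ (LinearMap.range
        ((C.dl (Xi S) P : F × F × F →L[ℝ] E) : F × F × F →ₗ[ℝ] E)) := by
      have h1 : LinearIndependent ℝ (fun j => (⟨C.dl (Xi S) P (v j), ⟨v j, rfl⟩⟩ :
          LinearMap.range ((C.dl (Xi S) P : F × F × F →L[ℝ] E) : F × F × F →ₗ[ℝ] E))) := by
        apply LinearIndependent.of_comp (LinearMap.range
          ((C.dl (Xi S) P : F × F × F →L[ℝ] E) : F × F × F →ₗ[ℝ] E)).subtype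
        exact a4
      simpa using h1.fintype_card_le_finrank
    have e4 := Submodule.finrank_mono e2
    have e5 := LinearMap.finrank_range_add_finrank_ker
      ((C.dl (Xi S) P : F × F × F →L[ℝ] E) : F × F × F →ₗ[ℝ] E)
    rw [e1]
    omega
  obtain ⟨V, γ, hVo, h0V, hγ0, hγ, hγd⟩ := const_rank_fiber (n := 1) (Or.inl rfl) hWo
    (ν := fun Q => C.κ (Xi S Q)) (fun P hP => (hW P hP).2.2.1) hWP
    (fun P hP => by have := hfr P hP; have := hfr P₀ hWP; omega)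
  refine case_A_end S hl hp _ (hfr P₀ hWP) V γ hVo h0V hγ0 (hγ 0 h0V).1 hγd ?_
  -- labels agree along γ
  intro q hq
  obtain ⟨b1, b2, b3, b4⟩ := hγ q hq
  obtain ⟨⟨a1, a2, a3⟩, a4, a5, a6, a7⟩ := hW _ b2
  have b5 : Xi S (γ q) = 1 := by
    apply a7.mp
    have : C.κ (Xi S (γ q)) = C.κ (Xi S P₀) := b3
    rw [this, hXi1]
  exact S.tpp _ a1 _ a2 _ a3 b5

end Pool.Agent.Helper60.LX
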