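import Pool.Agent.Helper60.LX.Calc

/-!
# Project LX: generic rank, a section of the annihilator

PROOFS. GENERIC_RANK: finrank (ker (A p)) ≤ finrank V; take p0 in U where finrank (ker (A p)) is minimal,
i.e. the rank r = finrank (range (A p)) is maximal; the rank is lower semicontinuous: choose vectors
v_1..v_r with A p0 v_j linearly independent and work in the finite dimensional space... W need not be
finite dimensional: use continuous linear functionals φ_i on W with det (φ_i (A p0 v_j)) ≠ 0 (Hahn-Banach: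
functionals on the span extend, or LinearIndependent is open, e.g. isOpen_setOf_linearIndependent in
Mathlib); so on an open U' containing p0, contained in U, the rank is ≥ r, hence = r.
ANN_SECTION: V0 a complement of ker (A p0) in V, Q : W → V0 linear with Q (A p0) = id on V0; w0 in W0 not
in range (A p0), μ0 : W → ℝ continuous linear with μ0 w0 = 1 and μ0 = 0 on range (A p0). The operator
T p = Q (A p) on V0 is smooth in p, T p0 = id, so invertible near p0, with smooth inverse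
(contDiffAt_map_inverse or Ring.inverse). μ p = μ0 - μ0 ∘ (A p on V0) ∘ (T p)⁻¹ ∘ Q. It vanishes on
A p V0, which is range (A p) near p0 (A p injective on V0, rank constant). μ p0 = μ0, μ p w0 ≠ 0 near p0.
-/

open scoped ContDiff Topology
open Module

noncomputable section

namespace Pool.Agent.Helper60.LX

theorem generic_rank {F V W : Type} [NormedAddCommGroup F] [NormedSpace ℝ F]
    [NormedAddCommGroup V] [NormedSpace ℝ V] [FiniteDimensional ℝ V]
    [NormedAddCommGroup W] [NormedSpace ℝ W] {U : Set F} (hU : IsOpen U) (hne : U.Nonempty)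
    (A : F → V →L[ℝ] W) (hA : ∀ p ∈ U, ∀ X, ContinuousAt (fun q => A q X) p) :
    ∃ U' : Set F, IsOpen U' ∧ U'.Nonempty ∧ U' ⊆ U ∧ ∀ p ∈ U', ∀ q ∈ U',
      finrank ℝ (LinearMap.ker (A p : V →ₗ[ℝ] W)) = finrank ℝ (LinearMap.ker (A q : V →ₗ[ℝ] W)) := by
  classical
  obtain ⟨p0, hp0, hmin⟩ : ∃ p0 ∈ U, ∀ q ∈ U,
      finrank ℝ (LinearMap.ker (A p0 : V →ₗ[ℝ] W)) ≤
        finrank ℝ (LinearMap.ker (A q : V →ₗ[ℝ] W)) := by
    have h := WellFounded.has_min (InvImage.wf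
      (fun p : F => finrank ℝ (LinearMap.ker (A p : V →ₗ[ℝ] W))) Nat.lt_wfRel.wf) U hne
    obtain ⟨p0, hp0, h0⟩ := h
    exact ⟨p0, hp0, fun q hq => not_lt.1 (h0 q hq)⟩
  let r := finrank ℝ (LinearMap.range (A p0 : V →ₗ[ℝ] W))
  let b : Basis (Fin r) ℝ (LinearMap.range (A p0 : V →ₗ[ℝ] W)) := finBasis ℝ _
  have hv : ∀ j : Fin r, ∃ v : V, A p0 v = (b j : W) := fun j => by
    obtain ⟨v, hv⟩ := (b j).2
    exact ⟨v, hv⟩
  choose v hv using hv
  have hli : LinearIndependent ℝ (fun j => A p0 (v j)) := by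
    have h1 : LinearIndependent ℝ (fun j => (b j : W)) :=
      b.linearIndependent.map' (LinearMap.range (A p0 : V →ₗ[ℝ] W)).subtype
        (Submodule.ker_subtype _)
    have h2 : (fun j => A p0 (v j)) = fun j => (b j : W) := funext hv
    rw [h2]
    exact h1
  have hcont : ContinuousAt (fun q => fun j : Fin r => A q (v j)) p0 :=
    continuousAt_pi.2 fun j => hA p0 hp0 (v j)
  have hev : ∀ᶠ q in 𝓝 p0, LinearIndependent ℝ (fun j => A q (v j)) := by
    have hop : IsOpen {f : Fin r → W | LinearIndependent ℝ f} := isOpen_setOfPred_linearIndependent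
    exact hcont.eventually (hop.mem_nhds hli)
  obtain ⟨t, ht, hto, hpt⟩ := mem_nhds_iff.1 (Filter.inter_mem hev (hU.mem_nhds hp0))
  have hkey : ∀ q ∈ t, finrank ℝ (LinearMap.ker (A q : V →ₗ[ℝ] W)) =
      finrank ℝ (LinearMap.ker (A p0 : V →ₗ[ℝ] W)) := by
    intro q hq
    have hq1 : LinearIndependent ℝ (fun j => A q (v j)) := (ht hq).1
    have hq2 : q ∈ U := (ht hq).2
    have h3 : r ≤ finrank ℝ (LinearMap.range (A q : V →ₗ[ℝ] W)) := by
      have h4 : LinearIndependent ℝ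
          (fun j => (⟨A q (v j), ⟨v j, rfl⟩⟩ : LinearMap.range (A q : V →ₗ[ℝ] W))) := by
        refine LinearIndependent.of_comp (LinearMap.range (A q : V →ₗ[ℝ] W)).subtype ?_
        exact hq1
      have h5 := h4.fintype_card_le_finrank
      simpa using h5
    have h6 := LinearMap.finrank_range_add_finrank_ker (A q : V →ₗ[ℝ] W)
    have h7 := LinearMap.finrank_range_add_finrank_ker (A p0 : V →ₗ[ℝ] W)
    have h8 := hmin q hq2
    have h9 : r = finrank ℝ (LinearMap.range (A p0 : V →ₗ[ℝ] W)) := rfl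
    omega
  exact ⟨t, hto, ⟨p0, hpt⟩, fun q hq => (ht hq).2, fun p hp q hq =>
    (hkey p hp).trans (hkey q hq).symm⟩

theorem ann_section {F V W : Type} [NormedAddCommGroup F] [NormedSpace ℝ F]
    [NormedAddCommGroup V] [NormedSpace ℝ V] [FiniteDimensional ℝ V]
    [NormedAddCommGroup W] [NormedSpace ℝ W] [FiniteDimensional ℝ W] {U : Set F} (hU : IsOpen U)
    {A : F → V →L[ℝ] W} (hA : ∀ p ∈ U, ContDiffAt ℝ ∞ A p) (W0 : Submodule ℝ W)
    (hW : ∀ p ∈ U, ∀ X, A p X ∈ W0)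
    (hc : ∀ p ∈ U, ∀ q ∈ U, finrank ℝ (LinearMap.ker (A p : V →ₗ[ℝ] W)) =
      finrank ℝ (LinearMap.ker (A q : V →ₗ[ℝ] W)))
    {p₀ : F} (hp : p₀ ∈ U) (hne : LinearMap.range (A p₀ : V →ₗ[ℝ] W) ≠ W0) :
    ∃ (U' : Set F) (μ : F → W →L[ℝ] ℝ), IsOpen U' ∧ p₀ ∈ U' ∧ U' ⊆ U ∧
      (∀ p ∈ U', ContDiffAt ℝ ∞ μ p) ∧ (∀ p ∈ U', ∀ X, μ p (A p X) = 0) ∧
      ∀ p ∈ U', ∃ w ∈ W0, μ p w ≠ 0 := by
  classical
  obtain ⟨V0, hV0⟩ := Submodule.exists_isCompl (LinearMap.ker (A p₀ : V →ₗ[ℝ] W))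
  have : CompleteSpace V0 := FiniteDimensional.complete ℝ V0
  let j : V0 →L[ℝ] V := V0.subtypeL
  have hinj0 : LinearMap.ker ((A p₀).comp j : V0 →ₗ[ℝ] W) = ⊥ := by
    rw [LinearMap.ker_eq_bot']
    intro x hx
    have h1 : (x : V) ∈ LinearMap.ker (A p₀ : V →ₗ[ℝ] W) := by
      rw [LinearMap.mem_ker]
      exact hx
    have h2 : (x : V) ∈ LinearMap.ker (A p₀ : V →ₗ[ℝ] W) ⊓ V0 := ⟨h1, x.2⟩
    rw [hV0.inf_eq_bot] at h2
    exact Subtype.ext ((Submodule.mem_bot ℝ).1 h2)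
  obtain ⟨Q', hQ'⟩ := LinearMap.exists_leftInverse_of_injective
    ((A p₀).comp j : V0 →ₗ[ℝ] W) hinj0
  let Q : W →L[ℝ] V0 := LinearMap.toContinuousLinearMap Q'
  have hQ : ∀ x : V0, Q (A p₀ x) = x := fun x => by
    have := LinearMap.congr_fun hQ' x
    exact this
  let T : F → (V0 →L[ℝ] V0) := fun p => Q.comp ((A p).comp j)
  have hT0 : T p₀ = 1 := by
    ext x
    change ((Q (A p₀ x) : V0) : V) = x
    rw [hQ]
  have hTs : ∀ p ∈ U, ContDiffAt ℝ ∞ T p := fun p hp' =>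
    contDiffAt_const.clm_comp ((hA p hp').clm_comp contDiffAt_const)
  have hsub : LinearMap.range (A p₀ : V →ₗ[ℝ] W) ≤ W0 := by
    rintro _ ⟨X, rfl⟩
    exact hW p₀ hp X
  obtain ⟨w0, hw0, hw0'⟩ : ∃ w0 ∈ W0, w0 ∉ LinearMap.range (A p₀ : V →ₗ[ℝ] W) := by
    by_contra hcon
    push Not at hcon
    exact hne (le_antisymm hsub hcon)
  obtain ⟨μ', hμ1, hμ2⟩ := Submodule.exists_le_ker_of_notMem hw0'
  let μ0 : W →L[ℝ] ℝ := LinearMap.toContinuousLinearMap μ'
  have hμ0 : ∀ X, μ0 (A p₀ X) = 0 := fun X => by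
    have : (A p₀ X) ∈ LinearMap.ker μ' := hμ2 ⟨X, rfl⟩
    exact this
  have hμw : μ0 w0 ≠ 0 := hμ1
  let μ : F → W →L[ℝ] ℝ := fun p =>
    μ0 - (μ0.comp ((A p).comp j)).comp ((Ring.inverse (T p)).comp Q)
  have hunit : ∀ᶠ p in 𝓝 p₀, IsUnit (T p) := by
    have h1 : IsOpen {x : V0 →L[ℝ] V0 | IsUnit x} := Units.isOpen (R := V0 →L[ℝ] V0)
    have h2 : {x : V0 →L[ℝ] V0 | IsUnit x} ∈ 𝓝 (T p₀) := by
      rw [hT0]
      exact h1.mem_nhds isUnit_one
    exact (hTs p₀ hp).continuousAt.eventually h2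
  have hμs : ∀ p ∈ U, IsUnit (T p) → ContDiffAt ℝ ∞ μ p := by
    intro p hp' hu
    have h1 : ContDiffAt ℝ ∞ (fun q => Ring.inverse (T q)) p := by
      obtain ⟨u, hu⟩ := hu
      have h2 : ContDiffAt ℝ ∞ (Ring.inverse : (V0 →L[ℝ] V0) → (V0 →L[ℝ] V0)) (T p) := by
        rw [← hu]
        exact contDiffAt_ringInverse (R := V0 →L[ℝ] V0) ℝ u
      exact h2.comp p (hTs p hp')
    exact contDiffAt_const.sub ((contDiffAt_const.clm_comp
      ((hA p hp').clm_comp contDiffAt_const)).clm_comp (h1.clm_comp contDiffAt_const))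
  have hμp0 : μ p₀ w0 ≠ 0 := by
    have : μ p₀ w0 = μ0 w0 - μ0 (A p₀ (Ring.inverse (T p₀) (Q w0) : V0)) := rfl
    rw [this, hμ0, sub_zero]
    exact hμw
  have hnz : ∀ᶠ p in 𝓝 p₀, μ p w0 ≠ 0 := by
    have h1 : ContinuousAt (fun p => μ p w0) p₀ := by
      have h2 := (hμs p₀ hp (by rw [hT0]; exact isUnit_one)).continuousAt
      exact h2.clm_apply continuousAt_const
    exact h1.eventually_ne hμp0
  obtain ⟨t, ht, hto, hpt⟩ := mem_nhds_iff.1
    (Filter.inter_mem (Filter.inter_mem hunit hnz) (hU.mem_nhds hp))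
  refine ⟨t, μ, hto, hpt, fun q hq => (ht hq).2, fun p hpt' => hμs p (ht hpt').2 (ht hpt').1.1,
    ?_, fun p hpt' => ⟨w0, hw0, (ht hpt').1.2⟩⟩
  intro p hpt' X
  have hpU : p ∈ U := (ht hpt').2
  have hu : IsUnit (T p) := (ht hpt').1.1
  have hST : ∀ x : V0, Ring.inverse (T p) (T p x) = x := fun x => by
    have h1 := Ring.inverse_mul_cancel (T p) hu
    have h2 := DFunLike.congr_fun h1 x
    exact h2
  have hinj : Function.Injective ((A p).comp j : V0 →ₗ[ℝ] W) := by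
    intro x y hxy
    have h1 : T p x = T p y := by
      change Q (((A p).comp j) x) = Q (((A p).comp j) y)
      exact congrArg Q hxy
    rw [← hST x, h1, hST y]
  have hrange : LinearMap.range ((A p).comp j : V0 →ₗ[ℝ] W) =
      LinearMap.range (A p : V →ₗ[ℝ] W) := by
    apply Submodule.eq_of_le_of_finrank_eq
    · rintro _ ⟨x, rfl⟩
      exact ⟨x, rfl⟩
    · rw [LinearMap.finrank_range_of_inj hinj]
      have h6 := LinearMap.finrank_range_add_finrank_ker (A p : V →ₗ[ℝ] W)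
      have h7 := Submodule.finrank_add_eq_of_isCompl hV0
      have h8 := hc p hpU p₀ hp
      omega
  have hX : A p X ∈ LinearMap.range ((A p).comp j : V0 →ₗ[ℝ] W) := by
    rw [hrange]
    exact ⟨X, rfl⟩
  obtain ⟨x, hx⟩ := hX
  have hx' : A p x = A p X := hx
  rw [← hx']
  have h1 : μ p (A p x) = μ0 (A p x) - μ0 (A p (Ring.inverse (T p) (T p x) : V0)) := rfl
  rw [h1, hST, sub_self]

end Pool.Agent.Helper60.LX
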