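import Pool.Agent.Helper60.LX.Point
import Pool.Agent.Helper60.LX.Generic

/-!
# Project LX: restriction, normalisation, a nonvanishing form

PROOFS. EXISTS_NORM: x' i q = x i q * (x i p₀)⁻¹, everything else unchanged; dl_mul and dl_const give
dl (x' i) q = dl (x i) q for q in U (so dnAll is unchanged); Ad (x' i q) = Ad (x i q) ∘ Ad (x i p₀)⁻¹ preserves
h because Ad (x i p₀) maps h ONTO h (into h, injective, finite dimension); in tpp the products
x' i p * (x' i p')⁻¹ = x i p * (x i p')⁻¹.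
CASE_B: A p : F × F →L E, (X, Y) ↦ (ζ0 - ζ2) X + (ζ1 - ζ2) Y, ζ i = dl (x i) p (smooth in p by dl_smooth),
range (A p) = Rsp ≤ h (val), ≠ h. GENERIC_RANK, then ANN_SECTION with W0 = h give U', μ. New system on
F × ℝ: U'' = {(p, t) | p ∈ U', 0 < t}, x'' i (p, t) = x i p, m'' i (p, t) = m i p, lam'' (p, t) = t • μ p.
perp: μ p (ζ i X) = μ p (ζ 0 X) for i = 1, 2 from μ p (A p (X, Y)) = 0. dl (x'' i) (p, t) (X, τ) = ζ i X
(dl_comp with Prod.fst). imm: if fderiv (m'' i) (p,t) (X, τ) = fderiv (m i) p X = 0 for all i, then ζ i X = 0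
and X = 0 (imm of S and fderiv lam p = 0 on h, since lam = 0 on h near p); fderiv lam'' (p,t) (0, τ) =
τ • μ p, which is zero on h only if τ = 0.
-/

open scoped ContDiff Topology
open Module

noncomputable section

namespace Pool.Agent.Helper60.LX

variable {G : Type} [Group G] {E : Type} [NormedAddCommGroup E] [NormedSpace ℝ E]
  {C : Calc G E} {h : Submodule ℝ E} {F : Type} [NormedAddCommGroup F] [NormedSpace ℝ F]
  {L : Type} [NormedAddCommGroup L] [NormedSpace ℝ L]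

/-- Restriction of a system to a smaller open set. -/
def Sys.restr (S : Sys C h F L) (U' : Set F) (h1 : IsOpen U') (h2 : U'.Nonempty)
    (h3 : U' ⊆ S.U) : Sys C h F L where
  U := U'
  isOpen := h1
  nonempty := h2
  x := S.x
  m := S.m
  lam := S.lam
  sm i p hp := S.sm i p (h3 hp)
  msm i p hp := S.msm i p (h3 hp)
  lsm p hp := S.lsm p (h3 hp)
  tpp p hp p' hp' p'' hp'' := S.tpp p (h3 hp) p' (h3 hp') p'' (h3 hp'')
  val i p hp := S.val i p (h3 hp)
  ad i p hp := S.ad i p (h3 hp)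
  perp i p hp := S.perp i p (h3 hp)
  imm p hp := S.imm p (h3 hp)

theorem exists_norm [FiniteDimensional ℝ E] (S : Sys C h F L) {p₀ : F} (hp : p₀ ∈ S.U) :
    ∃ S' : Sys C h F L, S'.U = S.U ∧ S'.lam = S.lam ∧ (∀ i, S'.x i p₀ = 1) ∧
      ∀ p ∈ S.U, S'.dnAll p = S.dnAll p := by
  have hdl : ∀ i, ∀ p ∈ S.U, C.dl (fun q => S.x i q * (S.x i p₀)⁻¹) p = C.dl (S.x i) p := by
    intro i p hp'
    rw [C.dl_mul (S.sm i p hp') (C.sm_const _ p), C.dl_const]
    simp
  have hcanc : ∀ i, ∀ w, C.Ad (S.x i p₀)⁻¹ (C.Ad (S.x i p₀) w) = w := by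
    intro i w
    have h1 := congrArg (fun f : E →L[ℝ] E => f w) (C.Ad_mul (S.x i p₀)⁻¹ (S.x i p₀))
    rw [inv_mul_cancel, C.Ad_one] at h1
    exact h1.symm
  have hinv : ∀ i, ∀ w ∈ h, C.Ad (S.x i p₀)⁻¹ w ∈ h := by
    intro i w hw
    have h1 : h.map ((C.Ad (S.x i p₀) : E →L[ℝ] E) : E →ₗ[ℝ] E) = h := by
      apply Submodule.eq_of_le_of_finrank_eq
      · rintro _ ⟨u, hu, rfl⟩
        exact S.ad i p₀ hp u hu
      · refine (Submodule.equivMapOfInjective _ ?_ h).finrank_eq.symm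
        intro u v huv
        have h2 : C.Ad (S.x i p₀) u = C.Ad (S.x i p₀) v := huv
        rw [← hcanc i u, h2, hcanc i v]
    rw [← h1] at hw
    obtain ⟨u, hu, rfl⟩ := hw
    have h3 : C.Ad (S.x i p₀)⁻¹ (C.Ad (S.x i p₀) u) ∈ h := by
      rw [hcanc]
      exact hu
    exact h3
  refine ⟨{ U := S.U
            isOpen := S.isOpen
            nonempty := S.nonempty
            x := fun i q => S.x i q * (S.x i p₀)⁻¹
            m := S.m
            lam := S.lam
            sm := fun i p hp' => C.sm_mul (S.sm i p hp') (C.sm_const _ p)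
            msm := S.msm
            lsm := S.lsm
            tpp := ?_
            val := ?_
            ad := ?_
            perp := ?_
            imm := ?_ }, rfl, rfl, fun i => mul_inv_cancel _, ?_⟩
  · intro p hp1 p' hp2 p'' hp3 h1
    refine S.tpp p hp1 p' hp2 p'' hp3 (Eq.trans ?_ h1)
    group
  · intro i p hp' X
    rw [hdl i p hp']
    exact S.val i p hp' X
  · intro i p hp' w hw
    rw [C.Ad_mul]
    exact S.ad i p hp' _ (hinv i w hw)
  · intro i p hp' X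
    rw [hdl i p hp', hdl 0 p hp']
    exact S.perp i p hp' X
  · intro p hp' X hX
    obtain ⟨h1, h2⟩ := S.imm p hp' X hX
    refine ⟨fun i => ?_, h2⟩
    rw [hdl i p hp']
    exact h1 i
  · intro p hp'
    unfold Sys.dnAll Sys.dn
    simp only [hdl _ p hp']

theorem case_B [FiniteDimensional ℝ E] [FiniteDimensional ℝ F] (S : Sys C h F L)
    (hl : ∀ p ∈ S.U, ∀ w ∈ h, S.lam p w = 0) (hR : ∀ p ∈ S.U, Rsp C S.x p ≠ h) :
    ∃ S' : Sys C h (F × ℝ) L, ∀ p ∈ S'.U, ∃ w ∈ h, S'.lam p w ≠ 0 := by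
  set A : F → (F × F) →L[ℝ] E := fun p =>
    (C.dl (S.x 0) p - C.dl (S.x 2) p).comp (ContinuousLinearMap.fst ℝ F F) +
      (C.dl (S.x 1) p - C.dl (S.x 2) p).comp (ContinuousLinearMap.snd ℝ F F) with hA
  have hAapp : ∀ p X Y, A p (X, Y) = (C.dl (S.x 0) p X - C.dl (S.x 2) p X) +
      (C.dl (S.x 1) p Y - C.dl (S.x 2) p Y) := fun p X Y => rfl
  have hAs : ∀ p ∈ S.U, ContDiffAt ℝ ∞ A p := by
    intro p hp
    have h0 := C.dl_smooth (S.sm 0 p hp)
    have h1 := C.dl_smooth (S.sm 1 p hp)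
    have h2 := C.dl_smooth (S.sm 2 p hp)
    exact ((h0.sub h2).clm_comp contDiffAt_const).add ((h1.sub h2).clm_comp contDiffAt_const)
  have hArange : ∀ p, LinearMap.range (A p : (F × F) →ₗ[ℝ] E) = Rsp C S.x p := by
    intro p
    ext w
    unfold Rsp
    rw [Submodule.mem_sup]
    constructor
    · rintro ⟨⟨X, Y⟩, rfl⟩
      exact ⟨_, ⟨X, rfl⟩, _, ⟨Y, rfl⟩, (hAapp p X Y).symm⟩
    · rintro ⟨_, ⟨X, rfl⟩, _, ⟨Y, rfl⟩, rfl⟩
      exact ⟨(X, Y), hAapp p X Y⟩
  have hAh : ∀ p ∈ S.U, ∀ X, A p X ∈ h := by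
    rintro p hp ⟨X, Y⟩
    rw [hAapp]
    exact h.add_mem (h.sub_mem (S.val 0 p hp X) (S.val 2 p hp X))
      (h.sub_mem (S.val 1 p hp Y) (S.val 2 p hp Y))
  obtain ⟨U1, hU1, hne1, hsub1, hc⟩ := generic_rank S.isOpen S.nonempty A fun p hp X =>
    ((hAs p hp).continuousAt.clm_apply continuousAt_const)
  obtain ⟨p₀, hp₀⟩ := hne1
  obtain ⟨U2, μ, hU2, hp₀2, hsub2, hμs, hμA, hμ0⟩ := ann_section hU1 (fun p hp => hAs p (hsub1 hp)) h
    (fun p hp => hAh p (hsub1 hp)) hc hp₀ (by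
      rw [hArange]
      exact hR p₀ (hsub1 hp₀))
  have hsub : ∀ p ∈ U2, p ∈ S.U := fun p hp => hsub1 (hsub2 hp)
  have hdl : ∀ i, ∀ q : F × ℝ, q.1 ∈ U2 → ∀ X : F × ℝ,
      C.dl (fun q : F × ℝ => S.x i q.1) q X = C.dl (S.x i) q.1 X.1 := by
    intro i q hq X
    rw [C.dl_comp (f := Prod.fst) (S.sm i q.1 (hsub _ hq)) contDiffAt_fst, fderiv_fst]
    rfl
  have hμeq : ∀ p ∈ U2, ∀ i X, μ p (C.dl (S.x i) p X) = μ p (C.dl (S.x 0) p X) := by
    intro p hp i X
    have h2 : μ p (C.dl (S.x 0) p X) = μ p (C.dl (S.x 2) p X) := by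
      have h3 := hμA p hp (X, 0)
      rw [hAapp] at h3
      simp only [map_zero, sub_zero, add_zero, map_sub] at h3
      linarith
    have h1 : μ p (C.dl (S.x 1) p X) = μ p (C.dl (S.x 2) p X) := by
      have h3 := hμA p hp (0, X)
      rw [hAapp] at h3
      simp only [map_zero, sub_zero, zero_add, map_sub] at h3
      linarith
    fin_cases i
    · rfl
    · exact h1.trans h2.symm
    · exact h2.symm
  have hlam0 : ∀ p ∈ S.U, ∀ X, ∀ w ∈ h, fderiv ℝ S.lam p X w = 0 := by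
    intro p hp X w hw
    have h1 : HasFDerivAt S.lam (fderiv ℝ S.lam p) p :=
      ((S.lsm p hp).differentiableAt (by simp)).hasFDerivAt
    have h2 : HasFDerivAt (fun q => S.lam q w) ((fderiv ℝ S.lam p).flip w) p := by
      have := h1.clm_apply (hasFDerivAt_const w p)
      simpa using this
    have h3 : HasFDerivAt (fun q => S.lam q w) (0 : F →L[ℝ] ℝ) p := by
      refine (hasFDerivAt_const (0 : ℝ) p).congr_of_eventuallyEq ?_
      filter_upwards [S.isOpen.mem_nhds hp] with q hq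
      exact hl q hq w hw
    have h4 := congrArg (fun f : F →L[ℝ] ℝ => f X) (h2.unique h3)
    exact h4
  refine ⟨{ U := U2 ×ˢ Set.Ioi (0 : ℝ)
            isOpen := hU2.prod isOpen_Ioi
            nonempty := ⟨(p₀, 1), hp₀2, Set.mem_Ioi.2 one_pos⟩
            x := fun i q => S.x i q.1
            m := fun i q => S.m i q.1
            lam := fun q => q.2 • μ q.1
            sm := ?_
            msm := ?_
            lsm := ?_
            tpp := ?_
            val := ?_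
            ad := ?_
            perp := ?_
            imm := ?_ }, ?_⟩
  · intro i q hq
    exact C.sm_comp (S.sm i q.1 (hsub _ hq.1)) contDiffAt_fst
  · intro i q hq
    exact (S.msm i q.1 (hsub _ hq.1)).comp q contDiffAt_fst
  · intro q hq
    exact contDiffAt_snd.smul ((hμs q.1 hq.1).comp q contDiffAt_fst)
  · intro p hp p' hp' p'' hp'' h1
    exact S.tpp p.1 (hsub _ hp.1) p'.1 (hsub _ hp'.1) p''.1 (hsub _ hp''.1) h1
  · intro i q hq X
    rw [hdl i q hq.1]
    exact S.val i q.1 (hsub _ hq.1) X.1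
  · intro i q hq w hw
    exact S.ad i q.1 (hsub _ hq.1) w hw
  · intro i q hq X
    rw [hdl i q hq.1, hdl 0 q hq.1]
    show q.2 • μ q.1 (C.dl (S.x i) q.1 X.1) = q.2 • μ q.1 (C.dl (S.x 0) q.1 X.1)
    rw [hμeq q.1 hq.1]
  · intro q hq X hX
    have hpq : q.1 ∈ S.U := hsub _ hq.1
    have h1 : ∀ i, fderiv ℝ (S.m i) q.1 X.1 = 0 := by
      intro i
      have h2 := hX i
      have h3 : fderiv ℝ (fun q : F × ℝ => S.m i q.1) q =
          (fderiv ℝ (S.m i) q.1).comp (ContinuousLinearMap.fst ℝ F ℝ) :=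
        ((((S.msm i q.1 hpq).differentiableAt (by simp)).hasFDerivAt).comp q
          (hasFDerivAt_fst)).fderiv
      rw [h3] at h2
      exact h2
    obtain ⟨h4, h5⟩ := S.imm q.1 hpq X.1 h1
    refine ⟨fun i => by rw [hdl i q hq.1]; exact h4 i, fun h6 => ?_⟩
    have hX1 : X.1 = 0 := h5 fun w hw => hlam0 q.1 hpq X.1 w hw
    obtain ⟨w, hw, hw0⟩ := hμ0 q.1 hq.1
    have h7 : HasFDerivAt (fun q : F × ℝ => q.2 • μ q.1)
        (q.2 • (fderiv ℝ μ q.1).comp (ContinuousLinearMap.fst ℝ F ℝ) +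
          (ContinuousLinearMap.snd ℝ F ℝ).smulRight (μ q.1)) q :=
      (hasFDerivAt_snd).smul ((((hμs q.1 hq.1).differentiableAt (by simp)).hasFDerivAt).comp q
        (hasFDerivAt_fst))
    have h8 := h6 w hw
    rw [h7.fderiv] at h8
    have h9 : q.2 • (fderiv ℝ μ q.1 X.1) w + (X.2 • μ q.1) w = 0 := h8
    rw [hX1, map_zero] at h9
    have h10 : X.2 * μ q.1 w = 0 := by simpa using h9
    have h11 : X.2 = 0 := (mul_eq_zero.1 h10).resolve_right hw0
    exact Prod.ext hX1 h11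
  · intro q hq
    obtain ⟨w, hw, hw0⟩ := hμ0 q.1 hq.1
    refine ⟨w, hw, ?_⟩
    show q.2 • μ q.1 w ≠ 0
    exact smul_ne_zero (ne_of_gt hq.2) hw0

end Pool.Agent.Helper60.LX
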