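import Mathlib

/-!
# Project LX: Lie groups, triple product property, Lie exponent, index, reductive groups
-/

set_option autoImplicit false

open Set Filter Topology Manifold Module
open scoped Manifold ContDiff

noncomputable section

namespace Pool.Agent.Helper60.LX

/-- A real, finite-dimensional Lie group of positive dimension: a Hausdorff, second countable
smooth manifold `G` without boundary modelled on a finite-dimensional real normed space `E`,
with smooth multiplication and inversion. -/
structure RealLieGroup : Type 1 where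
  E : Type
  G : Type
  [normedAddCommGroup : NormedAddCommGroup E]
  [normedSpace : NormedSpace ℝ E]
  [finiteDimensional : FiniteDimensional ℝ E]
  [group : Group G]
  [topologicalSpace : TopologicalSpace G]
  [t2Space : T2Space G]
  [secondCountable : SecondCountableTopology G]
  [chartedSpace : ChartedSpace E G]
  [lieGroup : LieGroup 𝓘(ℝ, E) ∞ G]
  dim_pos : 0 < Module.finrank ℝ E

attribute [instance] RealLieGroup.normedAddCommGroup RealLieGroup.normedSpace
  RealLieGroup.finiteDimensional RealLieGroup.group RealLieGroup.topologicalSpace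
  RealLieGroup.t2Space RealLieGroup.secondCountable RealLieGroup.chartedSpace
  RealLieGroup.lieGroup

/-- The dimension of a Lie group. -/
def RealLieGroup.dim (K : RealLieGroup) : ℕ := Module.finrank ℝ K.E

instance (K : RealLieGroup) : LieGroup 𝓘(ℝ, K.E) (minSmoothness ℝ 3) K.G :=
  LieGroup.of_le (n := ∞) (by
    rw [minSmoothness_of_isRCLikeNormedField]
    exact ENat.LEInfty.out)

instance (K : RealLieGroup) : CompleteSpace K.E := FiniteDimensional.complete ℝ K.E

/-- The Lie algebra of a Lie group (left-invariant vector fields, as in Mathlib). -/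
abbrev RealLieGroup.lieAlg (K : RealLieGroup) : Type := GroupLieAlgebra 𝓘(ℝ, K.E) K.G

/-- `r` is the rank of the Lie group: the real dimension of a Cartan subalgebra
(nilpotent and self-normalizing) of its Lie algebra. -/
def HasRank (K : RealLieGroup) (r : ℕ) : Prop :=
  ∃ H : LieSubalgebra ℝ K.lieAlg, H.IsCartanSubalgebra ∧ Module.finrank ℝ H = r

/-- `Q(X) = {x x'⁻¹ : x, x' ∈ X}`. -/
def quotientSet {G : Type} [Group G] (X : Set G) : Set G :=
  {g | ∃ x ∈ X, ∃ x' ∈ X, g = x * x'⁻¹}

/-- The triple product property of three subsets of a group. -/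
def TripleProductProperty {G : Type} [Group G] (S T U : Set G) : Prop :=
  ∀ s ∈ quotientSet S, ∀ t ∈ quotientSet T, ∀ u ∈ quotientSet U,
    s * t * u = 1 → s = 1 ∧ t = 1 ∧ u = 1

/-- `X` is a (nonempty, embedded) smooth submanifold of dimension `m` of the Lie group `K`:
the image of a smooth embedding of a nonempty smooth manifold modelled on `ℝ^m`. -/
def IsSubmanifold (K : RealLieGroup) (m : ℕ) (X : Set K.G) : Prop :=
  ∃ (M : Type) (_ : TopologicalSpace M) (_ : ChartedSpace (EuclideanSpace ℝ (Fin m)) M)
    (_ : IsManifold (𝓡 m) ∞ M) (f : M → K.G),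
    Nonempty M ∧ IsSmoothEmbedding (𝓡 m) 𝓘(ℝ, K.E) ∞ f ∧ Set.range f = X

/-- The denominator `(m₁ + m₂ + m₃)/3 - (d - r)/2`. -/
def denom (d r m₁ m₂ m₃ : ℕ) : ℝ := ((m₁ : ℝ) + m₂ + m₃) / 3 - ((d : ℝ) - r) / 2

/-- The set of the numbers `r(G) / ((dim M₁ + dim M₂ + dim M₃)/3 - (dim G - r(G))/2)` over all
triples of submanifolds with the triple product property and positive denominator. -/
def exponentSet (K : RealLieGroup) : Set EReal :=
  {w | ∃ (r m₁ m₂ m₃ : ℕ) (M₁ M₂ M₃ : Set K.G), HasRank K r ∧
    IsSubmanifold K m₁ M₁ ∧ IsSubmanifold K m₂ M₂ ∧ IsSubmanifold K m₃ M₃ ∧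
    TripleProductProperty M₁ M₂ M₃ ∧ 0 < denom K.dim r m₁ m₂ m₃ ∧
    w = (((r : ℝ) / denom K.dim r m₁ m₂ m₃ : ℝ) : EReal)}

/-- The Lie exponent `ω(G)` (it is `+∞` when there is no admissible triple). -/
def lieExponent (K : RealLieGroup) : EReal := sInf (exponentSet K)

/-- The stabiliser of a linear form `φ` on the Lie algebra: all `y` with `φ [y, v] = 0` for
all `v`. -/
def stab (K : RealLieGroup) (φ : Module.Dual ℝ K.lieAlg) : Submodule ℝ K.lieAlg where
  carrier := {y | ∀ v : K.lieAlg, φ ⁅y, v⁆ = 0}
  add_mem' := by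
    intro a b ha hb v
    rw [add_lie, map_add, ha v, hb v, add_zero]
  zero_mem' := by
    intro v
    rw [zero_lie, map_zero]
  smul_mem' := by
    intro c a ha v
    rw [smul_lie, map_smul, ha v, smul_zero]

/-- The index of the Lie algebra: the smallest dimension of a stabiliser. -/
def RealLieGroup.index (K : RealLieGroup) : ℕ :=
  sInf (Set.range fun φ : Module.Dual ℝ K.lieAlg => finrank ℝ (stab K φ))

/-- The Lie group is reductive: its Lie algebra is the direct sum of its center and an ideal
whose Killing form is nondegenerate. -/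
def IsReductive (K : RealLieGroup) : Prop :=
  ∃ s : LieIdeal ℝ K.lieAlg, IsCompl (LieAlgebra.center ℝ K.lieAlg) s ∧ LieAlgebra.IsKilling ℝ s

/-- The Lie algebra of the Lie group is not abelian. -/
def IsNonabelian (K : RealLieGroup) : Prop := ∃ u v : K.lieAlg, ⁅u, v⁆ ≠ 0

end Pool.Agent.Helper60.LX
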