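import Mathlib

/-!
# Project LX: smooth maps with a smooth left inverse are embeddings

PROOF. Embedding (topological): f is continuous and has a left inverse g continuous at every
f x. Immersion at x: F = ch ∘ f : V → E (ch the chart at f x) is smooth near x, D = fderiv F x is
injective (chain rule with g ∘ ch⁻¹). e : V × C ≃ E with e (v, 0) = D v. The map
Ψ z = F (e⁻¹ z).1 + e (0, (e⁻¹ z).2) has derivative 1 at e (x, 0): inverse function theorem.
Codomain chart: ch followed by Ψ⁻¹; domain chart: the identity of a small neighbourhood.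
-/

open scoped ContDiff Topology Manifold
open Module Manifold

noncomputable section

namespace Pool.Agent.Helper60.LX

/-- The composition of a chart with a member of the groupoid is in the maximal atlas. -/
private theorem trans_mem_maximalAtlas {E : Type} [NormedAddCommGroup E] [NormedSpace ℝ E]
    {G : Type} [TopologicalSpace G] [ChartedSpace E G] [IsManifold 𝓘(ℝ, E) ∞ G]
    {c : OpenPartialHomeomorph G E} (hc : c ∈ atlas E G) {ψ : OpenPartialHomeomorph E E}
    (hψ : ψ ∈ contDiffGroupoid ∞ 𝓘(ℝ, E)) :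
    c.trans ψ ∈ IsManifold.maximalAtlas 𝓘(ℝ, E) ∞ G := by
  rw [IsManifold.mem_maximalAtlas_iff, mem_maximalAtlas_iff]
  intro e' he'
  constructor
  · rw [OpenPartialHomeomorph.trans_symm_eq_symm_trans_symm, OpenPartialHomeomorph.trans_assoc]
    exact StructureGroupoid.trans _ (StructureGroupoid.symm _ hψ)
      (HasGroupoid.compatible hc he')
  · rw [← OpenPartialHomeomorph.trans_assoc]
    exact StructureGroupoid.trans _ (HasGroupoid.compatible he' hc) hψ

/-- The inverse function theorem with smoothness of the inverse on an open set. -/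
private theorem exists_diffeo {E : Type} [NormedAddCommGroup E] [NormedSpace ℝ E]
    [FiniteDimensional ℝ E] {Ψ : E → E} {W : Set E} (hW : IsOpen W)
    (hΨ : ∀ z ∈ W, ContDiffAt ℝ ∞ Ψ z) {z : E} (hz : z ∈ W)
    (hd : HasFDerivAt Ψ (ContinuousLinearMap.id ℝ E) z) :
    ∃ ψ : OpenPartialHomeomorph E E, (∀ y, ψ y = Ψ y) ∧ z ∈ ψ.source ∧
      ψ ∈ contDiffGroupoid ∞ 𝓘(ℝ, E) := by
  have hd' : HasFDerivAt Ψ ((ContinuousLinearEquiv.refl ℝ E : E ≃L[ℝ] E) : E →L[ℝ] E) z := hd
  have hne : (∞ : ℕ∞ω) ≠ 0 := by simp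
  let ψ0 : OpenPartialHomeomorph E E := (hΨ z hz).toOpenPartialHomeomorph Ψ hd' hne
  have hψ0 : ∀ y, ψ0 y = Ψ y := fun y => rfl
  have hz0 : z ∈ ψ0.source := (hΨ z hz).mem_toOpenPartialHomeomorph_source hd' hne
  -- the derivative is invertible near `z`
  have hcont : ContinuousAt (fderiv ℝ Ψ) z :=
    ((hΨ z hz).fderiv_right (m := 0) (by simp)).continuousAt
  have hinv : {y | fderiv ℝ Ψ y ∈ Set.range ((↑) : (E ≃L[ℝ] E) → E →L[ℝ] E)} ∈ 𝓝 z := by
    apply hcont
    have h1 : fderiv ℝ Ψ z = ((ContinuousLinearEquiv.refl ℝ E : E ≃L[ℝ] E) : E →L[ℝ] E) :=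
      hd'.fderiv
    rw [h1]
    exact ContinuousLinearEquiv.nhds (ContinuousLinearEquiv.refl ℝ E)
  obtain ⟨U, hUsub, hUo, hzU⟩ := mem_nhds_iff.1 hinv
  have hWU : IsOpen (W ∩ U) := hW.inter hUo
  let ψ : OpenPartialHomeomorph E E := ψ0.restrOpen (W ∩ U) hWU
  have hψ : ∀ y, ψ y = Ψ y := fun y => rfl
  have hsrc : ∀ y ∈ ψ.source, y ∈ W ∧ y ∈ U := by
    intro y hy
    rw [OpenPartialHomeomorph.restrOpen_source] at hy
    exact hy.2
  refine ⟨ψ, hψ, ?_, ?_⟩
  · rw [OpenPartialHomeomorph.restrOpen_source]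
    exact ⟨hz0, hz, hzU⟩
  · rw [contDiffGroupoid, mem_groupoid_of_pregroupoid]
    constructor
    · change ContDiffOn ℝ ∞ (𝓘(ℝ, E) ∘ ψ ∘ 𝓘(ℝ, E).symm)
        (𝓘(ℝ, E).symm ⁻¹' ψ.source ∩ Set.range 𝓘(ℝ, E))
      intro y hy
      have hy' : y ∈ ψ.source := hy.1
      have h2 : ContDiffAt ℝ ∞ Ψ y := hΨ y (hsrc y hy').1
      exact h2.contDiffWithinAt
    · change ContDiffOn ℝ ∞ (𝓘(ℝ, E) ∘ ψ.symm ∘ 𝓘(ℝ, E).symm)
        (𝓘(ℝ, E).symm ⁻¹' ψ.symm.source ∩ Set.range 𝓘(ℝ, E))
      intro y hy
      have hy' : y ∈ ψ.target := hy.1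
      have hy2 : ψ.symm y ∈ ψ.source := ψ.map_target hy'
      obtain ⟨hyW, hyU⟩ := hsrc _ hy2
      obtain ⟨L, hL⟩ := hUsub hyU
      have h3 : ContDiffAt ℝ ∞ Ψ (ψ.symm y) := hΨ _ hyW
      have h4 : HasFDerivAt ψ (L : E →L[ℝ] E) (ψ.symm y) := by
        have h5 : HasFDerivAt Ψ (fderiv ℝ Ψ (ψ.symm y)) (ψ.symm y) :=
          (h3.differentiableAt (by simp)).hasFDerivAt
        rw [← hL] at h5
        exact h5
      have h6 : ContDiffAt ℝ ∞ ψ.symm y := ψ.contDiffAt_symm hy' h4 h3
      exact h6.contDiffWithinAt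

theorem isSmoothEmbedding_of_leftInverse {V E : Type} [NormedAddCommGroup V] [NormedSpace ℝ V]
    [FiniteDimensional ℝ V] [NormedAddCommGroup E] [NormedSpace ℝ E] [FiniteDimensional ℝ E]
    {G : Type} [TopologicalSpace G] [ChartedSpace E G] [IsManifold 𝓘(ℝ, E) ∞ G] {f : V → G}
    {g : G → V} (hf : ContMDiff 𝓘(ℝ, V) 𝓘(ℝ, E) ∞ f) (hgf : ∀ x, g (f x) = x)
    (hg : ∀ x, ContMDiffAt 𝓘(ℝ, E) 𝓘(ℝ, V) ∞ g (f x)) :
    IsSmoothEmbedding 𝓘(ℝ, V) 𝓘(ℝ, E) ∞ f := by
  refine ⟨?_, ?_⟩
  · have key : IsImmersionOfComplement (EuclideanSpace ℝ (Fin (finrank ℝ E - finrank ℝ V)))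
        𝓘(ℝ, V) 𝓘(ℝ, E) ∞ f := by
      intro x
      let c : OpenPartialHomeomorph G E := chartAt E (f x)
      have hc : c ∈ atlas E G := chart_mem_atlas E (f x)
      have hcm : c ∈ IsManifold.maximalAtlas 𝓘(ℝ, E) ∞ G := IsManifold.chart_mem_maximalAtlas (f x)
      have hxc : f x ∈ c.source := mem_chart_source E (f x)
      let F : V → E := fun v => c (f v)
      have hO : IsOpen (f ⁻¹' c.source) := c.open_source.preimage hf.continuous
      have hF : ∀ v ∈ f ⁻¹' c.source, ContDiffAt ℝ ∞ F v := by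
        intro v hv
        rw [← contMDiffAt_iff_contDiffAt]
        exact (contMDiffAt_of_mem_maximalAtlas hcm hv).comp v (hf v)
      -- the derivative is injective
      have hginv : ContDiffAt ℝ ∞ (fun w => g (c.symm w)) (F x) := by
        rw [← contMDiffAt_iff_contDiffAt]
        have h1 : ContMDiffAt 𝓘(ℝ, E) 𝓘(ℝ, E) ∞ c.symm (F x) :=
          contMDiffAt_symm_of_mem_maximalAtlas hcm (c.map_source hxc)
        have h2 : ContMDiffAt 𝓘(ℝ, E) 𝓘(ℝ, V) ∞ g (c.symm (F x)) := by
          have h3 : c.symm (F x) = f x := c.left_inv hxc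
          rw [h3]
          exact hg x
        exact h2.comp (F x) h1
      have hDinj : Function.Injective (fderiv ℝ F x) := by
        have h1 : (fun v => g (c.symm (F v))) =ᶠ[𝓝 x] id := by
          filter_upwards [hO.mem_nhds hxc] with v hv
          have h3 : c.symm (F v) = f v := c.left_inv hv
          rw [h3, hgf]
          rfl
        have h2 : HasFDerivAt (fun v => g (c.symm (F v)))
            ((fderiv ℝ (fun w => g (c.symm w)) (F x)).comp (fderiv ℝ F x)) x :=
          ((hginv.differentiableAt (by simp)).hasFDerivAt).comp x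
            (((hF x hxc).differentiableAt (by simp)).hasFDerivAt)
        have h3 : HasFDerivAt (fun v => g (c.symm (F v))) (ContinuousLinearMap.id ℝ V) x :=
          (hasFDerivAt_id x).congr_of_eventuallyEq h1
        have h4 := h2.unique h3
        intro u v huv
        have h5 := congrArg (fun L : V →L[ℝ] V => L u) h4
        have h6 := congrArg (fun L : V →L[ℝ] V => L v) h4
        simp only [ContinuousLinearMap.comp_apply, ContinuousLinearMap.id_apply] at h5 h6
        rw [← h5, ← h6, huv]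
      -- the linear model
      obtain ⟨e, he⟩ : ∃ e : (V × EuclideanSpace ℝ (Fin (finrank ℝ E - finrank ℝ V))) ≃L[ℝ] E,
          ∀ v, e (v, 0) = fderiv ℝ F x v := by
        let L : V →ₗ[ℝ] E := (fderiv ℝ F x : V →L[ℝ] E)
        have hL : Function.Injective L := hDinj
        obtain ⟨q, hq⟩ := (LinearMap.range L).exists_isCompl
        have h1 : finrank ℝ (LinearMap.range L) + finrank ℝ q = finrank ℝ E :=
          Submodule.finrank_add_eq_of_isCompl hq
        have h2 : finrank ℝ (LinearMap.range L) = finrank ℝ V :=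
          LinearMap.finrank_range_of_inj hL
        have h3 : finrank ℝ (EuclideanSpace ℝ (Fin (finrank ℝ E - finrank ℝ V))) =
            finrank ℝ q := by
          rw [finrank_euclideanSpace_fin]
          omega
        let eq : EuclideanSpace ℝ (Fin (finrank ℝ E - finrank ℝ V)) ≃ₗ[ℝ] q :=
          LinearEquiv.ofFinrankEq _ _ h3
        let e0 : (V × EuclideanSpace ℝ (Fin (finrank ℝ E - finrank ℝ V))) ≃ₗ[ℝ] E :=
          ((LinearEquiv.ofInjective L hL).prodCongr eq).trans
            (Submodule.prodEquivOfIsCompl (LinearMap.range L) q hq)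
        refine ⟨e0.toContinuousLinearEquiv, ?_⟩
        intro v
        simp [e0, L]
      -- the straightening map
      let Ψ : E → E := fun z => F (e.symm z).1 + e (0, (e.symm z).2)
      let W : Set E := {z | (e.symm z).1 ∈ f ⁻¹' c.source}
      have hWo : IsOpen W := hO.preimage (continuous_fst.comp e.symm.continuous)
      have hΨ : ∀ z ∈ W, ContDiffAt ℝ ∞ Ψ z := by
        intro z hz
        have h1 : ContDiffAt ℝ ∞ (fun z => (e.symm z).1) z :=
          contDiffAt_fst.comp z e.symm.contDiff.contDiffAt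
        have h2 : ContDiffAt ℝ ∞ (fun z => F (e.symm z).1) z :=
          ContDiffAt.comp (f := fun z => (e.symm z).1) (g := F) z (hF _ hz) h1
        have h3 : ContDiffAt ℝ ∞ (fun z => e ((0 : V), (e.symm z).2)) z := by
          apply e.contDiff.contDiffAt.comp
          exact contDiffAt_const.prodMk (contDiffAt_snd.comp z e.symm.contDiff.contDiffAt)
        exact h2.add h3
      have hz : e (x, 0) ∈ W := by
        change (e.symm (e (x, 0))).1 ∈ f ⁻¹' c.source
        rw [e.symm_apply_apply]
        exact hxc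
      have hd : HasFDerivAt Ψ (ContinuousLinearMap.id ℝ E) (e (x, 0)) := by
        let P : E →L[ℝ] V :=
          (ContinuousLinearMap.fst ℝ V (EuclideanSpace ℝ (Fin (finrank ℝ E - finrank ℝ V)))).comp
            (e.symm : E →L[ℝ] (V × EuclideanSpace ℝ (Fin (finrank ℝ E - finrank ℝ V))))
        have h1 : HasFDerivAt (fun z => (e.symm z).1) P (e (x, 0)) := P.hasFDerivAt
        have h2 : HasFDerivAt F (fderiv ℝ F x) ((e.symm (e (x, 0))).1) := by
          rw [e.symm_apply_apply]
          exact ((hF x hxc).differentiableAt (by simp)).hasFDerivAt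
        have h3 : HasFDerivAt (fun z => F (e.symm z).1) ((fderiv ℝ F x).comp P) (e (x, 0)) :=
          HasFDerivAt.comp (g := F) (f := fun z => (e.symm z).1) (e (x, 0)) h2 h1
        let Q : E →L[ℝ] EuclideanSpace ℝ (Fin (finrank ℝ E - finrank ℝ V)) :=
          (ContinuousLinearMap.snd ℝ V (EuclideanSpace ℝ (Fin (finrank ℝ E - finrank ℝ V)))).comp
            (e.symm : E →L[ℝ] (V × EuclideanSpace ℝ (Fin (finrank ℝ E - finrank ℝ V))))
        let R : EuclideanSpace ℝ (Fin (finrank ℝ E - finrank ℝ V)) →L[ℝ] E :=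
          (e : (V × EuclideanSpace ℝ (Fin (finrank ℝ E - finrank ℝ V))) →L[ℝ] E).comp
            (ContinuousLinearMap.inr ℝ V (EuclideanSpace ℝ (Fin (finrank ℝ E - finrank ℝ V))))
        let N : E →L[ℝ] E := R.comp Q
        have h4 : HasFDerivAt (fun z => e ((0 : V), (e.symm z).2)) N (e (x, 0)) :=
          N.hasFDerivAt
        have h5 := h3.add h4
        have h6 : (fderiv ℝ F x).comp P + N = ContinuousLinearMap.id ℝ E := by
          ext w
          change fderiv ℝ F x (e.symm w).1 + e ((0 : V), (e.symm w).2) = w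
          rw [← he, ← map_add, Prod.mk_add_mk, add_zero, zero_add, Prod.mk.eta,
            e.apply_symm_apply]
        rw [h6] at h5
        exact h5
      obtain ⟨ψ, hψ, hzψ, hψG⟩ := exists_diffeo hWo hΨ hz hd
      have hΨe : ∀ v, Ψ (e (v, 0)) = F v := by
        intro v
        change F (e.symm (e (v, 0))).1 + e ((0 : V), (e.symm (e (v, 0))).2) = F v
        rw [e.symm_apply_apply]
        change F v + e ((0 : V), 0) = F v
        rw [Prod.mk_zero_zero, map_zero, add_zero]
      -- the domain chart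
      let s : Set V := {v | e (v, 0) ∈ ψ.source}
      have hs : IsOpen s := ψ.open_source.preimage (e.continuous.comp (by fun_prop))
      refine IsImmersionAtOfComplement.mk_of_continuousAt hf.continuous.continuousAt e
        (OpenPartialHomeomorph.ofSet s hs) (c.trans ψ.symm) hzψ ?_ ?_
        (trans_mem_maximalAtlas hc (StructureGroupoid.symm _ hψG)) ?_
      · rw [OpenPartialHomeomorph.trans_source]
        refine ⟨hxc, ?_⟩
        change c (f x) ∈ ψ.target
        have h1 : ψ (e (x, 0)) = c (f x) := by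
          rw [hψ, hΨe]
        rw [← h1]
        exact ψ.map_source hzψ
      · exact StructureGroupoid.mem_maximalAtlas_of_mem_groupoid _
          (ofSet_mem_contDiffGroupoid hs)
      · intro v hv
        have hv' : v ∈ s := by
          simpa using hv
        change ψ.symm (c (f v)) = e (v, 0)
        have h1 : ψ (e (v, 0)) = c (f v) := by
          rw [hψ, hΨe]
        rw [← h1]
        exact ψ.left_inv hv'
    exact key.isImmersion
  · refine ⟨?_, fun x y hxy => by rw [← hgf x, ← hgf y, hxy]⟩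
    rw [Topology.isInducing_iff_nhds]
    intro x
    apply le_antisymm
    · exact hf.continuous.continuousAt.le_comap
    · intro s hs
      have h1 : g ⁻¹' s ∈ 𝓝 (f x) := by
        have h2 : ContinuousAt g (f x) := (hg x).continuousAt
        apply h2
        rw [hgf]
        exact hs
      refine ⟨g ⁻¹' s, h1, ?_⟩
      intro y hy
      have h3 : g (f y) ∈ s := hy
      rwa [hgf] at h3

end Pool.Agent.Helper60.LX
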