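import Pool.Agent.Helper60.LX.StepSys
import Pool.Agent.Helper60.LX.CaseA
import Pool.Agent.Helper60.LX.CaseB

/-!
# Project LX: the induction
-/

open scoped ContDiff Topology
open Module

noncomputable section

namespace Pool.Agent.Helper60.LX

variable {G : Type} [Group G] {E : Type} [NormedAddCommGroup E] [NormedSpace ℝ E]
  {C : Calc G E} {h : Submodule ℝ E}
  {L : Type} [NormedAddCommGroup L] [NormedSpace ℝ L]

theorem dnAll_cont {F : Type} [NormedAddCommGroup F] [NormedSpace ℝ F] (S : Sys C h F L)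
    {p : F} (hp : p ∈ S.U) (X : F) : ContinuousAt (fun q => S.dnAll q X) p := by
  rw [continuousAt_pi]
  intro i
  have h1 : ContDiffAt ℝ ∞ (fun q => fderiv ℝ S.lam q) p :=
    (S.lsm p hp).fderiv_right (m := ∞) (by simp)
  have h2 : ContinuousAt (fun q => fderiv ℝ S.lam q X) p :=
    h1.continuousAt.clm_apply continuousAt_const
  have h3 : ContinuousAt (fun q => C.dl (S.x i) q X) p :=
    (C.dl_smooth (S.sm i p hp)).continuousAt.clm_apply continuousAt_const
  have h4 : ContinuousAt (fun q => (S.lam q).comp (C.br (C.dl (S.x i) q X))) p :=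
    (S.lsm p hp).continuousAt.clm_comp (C.br.continuous.continuousAt.comp h3)
  exact (h2.add h4).clm_comp continuousAt_const

/-- The bound for systems with nonvanishing `lam`, from the induction hypothesis. -/
theorem bound_ne [FiniteDimensional ℝ E] {k s : ℕ} (hk : finrank ℝ h = k)
    (hbr : ∀ u ∈ h, ∀ v ∈ h, C.br u v ∈ h) (hs : ∀ μ : E →L[ℝ] ℝ, rk C.br h μ ≤ s)
    (IH : ∀ k' < k, ∀ h' : Submodule ℝ E, finrank ℝ h' = k' →
      (∀ u ∈ h', ∀ v ∈ h', C.br u v ∈ h') → ∀ s' : ℕ, (∀ μ : E →L[ℝ] ℝ, rk C.br h' μ ≤ s') →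
      ∀ (F : Type) [NormedAddCommGroup F] [NormedSpace ℝ F] [FiniteDimensional ℝ F],
        Sys C h' F L → 2 * finrank ℝ F ≤ 2 * k' + s')
    {F : Type} [NormedAddCommGroup F] [NormedSpace ℝ F] [FiniteDimensional ℝ F]
    (S : Sys C h F L) (hl : ∀ p ∈ S.U, ∃ w ∈ h, S.lam p w ≠ 0) :
    2 * finrank ℝ F ≤ 2 * k + s := by
  have hcont : ∀ p ∈ S.U, ∀ X : F, ContinuousAt (fun q => S.dnAll q X) p :=
    fun p hp X => dnAll_cont S hp X
  obtain ⟨U', hU', hne, hsub, hc⟩ := generic_rank (V := F) (W := Fin 3 → (h →L[ℝ] ℝ))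
    S.isOpen S.nonempty S.dnAll hcont
  obtain ⟨p₀, hp₀⟩ := hne
  obtain ⟨S', hSU, hSl, h1, hd⟩ := exists_norm (S.restr U' hU' ⟨p₀, hp₀⟩ hsub) (p₀ := p₀) hp₀
  have hpS : p₀ ∈ S'.U := by rw [hSU]; exact hp₀
  have hsc : ∀ p ∈ S'.U,
      finrank ℝ (LinearMap.ker (S'.dnAll p : F →ₗ[ℝ] (Fin 3 → (h →L[ℝ] ℝ)))) =
      finrank ℝ (LinearMap.ker (S'.dnAll p₀ : F →ₗ[ℝ] (Fin 3 → (h →L[ℝ] ℝ)))) := by
    intro p hp
    rw [hSU] at hp
    rw [hd p hp, hd p₀ hp₀]
    exact hc p hp p₀ hp₀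
  have hbrs : ∀ u, C.br u u = 0 := C.br_self
  have hle : hh C.br h (S'.lam p₀) ≤ h := fun u hu => hu.1
  have hr : ∀ μ : E →L[ℝ] ℝ, rk C.br h (S'.lam p₀) + rk C.br (hh C.br h (S'.lam p₀)) μ ≤ s :=
    fun μ => rk_add C.br hbrs hle (S'.lam p₀) μ (fun u hu v hv => hu.2.2 v hv) hs
  have hlt : finrank ℝ (hh C.br h (S'.lam p₀)) < k := by
    rw [← hk]
    apply Submodule.finrank_lt_finrank_of_lt
    refine lt_of_le_of_ne hle ?_
    intro he
    obtain ⟨w, hw, hw'⟩ := hl p₀ (hsub hp₀)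
    have h2 : w ∈ hh C.br h (S'.lam p₀) := by rw [he]; exact hw
    apply hw'
    have h3 := h2.2.1
    rw [hSl] at h3
    exact h3
  have hst := step hbr S' hpS h1 hsc
    (N := 2 * finrank ℝ (hh C.br h (S'.lam p₀)) + (s - rk C.br h (S'.lam p₀)))
    (fun F'' _ _ _ S'' => IH _ hlt _ rfl (hh_br hbr _) _
      (fun μ => by have := hr μ; omega) F'' S'')
  have hct := count S' hpS
  have h0 := hr 0
  omega

theorem main_bound [FiniteDimensional ℝ E] (k : ℕ) : ∀ h : Submodule ℝ E, finrank ℝ h = k →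
      (∀ u ∈ h, ∀ v ∈ h, C.br u v ∈ h) → ∀ s : ℕ, (∀ μ : E →L[ℝ] ℝ, rk C.br h μ ≤ s) →
      ∀ (F : Type) [NormedAddCommGroup F] [NormedSpace ℝ F] [FiniteDimensional ℝ F],
        Sys C h F L → 2 * finrank ℝ F ≤ 2 * k + s := by
  induction k using Nat.strong_induction_on with
  | _ k IH =>
    intro h hk hbr s hs F _ _ _ S
    by_cases h0 : ∃ p ∈ S.U, ∃ w ∈ h, S.lam p w ≠ 0
    · obtain ⟨p, hp, w, hw, hne⟩ := h0
      have hcont : ContinuousOn (fun q => S.lam q w) S.U := fun q hq =>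
        ((S.lsm q hq).continuousAt.clm_apply continuousAt_const).continuousWithinAt
      have hopen : IsOpen (S.U ∩ (fun q => S.lam q w) ⁻¹' {0}ᶜ) :=
        hcont.isOpen_inter_preimage S.isOpen isOpen_compl_singleton
      exact bound_ne hk hbr hs IH (S.restr _ hopen ⟨p, hp, hne⟩ Set.inter_subset_left)
        (fun q hq => ⟨w, hw, hq.2⟩)
    · push Not at h0
      by_cases hR : ∃ p ∈ S.U, Rsp C S.x p = h
      · obtain ⟨p, hp, hR⟩ := hR
        have := case_A S h0 hp hR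
        omega
      · push Not at hR
        obtain ⟨S', hS'⟩ := case_B S h0 hR
        have h1 := bound_ne hk hbr hs IH S' hS'
        rw [Module.finrank_prod, Module.finrank_self] at h1
        omega

/-- The bound for a system over the whole Lie algebra with `lam = 0`. -/
theorem top_bound [FiniteDimensional ℝ E] {s : ℕ} (hs : ∀ μ : E →L[ℝ] ℝ, rk C.br ⊤ μ ≤ s)
    {F : Type} [NormedAddCommGroup F] [NormedSpace ℝ F] [FiniteDimensional ℝ F]
    (S : Sys C ⊤ F L) (hl : ∀ p ∈ S.U, S.lam p = 0) :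
    finrank ℝ F ≤ finrank ℝ E ∨ 2 * (finrank ℝ F + 1) ≤ 2 * finrank ℝ E + s := by
  have hl' : ∀ p ∈ S.U, ∀ w ∈ (⊤ : Submodule ℝ E), S.lam p w = 0 := fun p hp w _ => by
    rw [hl p hp]; rfl
  by_cases hR : ∃ p ∈ S.U, Rsp C S.x p = ⊤
  · obtain ⟨p, hp, hR⟩ := hR
    left
    have := case_A S hl' hp hR
    rwa [finrank_top] at this
  · right
    push Not at hR
    obtain ⟨S', -⟩ := case_B S hl' hR
    have h1 := main_bound (finrank ℝ (⊤ : Submodule ℝ E)) ⊤ rfl (fun _ _ _ _ => Submodule.mem_top)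
      s hs (F × ℝ) S'
    rwa [Module.finrank_prod, Module.finrank_self, finrank_top] at h1

end Pool.Agent.Helper60.LX
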