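import Pool.Agent.Helper60.LX.LieSmooth

/-!
# Project LX: the derivative of Ad

PROOFS. LAD_DERIV: x q = α q * x p, α p = 1, lAd (x q) = lAd (α q) ∘ lAd (x p). Near p, α q = ps (ch (α q))
(ps_ch, continuity), so lAd (α q) = A (ch (α q)), A a = lAd (ps a), differentiable at ch 1 (lAd_smooth for
x = ps). Chain rule: the derivative at p in direction X is lbr (D(ch ∘ α)(p) X) = lbr (ldl x p X) composed
with lAd (x p) (ldl x p = fderiv (ch ∘ α) p by definition, lbr = fderiv A (ch 1) by definition).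
LAD_BR: x a = g * ps a * g⁻¹ at the point ch 1, x (ch 1) = 1, ldl x (ch 1) = lAd g (by definition,
1⁻¹ = 1), and lAd (x a) = lAd g ∘ lAd (ps a) ∘ lAd g⁻¹. Differentiate at ch 1 in direction u and apply to
w = lAd g v: LAD_DERIV gives lbr (lAd g u) w on the left; the right side is lAd g (lbr u (lAd g⁻¹ w)) =
lAd g (lbr u v) (LAD_DERIV or the definition of lbr; lAd g⁻¹ (lAd g v) = v).
LBR_JACOBI: differentiate lAd (ps a) (lbr v w) = lbr (lAd (ps a) v) (lAd (ps a) w) at a = ch 1 in direction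
u (lAd (ps (ch 1)) = id): lbr u (lbr v w) = lbr (lbr u v) w + lbr v (lbr u w).
-/

open scoped ContDiff Topology Manifold
open Module

noncomputable section

namespace Pool.Agent.Helper60.LX

variable {E : Type} [NormedAddCommGroup E] [NormedSpace ℝ E]
  {G : Type} [TopologicalSpace G] [ChartedSpace E G] [Group G] [LieGroup 𝓘(ℝ, E) ∞ G]
  {F : Type} [NormedAddCommGroup F] [NormedSpace ℝ F]

private theorem ps_sm_one : lSm E (ps G) (ch E (1 : G)) := ps_sm.self_of_nhds

private theorem hasFDerivAt_A :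
    HasFDerivAt (fun a => lAd E (ps G a)) (lbr E G) (ch E (1 : G)) :=
  ((lAd_smooth (ps_sm_one (E := E) (G := G))).differentiableAt (by simp)).hasFDerivAt

private theorem lAd_hasFDerivAt {x : F → G} {p : F} (hx : lSm E x p) :
    HasFDerivAt (fun q => lAd E (x q))
      ((((ContinuousLinearMap.compL ℝ E E E).flip (lAd E (x p))).comp
        ((lbr E G).comp (ldl E x p)))) p := by
  have hα : lSm E (fun q => x q * (x p)⁻¹) p := lSm_mul hx (lSm_const _ p)
  have h1 : (fun q => x q * (x p)⁻¹) p = 1 := mul_inv_cancel _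
  have hc : HasFDerivAt (fun q => ch E (x q * (x p)⁻¹)) (ldl E x p) p :=
    ((ch_smooth hα h1).differentiableAt (by simp)).hasFDerivAt
  have hA : HasFDerivAt (fun a => lAd E (ps G a)) (lbr E G) (ch E (x p * (x p)⁻¹)) := by
    rw [mul_inv_cancel]
    exact hasFDerivAt_A
  have h2 : HasFDerivAt (fun q => lAd E (ps G (ch E (x q * (x p)⁻¹))))
      ((lbr E G).comp (ldl E x p)) p :=
    HasFDerivAt.comp (g := fun a => lAd E (ps G a)) (f := fun q => ch E (x q * (x p)⁻¹)) p hA hc
  have h3 : (fun q => lAd E (x q)) =ᶠ[𝓝 p]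
      fun q => (ContinuousLinearMap.compL ℝ E E E).flip (lAd E (x p))
        (lAd E (ps G (ch E (x q * (x p)⁻¹)))) := by
    have hcont : Filter.Tendsto (fun q => x q * (x p)⁻¹) (𝓝 p) (𝓝 (1 : G)) := by
      have := hα.continuousAt
      unfold ContinuousAt at this
      rwa [h1] at this
    filter_upwards [hcont.eventually (ps_ch (E := E))] with q hq
    rw [hq]
    have : x q = (x q * (x p)⁻¹) * x p := by group
    conv_lhs => rw [this, lAd_mul]
    rfl
  exact (HasFDerivAt.comp p
    (((ContinuousLinearMap.compL ℝ E E E).flip (lAd E (x p))).hasFDerivAt) h2).congr_of_eventuallyEq h3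

theorem lAd_deriv {x : F → G} {p : F} (hx : lSm E x p) (X : F) (w : E) :
    fderiv ℝ (fun q => lAd E (x q)) p X w = lbr E G (ldl E x p X) (lAd E (x p) w) := by
  rw [(lAd_hasFDerivAt hx).fderiv]
  rfl

theorem lAd_br (g : G) (u v : E) : lAd E g (lbr E G u v) = lbr E G (lAd E g u) (lAd E g v) := by
  have hy : lSm E (fun a : E => g * ps G a * g⁻¹) (ch E (1 : G)) :=
    lSm_mul (lSm_mul (lSm_const _ _) ps_sm_one) (lSm_const _ _)
  have hy1 : g * ps G (ch E (1 : G)) * g⁻¹ = 1 := by
    rw [ps_ch_one]; group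
  have h1 := lAd_deriv hy u (lAd E g v)
  have h2 : ldl E (fun a : E => g * ps G a * g⁻¹) (ch E (1 : G)) = lAd E g := by
    unfold ldl lAd
    congr 1
    funext q
    show ch E (g * ps G q * g⁻¹ * (g * ps G (ch E (1 : G)) * g⁻¹)⁻¹) = ch E (g * ps G q * g⁻¹)
    rw [hy1, inv_one, mul_one]
  rw [h2, hy1, lAd_one] at h1
  have h3 : HasFDerivAt (fun a => lAd E (g * ps G a * g⁻¹))
      ((ContinuousLinearMap.compL ℝ E E E (lAd E g)).comp
        (((ContinuousLinearMap.compL ℝ E E E).flip (lAd E g⁻¹)).comp (lbr E G)))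
      (ch E (1 : G)) := by
    have e : (fun a : E => lAd E (g * ps G a * g⁻¹)) = fun a : E =>
        (ContinuousLinearMap.compL ℝ E E E (lAd E g))
          ((ContinuousLinearMap.compL ℝ E E E).flip (lAd E g⁻¹) (lAd E (ps G a))) := by
      funext a
      rw [mul_assoc, lAd_mul, lAd_mul]
      rfl
    rw [e]
    exact HasFDerivAt.comp _ (ContinuousLinearMap.hasFDerivAt _)
      (HasFDerivAt.comp _ (ContinuousLinearMap.hasFDerivAt _) hasFDerivAt_A)
  rw [h3.fderiv] at h1
  have h4 : lAd E g⁻¹ (lAd E g v) = v := by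
    have := lAd_mul (E := E) g⁻¹ g
    rw [inv_mul_cancel, lAd_one] at this
    have h5 := congrArg (fun T : E →L[ℝ] E => T v) this
    simpa using h5.symm
  have h6 : lAd E g (lbr E G u (lAd E g⁻¹ (lAd E g v))) = lbr E G (lAd E g u) (lAd E g v) := h1
  rwa [h4] at h6

theorem lbr_jacobi (u v w : E) :
    lbr E G (lbr E G u v) w = lbr E G u (lbr E G v w) - lbr E G v (lbr E G u w) := by
  have h0 : lAd E (ps G (ch E (1 : G))) = ContinuousLinearMap.id ℝ E := by
    rw [ps_ch_one (E := E) (G := G)]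
    exact lAd_one
  have hv : ∀ z : E, HasFDerivAt (fun a => lAd E (ps G a) z) ((lbr E G).flip z)
      (ch E (1 : G)) := by
    intro z
    have := (ContinuousLinearMap.apply ℝ E z).hasFDerivAt.comp (ch E (1 : G))
      (hasFDerivAt_A (E := E) (G := G))
    exact this
  have h1 := hv (lbr E G v w)
  have h2 := (((lbr E G).hasFDerivAt (x := lAd E (ps G (ch E (1 : G))) v)).comp (ch E (1 : G))
    (hv v)).clm_apply (hv w)
  have h3 : (fun a : E => lAd E (ps G a) (lbr E G v w)) =
      fun a : E => lbr E G (lAd E (ps G a) v) (lAd E (ps G a) w) := by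
    funext a
    exact lAd_br (E := E) _ _ _
  rw [h3] at h1
  have h4 := congrArg (fun T : E →L[ℝ] E => T u) (h1.unique h2)
  simp [h0] at h4
  rw [h4]
  abel

end Pool.Agent.Helper60.LX
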