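import Pool.Agent.Helper60.LX.Calc

/-!
# Project LX: Lie groups, basic facts in the chart at 1

PROOFS. SM_*: ContMDiffAt.mul, .inv, .comp, contMDiffAt_const (a map between normed spaces is ContMDiffAt
iff ContDiffAt: ContDiffAt.contMDiffAt, contMDiffAt_iff_contDiffAt). CH_SMOOTH: contMDiffAt_extChartAt
(at 1) composed with x (x p = 1), then contMDiffAt_iff_contDiffAt. PS_SM: contMDiffOn_extChartAt_symm on
the target, a neighbourhood of ch 1. CH_PS, PS_CH: PartialEquiv.right_inv / left_inv near the points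
(extChartAt_target_mem_nhds, extChartAt_source_mem_nhds; the model is 𝓘(ℝ, E), boundaryless).
DL_CONST: ch (g * g⁻¹) is constant. AD_ONE: ch (1 * ps a * 1⁻¹) = a near ch 1. MM_SMOOTH: ps is smooth
at ch 1, ps (ch 1) = 1, so z ↦ ps z.1 * ps z.2 is smooth at (ch 1, ch 1) with value 1; ch_smooth.
FDERIV_MM: MM (a, ch 1) = a near a = ch 1 and MM (ch 1, a) = a, so the two restrictions of the derivative
are the identity.
-/

open scoped ContDiff Topology Manifold
open Module

noncomputable section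

namespace Pool.Agent.Helper60.LX

variable {E : Type} [NormedAddCommGroup E] [NormedSpace ℝ E]
  {G : Type} [TopologicalSpace G] [ChartedSpace E G] [Group G]
  {F : Type} [NormedAddCommGroup F] [NormedSpace ℝ F]
  {F' : Type} [NormedAddCommGroup F'] [NormedSpace ℝ F']

/-- The chart at `1`. -/
def ch (E : Type) [NormedAddCommGroup E] [NormedSpace ℝ E] {G : Type} [TopologicalSpace G]
    [ChartedSpace E G] [Group G] : G → E := extChartAt 𝓘(ℝ, E) (1 : G)

/-- The inverse of the chart at `1`. -/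
def ps (G : Type) {E : Type} [NormedAddCommGroup E] [NormedSpace ℝ E] [TopologicalSpace G]
    [ChartedSpace E G] [Group G] : E → G := (extChartAt 𝓘(ℝ, E) (1 : G)).symm

/-- Smooth maps into `G`. -/
def lSm (E : Type) [NormedAddCommGroup E] [NormedSpace ℝ E] {G : Type} [TopologicalSpace G]
    [ChartedSpace E G] {F : Type} [NormedAddCommGroup F] [NormedSpace ℝ F]
    (x : F → G) (p : F) : Prop := ContMDiffAt 𝓘(ℝ, F) 𝓘(ℝ, E) ∞ x p

/-- The right logarithmic derivative. -/
def ldl (E : Type) [NormedAddCommGroup E] [NormedSpace ℝ E] {G : Type} [TopologicalSpace G]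
    [ChartedSpace E G] [Group G] {F : Type} [NormedAddCommGroup F] [NormedSpace ℝ F]
    (x : F → G) (p : F) : F →L[ℝ] E := fderiv ℝ (fun q => ch E (x q * (x p)⁻¹)) p

/-- The adjoint representation. -/
def lAd (E : Type) [NormedAddCommGroup E] [NormedSpace ℝ E] {G : Type} [TopologicalSpace G]
    [ChartedSpace E G] [Group G] (g : G) : E →L[ℝ] E :=
  fderiv ℝ (fun a => ch E (g * ps G a * g⁻¹)) (ch E (1 : G))

/-- The bracket: the derivative of the adjoint representation at `1`. -/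
def lbr (E : Type) [NormedAddCommGroup E] [NormedSpace ℝ E] (G : Type) [TopologicalSpace G]
    [ChartedSpace E G] [Group G] : E →L[ℝ] E →L[ℝ] E :=
  fderiv ℝ (fun a => lAd E (ps G a)) (ch E (1 : G))

/-- The product in the chart at `1`. -/
def MM (E : Type) [NormedAddCommGroup E] [NormedSpace ℝ E] (G : Type) [TopologicalSpace G]
    [ChartedSpace E G] [Group G] (z : E × E) : E := ch E (ps G z.1 * ps G z.2)

theorem ch_ps : ∀ᶠ a in 𝓝 (ch E (1 : G)), ch E (ps G a) = a := by
  filter_upwards [extChartAt_target_mem_nhds (I := 𝓘(ℝ, E)) (1 : G)] with a ha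
  exact (extChartAt 𝓘(ℝ, E) (1 : G)).right_inv ha

theorem ps_ch : ∀ᶠ g in 𝓝 (1 : G), ps G (ch E g) = g := by
  filter_upwards [extChartAt_source_mem_nhds (I := 𝓘(ℝ, E)) (1 : G)] with g hg
  exact (extChartAt 𝓘(ℝ, E) (1 : G)).left_inv hg

theorem ps_ch_one : ps G (ch E (1 : G)) = 1 := by
  exact extChartAt_to_inv (I := 𝓘(ℝ, E)) (1 : G)

variable [LieGroup 𝓘(ℝ, E) ∞ G]

theorem ps_sm : ∀ᶠ a in 𝓝 (ch E (1 : G)), lSm E (ps G) a := by
  have h1 := extChartAt_target_mem_nhds (I := 𝓘(ℝ, E)) (1 : G)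
  filter_upwards [eventually_mem_nhds_iff.mpr h1] with a ha
  exact (contMDiffOn_extChartAt_symm (I := 𝓘(ℝ, E)) (n := ∞) (1 : G)).contMDiffAt ha

theorem lSm.continuousAt {x : F → G} {p : F} (hx : lSm E x p) : ContinuousAt x p :=
  ContMDiffAt.continuousAt hx

theorem lSm_const (g : G) (p : F) : lSm E (fun _ : F => g) p := contMDiffAt_const

theorem lSm_mul {x y : F → G} {p : F} (hx : lSm E x p) (hy : lSm E y p) :
    lSm E (fun q => x q * y q) p := by
  exact ContMDiffAt.mul hx hy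

theorem lSm_inv {x : F → G} {p : F} (hx : lSm E x p) : lSm E (fun q => (x q)⁻¹) p := by
  exact ContMDiffAt.inv hx

theorem lSm_comp {x : F → G} {f : F' → F} {p : F'} (hx : lSm E x (f p))
    (hf : ContDiffAt ℝ ∞ f p) : lSm E (fun q => x (f q)) p := by
  exact ContMDiffAt.comp p hx hf.contMDiffAt

theorem ch_smooth {x : F → G} {p : F} (hx : lSm E x p) (h1 : x p = 1) :
    ContDiffAt ℝ ∞ (fun q => ch E (x q)) p := by
  have h2 : ContMDiffAt 𝓘(ℝ, E) 𝓘(ℝ, E) ∞ (extChartAt 𝓘(ℝ, E) (1 : G)) (x p) := by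
    rw [h1]
    exact contMDiffAt_extChartAt
  exact (ContMDiffAt.comp p h2 hx).contDiffAt

theorem MM_smooth : ContDiffAt ℝ ∞ (MM E G) (ch E (1 : G), ch E (1 : G)) := by
  have h1 : lSm E (ps G) (ch E (1 : G)) := (ps_sm (E := E) (G := G)).self_of_nhds
  have h2 : lSm E (fun z : E × E => ps G z.1) (ch E (1 : G), ch E (1 : G)) :=
    lSm_comp (f := Prod.fst) (p := (ch E (1 : G), ch E (1 : G))) h1 contDiffAt_fst
  have h3 : lSm E (fun z : E × E => ps G z.2) (ch E (1 : G), ch E (1 : G)) :=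
    lSm_comp (f := Prod.snd) (p := (ch E (1 : G), ch E (1 : G))) h1 contDiffAt_snd
  refine ch_smooth (lSm_mul h2 h3) ?_
  change ps G (ch E (1 : G)) * ps G (ch E (1 : G)) = 1
  rw [ps_ch_one, mul_one]

theorem fderiv_MM (u v : E) : fderiv ℝ (MM E G) (ch E (1 : G), ch E (1 : G)) (u, v) = u + v := by
  have hd : DifferentiableAt ℝ (MM E G) (ch E (1 : G), ch E (1 : G)) :=
    (MM_smooth (E := E) (G := G)).differentiableAt (by simp)
  have e1 : (fun a => MM E G (a, ch E (1 : G))) =ᶠ[𝓝 (ch E (1 : G))] id := by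
    filter_upwards [ch_ps (E := E) (G := G)] with a ha
    simp only [MM, ps_ch_one, mul_one, id, ha]
  have e2 : (fun a => MM E G (ch E (1 : G), a)) =ᶠ[𝓝 (ch E (1 : G))] id := by
    filter_upwards [ch_ps (E := E) (G := G)] with a ha
    simp only [MM, ps_ch_one, one_mul, id, ha]
  have f1 : HasFDerivAt (fun a => MM E G (a, ch E (1 : G)))
      ((fderiv ℝ (MM E G) (ch E (1 : G), ch E (1 : G))).comp (ContinuousLinearMap.inl ℝ E E))
      (ch E (1 : G)) :=
    HasFDerivAt.comp (f := fun a : E => (a, ch E (1 : G))) (ch E (1 : G)) hd.hasFDerivAt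
      (hasFDerivAt_prodMk_left (ch E (1 : G)) (ch E (1 : G)))
  have f2 : HasFDerivAt (fun a => MM E G (ch E (1 : G), a))
      ((fderiv ℝ (MM E G) (ch E (1 : G), ch E (1 : G))).comp (ContinuousLinearMap.inr ℝ E E))
      (ch E (1 : G)) :=
    HasFDerivAt.comp (f := fun a : E => (ch E (1 : G), a)) (ch E (1 : G)) hd.hasFDerivAt
      (hasFDerivAt_prodMk_right (ch E (1 : G)) (ch E (1 : G)))
  have g1 := (f1.congr_of_eventuallyEq e1.symm).unique (hasFDerivAt_id (𝕜 := ℝ) (ch E (1 : G)))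
  have g2 := (f2.congr_of_eventuallyEq e2.symm).unique (hasFDerivAt_id (𝕜 := ℝ) (ch E (1 : G)))
  have k1 := congrArg (fun L : E →L[ℝ] E => L u) g1
  have k2 := congrArg (fun L : E →L[ℝ] E => L v) g2
  simp only [ContinuousLinearMap.comp_apply, ContinuousLinearMap.inl_apply,
    ContinuousLinearMap.inr_apply, ContinuousLinearMap.id_apply] at k1 k2
  have hs : ((u, v) : E × E) = (u, 0) + (0, v) := by simp
  rw [hs, map_add, k1, k2]

theorem ldl_const (g : G) (p : F) : ldl E (fun _ : F => g) p = 0 := by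
  unfold ldl
  simp

theorem lAd_one : lAd E (1 : G) = ContinuousLinearMap.id ℝ E := by
  unfold lAd
  have e1 : (fun a => ch E ((1 : G) * ps G a * (1 : G)⁻¹)) =ᶠ[𝓝 (ch E (1 : G))] id := by
    filter_upwards [ch_ps (E := E) (G := G)] with a ha
    simp only [one_mul, inv_one, mul_one, id, ha]
  rw [e1.fderiv_eq, fderiv_id]

end Pool.Agent.Helper60.LX
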