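import Pool.Agent.Helper60.LX.LieBasic

/-!
# Project LX: product rule and chain rule for the logarithmic derivative

PROOFS. LDL_COMP: chain rule for q ↦ ch (x (f q) * (x (f p))⁻¹); the outer function
r ↦ ch (x r * (x (f p))⁻¹) is smooth at f p (ch_smooth). LAD_MUL: g * k * ps a * (g * k)⁻¹ = g * ps b * g⁻¹ for
b = ch (k * ps a * k⁻¹), a near ch 1 (ps (ch y) = y near 1); b = ch 1 at a = ch 1; chain rule. LDL_MUL:
with α q = x q * (x p)⁻¹, b q = y q * (y p)⁻¹ : x q * y q * (x p * y p)⁻¹ = α q * (x p * b q * (x p)⁻¹) =: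
α q * β q, α p = β p = 1. Near p, ch (α q * β q) = MM (ch (α q), ch (β q)) (ps_ch and continuity), and
fderiv MM (ch 1, ch 1) (u, v) = u + v (fderiv_MM), so the derivative is the sum of those of ch (α q) (that is
ldl x p, by definition) and of ch (β q). And β q = x p * ps (ch (b q)) * (x p)⁻¹ near p, so the derivative of
ch (β q) is lAd (x p) ∘ ldl y p (chain rule, definitions of lAd and ldl).
-/

open scoped ContDiff Topology Manifold
open Module

noncomputable section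

namespace Pool.Agent.Helper60.LX

variable {E : Type} [NormedAddCommGroup E] [NormedSpace ℝ E]
  {G : Type} [TopologicalSpace G] [ChartedSpace E G] [Group G] [LieGroup 𝓘(ℝ, E) ∞ G]
  {F : Type} [NormedAddCommGroup F] [NormedSpace ℝ F]
  {F' : Type} [NormedAddCommGroup F'] [NormedSpace ℝ F']

private theorem cd {f : F → F'} {p : F} (hf : ContDiffAt ℝ ∞ f p) : DifferentiableAt ℝ f p :=
  hf.differentiableAt (by simp)

private theorem ev_ps_ch {α : F → G} {p : F} (hα : lSm E α p) (h1 : α p = 1) :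
    ∀ᶠ q in 𝓝 p, ps G (ch E (α q)) = α q := by
  have hc : Filter.Tendsto α (𝓝 p) (𝓝 (1 : G)) := by
    have := lSm.continuousAt hα
    rw [ContinuousAt, h1] at this
    exact this
  exact hc.eventually (ps_ch (E := E) (G := G))

theorem ldl_comp {x : F → G} {f : F' → F} {p : F'} (hx : lSm E x (f p))
    (hf : ContDiffAt ℝ ∞ f p) :
    ldl E (fun q => x (f q)) p = (ldl E x (f p)).comp (fderiv ℝ f p) := by
  have h1 : ContDiffAt ℝ ∞ (fun r => ch E (x r * (x (f p))⁻¹)) (f p) :=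
    ch_smooth (lSm_mul hx (lSm_const _ _)) (mul_inv_cancel _)
  exact fderiv_comp p (cd h1) (cd hf)

theorem lAd_mul (g k : G) : lAd E (g * k) = (lAd E g).comp (lAd E k) := by
  have hps : lSm E (ps G) (ch E (1 : G)) := (ps_sm (E := E) (G := G)).self_of_nhds
  have hk : lSm E (fun a => k * ps G a * k⁻¹) (ch E (1 : G)) :=
    lSm_mul (lSm_mul (lSm_const k _) hps) (lSm_const _ _)
  have hk1 : k * ps G (ch E (1 : G)) * k⁻¹ = 1 := by rw [ps_ch_one, mul_one, mul_inv_cancel]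
  have hg : lSm E (fun a => g * ps G a * g⁻¹) (ch E (1 : G)) :=
    lSm_mul (lSm_mul (lSm_const g _) hps) (lSm_const _ _)
  have hg1 : g * ps G (ch E (1 : G)) * g⁻¹ = 1 := by rw [ps_ch_one, mul_one, mul_inv_cancel]
  have ek : ch E (k * ps G (ch E (1 : G)) * k⁻¹) = ch E (1 : G) := by rw [hk1]
  have h1 : (fun a => ch E (g * k * ps G a * (g * k)⁻¹)) =ᶠ[𝓝 (ch E (1 : G))]
      (fun a => ch E (g * ps G a * g⁻¹)) ∘ (fun a => ch E (k * ps G a * k⁻¹)) := by
    filter_upwards [ev_ps_ch hk hk1] with a ha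
    show ch E (g * k * ps G a * (g * k)⁻¹) = ch E (g * ps G (ch E (k * ps G a * k⁻¹)) * g⁻¹)
    rw [ha]
    congr 1
    group
  have h2 : DifferentiableAt ℝ (fun a => ch E (g * ps G a * g⁻¹))
      ((fun a => ch E (k * ps G a * k⁻¹)) (ch E (1 : G))) := by
    show DifferentiableAt ℝ (fun a => ch E (g * ps G a * g⁻¹)) (ch E (k * ps G (ch E (1 : G)) * k⁻¹))
    rw [ek]
    exact cd (ch_smooth hg hg1)
  have h3 := fderiv_comp (ch E (1 : G)) h2 (cd (ch_smooth hk hk1))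
  show fderiv ℝ (fun a => ch E (g * k * ps G a * (g * k)⁻¹)) (ch E (1 : G)) = _
  rw [h1.fderiv_eq, h3]
  show (fderiv ℝ (fun a => ch E (g * ps G a * g⁻¹)) (ch E (k * ps G (ch E (1 : G)) * k⁻¹))).comp _ = _
  rw [ek]
  rfl

theorem ldl_mul {x y : F → G} {p : F} (hx : lSm E x p) (hy : lSm E y p) :
    ldl E (fun q => x q * y q) p = ldl E x p + (lAd E (x p)).comp (ldl E y p) := by
  have hps : lSm E (ps G) (ch E (1 : G)) := (ps_sm (E := E) (G := G)).self_of_nhds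
  have hα : lSm E (fun q => x q * (x p)⁻¹) p := lSm_mul hx (lSm_const _ _)
  have hα1 : x p * (x p)⁻¹ = 1 := mul_inv_cancel _
  have hb : lSm E (fun q => y q * (y p)⁻¹) p := lSm_mul hy (lSm_const _ _)
  have hb1 : y p * (y p)⁻¹ = 1 := mul_inv_cancel _
  have hβ : lSm E (fun q => x p * (y q * (y p)⁻¹) * (x p)⁻¹) p :=
    lSm_mul (lSm_mul (lSm_const _ _) hb) (lSm_const _ _)
  have hβ1 : x p * (y p * (y p)⁻¹) * (x p)⁻¹ = 1 := by rw [hb1, mul_one, mul_inv_cancel]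
  have hA : lSm E (fun a => x p * ps G a * (x p)⁻¹) (ch E (1 : G)) :=
    lSm_mul (lSm_mul (lSm_const _ _) hps) (lSm_const _ _)
  have hA1 : x p * ps G (ch E (1 : G)) * (x p)⁻¹ = 1 := by rw [ps_ch_one, mul_one, mul_inv_cancel]
  -- the derivative of `ch ∘ β`
  have eβ : fderiv ℝ (fun q => ch E (x p * (y q * (y p)⁻¹) * (x p)⁻¹)) p =
      (lAd E (x p)).comp (ldl E y p) := by
    have h1 : (fun q => ch E (x p * (y q * (y p)⁻¹) * (x p)⁻¹)) =ᶠ[𝓝 p]
        (fun a => ch E (x p * ps G a * (x p)⁻¹)) ∘ (fun q => ch E (y q * (y p)⁻¹)) := by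
      filter_upwards [ev_ps_ch hb hb1] with q hq
      show _ = ch E (x p * ps G (ch E (y q * (y p)⁻¹)) * (x p)⁻¹)
      rw [hq]
    have ey : ch E (y p * (y p)⁻¹) = ch E (1 : G) := by rw [hb1]
    have h2 : DifferentiableAt ℝ (fun a => ch E (x p * ps G a * (x p)⁻¹))
        ((fun q => ch E (y q * (y p)⁻¹)) p) := by
      show DifferentiableAt ℝ (fun a => ch E (x p * ps G a * (x p)⁻¹)) (ch E (y p * (y p)⁻¹))
      rw [ey]
      exact cd (ch_smooth hA hA1)
    have h3 := fderiv_comp p h2 (cd (ch_smooth hb hb1))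
    rw [h1.fderiv_eq, h3]
    show (fderiv ℝ (fun a => ch E (x p * ps G a * (x p)⁻¹)) (ch E (y p * (y p)⁻¹))).comp _ = _
    rw [ey]
    rfl
  have h1 : (fun q => ch E (x q * y q * (x p * y p)⁻¹)) =ᶠ[𝓝 p]
      (MM E G) ∘ (fun q => (ch E (x q * (x p)⁻¹), ch E (x p * (y q * (y p)⁻¹) * (x p)⁻¹))) := by
    filter_upwards [ev_ps_ch hα hα1, ev_ps_ch hβ hβ1] with q h1 h2
    show _ = ch E (ps G (ch E (x q * (x p)⁻¹)) *
      ps G (ch E (x p * (y q * (y p)⁻¹) * (x p)⁻¹)))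
    rw [h1, h2]
    congr 1
    group
  have e0 : (ch E (x p * (x p)⁻¹), ch E (x p * (y p * (y p)⁻¹) * (x p)⁻¹)) =
      (ch E (1 : G), ch E (1 : G)) := by rw [hα1, hβ1]
  have h2 : DifferentiableAt ℝ (MM E G)
      ((fun q => (ch E (x q * (x p)⁻¹), ch E (x p * (y q * (y p)⁻¹) * (x p)⁻¹))) p) := by
    show DifferentiableAt ℝ (MM E G) (ch E (x p * (x p)⁻¹),
      ch E (x p * (y p * (y p)⁻¹) * (x p)⁻¹))
    rw [e0]
    exact cd MM_smooth
  have d1 := cd (ch_smooth hα hα1)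
  have d2 := cd (ch_smooth hβ hβ1)
  have h3 := fderiv_comp p h2 (d1.prodMk d2)
  show fderiv ℝ (fun q => ch E (x q * y q * (x p * y p)⁻¹)) p = _
  rw [h1.fderiv_eq, h3]
  ext X
  show fderiv ℝ (MM E G) (ch E (x p * (x p)⁻¹), ch E (x p * (y p * (y p)⁻¹) * (x p)⁻¹))
    (fderiv ℝ (fun q => (ch E (x q * (x p)⁻¹), ch E (x p * (y q * (y p)⁻¹) * (x p)⁻¹))) p X) = _
  rw [e0, DifferentiableAt.fderiv_prodMk d1 d2]
  show fderiv ℝ (MM E G) (ch E (1 : G), ch E (1 : G)) (_, _) = _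
  rw [fderiv_MM, eβ]
  rfl

end Pool.Agent.Helper60.LX
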