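import Pool.Agent.Helper60.LX.LieProd

/-!
# Project LX: smoothness of the logarithmic derivative and of Ad, the chart as a coordinate

PROOFS. LDL_SMOOTH: H (q, q') = ch (x q' * (x q)⁻¹) is smooth at (p, p) (value of the argument 1 there:
lSm_comp with Prod.fst, Prod.snd, lSm_mul, lSm_inv, ch_smooth), ldl E x q = fderiv (H (q, ·)) q; use
ContDiffAt.fderiv (parametric derivative, n = ∞). LAD_SMOOTH: lAd (x q) = lAd (x q * (x p)⁻¹) ∘ lAd (x p)
(lAd_mul), α q = x q * (x p)⁻¹, α p = 1; H (q, a) = ch (α q * ps a * (α q)⁻¹) is smooth at (p, ch 1)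
(ps_sm at ch 1 via Filter.Eventually.self_of_nhds, value of the argument 1), lAd (α q) = fderiv (H (q, ·)) (ch 1);
ContDiffAt.fderiv again. CH_EQ: x is continuous at p, so x q = ps (ch (x q)) for q near p (ps_ch); if
ch (x q) = ch 1 then x q = ps (ch 1) = 1. CH_KER: for q near p (x is smooth near p: lSm at p for ∞ gives
C^1 smoothness near p, or use ContMDiffAt 1 eventually; ps smooth near ch 1): chain rule for
ch (x q' * (x q)⁻¹) = R (ch (x q')), R a = ch (ps a * (x q)⁻¹), valid for q' near q, and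
ch (x q') = R' (ch (x q' * (x q)⁻¹)), R' b = ch (ps b * x q), valid for q' near q; so each derivative is a
linear image of the other one (R is differentiable at ch (x q), R' is differentiable at ch 1, for q near p).
For differentiability of q' ↦ ch (x q') at q near p: ch_smooth at p and ContDiffAt eventually (n = 1).
EX_*: the map a ↦ ps (a + ch 1).
-/

open scoped ContDiff Topology Manifold
open Module

noncomputable section

namespace Pool.Agent.Helper60.LX

variable {E : Type} [NormedAddCommGroup E] [NormedSpace ℝ E]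
  {G : Type} [TopologicalSpace G] [ChartedSpace E G] [Group G] [LieGroup 𝓘(ℝ, E) ∞ G]
  {F : Type} [NormedAddCommGroup F] [NormedSpace ℝ F]

private theorem ps1 : lSm E (ps G) (ch E (1 : G)) := (ps_sm (E := E) (G := G)).self_of_nhds

private theorem ev_ps_ch' (E : Type) [NormedAddCommGroup E] [NormedSpace ℝ E] {G : Type}
    [TopologicalSpace G] [ChartedSpace E G] [Group G] {F : Type} [TopologicalSpace F] {α : F → G} {p : F} (hα : ContinuousAt α p) (h1 : α p = 1) :
    ∀ᶠ q in 𝓝 p, ps G (ch E (α q)) = α q := by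
  have hc : Filter.Tendsto α (𝓝 p) (𝓝 (1 : G)) := by
    rw [ContinuousAt, h1] at hα
    exact hα
  exact hc.eventually (ps_ch (E := E) (G := G))

theorem ldl_smooth {x : F → G} {p : F} (hx : lSm E x p) :
    ContDiffAt ℝ ∞ (fun q => ldl E x q) p := by
  have h1 : lSm E (fun z : F × F => x z.1) (p, p) :=
    lSm_comp (f := Prod.fst) (p := (p, p)) hx contDiffAt_fst
  have h2 : lSm E (fun z : F × F => x z.2) (p, p) :=
    lSm_comp (f := Prod.snd) (p := (p, p)) hx contDiffAt_snd
  have h3 : ContDiffAt ℝ ∞ (fun z : F × F => ch E (x z.2 * (x z.1)⁻¹)) (p, p) :=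
    ch_smooth (lSm_mul h2 (lSm_inv h1)) (mul_inv_cancel _)
  exact ContDiffAt.fderiv (f := fun q q' => ch E (x q' * (x q)⁻¹)) (g := fun q => q) (n := ∞)
    (m := ∞) h3 contDiffAt_id (by simp)

theorem lAd_smooth {x : F → G} {p : F} (hx : lSm E x p) :
    ContDiffAt ℝ ∞ (fun q => lAd E (x q)) p := by
  have hα : lSm E (fun q => x q * (x p)⁻¹) p := lSm_mul hx (lSm_const _ _)
  have h1 : lSm E (fun z : F × E => x z.1 * (x p)⁻¹) (p, ch E (1 : G)) :=
    lSm_comp (f := Prod.fst) (p := (p, ch E (1 : G))) hα contDiffAt_fst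
  have h2 : lSm E (fun z : F × E => ps G z.2) (p, ch E (1 : G)) :=
    lSm_comp (f := Prod.snd) (p := (p, ch E (1 : G))) ps1 contDiffAt_snd
  have h3 : ContDiffAt ℝ ∞ (fun z : F × E =>
      ch E (x z.1 * (x p)⁻¹ * ps G z.2 * (x z.1 * (x p)⁻¹)⁻¹)) (p, ch E (1 : G)) := by
    refine ch_smooth (lSm_mul (lSm_mul h1 h2) (lSm_inv h1)) ?_
    show x p * (x p)⁻¹ * ps G (ch E (1 : G)) * (x p * (x p)⁻¹)⁻¹ = 1
    rw [ps_ch_one, mul_one, mul_inv_cancel]
  have h4 : ContDiffAt ℝ ∞ (fun q => lAd E (x q * (x p)⁻¹)) p :=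
    ContDiffAt.fderiv (f := fun q a => ch E (x q * (x p)⁻¹ * ps G a * (x q * (x p)⁻¹)⁻¹))
      (g := fun _ => ch E (1 : G)) (n := ∞) (m := ∞) h3 contDiffAt_const (by simp)
  have h5 : (fun q => lAd E (x q)) = fun q => (lAd E (x q * (x p)⁻¹)).comp (lAd E (x p)) := by
    funext q
    rw [← lAd_mul, inv_mul_cancel_right]
  rw [h5]
  exact h4.clm_comp contDiffAt_const

theorem ch_eq {x : F → G} {p : F} (hx : lSm E x p) (h1 : x p = 1) :
    ∀ᶠ q in 𝓝 p, ch E (x q) = ch E (1 : G) ↔ x q = 1 := by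
  filter_upwards [ev_ps_ch' E (lSm.continuousAt hx) h1] with q hq
  constructor
  · intro h
    rw [← hq, h, ps_ch_one]
  · intro h
    rw [h]

theorem ch_ker {x : F → G} {p : F} (hx : lSm E x p) (h1 : x p = 1) :
    ∀ᶠ q in 𝓝 p, ∀ X : F, fderiv ℝ (fun q' => ch E (x q')) q X = 0 ↔ ldl E x q X = 0 := by
  -- `ch ∘ x` is differentiable near `p`
  have hcx : ContDiffAt ℝ ∞ (fun q => ch E (x q)) p := ch_smooth hx h1
  have ecx : ∀ᶠ q in 𝓝 p, ContDiffAt ℝ 1 (fun q => ch E (x q)) q :=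
    (hcx.of_le (m := 1) (by exact_mod_cast le_top)).eventually (by simp)
  have tcx : Filter.Tendsto (fun q => ch E (x q)) (𝓝 p) (𝓝 (ch E (1 : G))) := by
    have h := hcx.continuousAt
    rw [ContinuousAt, h1] at h
    exact h
  -- `x` is continuous near `p`
  have eps : ∀ᶠ q in 𝓝 p, ContinuousAt (ps G) (ch E (x q)) :=
    (tcx.eventually (ps_sm (E := E) (G := G))).mono fun q hq => lSm.continuousAt hq
  have exx : ∀ᶠ q in 𝓝 p, ∀ᶠ q' in 𝓝 q, ps G (ch E (x q')) = x q' :=
    (ev_ps_ch' E (lSm.continuousAt hx) h1).eventually_nhds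
  -- the map `R`
  have k1 : lSm E (fun z : F × E => x z.1) (p, ch E (1 : G)) :=
    lSm_comp (f := Prod.fst) (p := (p, ch E (1 : G))) hx contDiffAt_fst
  have k2 : lSm E (fun z : F × E => ps G z.2) (p, ch E (1 : G)) :=
    lSm_comp (f := Prod.snd) (p := (p, ch E (1 : G))) ps1 contDiffAt_snd
  have k3 : ContDiffAt ℝ ∞ (fun z : F × E => ch E (ps G z.2 * (x z.1)⁻¹)) (p, ch E (1 : G)) := by
    refine ch_smooth (lSm_mul k2 (lSm_inv k1)) ?_
    show ps G (ch E (1 : G)) * (x p)⁻¹ = 1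
    rw [ps_ch_one, h1, one_mul, inv_one]
  have k4 : ContDiffAt ℝ ∞ (fun z : F × E => ch E (ps G z.2 * x z.1)) (p, ch E (1 : G)) := by
    refine ch_smooth (lSm_mul k2 k1) ?_
    show ps G (ch E (1 : G)) * x p = 1
    rw [ps_ch_one, h1, one_mul]
  have t1 : Filter.Tendsto (fun q => (q, ch E (x q))) (𝓝 p) (𝓝 (p, ch E (1 : G))) :=
    (Filter.tendsto_id).prodMk_nhds tcx
  have t2 : Filter.Tendsto (fun q : F => (q, ch E (1 : G))) (𝓝 p) (𝓝 (p, ch E (1 : G))) :=
    (Filter.tendsto_id).prodMk_nhds tendsto_const_nhds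
  have e3 : ∀ᶠ q in 𝓝 p, ContDiffAt ℝ 1 (fun z : F × E => ch E (ps G z.2 * (x z.1)⁻¹))
      (q, ch E (x q)) :=
    t1.eventually ((k3.of_le (m := 1) (by exact_mod_cast le_top)).eventually (by simp))
  have e4 : ∀ᶠ q in 𝓝 p, ContDiffAt ℝ 1 (fun z : F × E => ch E (ps G z.2 * x z.1))
      (q, ch E (1 : G)) :=
    t2.eventually ((k4.of_le (m := 1) (by exact_mod_cast le_top)).eventually (by simp))
  filter_upwards [ecx, eps, exx, e3, e4] with q hq1 hq2 hq3 hq4 hq5
  have d1 : DifferentiableAt ℝ (fun q => ch E (x q)) q := hq1.differentiableAt (by simp)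
  have cx : ContinuousAt x q := by
    have h2 : ContinuousAt (fun q' => ps G (ch E (x q'))) q :=
      ContinuousAt.comp (f := fun q' => ch E (x q')) (g := ps G) hq2 d1.continuousAt
    exact h2.congr hq3
  have dR : DifferentiableAt ℝ (fun a => ch E (ps G a * (x q)⁻¹)) (ch E (x q)) :=
    DifferentiableAt.comp (f := fun a : E => (q, a)) (ch E (x q))
      (hq4.differentiableAt (by simp)) (hasFDerivAt_prodMk_right q (ch E (x q))).differentiableAt
  have dR' : DifferentiableAt ℝ (fun b => ch E (ps G b * x q)) (ch E (1 : G)) :=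
    DifferentiableAt.comp (f := fun a : E => (q, a)) (ch E (1 : G))
      (hq5.differentiableAt (by simp))
      (hasFDerivAt_prodMk_right q (ch E (1 : G))).differentiableAt
  -- first relation
  have a1 : (fun q' => ch E (x q' * (x q)⁻¹)) =ᶠ[𝓝 q]
      (fun a => ch E (ps G a * (x q)⁻¹)) ∘ (fun q' => ch E (x q')) := by
    filter_upwards [hq3] with q' hq'
    show _ = ch E (ps G (ch E (x q')) * (x q)⁻¹)
    rw [hq']
  have d2 : DifferentiableAt ℝ (fun q' => ch E (x q' * (x q)⁻¹)) q :=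
    (DifferentiableAt.comp q dR d1).congr_of_eventuallyEq a1
  have b1 : ldl E x q = (fderiv ℝ (fun a => ch E (ps G a * (x q)⁻¹)) (ch E (x q))).comp
      (fderiv ℝ (fun q' => ch E (x q')) q) := by
    show fderiv ℝ (fun q' => ch E (x q' * (x q)⁻¹)) q = _
    rw [a1.fderiv_eq]
    exact fderiv_comp q dR d1
  -- second relation
  have cy : ContinuousAt (fun q' => x q' * (x q)⁻¹) q := by
    have : ContinuousMul G := continuousMul_of_contMDiffMul 𝓘(ℝ, E) ∞
    exact cx.mul continuousAt_const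
  have a2 : (fun q' => ch E (x q')) =ᶠ[𝓝 q]
      (fun b => ch E (ps G b * x q)) ∘ (fun q' => ch E (x q' * (x q)⁻¹)) := by
    filter_upwards [ev_ps_ch' E cy (mul_inv_cancel _)] with q' hq'
    show _ = ch E (ps G (ch E (x q' * (x q)⁻¹)) * x q)
    rw [hq', inv_mul_cancel_right]
  have ey : ch E (x q * (x q)⁻¹) = ch E (1 : G) := by rw [mul_inv_cancel]
  have b2 : fderiv ℝ (fun q' => ch E (x q')) q =
      (fderiv ℝ (fun b => ch E (ps G b * x q)) (ch E (1 : G))).comp (ldl E x q) := by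
    have dR2 : DifferentiableAt ℝ (fun b => ch E (ps G b * x q))
        ((fun q' => ch E (x q' * (x q)⁻¹)) q) := by
      show DifferentiableAt ℝ (fun b => ch E (ps G b * x q)) (ch E (x q * (x q)⁻¹))
      rw [ey]
      exact dR'
    have h3 := fderiv_comp q dR2 d2
    rw [a2.fderiv_eq, h3]
    show (fderiv ℝ (fun b => ch E (ps G b * x q)) (ch E (x q * (x q)⁻¹))).comp _ = _
    rw [ey]
    rfl
  intro X
  constructor
  · intro h
    rw [b1, ContinuousLinearMap.comp_apply, h, map_zero]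
  · intro h
    rw [b2, ContinuousLinearMap.comp_apply, h, map_zero]

theorem ex_sm' : lSm E (fun a : E => ps G (a + ch E (1 : G))) 0 := by
  refine lSm_comp (x := ps G) (f := fun a : E => a + ch E (1 : G)) (p := 0) ?_
    (contDiffAt_id.add contDiffAt_const)
  rw [zero_add]
  exact ps1

theorem ex_dl' : ldl E (fun a : E => ps G (a + ch E (1 : G))) 0 = ContinuousLinearMap.id ℝ E := by
  show fderiv ℝ (fun a : E => ch E (ps G (a + ch E (1 : G)) * (ps G (0 + ch E (1 : G)))⁻¹)) 0 = _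
  rw [zero_add, ps_ch_one, inv_one]
  have t : Filter.Tendsto (fun a : E => a + ch E (1 : G)) (𝓝 0) (𝓝 (ch E (1 : G))) := by
    have h : Continuous (fun a : E => a + ch E (1 : G)) := continuous_id.add continuous_const
    have h2 := h.tendsto 0
    rwa [zero_add] at h2
  have e1 : (fun a : E => ch E (ps G (a + ch E (1 : G)) * 1)) =ᶠ[𝓝 0]
      fun a => a + ch E (1 : G) := by
    filter_upwards [t.eventually (ch_ps (E := E) (G := G))] with a ha
    rw [mul_one, ha]
  rw [e1.fderiv_eq, fderiv_add_const]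
  exact fderiv_fun_id

end Pool.Agent.Helper60.LX
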