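import Pool.Agent.Helper60.LX.Calc

/-!
# Project LX: linear algebra

PROOFS. ISO_RANK: b X = B (f X) : T → Dual V, a = rank b = finrank T - finrank (ker b). Let
R = range B, ρ = finrank R, and e : V → Dual R the evaluation, e(v)(φ) = φ(v). ker (e ∘ f) = ker b:
φ (f X) = 0 for all φ in R means B v (f X) = 0 for all v, i.e. B (f X) v = 0 for all v by skewness.
So finrank (range (e ∘ f)) = a. Every element of range (e ∘ f) vanishes on range b (a subspace of R of
dimension a) by hf, so a ≤ ρ - a (the annihilator in Dual R of a subspace of dimension a has dimension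
ρ - a: Subspace.finrank_add_finrank_dualAnnihilator_eq). So 2 a ≤ ρ.
THREE_ISO: K3 = {X : B (u 0 X) = 0, B (u 1 X) = 0}. (i) On V × V the skew form
B2 ((v, v'), (w, w')) = B v w - B v' w' has rank 2 rank B (range B2 is the product of the ranges);
f = (u 0, u 1) : T → V × V is isotropic and {X : B2 (f X) = 0} = K3: by ISO_RANK
2 finrank T ≤ 2 finrank K3 + 2 rank B. (ii) For X ∈ K3, Y ∈ K3: B (u 2 X) (u 2 Y) = B (u 0 X) (u 0 Y) = 0:
by ISO_RANK for T = K3, f = u 2: 2 finrank K3 ≤ 2 finrank (the intersection) + rank B.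
RANK_ADD: let a = rank A, b = rank (B on V''). Choose v_1..v_a, w_1..w_a in V with the matrix
A (v_i) (w_j) invertible and k_1..k_b, l_1..l_b in V'' with B (k_i) (l_j) invertible (e.g. v_i such that
A v_i is a basis of range A, then w_j dual to them: the evaluation V → Dual (range A) is surjective).
The matrix of A + t B for (v, k) and (w, l) is [[A(v,w) + t B(v,w), t B(v,l)], [t B(k,w), t B(k,l)]]
(A k = 0, and A v l = - A l v = 0). Its determinant is t^b det [[A(v,w)+tB(v,w), t B(v,l)], [B(k,w),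
B(k,l)]], and the second factor is a polynomial in t with value det A(v,w) det B(k,l) ≠ 0 at t = 0. So
for some t ≠ 0 it is invertible and then rank (A + t B) ≥ a + b. (Any other proof is welcome, e.g. with
lower semicontinuity of the rank.)
RK_ADD: RANK_ADD for V = h, A = form br h lam, B = form br h μ, V'' = h'' as a subspace of h.
-/

open scoped ContDiff Topology
open Module

noncomputable section

namespace Pool.Agent.Helper60.LX

private theorem exists_section {V W : Type} [AddCommGroup V] [Module ℝ V] [AddCommGroup W]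
    [Module ℝ W] (f : V →ₗ[ℝ] W) : ∃ p : LinearMap.range f →ₗ[ℝ] V, ∀ x, f (p x) = (x : W) := by
  obtain ⟨p, hp⟩ := LinearMap.exists_rightInverse_of_surjective f.rangeRestrict
    (LinearMap.range_rangeRestrict f)
  exact ⟨p, fun x => congrArg Subtype.val (LinearMap.congr_fun hp x)⟩

private theorem exists_proj {W : Type} [AddCommGroup W] [Module ℝ W] (R : Submodule ℝ W) :
    ∃ Q : W →ₗ[ℝ] R, ∀ x : R, Q (x : W) = x := by
  obtain ⟨Q, hQ⟩ := LinearMap.exists_leftInverse_of_injective R.subtype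
    (LinearMap.ker_eq_bot.2 R.injective_subtype)
  exact ⟨Q, fun x => LinearMap.congr_fun hQ x⟩

private theorem rank_comp_le {V W W' : Type} [AddCommGroup V] [Module ℝ V]
    [AddCommGroup W] [Module ℝ W] [FiniteDimensional ℝ W] [AddCommGroup W'] [Module ℝ W']
    (g : W →ₗ[ℝ] W') (f : V →ₗ[ℝ] W) :
    finrank ℝ (LinearMap.range (g ∘ₗ f)) ≤ finrank ℝ (LinearMap.range f) := by
  rw [LinearMap.range_comp]
  exact Submodule.finrank_map_le g _

private theorem rank_comp_le' {V V' W : Type} [AddCommGroup V] [Module ℝ V] [AddCommGroup V']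
    [Module ℝ V'] [AddCommGroup W] [Module ℝ W] [FiniteDimensional ℝ W]
    (g : V' →ₗ[ℝ] W) (f : V →ₗ[ℝ] V') :
    finrank ℝ (LinearMap.range (g ∘ₗ f)) ≤ finrank ℝ (LinearMap.range g) :=
  Submodule.finrank_mono (LinearMap.range_comp_le_range _ _)

theorem iso_rank {T V : Type} [AddCommGroup T] [Module ℝ T] [FiniteDimensional ℝ T]
    [AddCommGroup V] [Module ℝ V] [FiniteDimensional ℝ V] (B : V →ₗ[ℝ] Dual ℝ V)
    (hB : ∀ u v, B u v = - B v u) (f : T →ₗ[ℝ] V) (hf : ∀ X Y, B (f X) (f Y) = 0) :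
    2 * finrank ℝ T ≤ 2 * finrank ℝ (LinearMap.ker (B ∘ₗ f)) + finrank ℝ (LinearMap.range B) := by
  set W : Submodule ℝ V := LinearMap.range f with hW
  have h1 := LinearMap.BilinForm.finrank_add_finrank_orthogonal'
    (B := (show LinearMap.BilinForm ℝ V from B)) W
  set O : Submodule ℝ V :=
    LinearMap.BilinForm.orthogonal (show LinearMap.BilinForm ℝ V from B) W with hO
  change finrank ℝ W + finrank ℝ O = finrank ℝ V + finrank ℝ ↥(W ⊓ LinearMap.ker B) at h1
  set K : Submodule ℝ V := LinearMap.ker B with hK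
  have hle : W ⊔ K ≤ O := by
    refine sup_le ?_ ?_
    · rintro _ ⟨X, rfl⟩
      rw [hO, LinearMap.BilinForm.mem_orthogonal_iff]
      rintro _ ⟨Y, rfl⟩
      exact hf Y X
    · intro v hv
      rw [hO, LinearMap.BilinForm.mem_orthogonal_iff]
      intro w _
      have : B v = 0 := hv
      change B w v = 0
      rw [hB, this]
      simp
  have h2 : finrank ℝ ↥(W ⊔ K) ≤ finrank ℝ ↥O := Submodule.finrank_mono hle
  have h3 := Submodule.finrank_sup_add_finrank_inf_eq W K
  have h4 : finrank ℝ (LinearMap.range B) + finrank ℝ K = finrank ℝ V :=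
    LinearMap.finrank_range_add_finrank_ker B
  have h5 : finrank ℝ (LinearMap.range (B ∘ₗ f)) + finrank ℝ (LinearMap.ker (B ∘ₗ f)) =
      finrank ℝ T := LinearMap.finrank_range_add_finrank_ker (B ∘ₗ f)
  have h6 : finrank ℝ (LinearMap.range (B ∘ₗ f)) + finrank ℝ ↥(W ⊓ K) = finrank ℝ W := by
    have e1 : LinearMap.range (B ∘ₗ f) = LinearMap.range (B ∘ₗ W.subtype) := by
      rw [LinearMap.range_comp, LinearMap.range_comp, Submodule.range_subtype]
    have e2 := LinearMap.finrank_range_add_finrank_ker (B ∘ₗ W.subtype)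
    have e3 : finrank ℝ (LinearMap.ker (B ∘ₗ W.subtype)) = finrank ℝ ↥(W ⊓ K) := by
      have : (LinearMap.ker (B ∘ₗ W.subtype)).map W.subtype = W ⊓ K := by
        rw [LinearMap.ker_comp, Submodule.map_comap_subtype]
      rw [← this]
      exact (Submodule.finrank_map_subtype_eq W _).symm
    rw [e1, ← e3]
    exact e2
  omega

theorem three_iso {T V : Type} [AddCommGroup T] [Module ℝ T] [FiniteDimensional ℝ T]
    [AddCommGroup V] [Module ℝ V] [FiniteDimensional ℝ V] (B : V →ₗ[ℝ] Dual ℝ V)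
    (hB : ∀ u v, B u v = - B v u) (u : Fin 3 → T →ₗ[ℝ] V)
    (hu : ∀ i X Y, B (u i X) (u i Y) = B (u 0 X) (u 0 Y)) :
    2 * finrank ℝ T ≤ 2 * finrank ℝ (⨅ i, LinearMap.ker (B ∘ₗ u i) : Submodule ℝ T) +
      3 * finrank ℝ (LinearMap.range B) := by
  -- the form on V x V
  set P1 : V × V →ₗ[ℝ] Dual ℝ (V × V) :=
    (LinearMap.fst ℝ V V).dualMap ∘ₗ B ∘ₗ LinearMap.fst ℝ V V with hP1
  set P2 : V × V →ₗ[ℝ] Dual ℝ (V × V) :=
    (LinearMap.snd ℝ V V).dualMap ∘ₗ B ∘ₗ LinearMap.snd ℝ V V with hP2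
  set B2 : V × V →ₗ[ℝ] Dual ℝ (V × V) := P1 - P2 with hB2
  have hB2v : ∀ p q : V × V, B2 p q = B p.1 q.1 - B p.2 q.2 := by
    intro p q
    simp [hB2, hP1, hP2]
  have hskew : ∀ p q, B2 p q = - B2 q p := by
    intro p q
    rw [hB2v, hB2v, hB p.1, hB p.2]
    ring
  have hr1 : finrank ℝ (LinearMap.range P1) ≤ finrank ℝ (LinearMap.range B) := by
    rw [hP1]
    exact le_trans (rank_comp_le _ _) (rank_comp_le' _ _)
  have hr2 : finrank ℝ (LinearMap.range P2) ≤ finrank ℝ (LinearMap.range B) := by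
    rw [hP2]
    exact le_trans (rank_comp_le _ _) (rank_comp_le' _ _)
  have hr : finrank ℝ (LinearMap.range B2) ≤ 2 * finrank ℝ (LinearMap.range B) := by
    have hsub : LinearMap.range B2 ≤ LinearMap.range P1 ⊔ LinearMap.range P2 := by
      rintro _ ⟨p, rfl⟩
      rw [hB2, LinearMap.sub_apply]
      exact Submodule.sub_mem _ (Submodule.mem_sup_left ⟨p, rfl⟩)
        (Submodule.mem_sup_right ⟨p, rfl⟩)
    have h1 := Submodule.finrank_mono hsub
    have h2 := Submodule.finrank_add_le_finrank_add_finrank (LinearMap.range P1)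
      (LinearMap.range P2)
    have h2' : finrank ℝ ↥(LinearMap.range P1 ⊔ LinearMap.range P2) ≤
      finrank ℝ (LinearMap.range P1) + finrank ℝ (LinearMap.range P2) := h2
    omega
  have h1 := iso_rank B2 hskew ((u 0).prod (u 1)) (by
    intro X Y
    rw [hB2v]
    simp [hu 1 X Y])
  set K3 : Submodule ℝ T := LinearMap.ker (B2 ∘ₗ (u 0).prod (u 1)) with hK3
  have hK3mem : ∀ X ∈ K3, B (u 0 X) = 0 ∧ B (u 1 X) = 0 := by
    intro X hX
    have hX' : ∀ q : V × V, B (u 0 X) q.1 - B (u 1 X) q.2 = 0 := by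
      intro q
      have := LinearMap.congr_fun (LinearMap.mem_ker.1 hX) q
      rw [LinearMap.comp_apply, hB2v] at this
      simpa using this
    constructor
    · ext v
      simpa using hX' (v, 0)
    · ext v
      simpa using hX' (0, v)
  have h2 := iso_rank B hB (u 2 ∘ₗ K3.subtype) (by
    intro X Y
    have := hu 2 (X : T) (Y : T)
    simp only [LinearMap.comp_apply, Submodule.subtype_apply]
    rw [this, (hK3mem X X.2).1]
    simp)
  have h3 : finrank ℝ (LinearMap.ker (B ∘ₗ (u 2 ∘ₗ K3.subtype))) ≤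
      finrank ℝ (⨅ i, LinearMap.ker (B ∘ₗ u i) : Submodule ℝ T) := by
    rw [← Submodule.finrank_map_subtype_eq K3]
    apply Submodule.finrank_mono
    rintro _ ⟨X, hX, rfl⟩
    rw [Submodule.mem_iInf]
    intro i
    rw [LinearMap.mem_ker, LinearMap.comp_apply]
    have hX2 : B (u 2 (X : T)) = 0 := hX
    fin_cases i
    · exact (hK3mem X X.2).1
    · exact (hK3mem X X.2).2
    · exact hX2
  omega

private theorem exists_scalar {R : Type} [AddCommGroup R] [Module ℝ R] [FiniteDimensional ℝ R]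
    (N : Module.End ℝ R) : ∃ t : ℝ, t ≠ 0 ∧ ∀ x : R, x + t • N x = 0 → x = 0 := by
  obtain ⟨μ, hμ0, hμ⟩ : ∃ μ : ℝ, μ ≠ 0 ∧ ¬ N.HasEigenvalue μ := by
    have hfin : (({0} : Set ℝ) ∪ {μ | N.HasEigenvalue μ}).Finite :=
      (Set.finite_singleton 0).union (Module.End.finite_hasEigenvalue N)
    obtain ⟨μ, hμ⟩ := hfin.infinite_compl.nonempty
    simp only [Set.mem_compl_iff, Set.mem_union, Set.mem_singleton_iff, Set.mem_setOf_eq,
      not_or] at hμ
    exact ⟨μ, hμ.1, hμ.2⟩
  refine ⟨-μ⁻¹, neg_ne_zero.2 (inv_ne_zero hμ0), ?_⟩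
  intro x hx
  by_contra hne
  apply hμ
  refine Module.End.hasEigenvalue_of_hasEigenvector (x := x) ⟨?_, hne⟩
  rw [Module.End.mem_eigenspace_iff]
  have h1 : (-μ⁻¹) • N x = -x := eq_neg_of_add_eq_zero_right hx
  rw [neg_smul] at h1
  have h2 : μ⁻¹ • N x = x := neg_injective h1
  calc N x = μ • (μ⁻¹ • N x) := by rw [smul_smul, mul_inv_cancel₀ hμ0, one_smul]
    _ = μ • x := by rw [h2]

private theorem rank_add_aux {V W W'' : Type} [AddCommGroup V] [Module ℝ V]
    [FiniteDimensional ℝ V] [AddCommGroup W] [Module ℝ W] [FiniteDimensional ℝ W]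
    [AddCommGroup W''] [Module ℝ W''] [FiniteDimensional ℝ W'']
    (A B : V →ₗ[ℝ] W) (ρ : W →ₗ[ℝ] W'') (hρ : ∀ v, ρ (A v) = 0) (V'' : Submodule ℝ V)
    (hV : ∀ u ∈ V'', A u = 0) (s : ℕ)
    (hs : ∀ t : ℝ, finrank ℝ (LinearMap.range (A + t • B)) ≤ s) :
    finrank ℝ (LinearMap.range A) +
      finrank ℝ (LinearMap.range ((ρ ∘ₗ B) ∘ₗ V''.subtype)) ≤ s := by
  obtain ⟨p, hp⟩ := exists_section A
  obtain ⟨q, hq⟩ := exists_section ((ρ ∘ₗ B) ∘ₗ V''.subtype)
  obtain ⟨Q1, hQ1⟩ := exists_proj (LinearMap.range A)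
  obtain ⟨π, hπ⟩ := exists_proj (LinearMap.range ((ρ ∘ₗ B) ∘ₗ V''.subtype))
  have hq' : ∀ y, ρ (B (q y : V)) = (y : W'') := hq
  have hAq : ∀ y, A (q y : V) = 0 := fun y => hV _ (q y).2
  obtain ⟨t, ht0, ht⟩ := exists_scalar
    (Q1 ∘ₗ B ∘ₗ (p - (V''.subtype ∘ₗ q ∘ₗ π ∘ₗ ρ ∘ₗ B ∘ₗ p)))
  have hinj : Function.Injective ((A + t • B) ∘ₗ (p ∘ₗ LinearMap.fst ℝ _ _ +
      V''.subtype ∘ₗ q ∘ₗ LinearMap.snd ℝ _ _)) := by
    rw [← LinearMap.ker_eq_bot, LinearMap.ker_eq_bot']
    rintro ⟨x, y⟩ hxy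
    have hxy' : A (p x) + t • (B (p x) + B (q y : V)) = 0 := by
      have h0 := hxy
      simp only [LinearMap.comp_apply, LinearMap.add_apply, LinearMap.fst_apply,
        LinearMap.snd_apply, Submodule.subtype_apply, map_add, LinearMap.smul_apply,
        hAq y] at h0
      rw [smul_add, ← h0]
      abel
    have hy : π (ρ (B (p x))) + y = 0 := by
      have h0 := congrArg (fun w => π (ρ w)) hxy'
      simp only [map_add, hρ, map_smul, map_zero, zero_add, hq', hπ] at h0
      exact (smul_eq_zero.1 h0).resolve_left ht0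
    have hy' : y = - π (ρ (B (p x))) := eq_neg_of_add_eq_zero_right hy
    have hx0 : x = 0 := by
      apply ht
      have h0 := congrArg Q1 hxy'
      rw [map_add, hp x, hQ1, map_smul, map_zero] at h0
      have hN : (Q1 ∘ₗ B ∘ₗ (p - (V''.subtype ∘ₗ q ∘ₗ π ∘ₗ ρ ∘ₗ B ∘ₗ p))) x =
          Q1 (B (p x) + B (q y : V)) := by
        rw [hy']
        simp only [LinearMap.comp_apply, LinearMap.sub_apply, Submodule.subtype_apply,
          map_neg, Submodule.coe_neg, map_sub, map_add]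
        rw [sub_eq_add_neg]
      rw [hN]
      exact h0
    subst hx0
    have hy0 : y = 0 := by
      rw [hy']
      simp
    rw [hy0]
    rfl
  have h1 := LinearMap.finrank_range_of_inj hinj
  have h2 : finrank ℝ (LinearMap.range ((A + t • B) ∘ₗ (p ∘ₗ LinearMap.fst ℝ _ _ +
      V''.subtype ∘ₗ q ∘ₗ LinearMap.snd ℝ _ _))) ≤ finrank ℝ (LinearMap.range (A + t • B)) :=
    rank_comp_le' _ _
  have h3 := hs t
  rw [Module.finrank_prod] at h1
  omega

theorem rank_add {V : Type} [AddCommGroup V] [Module ℝ V] [FiniteDimensional ℝ V]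
    (A B : V →ₗ[ℝ] Dual ℝ V) (hA : ∀ u v, A u v = - A v u) (V'' : Submodule ℝ V)
    (hV : ∀ u ∈ V'', A u = 0) (s : ℕ)
    (hs : ∀ t : ℝ, finrank ℝ (LinearMap.range (A + t • B)) ≤ s) :
    finrank ℝ (LinearMap.range A) +
      finrank ℝ (LinearMap.range ((V''.subtype.dualMap ∘ₗ B) ∘ₗ V''.subtype)) ≤ s := by
  have hρ : ∀ v, V''.subtype.dualMap (A v) = 0 := by
    intro v
    ext l
    simp only [LinearMap.dualMap_apply, Submodule.subtype_apply, LinearMap.zero_apply]
    rw [hA, hV l l.2]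
    simp
  exact rank_add_aux A B V''.subtype.dualMap hρ V'' hV s hs

theorem rk_add {E : Type} [NormedAddCommGroup E] [NormedSpace ℝ E] [FiniteDimensional ℝ E]
    (br : E →L[ℝ] E →L[ℝ] E) (hbr : ∀ u, br u u = 0) {h h'' : Submodule ℝ E} (hle : h'' ≤ h)
    (lam μ : E →L[ℝ] ℝ) (hker : ∀ u ∈ h'', ∀ v ∈ h, lam (br u v) = 0) {s : ℕ}
    (hs : ∀ ν : E →L[ℝ] ℝ, rk br h ν ≤ s) : rk br h lam + rk br h'' μ ≤ s := by
  have hskew : ∀ u v, br u v = - br v u := by
    intro u v
    have h1 := hbr (u + v)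
    simp only [map_add, add_apply, hbr, zero_add, add_zero] at h1
    exact eq_neg_of_add_eq_zero_right h1
  set V'' : Submodule ℝ h := h''.comap h.subtype with hV''
  have hmain := rank_add (form br h lam) (form br h μ)
    (by
      intro u v
      change lam (br u v) = - lam (br v u)
      rw [hskew, map_neg]) V''
    (by
      intro u hu
      ext v
      exact hker u hu v v.2) s
    (by
      intro t
      have : form br h lam + t • form br h μ = form br h (lam + t • μ) := by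
        ext u v
        rfl
      rw [this]
      exact hs _)
  have hrank : finrank ℝ (LinearMap.range ((V''.subtype.dualMap ∘ₗ form br h μ) ∘ₗ V''.subtype)) =
      rk br h'' μ := by
    set e : V'' ≃ₗ[ℝ] h'' := Submodule.comapSubtypeEquivOfLe hle with he
    have h1 : (V''.subtype.dualMap ∘ₗ form br h μ) ∘ₗ V''.subtype =
        (e.dualMap : Dual ℝ h'' →ₗ[ℝ] Dual ℝ V'') ∘ₗ (form br h'' μ ∘ₗ (e : V'' →ₗ[ℝ] h'')) := by
      ext u v
      rfl
    rw [h1, LinearMap.range_comp, LinearMap.range_comp_of_range_eq_top _ e.range]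
    exact LinearEquiv.finrank_map_eq e.dualMap _
  rw [hrank] at hmain
  exact hmain

end Pool.Agent.Helper60.LX
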