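import Pool.Agent.Helper60.LX.LinAlg

/-!
# Project LX: pointwise facts about a system

Write η X = fderiv lam p X, ζ i X = dl (x i) p X.

PROOFS. OMEGA_EQ: the function q ↦ lam q (dl (x i) q Y) - lam q (dl (x 0) q Y) is zero on U (perp), so
its derivative at p in direction X is zero: η X (ζ i Y) + lam p (D(dl (x i))(p) X Y) is the same for i and
0. Subtract the same with X, Y exchanged and use mc. ETA_PERP: by hY (Y in the kernel of dn):
η Y w = - lam p (br (ζ i Y) w) for all w in h; take w = ζ i X (val): η Y (ζ i X) =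
- lam p (br (ζ i Y) (ζ i X)) = lam p (br (ζ i X) (ζ i Y)); so the left side of OMEGA_EQ is η X (ζ i Y).
COUNT: let k = hh br h lam0, lam0 = lam p, hl = {u ∈ h | ∀ v ∈ h, lam0 (br u v) = 0} (so k = hl ∩ ker
lam0, finrank hl = finrank h - rk, finrank hl ≤ finrank k + 1). T1 = {X | ∀ w ∈ hl, η X w = 0}.
(i) finrank F - finrank T1 = rank of X ↦ (η X on hl) ≤ rank of X ↦ (η X on k) + (finrank hl - finrank k)
(the restriction Dual hl → Dual k has kernel of dimension finrank hl - finrank k).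
(ii) for X in T1 there is y X ∈ h, linear in X, with η X w = - lam0 (br (y X) w) for all w ∈ h: the form
B = form br h lam0 is skew with kernel hl (as a subspace of h) and its range is the annihilator of hl
in Dual h (same dimension); choose a linear right inverse on the range.
(iii) u i X = ζ i X - y X : T1 → h. By OMEGA_EQ: B (u i X) (u i Y) = η X (ζ i Y) - η Y (ζ i X) +
lam0 (br (ζ i X) (ζ i Y)) + B (y X) (y Y), which is independent of i. THREE_ISO gives
2 finrank T1 ≤ 2 finrank {X ∈ T1 | B (u i X) = 0 for all i} + 3 rk. If B (u i X) = 0 then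
lam0 (br (ζ i X) w) = lam0 (br (y X) w) = - η X w for w ∈ h: X in the kernel of dnAll p.
Sum up: 2 finrank F ≤ 2 rank (η on k) + 2 (finrank h - rk - finrank k) + 2 finrank ker + 3 rk.
-/

open scoped ContDiff Topology
open Module

noncomputable section

namespace Pool.Agent.Helper60.LX

variable {G : Type} [Group G] {E : Type} [NormedAddCommGroup E] [NormedSpace ℝ E]
  {C : Calc G E} {h : Submodule ℝ E} {F : Type} [NormedAddCommGroup F] [NormedSpace ℝ F]
  {L : Type} [NormedAddCommGroup L] [NormedSpace ℝ L]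

/-- Restriction of a family of linear forms to the subspace `k`. -/
def resL (k : Submodule ℝ E) (η : F →L[ℝ] (E →L[ℝ] ℝ)) : F →L[ℝ] (k →L[ℝ] ℝ) :=
  ((ContinuousLinearMap.compL ℝ k E ℝ).flip k.subtypeL).comp η

theorem resL_apply (k : Submodule ℝ E) (η : F →L[ℝ] (E →L[ℝ] ℝ)) (X : F) (w : k) :
    resL k η X w = η X w := rfl

/-- `dn i p X = (η X + lam p [ζ i X, ·])` restricted to `h`. -/
def Sys.dn (S : Sys C h F L) (i : Fin 3) (p : F) : F →L[ℝ] (h →L[ℝ] ℝ) :=
  resL h (fderiv ℝ S.lam p +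
    (ContinuousLinearMap.compL ℝ E E ℝ (S.lam p)).comp (C.br.comp (C.dl (S.x i) p)))

theorem Sys.dn_apply (S : Sys C h F L) (i : Fin 3) (p X : F) (w : h) :
    S.dn i p X w = fderiv ℝ S.lam p X w + S.lam p (C.br (C.dl (S.x i) p X) w) := rfl

/-- The three maps `dn i p` together. -/
def Sys.dnAll (S : Sys C h F L) (p : F) : F →L[ℝ] (Fin 3 → (h →L[ℝ] ℝ)) :=
  ContinuousLinearMap.pi (fun i => S.dn i p)

/-- The subspace of all `u` in `h` with `lam0 u = 0` and `lam0 [u, h] = 0`. -/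
def hh (br : E →L[ℝ] E →L[ℝ] E) (h : Submodule ℝ E) (lam0 : E →L[ℝ] ℝ) : Submodule ℝ E where
  carrier := {u | u ∈ h ∧ lam0 u = 0 ∧ ∀ v ∈ h, lam0 (br u v) = 0}
  add_mem' := by
    rintro a b ⟨ha, ha', ha''⟩ ⟨hb, hb', hb''⟩
    refine ⟨h.add_mem ha hb, by simp [ha', hb'], fun v hv => by simp [ha'' v hv, hb'' v hv]⟩
  zero_mem' := ⟨h.zero_mem, by simp, fun v _ => by simp⟩
  smul_mem' := by
    rintro c a ⟨ha, ha', ha''⟩
    exact ⟨h.smul_mem c ha, by simp [ha'], fun v hv => by simp [ha'' v hv]⟩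

theorem mem_hh {br : E →L[ℝ] E →L[ℝ] E} {h : Submodule ℝ E} {lam0 : E →L[ℝ] ℝ} {u : E} :
    u ∈ hh br h lam0 ↔ u ∈ h ∧ lam0 u = 0 ∧ ∀ v ∈ h, lam0 (br u v) = 0 := Iff.rfl

private theorem br_skew (C : Calc G E) (u v : E) : C.br u v = - C.br v u := by
  have h := C.br_self (u + v)
  simp only [map_add, add_apply, C.br_self, zero_add, add_zero] at h
  exact eq_neg_of_add_eq_zero_right h

private theorem hasFDerivAt_pair (S : Sys C h F L) {p : F} (hp : p ∈ S.U) (i : Fin 3) (Y : F) :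
    HasFDerivAt (fun q => S.lam q (C.dl (S.x i) q Y))
      ((S.lam p).comp (((fderiv ℝ (fun q => C.dl (S.x i) q) p).flip Y)) +
        (fderiv ℝ S.lam p).flip (C.dl (S.x i) p Y)) p := by
  have h1 : HasFDerivAt S.lam (fderiv ℝ S.lam p) p :=
    ((S.lsm p hp).differentiableAt (by simp)).hasFDerivAt
  have h2 : HasFDerivAt (fun q => C.dl (S.x i) q) (fderiv ℝ (fun q => C.dl (S.x i) q) p) p :=
    ((C.dl_smooth (S.sm i p hp)).differentiableAt (by simp)).hasFDerivAt
  have h3 : HasFDerivAt (fun q => C.dl (S.x i) q Y)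
      ((fderiv ℝ (fun q => C.dl (S.x i) q) p).flip Y) p := by
    have := h2.clm_apply (hasFDerivAt_const Y p)
    simpa using this
  exact h1.clm_apply h3

private theorem pair_eq (S : Sys C h F L) {p : F} (hp : p ∈ S.U) (i : Fin 3) (X Y : F) :
    S.lam p (fderiv ℝ (fun q => C.dl (S.x i) q) p X Y) + fderiv ℝ S.lam p X (C.dl (S.x i) p Y) =
      S.lam p (fderiv ℝ (fun q => C.dl (S.x 0) q) p X Y) +
        fderiv ℝ S.lam p X (C.dl (S.x 0) p Y) := by
  have hi := hasFDerivAt_pair S hp i Y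
  have h0 := hasFDerivAt_pair S hp 0 Y
  have heq : (fun q => S.lam q (C.dl (S.x i) q Y)) =ᶠ[𝓝 p] fun q => S.lam q (C.dl (S.x 0) q Y) := by
    filter_upwards [S.isOpen.mem_nhds hp] with q hq
    exact S.perp i q hq Y
  have h0' := h0.congr_of_eventuallyEq heq
  have := congrArg (fun f : F →L[ℝ] ℝ => f X) (hi.unique h0')
  simpa using this

theorem omega_eq (S : Sys C h F L) {p : F} (hp : p ∈ S.U) (i : Fin 3) (X Y : F) :
    fderiv ℝ S.lam p X (C.dl (S.x i) p Y) - fderiv ℝ S.lam p Y (C.dl (S.x i) p X) +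
        S.lam p (C.br (C.dl (S.x i) p X) (C.dl (S.x i) p Y)) =
      fderiv ℝ S.lam p X (C.dl (S.x 0) p Y) - fderiv ℝ S.lam p Y (C.dl (S.x 0) p X) +
        S.lam p (C.br (C.dl (S.x 0) p X) (C.dl (S.x 0) p Y)) := by
  have h1 := pair_eq S hp i X Y
  have h2 := pair_eq S hp i Y X
  have h3 := congrArg (S.lam p) (C.mc (S.sm i p hp) X Y)
  have h4 := congrArg (S.lam p) (C.mc (S.sm 0 p hp) X Y)
  rw [map_sub] at h3 h4
  rw [← h3, ← h4]
  linarith

theorem eta_perp (S : Sys C h F L) {p : F} (hp : p ∈ S.U) (i : Fin 3) (X Y : F)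
    (hY : S.dnAll p Y = 0) :
    fderiv ℝ S.lam p X (C.dl (S.x i) p Y) = fderiv ℝ S.lam p X (C.dl (S.x 0) p Y) := by
  have key : ∀ j : Fin 3, fderiv ℝ S.lam p Y (C.dl (S.x j) p X) =
      S.lam p (C.br (C.dl (S.x j) p X) (C.dl (S.x j) p Y)) := by
    intro j
    have h1 : S.dn j p Y = 0 := congrFun hY j
    have h2 := S.dn_apply j p Y ⟨C.dl (S.x j) p X, S.val j p hp X⟩
    rw [h1] at h2
    have h3 : (0 : ℝ) = fderiv ℝ S.lam p Y (C.dl (S.x j) p X) +
        S.lam p (C.br (C.dl (S.x j) p Y) (C.dl (S.x j) p X)) := h2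
    rw [br_skew C (C.dl (S.x j) p X) (C.dl (S.x j) p Y), map_neg]
    linarith
  have h1 := omega_eq S hp i X Y
  rw [key i, key 0] at h1
  linarith

private theorem form_skew (C : Calc G E) (h : Submodule ℝ E) (μ : E →L[ℝ] ℝ) (u v : h) :
    form C.br h μ u v = - form C.br h μ v u := by
  change μ (C.br u v) = - μ (C.br v u)
  rw [br_skew C (u : E) (v : E), map_neg]

/-- the range of a skew form is the annihilator of its kernel -/
private theorem range_skew {V : Type} [AddCommGroup V] [Module ℝ V] [FiniteDimensional ℝ V]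
    (B : V →ₗ[ℝ] Dual ℝ V) (hB : ∀ u v, B u v = - B v u) :
    LinearMap.range B = (LinearMap.ker B).dualAnnihilator := by
  apply Submodule.eq_of_le_of_finrank_eq
  · rintro _ ⟨u, rfl⟩
    rw [Submodule.mem_dualAnnihilator]
    intro w hw
    rw [hB, LinearMap.mem_ker.mp hw]
    simp
  · have h1 := Subspace.finrank_add_finrank_dualAnnihilator_eq (LinearMap.ker B)
    have h2 := LinearMap.finrank_range_add_finrank_ker B
    omega

/-- restricting to a smaller space loses at most the codimension -/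
private theorem finrank_range_le {T V W : Type} [AddCommGroup T] [Module ℝ T]
    [FiniteDimensional ℝ T] [AddCommGroup V] [Module ℝ V] [FiniteDimensional ℝ V]
    [AddCommGroup W] [Module ℝ W] [FiniteDimensional ℝ W] (f : T →ₗ[ℝ] V) (r : V →ₗ[ℝ] W) :
    finrank ℝ (LinearMap.range f) ≤
      finrank ℝ (LinearMap.range (r ∘ₗ f)) + finrank ℝ (LinearMap.ker r) := by
  have h1 := LinearMap.finrank_range_add_finrank_ker (r.domRestrict (LinearMap.range f))
  have h2 : LinearMap.range (r.domRestrict (LinearMap.range f)) = LinearMap.range (r ∘ₗ f) := by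
    rw [LinearMap.range_domRestrict, LinearMap.range_comp]
  have h3 : finrank ℝ (LinearMap.ker (r.domRestrict (LinearMap.range f))) ≤
      finrank ℝ (LinearMap.ker r) := by
    let g : LinearMap.ker (r.domRestrict (LinearMap.range f)) →ₗ[ℝ] LinearMap.ker r :=
      { toFun := fun x => ⟨(x.1 : V), x.2⟩
        map_add' := fun _ _ => rfl
        map_smul' := fun _ _ => rfl }
    apply LinearMap.finrank_le_finrank_of_injective (f := g)
    intro x y hxy
    have := congrArg Subtype.val hxy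
    exact Subtype.ext (Subtype.ext this)
  rw [h2] at h1
  omega

private theorem exists_lift {T V W : Type} [AddCommGroup T] [Module ℝ T] [AddCommGroup V]
    [Module ℝ V] [AddCommGroup W] [Module ℝ W] (B : V →ₗ[ℝ] W) (f : T →ₗ[ℝ] W)
    (hf : ∀ X, f X ∈ LinearMap.range B) : ∃ y : T →ₗ[ℝ] V, ∀ X, B (y X) = f X := by
  obtain ⟨g, hg⟩ := LinearMap.exists_rightInverse_of_surjective B.rangeRestrict
    (LinearMap.range_eq_top.mpr B.surjective_rangeRestrict)
  refine ⟨g ∘ₗ LinearMap.codRestrict _ f hf, fun X => ?_⟩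
  have h1 := LinearMap.congr_fun hg (LinearMap.codRestrict _ f hf X)
  exact congrArg Subtype.val h1

/-- the linear part of the count -/
private theorem count_aux {T V : Type} [AddCommGroup T] [Module ℝ T] [FiniteDimensional ℝ T]
    [AddCommGroup V] [Module ℝ V] [FiniteDimensional ℝ V] (B : V →ₗ[ℝ] Dual ℝ V)
    (hB : ∀ u v, B u v = - B v u) (η : T →ₗ[ℝ] Dual ℝ V) (ζ : Fin 3 → T →ₗ[ℝ] V)
    (hom : ∀ i X Y, η X (ζ i Y) - η Y (ζ i X) + B (ζ i X) (ζ i Y) =
      η X (ζ 0 Y) - η Y (ζ 0 X) + B (ζ 0 X) (ζ 0 Y))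
    (k : Submodule ℝ V) (hk : k ≤ LinearMap.ker B) (N : Submodule ℝ T)
    (hN : ∀ X, (∀ i, η X + B (ζ i X) = 0) → X ∈ N) :
    2 * finrank ℝ T + 2 * finrank ℝ k ≤ 2 * finrank ℝ N +
      2 * finrank ℝ (LinearMap.range (k.subtype.dualMap ∘ₗ η)) + 2 * finrank ℝ V +
      finrank ℝ (LinearMap.range B) := by
  classical
  set hl : Submodule ℝ V := LinearMap.ker B with hhl
  -- the restriction to `hl`
  set ρ : T →ₗ[ℝ] Dual ℝ hl := hl.subtype.dualMap ∘ₗ η with hρ
  set T1 : Submodule ℝ T := LinearMap.ker ρ with hT1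
  have hT1m : ∀ X ∈ T1, ∀ w ∈ hl, η X w = 0 := by
    intro X hX w hw
    have h1 : ρ X = 0 := hX
    have h2 := congrArg (fun φ : Dual ℝ hl => φ ⟨w, hw⟩) h1
    exact h2
  -- (i)
  let ι : k →ₗ[ℝ] hl := Submodule.inclusion hk
  have hcomp : ι.dualMap ∘ₗ ρ = k.subtype.dualMap ∘ₗ η := by
    ext X w
    rfl
  have hker : finrank ℝ (LinearMap.ker ι.dualMap) + finrank ℝ k = finrank ℝ hl := by
    have hsurj : Function.Surjective ι.dualMap :=
      LinearMap.dualMap_surjective_of_injective (Submodule.inclusion_injective hk)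
    have h1 := LinearMap.finrank_range_add_finrank_ker ι.dualMap
    rw [LinearMap.range_eq_top.mpr hsurj, finrank_top, Subspace.dual_finrank_eq,
      Subspace.dual_finrank_eq] at h1
    omega
  have hi := finrank_range_le ρ ι.dualMap
  rw [hcomp] at hi
  have hi2 := LinearMap.finrank_range_add_finrank_ker ρ
  have hi3 := LinearMap.finrank_range_add_finrank_ker B
  -- (ii)
  have hmem : ∀ X : T1, η (X : T) ∈ LinearMap.range B := by
    intro X
    rw [range_skew B hB, Submodule.mem_dualAnnihilator]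
    exact fun w hw => hT1m X X.2 w hw
  obtain ⟨y, hy⟩ := exists_lift B (-(η ∘ₗ T1.subtype)) (fun X => by
    rw [LinearMap.neg_apply]
    exact Submodule.neg_mem _ (hmem X))
  replace hy : ∀ X : T1, B (y X) = - η (X : T) := hy
  -- (iii)
  let u : Fin 3 → T1 →ₗ[ℝ] V := fun i => ζ i ∘ₗ T1.subtype - y
  have hu0 : ∀ i X Y, B (u i X) (u i Y) = (η (X : T) (ζ i Y) - η (Y : T) (ζ i X) +
      B (ζ i X) (ζ i Y)) + B (y X) (y Y) := by
    intro i X Y
    change B (ζ i X - y X) (ζ i Y - y Y) = _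
    have h1 : B (y X) (ζ i Y) = - η (X : T) (ζ i Y) := by rw [hy]; rfl
    have h2 : B (ζ i X) (y Y) = η (Y : T) (ζ i X) := by
      rw [hB, hy]
      simp
    rw [map_sub B, LinearMap.sub_apply, map_sub (B (ζ i X)), map_sub (B (y X)), h1, h2]
    ring
  have hu : ∀ i X Y, B (u i X) (u i Y) = B (u 0 X) (u 0 Y) := by
    intro i X Y
    rw [hu0 i, hu0 0, hom i X Y]
  have h3 := three_iso B hB u hu
  have h4 : finrank ℝ (⨅ i, LinearMap.ker (B ∘ₗ u i) : Submodule ℝ T1) ≤ finrank ℝ N := by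
    have hmemN : ∀ x : (⨅ i, LinearMap.ker (B ∘ₗ u i) : Submodule ℝ T1), ((x : T1) : T) ∈ N := by
      intro x
      apply hN
      intro i
      have hx := (Submodule.mem_iInf _).mp x.2 i
      have hx2 : B (ζ i (x : T1) - y x) = 0 := hx
      rw [map_sub, hy, sub_neg_eq_add] at hx2
      rw [add_comm]
      exact hx2
    let g2 : (⨅ i, LinearMap.ker (B ∘ₗ u i) : Submodule ℝ T1) →ₗ[ℝ] N :=
      { toFun := fun x => ⟨((x : T1) : T), hmemN x⟩
        map_add' := fun _ _ => rfl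
        map_smul' := fun _ _ => rfl }
    apply LinearMap.finrank_le_finrank_of_injective (f := g2)
    intro x x' hxy
    have := congrArg Subtype.val hxy
    exact Subtype.ext (Subtype.ext this)
  have e1 : finrank ℝ (LinearMap.ker ρ) = finrank ℝ T1 := rfl
  have e2 : finrank ℝ (LinearMap.ker B) = finrank ℝ hl := rfl
  omega

theorem count [FiniteDimensional ℝ E] [FiniteDimensional ℝ F] (S : Sys C h F L) {p : F}
    (hp : p ∈ S.U) :
    2 * finrank ℝ F + 2 * finrank ℝ (hh C.br h (S.lam p)) ≤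
      2 * finrank ℝ (LinearMap.ker (S.dnAll p : F →ₗ[ℝ] (Fin 3 → (h →L[ℝ] ℝ)))) +
      2 * finrank ℝ (LinearMap.range (resL (hh C.br h (S.lam p)) (fderiv ℝ S.lam p) :
        F →ₗ[ℝ] (hh C.br h (S.lam p) →L[ℝ] ℝ))) +
      2 * finrank ℝ h + rk C.br h (S.lam p) := by
  classical
  set lam0 := S.lam p with hlam0
  set k0 : Submodule ℝ E := hh C.br h lam0 with hk0
  let B : h →ₗ[ℝ] Dual ℝ h := form C.br h lam0
  let η : F →ₗ[ℝ] Dual ℝ h :=
    { toFun := fun X => ((fderiv ℝ S.lam p X : E →L[ℝ] ℝ) : E →ₗ[ℝ] ℝ) ∘ₗ h.subtype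
      map_add' := fun X Y => by ext w; simp
      map_smul' := fun c X => by ext w; simp }
  let ζ : Fin 3 → F →ₗ[ℝ] h := fun i =>
    LinearMap.codRestrict h (C.dl (S.x i) p : F →ₗ[ℝ] E) (fun X => S.val i p hp X)
  let k : Submodule ℝ h := k0.comap h.subtype
  have hk : k ≤ LinearMap.ker B := by
    intro u hu
    have hu' : (u : E) ∈ hh C.br h lam0 := hu
    rw [LinearMap.mem_ker]
    ext v
    exact hu'.2.2 v v.2
  have hom : ∀ i X Y, η X (ζ i Y) - η Y (ζ i X) + B (ζ i X) (ζ i Y) =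
      η X (ζ 0 Y) - η Y (ζ 0 X) + B (ζ 0 X) (ζ 0 Y) := fun i X Y => omega_eq S hp i X Y
  have hN : ∀ X, (∀ i, η X + B (ζ i X) = 0) →
      X ∈ LinearMap.ker (S.dnAll p : F →ₗ[ℝ] (Fin 3 → (h →L[ℝ] ℝ))) := by
    intro X hX
    rw [LinearMap.mem_ker]
    funext i
    ext w
    have h1 := congrArg (fun φ : Dual ℝ h => φ w) (hX i)
    exact h1
  have hmain := count_aux B (form_skew C h lam0) η ζ hom k hk _ hN
  have hkfin : finrank ℝ k = finrank ℝ k0 := by
    apply LinearEquiv.finrank_eq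
    exact Submodule.comapSubtypeEquivOfLe (fun u hu => hu.1)
  have hrange : finrank ℝ (LinearMap.range (k.subtype.dualMap ∘ₗ η)) ≤
      finrank ℝ (LinearMap.range (resL k0 (fderiv ℝ S.lam p) : F →ₗ[ℝ] (k0 →L[ℝ] ℝ))) := by
    have h1 := LinearMap.finrank_range_add_finrank_ker (k.subtype.dualMap ∘ₗ η)
    have h2 := LinearMap.finrank_range_add_finrank_ker
      (resL k0 (fderiv ℝ S.lam p) : F →ₗ[ℝ] (k0 →L[ℝ] ℝ))
    have h3 : LinearMap.ker (resL k0 (fderiv ℝ S.lam p) : F →ₗ[ℝ] (k0 →L[ℝ] ℝ)) ≤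
        LinearMap.ker (k.subtype.dualMap ∘ₗ η) := by
      intro X hX
      rw [LinearMap.mem_ker] at hX ⊢
      ext w
      have h4 : ((w : h) : E) ∈ k0 := w.2
      have h5 := congrArg (fun φ : k0 →L[ℝ] ℝ => φ ⟨((w : h) : E), h4⟩) hX
      exact h5
    have h4 := Submodule.finrank_mono h3
    omega
  have hrk : finrank ℝ (LinearMap.range B) = rk C.br h lam0 := rfl
  omega

end Pool.Agent.Helper60.LX
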