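import Mathlib

/-!
# Project LX: Cartan subalgebras, regular elements, abelian in the reductive case

PROOFS. EXISTS_REGULAR: the Engel subalgebras engel ℝ x, x ∈ H (LieSubalgebra.engel), contain H because H
is nilpotent (or: H ≤ engel x for x in H, Mathlib has this for nilpotent modules). Choose x = h0 ∈ H with
engel h0 minimal among {engel x | x ∈ H} (finite dimension); LieAlgebra.engel_isBot_of_isMin (U = H) gives
engel h0 ≤ engel y for all y in H. The intersection of all engel y, y ∈ H, is the zero root subalgebra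
(LieAlgebra.zeroRootSubalgebra, weight space of weight 0) = H for a Cartan subalgebra
(LieAlgebra.zeroRootSubalgebra_eq_of_is_cartan or similar; or directly: H self-normalizing and nilpotent,
Engel's theorem on the H-module (intersection)/H). So engel h0 = H. If ⁅h0, w⁆ ∈ H = engel h0 then some
power of ad h0 kills ⁅h0, w⁆, so a power kills w, w ∈ engel h0 = H.
ABELIAN: the center is contained in H (it normalises H, H is self-normalizing). So every u ∈ H is z + s, z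
central, s ∈ H ∩ 𝔰. H' = H.comap of the inclusion of 𝔰 is a Cartan subalgebra of 𝔰: nilpotent (it embeds in
H), self-normalizing: if x ∈ 𝔰, ⁅x, H'⁆ ⊆ H' then ⁅x, H⁆ ⊆ H so x ∈ H. 𝔰 is Killing, so H' is abelian (instance
in Mathlib/Algebra/Lie/Weights/Killing.lean, line 87). ⁅z + s, z' + s'⁆ = ⁅s, s'⁆ = 0.
-/

open Module

noncomputable section

namespace Pool.Agent.Helper60.LX

variable {𝔩 : Type} [LieRing 𝔩] [LieAlgebra ℝ 𝔩] [FiniteDimensional ℝ 𝔩]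

private lemma toEnd_pow_eq (H : LieSubalgebra ℝ 𝔩) (y : H) (k : ℕ) (w : 𝔩) :
    (LieModule.toEnd ℝ H 𝔩 y ^ k) w = ((LieAlgebra.ad ℝ 𝔩 (y : 𝔩)) ^ k) w := by
  have h : LieModule.toEnd ℝ H 𝔩 y = LieAlgebra.ad ℝ 𝔩 (y : 𝔩) := by
    ext v
    simp
  rw [h]

private lemma exists_engel_eq (H : LieSubalgebra ℝ 𝔩) (hH : H.IsCartanSubalgebra) :
    ∃ h0 ∈ H, ∀ w : 𝔩, w ∈ LieSubalgebra.engel ℝ h0 → w ∈ H := by
  haveI := hH
  -- every Engel subalgebra of an element of `H` contains `H`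
  have hle : ∀ x ∈ H, H ≤ LieSubalgebra.engel ℝ x := by
    intro x hx w hw
    have h1 := LieAlgebra.le_zeroRootSubalgebra ℝ 𝔩 H hw
    rw [LieAlgebra.mem_zeroRootSubalgebra] at h1
    obtain ⟨k, hk⟩ := h1 ⟨x, hx⟩
    rw [toEnd_pow_eq] at hk
    exact (LieSubalgebra.mem_engel_iff ℝ x w).2 ⟨k, hk⟩
  -- choose the dimension minimal
  obtain ⟨x, hx, hmin⟩ : ∃ x ∈ H, ∀ y ∈ H,
      finrank ℝ (LieSubalgebra.engel ℝ x) ≤ finrank ℝ (LieSubalgebra.engel ℝ y) := by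
    have hne : (H : Set 𝔩).Nonempty := ⟨0, H.zero_mem⟩
    obtain ⟨x, hx, hxm⟩ := exists_minimalFor_of_wellFoundedLT (fun x : 𝔩 => x ∈ H)
      (fun x => finrank ℝ (LieSubalgebra.engel ℝ x)) hne
    refine ⟨x, hx, fun y hy => ?_⟩
    by_contra hlt
    push Not at hlt
    exact absurd (hxm hy hlt.le) (by simpa using hlt)
  refine ⟨x, hx, fun w hw => ?_⟩
  have hcard : (finrank ℝ 𝔩 : Cardinal) ≤ Cardinal.mk ℝ :=
    (Cardinal.nat_lt_aleph0 _).le.trans (Cardinal.aleph0_le_mk ℝ)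
  have hisMin : IsMin (⟨LieSubalgebra.engel ℝ x, x, hx, rfl⟩ :
      {LieSubalgebra.engel ℝ x | x ∈ H}) := by
    rintro ⟨_, y, hy, rfl⟩ hyx
    have hyx' : LieSubalgebra.engel ℝ y ≤ LieSubalgebra.engel ℝ x := hyx
    have h2 : (LieSubalgebra.engel ℝ y).toSubmodule = (LieSubalgebra.engel ℝ x).toSubmodule :=
      Submodule.eq_of_le_of_finrank_le hyx' (hmin y hy)
    change LieSubalgebra.engel ℝ x ≤ LieSubalgebra.engel ℝ y
    intro v hv
    have : v ∈ (LieSubalgebra.engel ℝ x).toSubmodule := hv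
    rw [← h2] at this
    exact this
  have hbot := LieAlgebra.engel_isBot_of_isMin hcard H
    ⟨LieSubalgebra.engel ℝ x, x, hx, rfl⟩ (hle x hx) hisMin
  have hall : ∀ y ∈ H, w ∈ LieSubalgebra.engel ℝ y := by
    intro y hy
    have h3 := hbot ⟨LieSubalgebra.engel ℝ y, y, hy, rfl⟩
    have h4 : LieSubalgebra.engel ℝ x ≤ LieSubalgebra.engel ℝ y := h3
    exact h4 hw
  have hz : w ∈ LieAlgebra.zeroRootSubalgebra ℝ 𝔩 H := by
    rw [LieAlgebra.mem_zeroRootSubalgebra]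
    intro y
    obtain ⟨k, hk⟩ := (LieSubalgebra.mem_engel_iff ℝ (y : 𝔩) w).1 (hall y y.2)
    exact ⟨k, by rw [toEnd_pow_eq]; exact hk⟩
  rwa [LieAlgebra.zeroRootSubalgebra_eq_of_is_cartan] at hz

theorem exists_regular (H : LieSubalgebra ℝ 𝔩) (hH : H.IsCartanSubalgebra) :
    ∃ h0 ∈ H, ∀ w : 𝔩, ⁅h0, w⁆ ∈ H → w ∈ H := by
  haveI := hH
  obtain ⟨h0, h0H, hw⟩ := exists_engel_eq H hH
  refine ⟨h0, h0H, fun w hbr => hw w ?_⟩
  have h1 := LieAlgebra.le_zeroRootSubalgebra ℝ 𝔩 H hbr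
  rw [LieAlgebra.mem_zeroRootSubalgebra] at h1
  obtain ⟨k, hk⟩ := h1 ⟨h0, h0H⟩
  rw [toEnd_pow_eq] at hk
  refine (LieSubalgebra.mem_engel_iff ℝ h0 w).2 ⟨k + 1, ?_⟩
  rw [pow_succ]
  exact hk

theorem cartan_abelian (𝔰 : LieIdeal ℝ 𝔩) (hc : IsCompl (LieAlgebra.center ℝ 𝔩) 𝔰)
    (hK : LieAlgebra.IsKilling ℝ 𝔰) (H : LieSubalgebra ℝ 𝔩) (hH : H.IsCartanSubalgebra) :
    ∀ u ∈ H, ∀ v ∈ H, ⁅u, v⁆ = 0 := by
  haveI := hH
  haveI := hK
  -- the center lies in `H`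
  have hcen : ∀ z ∈ LieAlgebra.center ℝ 𝔩, z ∈ H := by
    intro z hz
    have hz' : ∀ x : 𝔩, ⁅x, z⁆ = 0 := fun x => (LieModule.mem_maxTrivSubmodule ℝ 𝔩 𝔩 z).1 hz x
    have : z ∈ H.normalizer := by
      rw [LieSubalgebra.mem_normalizer_iff]
      intro y hy
      have : ⁅z, y⁆ = 0 := by rw [← lie_skew, hz' y, neg_zero]
      rw [this]; exact H.zero_mem
    rwa [hH.self_normalizing] at this
  -- decomposition
  have hdec : ∀ u : 𝔩, ∃ z ∈ LieAlgebra.center ℝ 𝔩, ∃ s ∈ 𝔰, z + s = u := by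
    intro u
    have h1 : (u : 𝔩) ∈ (⊤ : LieSubmodule ℝ 𝔩 𝔩) := LieSubmodule.mem_top u
    rw [← hc.sup_eq_top, LieSubmodule.mem_sup] at h1
    exact h1
  -- the intersection with `𝔰` as a subalgebra of `𝔰`
  let H' : LieSubalgebra ℝ 𝔰 := H.comap 𝔰.incl
  have hmem : ∀ s : 𝔰, s ∈ H' ↔ (s : 𝔩) ∈ H := fun s => Iff.rfl
  have hnil : LieRing.IsNilpotent H' := by
    let f : H' →ₗ⁅ℝ⁆ H :=
      { toFun := fun s => ⟨((s : 𝔰) : 𝔩), s.2⟩
        map_add' := fun a b => rfl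
        map_smul' := fun a b => rfl
        map_lie' := fun {a b} => rfl }
    have hf : Function.Injective f := by
      intro a b hab
      have h1 : ((a : 𝔰) : 𝔩) = ((b : 𝔰) : 𝔩) := congrArg (fun t : H => (t : 𝔩)) hab
      exact Subtype.ext (Subtype.ext h1)
    haveI : LieRing.IsNilpotent H := hH.nilpotent
    exact hf.lieAlgebra_isNilpotent
  have hself : H'.normalizer = H' := by
    apply le_antisymm _ (LieSubalgebra.le_normalizer _)
    intro x hx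
    rw [LieSubalgebra.mem_normalizer_iff] at hx
    rw [hmem]
    have : (x : 𝔩) ∈ H.normalizer := by
      rw [LieSubalgebra.mem_normalizer_iff]
      intro y hy
      obtain ⟨z, hz, s, hs, rfl⟩ := hdec y
      have hz' : ∀ x : 𝔩, ⁅x, z⁆ = 0 := fun x => (LieModule.mem_maxTrivSubmodule ℝ 𝔩 𝔩 z).1 hz x
      have hsH : s ∈ H := by
        have := H.sub_mem hy (hcen z hz)
        simpa using this
      have h2 := hx ⟨s, hs⟩ ((hmem _).2 hsH)
      rw [hmem] at h2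
      rw [lie_add, hz' (x : 𝔩), zero_add]
      exact h2
    rwa [hH.self_normalizing] at this
  haveI hcart : H'.IsCartanSubalgebra := ⟨hnil, hself⟩
  have hab : IsLieAbelian H' := LieAlgebra.IsKilling.instIsLieAbelianOfIsCartanSubalgebra ℝ 𝔰 H'
  intro u hu v hv
  obtain ⟨z, hz, s, hs, rfl⟩ := hdec u
  obtain ⟨z', hz', s', hs', rfl⟩ := hdec v
  have hzr : ∀ x : 𝔩, ⁅x, z⁆ = 0 := fun x => (LieModule.mem_maxTrivSubmodule ℝ 𝔩 𝔩 z).1 hz x
  have hzr' : ∀ x : 𝔩, ⁅x, z'⁆ = 0 := fun x => (LieModule.mem_maxTrivSubmodule ℝ 𝔩 𝔩 z').1 hz' x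
  have hzl : ∀ x : 𝔩, ⁅z, x⁆ = 0 := fun x => by rw [← lie_skew, hzr x, neg_zero]
  have hsH : s ∈ H := by
    have := H.sub_mem hu (hcen z hz)
    simpa using this
  have hsH' : s' ∈ H := by
    have := H.sub_mem hv (hcen z' hz')
    simpa using this
  have h3 : ⁅(⟨⟨s, hs⟩, (hmem _).2 hsH⟩ : H'), (⟨⟨s', hs'⟩, (hmem _).2 hsH'⟩ : H')⁆ = 0 :=
    hab.trivial _ _
  have h4 : ⁅s, s'⁆ = 0 := congrArg (fun t : H' => ((t : 𝔰) : 𝔩)) h3
  rw [lie_add, add_lie, add_lie, hzl z', hzr' s, hzl s', h4]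
  simp

end Pool.Agent.Helper60.LX
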