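import Mathlib

/-!
# Project LX: the Lie algebra sl(n, ℝ)

PROOFS. SL_KILLING: let x ∈ sl with killingForm x y = 0 for all y ∈ sl. The Killing form of sl is the
restriction of the Killing form of the Lie algebra of all matrices (sl is an ideal:
LieIdeal.killingForm_eq), or compute directly: trace of ad x ∘ ad y on ALL matrices (on the quotient
matrices/sl it acts by zero) is 2n tr(xy) - 2 tr x tr y: ad x = L_x - R_x, tr(L_a R_b) = tr a tr b,
tr(L_a) = n tr a, tr(R_a) = n tr a on n x n matrices (basis Matrix.single, or
LinearMap.trace with Matrix.stdBasis). So tr(xy) = 0 for all y of trace 0, hence x is scalar (y = single i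
j, i ≠ j, and y = single i i - single j j), x = 0 since tr x = 0.
SL_CENTER: a central x commutes with all single i j (i ≠ j), so it is scalar; or from IsKilling (Mathlib:
center = ⊥ for Killing Lie algebras). SL_CARTAN: D = diagonal matrices in sl, abelian hence nilpotent;
self-normalizing: if ⁅x, diagonal d⁆ is diagonal for all d with sum 0 then x i j (d j - d i) = 0 for i ≠ j;
choose d with d i ≠ d j (n ≥ 2). finrank: D is isomorphic to the kernel of the sum on Fin n → ℝ.
SL_DIM: finrank (ker trace) + 1 = n^2 (trace is onto, n ≥ 1).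
-/

open Module Matrix

noncomputable section

namespace Pool.Agent.Helper60.LX

private theorem sl_eq_zero {n : ℕ} (hn : 2 ≤ n) {x : Matrix (Fin n) (Fin n) ℝ}
    (htr : x.trace = 0)
    (h : ∀ i j : Fin n, i ≠ j → x * (x * Matrix.single i j 1 - Matrix.single i j 1 * x) -
      (x * Matrix.single i j 1 - Matrix.single i j 1 * x) * x = 0) : x = 0 := by
  -- the entries of the double bracket
  have h1 : ∀ i j : Fin n, i ≠ j → ∀ a b, (x * x) a i * (if j = b then 1 else 0) -
      2 * (x a i * x j b) + (if a = i then 1 else 0) * (x * x) j b = 0 := by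
    intro i j hij a b
    have h2 := congrFun (congrFun (h i j hij) a) b
    have e1 : (x * (x * Matrix.single i j 1 - Matrix.single i j 1 * x) -
      (x * Matrix.single i j 1 - Matrix.single i j 1 * x) * x) =
      (x * x) * Matrix.single i j 1 - 2 • (x * Matrix.single i j 1 * x) +
        Matrix.single i j 1 * (x * x) := by
      noncomm_ring
    rw [e1] at h2
    have e2 : ((x * x) * Matrix.single i j 1 : Matrix (Fin n) (Fin n) ℝ) a b =
        (x * x) a i * (if j = b then 1 else 0) := by
      rw [Matrix.mul_apply, Finset.sum_eq_single i]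
      · simp [Matrix.single_apply]
      · intro c _ hc
        simp [hc.symm]
      · intro hc
        exact absurd (Finset.mem_univ _) hc
    have e3 : (Matrix.single i j 1 * (x * x) : Matrix (Fin n) (Fin n) ℝ) a b =
        (if a = i then 1 else 0) * (x * x) j b := by
      rw [Matrix.mul_apply, Finset.sum_eq_single j]
      · simp [Matrix.single_apply, eq_comm]
      · intro c _ hc
        simp [hc.symm]
      · intro hc
        exact absurd (Finset.mem_univ _) hc
    have e4 : (x * Matrix.single i j 1 * x : Matrix (Fin n) (Fin n) ℝ) a b = x a i * x j b := by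
      rw [Matrix.mul_apply, Finset.sum_eq_single j]
      · rw [Matrix.mul_apply, Finset.sum_eq_single i]
        · simp
        · intro c _ hc
          simp [hc.symm]
        · intro hc
          exact absurd (Finset.mem_univ _) hc
      · intro c _ hc
        rw [Matrix.mul_apply, Finset.sum_eq_zero, zero_mul]
        intro d _
        simp [hc.symm]
      · intro hc
        exact absurd (Finset.mem_univ _) hc
    rw [Matrix.add_apply, Matrix.sub_apply, Matrix.smul_apply, e2, e3, e4] at h2
    simpa using h2
  -- entries off the diagonal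
  have h3 : ∀ i j : Fin n, i ≠ j → x j i = 0 := by
    intro i j hij
    have h4 := h1 i j hij j i
    rw [if_neg hij.symm] at h4
    have h5 : x j i * x j i = 0 := by linarith
    exact mul_self_eq_zero.mp h5
  -- entries on the diagonal
  have hsq : ∀ a, (x * x) a a = x a a * x a a := by
    intro a
    rw [Matrix.mul_apply, Finset.sum_eq_single a]
    · intro c _ hc
      rw [h3 c a hc, zero_mul]
    · intro hc
      exact absurd (Finset.mem_univ _) hc
  have h6 : ∀ i j : Fin n, x i i = x j j := by
    intro i j
    by_cases hij : i = j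
    · rw [hij]
    · have h4 := h1 i j hij i j
      rw [if_pos rfl, if_pos rfl, hsq, hsq] at h4
      have h5 : (x i i - x j j) * (x i i - x j j) = 0 := by linarith
      have h7 := mul_self_eq_zero.mp h5
      linarith
  have h8 : ∀ i, x i i = 0 := by
    intro i
    have h9 : x.trace = n * x i i := by
      rw [Matrix.trace]
      have : ∀ j ∈ (Finset.univ : Finset (Fin n)), x.diag j = x i i := fun j _ => h6 j i
      rw [Finset.sum_congr rfl this]
      simp
    rw [h9] at htr
    rcases mul_eq_zero.mp htr with h10 | h10
    · exfalso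
      have : (n : ℝ) ≠ 0 := by positivity
      exact this h10
    · exact h10
  ext i j
  by_cases hij : i = j
  · rw [hij]
    exact h8 j
  · exact h3 j i (Ne.symm hij)

theorem sl_killing (n : ℕ) (hn : 2 ≤ n) :
    LieAlgebra.IsKilling ℝ (LieAlgebra.SpecialLinear.sl (Fin n) ℝ) := by
  have hrad : LieAlgebra.HasTrivialRadical ℝ (LieAlgebra.SpecialLinear.sl (Fin n) ℝ) := by
    rw [LieAlgebra.hasTrivialRadical_iff_no_abelian_ideals]
    intro I hI
    rw [eq_bot_iff]
    intro x hx
    rw [LieSubmodule.mem_bot]
    apply Subtype.ext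
    refine sl_eq_zero hn x.2 ?_
    intro i j hij
    have hz : ⁅x, LieAlgebra.SpecialLinear.single i j hij (1 : ℝ)⁆ ∈ I :=
      lie_mem_left ℝ _ I x _ hx
    have h1 := LieModule.IsTrivial.trivial (⟨x, hx⟩ : I) (⟨_, hz⟩ : I)
    have h2 : ⁅x, ⁅x, LieAlgebra.SpecialLinear.single i j hij (1 : ℝ)⁆⁆ = 0 :=
      congrArg Subtype.val h1
    have h3 := congrArg Subtype.val h2
    rw [LieAlgebra.SpecialLinear.sl_bracket, LieAlgebra.SpecialLinear.sl_bracket] at h3
    exact h3
  infer_instance

theorem sl_center (n : ℕ) (hn : 2 ≤ n) :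
    LieAlgebra.center ℝ (LieAlgebra.SpecialLinear.sl (Fin n) ℝ) = ⊥ := by
  have := sl_killing n hn
  exact LieAlgebra.center_eq_bot ℝ _

private theorem ker_sum_finrank (n : ℕ) (hn : 1 ≤ n) :
    finrank ℝ (LinearMap.ker (∑ i : Fin n, LinearMap.proj (R := ℝ) (φ := fun _ => ℝ) i)) + 1 =
      n := by
  have h1 := LinearMap.finrank_range_add_finrank_ker
    (∑ i : Fin n, LinearMap.proj (R := ℝ) (φ := fun _ => ℝ) i)
  have h2 : LinearMap.range (∑ i : Fin n, LinearMap.proj (R := ℝ) (φ := fun _ => ℝ) i) = ⊤ := by
    rw [LinearMap.range_eq_top]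
    intro t
    refine ⟨Pi.single ⟨0, hn⟩ t, ?_⟩
    rw [LinearMap.sum_apply]
    simp
  rw [h2, finrank_top, finrank_self, finrank_fintype_fun_eq_card, Fintype.card_fin] at h1
  omega

theorem sl_cartan (n : ℕ) (hn : 2 ≤ n) :
    ∃ H : LieSubalgebra ℝ (LieAlgebra.SpecialLinear.sl (Fin n) ℝ), H.IsCartanSubalgebra ∧
      finrank ℝ H + 1 = n := by
  let H : LieSubalgebra ℝ (LieAlgebra.SpecialLinear.sl (Fin n) ℝ) :=
    { carrier := {x | ∀ i j, i ≠ j → x.val i j = 0}
      add_mem' := by
        intro x y hx hy i j hij
        show x.val i j + y.val i j = 0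
        rw [hx i j hij, hy i j hij, add_zero]
      zero_mem' := by
        intro i j _
        rfl
      smul_mem' := by
        intro c x hx i j hij
        show c * x.val i j = 0
        rw [hx i j hij, mul_zero]
      lie_mem' := by
        intro x y hx hy i j hij
        rw [LieAlgebra.SpecialLinear.sl_bracket, Matrix.sub_apply, Matrix.mul_apply,
          Matrix.mul_apply, Finset.sum_eq_zero, Finset.sum_eq_zero, sub_zero]
        · intro c _
          by_cases hc : i = c
          · rw [← hc, hx i j hij, mul_zero]
          · rw [hy i c hc, zero_mul]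
        · intro c _
          by_cases hc : i = c
          · rw [← hc, hy i j hij, mul_zero]
          · rw [hx i c hc, zero_mul] }
  have hmem : ∀ x, x ∈ H ↔ ∀ i j, i ≠ j → x.val i j = 0 := fun x => Iff.rfl
  have hprod : ∀ x y, x ∈ H → y ∈ H → x.val * y.val = y.val * x.val := by
    intro x y hx hy
    ext i j
    by_cases hij : i = j
    · rw [← hij, Matrix.mul_apply, Matrix.mul_apply]
      apply Finset.sum_congr rfl
      intro c _
      by_cases hc : i = c
      · rw [← hc, mul_comm]
      · rw [hx i c hc, hy i c hc, zero_mul, zero_mul]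
    · rw [Matrix.mul_apply, Matrix.mul_apply, Finset.sum_eq_zero, Finset.sum_eq_zero]
      · intro c _
        by_cases hc : i = c
        · rw [← hc, hx i j hij, mul_zero]
        · rw [hy i c hc, zero_mul]
      · intro c _
        by_cases hc : i = c
        · rw [← hc, hy i j hij, mul_zero]
        · rw [hx i c hc, zero_mul]
  have hab : IsLieAbelian H := by
    constructor
    rintro ⟨x, hx⟩ ⟨y, hy⟩
    apply Subtype.ext
    show ⁅x, y⁆ = 0
    apply Subtype.ext
    rw [LieAlgebra.SpecialLinear.sl_bracket, hprod x y hx hy, sub_self]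
    rfl
  refine ⟨H, ?_, ?_⟩
  · refine ⟨inferInstance, ?_⟩
    apply le_antisymm _ H.le_normalizer
    intro x hx
    rw [hmem]
    intro i j hij
    rw [LieSubalgebra.mem_normalizer_iff] at hx
    have hy : LieAlgebra.SpecialLinear.singleSubSingle i j (1 : ℝ) ∈ H := by
      rw [hmem]
      intro a b hab'
      rw [LieAlgebra.SpecialLinear.val_singleSubSingle, Matrix.sub_apply, Matrix.single_apply,
        Matrix.single_apply, if_neg, if_neg, sub_zero]
      · rintro ⟨h1, h2⟩
        exact hab' (h1.symm.trans h2)
      · rintro ⟨h1, h2⟩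
        exact hab' (h1.symm.trans h2)
    have h1 := (hmem _).mp (hx _ hy) i j hij
    rw [LieAlgebra.SpecialLinear.sl_bracket, LieAlgebra.SpecialLinear.val_singleSubSingle] at h1
    rw [Matrix.sub_apply, Matrix.mul_sub, Matrix.sub_mul, Matrix.sub_apply, Matrix.sub_apply,
      Matrix.mul_single_apply_of_ne (hbj := Ne.symm hij), Matrix.mul_single_apply_same,
      Matrix.single_mul_apply_same, Matrix.single_mul_apply_of_ne (h := hij)] at h1
    linarith
  · have e : H ≃ₗ[ℝ] LinearMap.ker (∑ i : Fin n, LinearMap.proj (R := ℝ) (φ := fun _ => ℝ) i) :=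
      { toFun := fun x => ⟨fun i => x.1.val i i, by
          have h1 : x.1.val.trace = 0 := x.1.2
          rw [LinearMap.mem_ker, LinearMap.sum_apply]
          exact h1⟩
        map_add' := fun x y => rfl
        map_smul' := fun c x => rfl
        invFun := fun d => ⟨⟨Matrix.diagonal d.1, by
          have h1 := d.2
          rw [LinearMap.mem_ker, LinearMap.sum_apply] at h1
          show (Matrix.diagonal d.1).trace = 0
          rw [Matrix.trace_diagonal]
          exact h1⟩, fun i j hij => Matrix.diagonal_apply_ne _ hij⟩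
        left_inv := by
          rintro ⟨x, hx⟩
          apply Subtype.ext
          apply Subtype.ext
          ext i j
          by_cases hij : i = j
          · rw [← hij]
            exact Matrix.diagonal_apply_eq _ _
          · exact (Matrix.diagonal_apply_ne _ hij).trans (hx i j hij).symm
        right_inv := by
          rintro ⟨d, hd⟩
          apply Subtype.ext
          funext i
          exact Matrix.diagonal_apply_eq _ _ }
    rw [e.finrank_eq]
    exact ker_sum_finrank n (by omega)

theorem sl_dim (n : ℕ) (hn : 1 ≤ n) :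
    finrank ℝ (LinearMap.ker (Matrix.traceLinearMap (Fin n) ℝ ℝ)) + 1 = n ^ 2 := by
  have h1 := LinearMap.finrank_range_add_finrank_ker (Matrix.traceLinearMap (Fin n) ℝ ℝ)
  have h2 : LinearMap.range (Matrix.traceLinearMap (Fin n) ℝ ℝ) = ⊤ := by
    rw [LinearMap.range_eq_top]
    intro t
    refine ⟨Matrix.single ⟨0, hn⟩ ⟨0, hn⟩ t, ?_⟩
    simp
  rw [h2, finrank_top, finrank_self, Module.finrank_matrix, Fintype.card_fin, finrank_self,
    mul_one] at h1
  rw [sq]
  omega

end Pool.Agent.Helper60.LX
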