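import Pool.Agent.Helper60.LX.SLLie
import Pool.Agent.Helper60.LX.LieBr

/-!
# Project LX: the Lie algebra of SL(n, ℝ)

PROOFS. ch (slE n) g = slFwd 1 g, ps A = slExp A near 0 (1 * slExp A), ch 1 = 0 (extChartAt for 𝓘(ℝ, E) is the
chart). SL_AD: for A near 0, g * slExp A * g⁻¹ = δ^(-1/n) (1 + g A g⁻¹), trace = n δ^(-1/n) > 0, so slFwd 1 of
it is g A g⁻¹: linear in A, so its derivative at 0 is v ↦ g v g⁻¹. SL_BR: lbr u v is the derivative at A = 0
in direction u of A ↦ (lAd (slExp A) v) = X v X⁻¹, X = slExp A, i.e. (1 + A) v (1 + A)⁻¹ near A = 0 (the scalar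
cancels; the matrix of X⁻¹ is the inverse matrix), which is u v - v u. (fderiv of a map with values in
E →L E applied to v: compose with evaluation at v.) SL_BRACKET: lbr_eq_bracket.
SL_EQUIV: the identity is a Lie algebra isomorphism to the sl of Mathlib
(LieAlgebra.SpecialLinear.sl, sl_bracket, same underlying submodule).
-/

open scoped Matrix.Norms.L2Operator ContDiff Topology Manifold
open Module Matrix

noncomputable section

namespace Pool.Agent.Helper60.LX

variable {n : ℕ} [NeZero n]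

instance : LieGroup 𝓘(ℝ, slE n) (minSmoothness ℝ 3) (SLn n) :=
  LieGroup.of_le (n := ∞) (by
    rw [minSmoothness_of_isRCLikeNormedField]
    exact ENat.LEInfty.out)

private theorem sl_ch_eq (g : SLn n) : ch (slE n) g = slFwd 1 g := rfl

private theorem sl_ps_eq (A : slE n) : ps (SLn n) A = slExp A := by
  have h : ps (SLn n) A = 1 * slExp A := rfl
  rw [h, one_mul]

private theorem slProj_coe (X : Mt n) :
    (slProj n X : Mt n) = X - (X.trace / n) • (1 : Mt n) := rfl

private theorem slProj_one_add {B : Mt n} (hB : B.trace = 0) : (slProj n (1 + B) : Mt n) = B := by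
  have hn : (n : ℝ) ≠ 0 := Nat.cast_ne_zero.2 (NeZero.ne n)
  rw [slProj_coe, Matrix.trace_add, hB, Matrix.trace_one, Fintype.card_fin, add_zero,
    div_self hn, one_smul, add_sub_cancel_left]

private theorem slFwd_of {g : SLn n} {c : ℝ} (hc : 0 < c) {B : Mt n} (hB : B.trace = 0)
    (h : (g : Mt n) = c • (1 + B)) : (slFwd 1 g : Mt n) = B := by
  have hn : (n : ℝ) ≠ 0 := Nat.cast_ne_zero.2 (NeZero.ne n)
  have h1 : (((1 : SLn n)⁻¹ * g : SLn n) : Mt n) = c • (1 + B) := by
    rw [inv_one, one_mul, h]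
  have h2 : (c • (1 + B)).trace = c * n := by
    rw [Matrix.trace_smul, Matrix.trace_add, hB, Matrix.trace_one, Fintype.card_fin, add_zero,
      smul_eq_mul]
  have h3 : (slFwd 1 g : Mt n) =
      (slProj n (((n : ℝ) / (((1 : SLn n)⁻¹ * g : SLn n) : Mt n).trace) •
        (((1 : SLn n)⁻¹ * g : SLn n) : Mt n)) : Mt n) := rfl
  rw [h3, h1, h2, smul_smul, div_mul_eq_mul_div, mul_comm (n : ℝ) c,
    div_self (mul_ne_zero hc.ne' hn), one_smul, slProj_one_add hB]

private theorem ch_one : ch (slE n) (1 : SLn n) = 0 := by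
  apply Subtype.ext
  rw [sl_ch_eq]
  exact slFwd_of (c := 1) one_pos (B := 0) (by simp) (by simp)

private theorem det_near : ∀ᶠ A : slE n in 𝓝 0, 0 < (1 + (A : Mt n)).det := by
  have hc : Continuous (fun A : slE n => (1 + (A : Mt n)).det) :=
    Continuous.matrix_det (continuous_const.add continuous_subtype_val)
  have h0 : (0 : ℝ) < (fun A : slE n => (1 + (A : Mt n)).det) 0 := by
    show (0 : ℝ) < (1 + ((0 : slE n) : Mt n)).det
    rw [Submodule.coe_zero, add_zero, Matrix.det_one]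
    exact one_pos
  exact hc.continuousAt.eventually (lt_mem_nhds h0)

private theorem slExp_coe {A : slE n} (h : 0 < (1 + (A : Mt n)).det) :
    (slExp A : Mt n) = ((1 + (A : Mt n)).det ^ (-(1 / (n : ℝ)))) • (1 + (A : Mt n)) := by
  unfold slExp
  rw [dif_pos h]

/-- Conjugation by `g` on the matrices of trace zero. -/
private def cj (g : SLn n) : slE n →ₗ[ℝ] slE n where
  toFun A := ⟨(g : Mt n) * (A : Mt n) * ((g⁻¹ : SLn n) : Mt n), by
    rw [mem_slE, Matrix.trace_mul_comm, ← mul_assoc, ← Matrix.SpecialLinearGroup.coe_mul,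
      inv_mul_cancel, Matrix.SpecialLinearGroup.coe_one, one_mul]
    exact mem_slE.1 A.2⟩
  map_add' A B := by
    apply Subtype.ext
    simp only [Submodule.coe_add, mul_add, add_mul]
  map_smul' c A := by
    apply Subtype.ext
    simp only [Submodule.coe_smul, RingHom.id_apply, Matrix.mul_smul, Matrix.smul_mul]

private theorem ch_conj (g : SLn n) {A : slE n} (h : 0 < (1 + (A : Mt n)).det) :
    ch (slE n) (g * ps (SLn n) A * g⁻¹) = cj g A := by
  apply Subtype.ext
  rw [sl_ch_eq, sl_ps_eq]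
  refine slFwd_of (c := (1 + (A : Mt n)).det ^ (-(1 / (n : ℝ)))) (Real.rpow_pos_of_pos h _)
    (B := (cj g A : Mt n)) (mem_slE.1 (cj g A).2) ?_
  have h1 : (cj g A : Mt n) = (g : Mt n) * (A : Mt n) * ((g⁻¹ : SLn n) : Mt n) := rfl
  have h2 : (g : Mt n) * ((g⁻¹ : SLn n) : Mt n) = 1 := by
    rw [← Matrix.SpecialLinearGroup.coe_mul, mul_inv_cancel, Matrix.SpecialLinearGroup.coe_one]
  rw [Matrix.SpecialLinearGroup.coe_mul, Matrix.SpecialLinearGroup.coe_mul, slExp_coe h, h1,
    Matrix.mul_smul, Matrix.smul_mul, mul_add, add_mul, mul_one, h2]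

private theorem lAd_eq (g : SLn n) : lAd (slE n) g = LinearMap.toContinuousLinearMap (cj g) := by
  unfold lAd
  rw [ch_one]
  have h : (fun a => ch (slE n) (g * ps (SLn n) a * g⁻¹)) =ᶠ[𝓝 (0 : slE n)]
      (LinearMap.toContinuousLinearMap (cj g)) := by
    filter_upwards [det_near] with A hA
    exact ch_conj g hA
  rw [h.fderiv_eq, ContinuousLinearMap.fderiv]

theorem sl_Ad (g : SLn n) (v : slE n) :
    (lAd (slE n) g v : Mt n) = (g : Mt n) * (v : Mt n) * ((g⁻¹ : SLn n) : Mt n) := by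
  rw [lAd_eq]
  rfl

private theorem key_id (v : slE n) {A : slE n} (h : 0 < (1 + (A : Mt n)).det) :
    (lAd (slE n) (ps (SLn n) A) v : Mt n) * (1 + (A : Mt n)) = (1 + (A : Mt n)) * (v : Mt n) := by
  have hc : 0 < (1 + (A : Mt n)).det ^ (-(1 / (n : ℝ))) := Real.rpow_pos_of_pos h _
  have h2 : (((slExp A)⁻¹ : SLn n) : Mt n) * (slExp A : Mt n) = 1 := by
    rw [← Matrix.SpecialLinearGroup.coe_mul, inv_mul_cancel, Matrix.SpecialLinearGroup.coe_one]
  have h3 : (slExp A : Mt n) * (v : Mt n) * (((slExp A)⁻¹ : SLn n) : Mt n) * (slExp A : Mt n) =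
      (slExp A : Mt n) * (v : Mt n) := by
    rw [mul_assoc _ _ (slExp A : Mt n), h2, mul_one]
  rw [sl_Ad, sl_ps_eq]
  generalize (((slExp A)⁻¹ : SLn n) : Mt n) = Y at h3
  rw [slExp_coe h] at h3 ⊢
  generalize (1 + (A : Mt n)).det ^ (-(1 / (n : ℝ))) = c at hc h3
  rw [Matrix.smul_mul, Matrix.smul_mul, Matrix.smul_mul, Matrix.mul_smul, smul_smul] at h3
  have h4 : c • (c • ((1 + (A : Mt n)) * (v : Mt n) * Y) * (1 + (A : Mt n))) =
      c • ((1 + (A : Mt n)) * (v : Mt n)) := by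
    rw [← h3, Matrix.smul_mul, smul_smul]
  have h5 := smul_right_injective (Mt n) hc.ne' h4
  rw [Matrix.smul_mul, Matrix.smul_mul]
  exact h5

theorem sl_br (u v : slE n) :
    (lbr (slE n) (SLn n) u v : Mt n) = (u : Mt n) * (v : Mt n) - (v : Mt n) * (u : Mt n) := by
  have hps : lSm (slE n) (ps (SLn n)) (ch (slE n) (1 : SLn n)) :=
    (ps_sm (E := slE n) (G := SLn n)).self_of_nhds
  have hA : HasFDerivAt (fun a => lAd (slE n) (ps (SLn n) a)) (lbr (slE n) (SLn n)) (0 : slE n) := by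
    have := ((lAd_smooth hps).differentiableAt (by simp)).hasFDerivAt
    rw [ch_one] at this
    unfold lbr
    rw [ch_one]
    exact this
  have hl : HasDerivAt (fun t : ℝ => t • u) u 0 := by
    simpa using (hasDerivAt_id (0 : ℝ)).smul_const u
  have hA' : HasFDerivAt (fun a => lAd (slE n) (ps (SLn n) a)) (lbr (slE n) (SLn n))
      ((0 : ℝ) • u) := by
    rw [zero_smul]
    exact hA
  have h1 : HasDerivAt (fun t : ℝ => lAd (slE n) (ps (SLn n) (t • u)))
      (lbr (slE n) (SLn n) u) 0 :=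
    HasFDerivAt.comp_hasDerivAt (l := fun a => lAd (slE n) (ps (SLn n) a)) (0 : ℝ) hA' hl
  have h2 : HasDerivAt (fun t : ℝ => lAd (slE n) (ps (SLn n) (t • u)) v)
      (lbr (slE n) (SLn n) u v) 0 := by
    have := h1.clm_apply (hasDerivAt_const (0 : ℝ) v)
    simpa using this
  have h3 : HasDerivAt (fun t : ℝ => ((lAd (slE n) (ps (SLn n) (t • u)) v : slE n) : Mt n))
      ((lbr (slE n) (SLn n) u v : slE n) : Mt n) 0 :=
    (slE n).subtypeL.hasFDerivAt.comp_hasDerivAt (0 : ℝ) h2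
  have h4 : HasDerivAt (fun t : ℝ => 1 + ((t • u : slE n) : Mt n)) (u : Mt n) 0 := by
    have := ((slE n).subtypeL.hasFDerivAt.comp_hasDerivAt (0 : ℝ) hl).const_add (1 : Mt n)
    exact this
  have h5 := h3.mul h4
  have h6 := h4.mul (hasDerivAt_const (0 : ℝ) (v : Mt n))
  have h7 : (fun t : ℝ => ((lAd (slE n) (ps (SLn n) (t • u)) v : slE n) : Mt n) *
      (1 + ((t • u : slE n) : Mt n))) =ᶠ[𝓝 (0 : ℝ)]
      (fun t : ℝ => (1 + ((t • u : slE n) : Mt n)) * (v : Mt n)) := by
    have hc : Filter.Tendsto (fun t : ℝ => t • u) (𝓝 0) (𝓝 (0 : slE n)) := by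
      have h10 : Filter.Tendsto (fun t : ℝ => t • u) (𝓝 0) (𝓝 ((0 : ℝ) • u)) := hl.continuousAt
      rwa [zero_smul] at h10
    filter_upwards [hc.eventually det_near] with t ht
    exact key_id v ht
  have h8 := (h5.congr_of_eventuallyEq h7.symm).unique h6
  have h9 : lAd (slE n) (ps (SLn n) (0 : slE n)) v = v := by
    rw [← ch_one, ps_ch_one, lAd_one]
    rfl
  simp only [zero_smul, Submodule.coe_zero, add_zero, mul_one, mul_zero] at h8
  rw [h9] at h8
  rw [← h8]
  abel

/-- The Lie algebra of `SL(n, ℝ)` is the Lie algebra `sl` of Mathlib. -/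
theorem sl_equiv (n : ℕ) [NeZero n] :
    Nonempty (GroupLieAlgebra 𝓘(ℝ, slE n) (SLn n) ≃ₗ⁅ℝ⁆ LieAlgebra.SpecialLinear.sl (Fin n) ℝ) := by
  have hb : ∀ u v : GroupLieAlgebra 𝓘(ℝ, slE n) (SLn n),
      (slE n).subtype (⁅u, v⁆ : GroupLieAlgebra 𝓘(ℝ, slE n) (SLn n)) =
        (slE n).subtype u * (slE n).subtype v - (slE n).subtype v * (slE n).subtype u := by
    intro u v
    rw [← lbr_eq_bracket]
    exact sl_br u v
  let f : GroupLieAlgebra 𝓘(ℝ, slE n) (SLn n) ≃ₗ[ℝ] LieAlgebra.SpecialLinear.sl (Fin n) ℝ :=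
    { toFun := fun u => ⟨(slE n).subtype u, Subtype.property (p := fun X => X ∈ slE n) u⟩
      invFun := fun u => (⟨u.1, u.2⟩ : slE n)
      map_add' := fun u v => rfl
      map_smul' := fun c v => rfl
      left_inv := fun u => rfl
      right_inv := fun u => rfl }
  refine ⟨{ f with map_lie' := ?_ }⟩
  intro u v
  apply Subtype.ext
  exact hb u v

end Pool.Agent.Helper60.LX
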