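import Pool.Agent.Helper60.LX.SLBr
import Pool.Agent.Helper60.LX.SLAlg

/-!
# Project LX: the Lie algebra of SL(n, ℝ): reductive, rank, nonabelian

PROOFS. e from SL_EQUIV: GroupLieAlgebra ≃ₗ⁅ℝ⁆ sl. REDUCTIVE: s = ⊤; the center is ⊥ (transport sl_center
by e, or: IsKilling transported by LieAlgebra.isKilling_of_equiv has trivial center), and ⊤ ≃ the whole Lie
algebra (LieIdeal.topEquiv) is Killing (isKilling_of_equiv). RANK: transport the Cartan subalgebra of
sl_cartan by e (comap; LieSubalgebra.map / comap, nilpotent by the induced equivalence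
e.lieSubalgebraMap, self-normalizing directly from LieSubalgebra.mem_normalizer_iff). NONABELIAN:
LieAlgebra.SpecialLinear.sl_non_abelian, transported.
-/

open scoped Matrix.Norms.L2Operator ContDiff Topology Manifold
open Module Matrix

noncomputable section

namespace Pool.Agent.Helper60.LX

section
variable {L L' : Type*} [LieRing L] [LieAlgebra ℝ L] [LieRing L'] [LieAlgebra ℝ L']

private theorem red_tr (e : L ≃ₗ⁅ℝ⁆ L') (hk : LieAlgebra.IsKilling ℝ L') [Module.Finite ℝ L'] :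
    ∃ s : LieIdeal ℝ L, IsCompl (LieAlgebra.center ℝ L) s ∧ LieAlgebra.IsKilling ℝ s := by
  have h1 : LieAlgebra.IsKilling ℝ L := LieAlgebra.isKilling_of_equiv e.symm
  have hf : Module.Finite ℝ L := Module.Finite.equiv e.symm.toLinearEquiv
  refine ⟨⊤, ?_, ?_⟩
  · rw [LieAlgebra.center_eq_bot ℝ L]
    exact isCompl_bot_top
  · exact LieAlgebra.isKilling_of_equiv (LieIdeal.topEquiv (R := ℝ) (L := L)).symm

private theorem cartan_tr (e : L ≃ₗ⁅ℝ⁆ L') (H' : LieSubalgebra ℝ L') (hH : H'.IsCartanSubalgebra) :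
    ∃ H : LieSubalgebra ℝ L, H.IsCartanSubalgebra ∧ finrank ℝ H = finrank ℝ H' := by
  have hmem : ∀ x : L, x ∈ H'.map (e.symm : L' →ₗ⁅ℝ⁆ L) ↔ e x ∈ H' := by
    intro x
    rw [LieSubalgebra.mem_map]
    constructor
    · rintro ⟨y, hy, rfl⟩
      have : e ((e.symm : L' →ₗ⁅ℝ⁆ L) y) = y := e.apply_symm_apply y
      rw [this]
      exact hy
    · intro hx
      exact ⟨e x, hx, e.symm_apply_apply x⟩
  refine ⟨H'.map (e.symm : L' →ₗ⁅ℝ⁆ L), ⟨?_, ?_⟩, ?_⟩
  · exact (e.symm.lieSubalgebraMap H').nilpotent_iff_equiv_nilpotent.mp hH.nilpotent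
  · apply le_antisymm _ (LieSubalgebra.le_normalizer _)
    intro x hx
    rw [LieSubalgebra.mem_normalizer_iff] at hx
    rw [hmem]
    have h1 : e x ∈ H'.normalizer := by
      rw [LieSubalgebra.mem_normalizer_iff]
      intro y hy
      have h2 := hx (e.symm y) (by
        rw [hmem, e.apply_symm_apply]
        exact hy)
      rw [hmem, LieEquiv.map_lie, e.apply_symm_apply] at h2
      exact h2
    rw [hH.self_normalizing] at h1
    exact h1
  · exact (e.symm.lieSubalgebraMap H').toLinearEquiv.finrank_eq.symm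

private theorem nonab_tr (e : L ≃ₗ⁅ℝ⁆ L') (h : ¬ IsLieAbelian L') : ∃ u v : L, ⁅u, v⁆ ≠ 0 := by
  by_contra hc
  push Not at hc
  apply h
  constructor
  intro x y
  have h1 := congrArg e (hc (e.symm x) (e.symm y))
  rw [LieEquiv.map_lie, e.apply_symm_apply, e.apply_symm_apply, map_zero] at h1
  exact h1
end

theorem sl_reductive (n : ℕ) [NeZero n] (hn : 2 ≤ n) :
    ∃ s : LieIdeal ℝ (GroupLieAlgebra 𝓘(ℝ, slE n) (SLn n)),
      IsCompl (LieAlgebra.center ℝ (GroupLieAlgebra 𝓘(ℝ, slE n) (SLn n))) s ∧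
        LieAlgebra.IsKilling ℝ s := by
  obtain ⟨e⟩ := sl_equiv n
  exact red_tr e (sl_killing n hn)

theorem sl_rank (n : ℕ) [NeZero n] (hn : 2 ≤ n) :
    ∃ H : LieSubalgebra ℝ (GroupLieAlgebra 𝓘(ℝ, slE n) (SLn n)),
      H.IsCartanSubalgebra ∧ finrank ℝ H + 1 = n := by
  obtain ⟨e⟩ := sl_equiv n
  obtain ⟨H', h1, h2⟩ := sl_cartan n hn
  obtain ⟨H, h3, h4⟩ := cartan_tr e H' h1
  exact ⟨H, h3, by rw [h4, h2]⟩

theorem sl_nonabelian (n : ℕ) [NeZero n] (hn : 2 ≤ n) :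
    ∃ u v : GroupLieAlgebra 𝓘(ℝ, slE n) (SLn n), ⁅u, v⁆ ≠ 0 := by
  obtain ⟨e⟩ := sl_equiv n
  refine nonab_tr e (LieAlgebra.SpecialLinear.sl_non_abelian (Fin n) ℝ ?_)
  rw [Fintype.card_fin]
  omega

end Pool.Agent.Helper60.LX
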