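import Pool.Agent.Helper60.LX.SLMan

/-!
# Project LX: SL(n, ℝ) as a Lie group

PROOFS. SL_VAL_SMOOTH: in the chart at g0 the inclusion is A ↦ g0 (δ(A)^(-1/n) (1 + A)) on the target.
SL_CRIT: f is continuous at x because its matrix is (the topology is induced); in the chart at
f x the map is slProj ((n / trace X) X), X = (f x)⁻¹ f y, a smooth function of the matrix f y near y = x
(trace X = n ≠ 0 at y = x). LIE GROUP: mul and inv by SL_CRIT: the matrix of g * h is a product, the matrix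
of g⁻¹ is Ring.inverse of the matrix of g.
-/

open scoped Matrix.Norms.L2Operator ContDiff Topology Manifold
open Module Matrix

noncomputable section

namespace Pool.Agent.Helper60.LX

variable {n : ℕ} [NeZero n]

omit [NeZero n] in
private theorem contDiff_entry (i j : Fin n) : ContDiff ℝ ∞ (fun X : Mt n => X i j) :=
  (LinearMap.toContinuousLinearMap (Matrix.entryLinearMap ℝ ℝ i j)).contDiff

omit [NeZero n] in
private theorem contDiff_det : ContDiff ℝ ∞ (fun X : Mt n => X.det) := by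
  simp only [Matrix.det_apply]
  refine ContDiff.sum fun σ _ => ?_
  refine ContDiff.const_smul _ ?_
  exact contDiff_prod fun i _ => contDiff_entry _ _

private theorem slExp_coe' {A : slE n} (h : 0 < (1 + (A : Mt n)).det) :
    ((slExp A : SLn n) : Mt n) =
      ((1 + (A : Mt n)).det ^ (-(1 / (n : ℝ)))) • (1 + (A : Mt n)) := by
  have h1 : slExp A = (⟨((1 + (A : Mt n)).det ^ (-(1 / (n : ℝ)))) • (1 + (A : Mt n)),
      sl_det h⟩ : SLn n) := dif_pos h
  exact congrArg Subtype.val h1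

theorem sl_val_smooth : ContMDiff 𝓘(ℝ, slE n) 𝓘(ℝ, Mt n) ∞ (fun g : SLn n => (g : Mt n)) := by
  intro g0
  rw [contMDiffAt_iff]
  refine ⟨continuous_subtype_val.continuousAt, ?_⟩
  simp only [extChartAt_model_space_eq_id, PartialEquiv.refl_coe, modelWithCornersSelf_coe,
    Set.range_id, contDiffWithinAt_univ, Function.id_comp]
  have hT : slFwd g0 g0 ∈ (slChart g0).target := (slChart g0).map_source (mem_slChart_source g0)
  have hopen : {A : slE n | 0 < (1 + (A : Mt n)).det} ∈ 𝓝 (slFwd g0 g0) :=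
    (slChart g0).open_target.mem_nhds hT
  have h1 : ContDiff ℝ ∞ fun A : slE n => 1 + (A : Mt n) :=
    contDiff_const.add (slE n).subtypeL.contDiff
  have h2 : ContDiffAt ℝ ∞ (fun A : slE n => (g0 : Mt n) *
      (((1 + (A : Mt n)).det ^ (-(1 / (n : ℝ)))) • (1 + (A : Mt n)))) (slFwd g0 g0) := by
    have hs : ContDiffAt ℝ ∞ (fun A : slE n => (1 + (A : Mt n)).det ^ (-(1 / (n : ℝ))))
        (slFwd g0 g0) :=
      (contDiff_det.comp h1).contDiffAt.rpow_const_of_ne (ne_of_gt hT)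
    exact contDiffAt_const.mul (hs.smul h1.contDiffAt)
  refine h2.congr_of_eventuallyEq ?_
  filter_upwards [hopen] with A hA
  change ((g0 * slExp A : SLn n) : Mt n) = _
  rw [Matrix.SpecialLinearGroup.coe_mul, slExp_coe' hA]

theorem sl_crit {E' : Type} [NormedAddCommGroup E'] [NormedSpace ℝ E'] {H' : Type}
    [TopologicalSpace H'] {I' : ModelWithCorners ℝ E' H'} {M : Type} [TopologicalSpace M]
    [ChartedSpace H' M] {f : M → SLn n} {x : M}
    (hf : ContMDiffAt I' 𝓘(ℝ, Mt n) ∞ (fun y => (f y : Mt n)) x) :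
    ContMDiffAt I' 𝓘(ℝ, slE n) ∞ f x := by
  rw [contMDiffAt_iff_target]
  have hind : Topology.IsInducing fun g : SLn n => (g : Mt n) := Topology.IsInducing.subtypeVal
  refine ⟨hind.continuousAt_iff.2 hf.continuousAt, ?_⟩
  have h0 : (((f x)⁻¹ * f x : SLn n) : Mt n).trace ≠ 0 :=
    ne_of_gt (mem_slChart_source (f x))
  rw [Matrix.SpecialLinearGroup.coe_mul] at h0
  have h1 : ContDiff ℝ ∞ fun X : Mt n => (((f x)⁻¹ : SLn n) : Mt n) * X :=
    contDiff_const.mul contDiff_id
  have h2 : ContDiff ℝ ∞ fun X : Mt n => ((((f x)⁻¹ : SLn n) : Mt n) * X).trace :=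
    (LinearMap.toContinuousLinearMap (Matrix.traceLinearMap (Fin n) ℝ ℝ)).contDiff.comp h1
  have h3 : ContDiff ℝ ∞ fun X : Mt n => slProj n X :=
    (LinearMap.toContinuousLinearMap (slProj n)).contDiff
  have h4 : ContDiffAt ℝ ∞ (fun X : Mt n => slProj n
      (((n : ℝ) / ((((f x)⁻¹ : SLn n) : Mt n) * X).trace) • ((((f x)⁻¹ : SLn n) : Mt n) * X)))
      (f x : Mt n) :=
    h3.contDiffAt.comp _ ((contDiffAt_const.div h2.contDiffAt h0).smul h1.contDiffAt)
  have h5 := h4.contMDiffAt.comp x hf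
  exact h5

instance slLieGroup : LieGroup 𝓘(ℝ, slE n) ∞ (SLn n) where
  contMDiff_mul := by
    intro p
    apply sl_crit
    have h1 : ContMDiffAt (𝓘(ℝ, slE n).prod 𝓘(ℝ, slE n)) 𝓘(ℝ, Mt n × Mt n) ∞
        (fun p : SLn n × SLn n => ((p.1 : Mt n), (p.2 : Mt n))) p :=
      ((sl_val_smooth.comp contMDiff_fst).prodMk_space (sl_val_smooth.comp contMDiff_snd)) p
    have h2 : ContMDiffAt 𝓘(ℝ, Mt n × Mt n) 𝓘(ℝ, Mt n) ∞ (fun q : Mt n × Mt n => q.1 * q.2)
        ((p.1 : Mt n), (p.2 : Mt n)) := contDiff_mul.contMDiff _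
    have h3 := ContMDiffAt.comp (g := fun q : Mt n × Mt n => q.1 * q.2)
      (f := fun p : SLn n × SLn n => ((p.1 : Mt n), (p.2 : Mt n))) p h2 h1
    exact h3
  contMDiff_inv := by
    intro g
    apply sl_crit
    have hu : ∀ g : SLn n, (((g⁻¹ : SLn n) : Mt n)) = Ring.inverse (g : Mt n) := by
      intro g
      let u : (Mt n)ˣ := ⟨(g : Mt n), ((g⁻¹ : SLn n) : Mt n), by
        rw [← Matrix.SpecialLinearGroup.coe_mul, mul_inv_cancel, Matrix.SpecialLinearGroup.coe_one],
        by rw [← Matrix.SpecialLinearGroup.coe_mul, inv_mul_cancel,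
          Matrix.SpecialLinearGroup.coe_one]⟩
      exact (Ring.inverse_unit u).symm
    have h1 : (fun g : SLn n => ((g⁻¹ : SLn n) : Mt n)) =
        Ring.inverse ∘ fun g : SLn n => (g : Mt n) := funext hu
    rw [h1]
    let u : (Mt n)ˣ := ⟨(g : Mt n), ((g⁻¹ : SLn n) : Mt n), by
      rw [← Matrix.SpecialLinearGroup.coe_mul, mul_inv_cancel, Matrix.SpecialLinearGroup.coe_one],
      by rw [← Matrix.SpecialLinearGroup.coe_mul, inv_mul_cancel,
        Matrix.SpecialLinearGroup.coe_one]⟩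
    have h2 : ContMDiffAt 𝓘(ℝ, Mt n) 𝓘(ℝ, Mt n) ∞ Ring.inverse (g : Mt n) :=
      (contDiffAt_ringInverse ℝ u).contMDiffAt
    exact h2.comp g (sl_val_smooth g)

end Pool.Agent.Helper60.LX
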