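import Pool.Agent.Helper60.LX.Defs
import Pool.Agent.Helper60.LX.SLLie
import Pool.Agent.Helper60.LX.SLAlg

/-!
# Project LX: the Lie group SL(n, ℝ)
-/

set_option autoImplicit false

open Set Filter Topology Manifold Module
open scoped Manifold ContDiff

noncomputable section

namespace Pool.Agent.Helper60.LX

open scoped Matrix.Norms.L2Operator in
/-- The Lie group `SL(n, ℝ)`, `n = k + 2`, modelled on the space `slE n` of matrices of trace zero
(the chart at the identity is `g ↦ (n / trace g) g - 1`). -/
def specialLinear (k : ℕ) : RealLieGroup where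
  E := slE (k + 2)
  G := SLn (k + 2)
  topologicalSpace := Matrix.SpecialLinearGroup.instTopologicalSpace
  chartedSpace := slCharted
  lieGroup := slLieGroup
  t2Space := (Matrix.SpecialLinearGroup.isClosedEmbedding_val
    (n := Fin (k + 2)) (R := ℝ)).isEmbedding.t2Space
  secondCountable := (Matrix.SpecialLinearGroup.isClosedEmbedding_val
    (n := Fin (k + 2)) (R := ℝ)).isEmbedding.secondCountableTopology
  dim_pos := by
    have h : Module.finrank ℝ (slE (k + 2)) + 1 = (k + 2) ^ 2 := sl_dim (k + 2) (by omega)
    have h2 : (k + 2) ^ 2 = k ^ 2 + 4 * k + 4 := by ring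
    omega

end Pool.Agent.Helper60.LX
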