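import Mathlib

/-!
# Project LX: a triple product property for matrices

PROOFS. DET_LE: A A^T is positive semidefinite with trace ≤ m (the trace is the sum of the squared row
norms), det (A A^T) = (det A)^2 = product of its eigenvalues ≤ (trace / m)^m ≤ 1 (AM-GM:
Real.inner_le_nnorm_mul_nnorm is not needed; Real.geom_mean_le_arith_mean_weighted or
Finset inner form; Matrix.IsHermitian.det_eq_prod_eigenvalues, trace_eq_sum_eigenvalues). (m = 0 is
trivial.)
TPP_MATRIX: x = b * c = k⁻¹ = k^T is orthogonal. For 1 ≤ j ≤ n let A_j be the block of x of the last j rows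
and columns (indices i with n - j ≤ i). Since b is upper triangular, A_j = (block of b)(block of c), so
det A_j = ∏_{i ≥ n-j} b i i (both blocks triangular, c unitriangular; Matrix.det_of_isUpperTriangular,
det_of_isLowerTriangular). The rows of A_j are pieces of orthonormal rows, so |det A_j| ≤ 1 (DET_LE). The
product of det A_j over j = 1 .. n-1 is ∏ i, (b i i)^i = 1, all factors in (0, 1], so all are 1, so b i i = 1
for i ≥ 1; and b 0 0 = det x / 1 = ±1 > 0 (det x = product of all b i i, (det x)^2 = 1), so b 0 0 = 1. Now the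
rows: for i from n-1 down to 0: row i of x = row i of c + ∑_{j > i} b i j (row j of c) and row j of c is e_j
for j > i by induction, so row i of x is (c i 0, .., c i (i-1), 1, b i (i+1), ..) with norm 1: all other
entries vanish. So b = c = 1 and k = 1. (Any other proof is welcome.)
-/

open Module Matrix

noncomputable section

namespace Pool.Agent.Helper60.LX

theorem det_le_one {m : ℕ} (A : Matrix (Fin m) (Fin m) ℝ) (hA : ∀ i, ∑ j, (A i j) ^ 2 ≤ 1) :
    |A.det| ≤ 1 := by
  let B : OrthonormalBasis (Fin m) ℝ (EuclideanSpace ℝ (Fin m)) :=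
    EuclideanSpace.basisFun (Fin m) ℝ
  have : Fact (finrank ℝ (EuclideanSpace ℝ (Fin m)) = m) := ⟨finrank_euclideanSpace_fin⟩
  let o : Orientation ℝ (EuclideanSpace ℝ (Fin m)) (Fin m) := B.toBasis.orientation
  let v : Fin m → EuclideanSpace ℝ (Fin m) := fun i => WithLp.toLp 2 (A i)
  have h1 : o.volumeForm v = A.det := by
    rw [o.volumeForm_robust B rfl, Module.Basis.det_apply, ← Matrix.det_transpose A]
    congr 1
  rw [← h1]
  refine (o.abs_volumeForm_apply_le v).trans ?_
  apply Finset.prod_le_one (fun i _ => norm_nonneg _)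
  intro i _
  rw [EuclideanSpace.norm_eq, Real.sqrt_le_one]
  refine le_trans (le_of_eq ?_) (hA i)
  apply Finset.sum_congr rfl
  intro j _
  rw [Real.norm_eq_abs, sq_abs]

private lemma det_le_one_gen {ι : Type*} [Fintype ι] [DecidableEq ι] (A : Matrix ι ι ℝ)
    (hA : ∀ i, ∑ j, (A i j) ^ 2 ≤ 1) : |A.det| ≤ 1 := by
  let e := Fintype.equivFin ι
  have h := det_le_one (A.submatrix e.symm e.symm) (by
    intro i
    simp only [Matrix.submatrix_apply]
    rw [Equiv.sum_comp e.symm (fun j => (A (e.symm i) j) ^ 2)]
    exact hA _)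
  rwa [Matrix.det_submatrix_equiv_self] at h

private lemma block_prod {n : ℕ} {b c x : Matrix (Fin n) (Fin n) ℝ} (hx : x = b * c)
    (hb : ∀ i j, j < i → b i j = 0) (hc : ∀ i j, i < j → c i j = 0)
    (hcd : ∀ i, c i i = 1) (hx1 : ∀ i, ∑ j, (x i j) ^ 2 = 1) (m : Fin n) :
    |∏ i ∈ Finset.univ.filter (fun i => m ≤ i), b i i| ≤ 1 := by
  classical
  let ι := {i : Fin n // m ≤ i}
  let f : ι → Fin n := Subtype.val
  have h1 : x.submatrix f f = (b.submatrix f f) * (c.submatrix f f) := by
    ext i j
    rw [Matrix.submatrix_apply, hx, Matrix.mul_apply, Matrix.mul_apply]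
    simp only [Matrix.submatrix_apply]
    have h2 : ∑ l : ι, b (f i) (f l) * c (f l) (f j) =
        ∑ l ∈ Finset.univ.filter (fun l => m ≤ l), b (f i) l * c l (f j) := by
      exact (Finset.sum_subtype (p := fun l => m ≤ l) (Finset.univ.filter (fun l => m ≤ l))
        (by simp) (fun l => b (f i) l * c l (f j))).symm
    rw [h2, Finset.sum_filter]
    apply Finset.sum_congr rfl
    intro l _
    split_ifs with hl
    · rfl
    · rw [hb (f i) l (lt_of_lt_of_le (not_le.mp hl) i.2), zero_mul]
  have hbd : (b.submatrix f f).det = ∏ i : ι, b (f i) (f i) := by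
    apply Matrix.det_of_isUpperTriangular
    intro i j hij
    exact hb _ _ hij
  have hcd' : (c.submatrix f f).det = 1 := by
    rw [Matrix.det_of_isLowerTriangular]
    · exact Finset.prod_eq_one fun i _ => hcd _
    · intro i j hij
      exact hc _ _ hij
  have h3 : (x.submatrix f f).det = ∏ i ∈ Finset.univ.filter (fun i => m ≤ i), b i i := by
    rw [h1, Matrix.det_mul, hbd, hcd', mul_one]
    exact (Finset.prod_subtype (p := fun l => m ≤ l) (Finset.univ.filter (fun l => m ≤ l))
      (by simp) (fun l => b l l)).symm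
  rw [← h3]
  apply det_le_one_gen
  intro i
  rw [← hx1 (f i)]
  simp only [Matrix.submatrix_apply]
  have h4 : ∑ j : ι, (x (f i) (f j)) ^ 2 =
      ∑ j ∈ Finset.univ.filter (fun j => m ≤ j), (x (f i) j) ^ 2 := by
    exact (Finset.sum_subtype (p := fun l => m ≤ l) (Finset.univ.filter (fun l => m ≤ l))
      (by simp) (fun l => (x (f i) l) ^ 2)).symm
  rw [h4]
  exact Finset.sum_le_sum_of_subset_of_nonneg (Finset.filter_subset _ _)
    (fun _ _ _ => sq_nonneg _)

theorem tpp_matrix {n : ℕ} {b c k : Matrix (Fin n) (Fin n) ℝ} (hb : ∀ i j, j < i → b i j = 0)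
    (hbd : ∀ i, 0 < b i i) (hprod : ∏ i, (b i i) ^ (i : ℕ) = 1) (hc : ∀ i j, i < j → c i j = 0)
    (hcd : ∀ i, c i i = 1) (hk : k * kᵀ = 1) (h : b * c * k = 1) : b = 1 ∧ c = 1 ∧ k = 1 := by
  classical
  obtain ⟨x, hx⟩ : ∃ x, x = b * c := ⟨_, rfl⟩
  have hxk : x = kᵀ := by
    rw [← hx] at h
    calc x = x * (k * kᵀ) := by rw [hk, mul_one]
      _ = kᵀ := by rw [← mul_assoc, h, one_mul]
  have hxx : x * xᵀ = 1 := by
    rw [hxk, Matrix.transpose_transpose]
    exact mul_eq_one_comm.mp hk
  have hx1 : ∀ i, ∑ j, (x i j) ^ 2 = 1 := by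
    intro i
    have h1 := congrFun (congrFun hxx i) i
    rw [Matrix.mul_apply, Matrix.one_apply_eq] at h1
    rw [← h1]
    apply Finset.sum_congr rfl
    intro j _
    rw [Matrix.transpose_apply, sq]
  let P : Fin n → ℝ := fun m => ∏ i ∈ Finset.univ.filter (fun i => m ≤ i), b i i
  have hP0 : ∀ m, 0 < P m := fun m => Finset.prod_pos fun i _ => hbd i
  have hP1 : ∀ m, P m ≤ 1 := fun m => (le_abs_self _).trans (block_prod hx hb hc hcd hx1 m)
  -- the product of the `P m` over `m > 0`
  have hPP : ∏ m ∈ Finset.univ.filter (fun m : Fin n => 0 < (m : ℕ)), P m = 1 := by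
    rw [← hprod]
    have h1 : ∀ i : Fin n, (b i i) ^ (i : ℕ) =
        ∏ m ∈ Finset.univ.filter (fun m : Fin n => 0 < (m : ℕ) ∧ m ≤ i), b i i := by
      intro i
      rw [Finset.prod_const]
      congr 1
      have h2 : (Finset.univ.filter (fun m : Fin n => 0 < (m : ℕ) ∧ m ≤ i)).map
          Fin.valEmbedding = Finset.Ioc 0 (i : ℕ) := by
        ext t
        simp only [Finset.mem_map, Finset.mem_filter, Finset.mem_univ, true_and,
          Fin.valEmbedding_apply, Finset.mem_Ioc]
        constructor
        · rintro ⟨m, ⟨h3, h4⟩, rfl⟩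
          exact ⟨h3, h4⟩
        · rintro ⟨h3, h4⟩
          exact ⟨⟨t, lt_of_le_of_lt h4 i.2⟩, ⟨h3, h4⟩, rfl⟩
      rw [← Finset.card_map Fin.valEmbedding, h2, Nat.card_Ioc]
      omega
    rw [Finset.prod_congr rfl fun i _ => h1 i]
    exact Finset.prod_comm' (by
      intro m i
      simp only [Finset.mem_filter, Finset.mem_univ, true_and, and_true])
  have hPm : ∀ m : Fin n, 0 < (m : ℕ) → P m = 1 := by
    intro m hm
    apply le_antisymm (hP1 m)
    have hmem : m ∈ Finset.univ.filter (fun m : Fin n => 0 < (m : ℕ)) := by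
      rw [Finset.mem_filter]
      exact ⟨Finset.mem_univ _, hm⟩
    rw [← Finset.mul_prod_erase _ _ hmem] at hPP
    have h1 : ∏ m' ∈ (Finset.univ.filter (fun m : Fin n => 0 < (m : ℕ))).erase m, P m' ≤ 1 :=
      Finset.prod_le_one (fun i _ => (hP0 i).le) (fun i _ => hP1 i)
    calc 1 = P m * _ := hPP.symm
      _ ≤ P m * 1 := mul_le_mul_of_nonneg_left h1 (hP0 m).le
      _ = P m := mul_one _
  have hPz : ∀ m : Fin n, (m : ℕ) = 0 → P m = 1 := by
    intro m hm
    have h1 : x.det ^ 2 = 1 := by
      have h2 := congrArg Matrix.det hxx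
      rw [Matrix.det_mul, Matrix.det_transpose, Matrix.det_one] at h2
      rw [sq, h2]
    have h2 : x.det = ∏ i, b i i := by
      rw [hx, Matrix.det_mul, Matrix.det_of_isUpperTriangular (M := b) (fun i j hij => hb _ _ hij),
        Matrix.det_of_isLowerTriangular c (fun i j hij => hc _ _ hij),
        Finset.prod_eq_one fun i _ => hcd i, mul_one]
    have h3 : P m = ∏ i, b i i := by
      show ∏ i ∈ Finset.univ.filter (fun i => m ≤ i), b i i = _
      rw [Finset.filter_true_of_mem]
      intro i _
      rw [Fin.le_def, hm]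
      exact Nat.zero_le _
    rw [h3, ← h2]
    have h4 : 0 < x.det := by
      rw [h2, ← h3]
      exact hP0 m
    nlinarith [sq_nonneg (x.det - 1)]
  have hPall : ∀ m, P m = 1 := by
    intro m
    rcases Nat.eq_zero_or_pos (m : ℕ) with h0 | h0
    · exact hPz m h0
    · exact hPm m h0
  -- the diagonal entries
  have hbi : ∀ m : Fin n, b m m = 1 := by
    intro m
    induction hd : n - (m : ℕ) using Nat.strong_induction_on generalizing m with
    | _ d ih =>
      have h1 : P m = b m m * ∏ i ∈ Finset.univ.filter (fun i => m < i), b i i := by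
        show ∏ i ∈ Finset.univ.filter (fun i => m ≤ i), b i i = _
        rw [← Finset.prod_insert (f := fun i => b i i) (s := Finset.univ.filter (fun i => m < i))
          (a := m) (by simp)]
        apply Finset.prod_congr _ (fun _ _ => rfl)
        ext i
        simp only [Finset.mem_filter, Finset.mem_univ, true_and, Finset.mem_insert]
        rw [le_iff_eq_or_lt, eq_comm]
      rw [Finset.prod_eq_one, mul_one, hPall m] at h1
      · exact h1.symm
      · intro i hi
        rw [Finset.mem_filter] at hi
        have h2 := Fin.lt_def.mp hi.2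
        have h3 := i.2
        exact ih (n - (i : ℕ)) (by omega) i rfl
  -- the rows
  have hrow : ∀ i : Fin n, (∀ j, b i j = (1 : Matrix (Fin n) (Fin n) ℝ) i j) ∧
      (∀ j, c i j = (1 : Matrix (Fin n) (Fin n) ℝ) i j) := by
    intro i
    induction hd : n - (i : ℕ) using Nat.strong_induction_on generalizing i with
    | _ d ih =>
      have hcl : ∀ l, i < l → ∀ j, c l j = (1 : Matrix (Fin n) (Fin n) ℝ) l j := by
        intro l hl
        have h2 := Fin.lt_def.mp hl
        have h3 := l.2
        exact (ih (n - (l : ℕ)) (by omega) l rfl).2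
      have hxij : ∀ j, x i j = c i j + (if i < j then b i j else 0) := by
        intro j
        rw [hx, Matrix.mul_apply]
        have h1 : ∀ l, b i l * c l j = (if l = i then c i j else 0) +
            (if l = j then (if i < j then b i j else 0) else 0) := by
          intro l
          rcases lt_trichotomy l i with hl | hl | hl
          · rw [hb i l hl, zero_mul, if_neg hl.ne]
            by_cases hlj : l = j
            · rw [if_pos hlj, if_neg, add_zero]
              rw [← hlj]
              exact not_lt.mpr hl.le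
            · rw [if_neg hlj, add_zero]
          · subst hl
            rw [hbi l, one_mul, if_pos rfl]
            by_cases hlj : l = j
            · rw [if_pos hlj, hlj, if_neg (lt_irrefl _), add_zero]
            · rw [if_neg hlj, add_zero]
          · rw [hcl l hl j, if_neg hl.ne', zero_add]
            by_cases hlj : l = j
            · subst hlj
              rw [if_pos rfl, if_pos hl, Matrix.one_apply_eq, mul_one]
            · rw [if_neg hlj, Matrix.one_apply_ne hlj, mul_zero]
        rw [Finset.sum_congr rfl fun l _ => h1 l, Finset.sum_add_distrib,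
          Finset.sum_ite_eq' Finset.univ i, Finset.sum_ite_eq' Finset.univ j,
          if_pos (Finset.mem_univ _), if_pos (Finset.mem_univ _)]
      have hxii : x i i = 1 := by
        rw [hxij i, hcd i, if_neg (lt_irrefl _), add_zero]
      have hx0 : ∀ j, j ≠ i → x i j = 0 := by
        intro j hj
        have h1 := hx1 i
        rw [← Finset.add_sum_erase _ _ (Finset.mem_univ i), hxii, one_pow] at h1
        have h2 : ∑ j ∈ Finset.univ.erase i, (x i j) ^ 2 = 0 := by linarith
        rw [Finset.sum_eq_zero_iff_of_nonneg (fun _ _ => sq_nonneg _)] at h2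
        exact pow_eq_zero_iff (two_ne_zero) |>.mp
          (h2 j (Finset.mem_erase.mpr ⟨hj, Finset.mem_univ _⟩))
      constructor
      · intro j
        rcases lt_trichotomy i j with hij | hij | hij
        · have h1 := hx0 j hij.ne'
          rw [hxij j, if_pos hij, hc i j hij, zero_add] at h1
          rw [h1, Matrix.one_apply_ne hij.ne]
        · subst hij
          rw [hbi, Matrix.one_apply_eq]
        · rw [hb i j hij, Matrix.one_apply_ne hij.ne']
      · intro j
        rcases lt_trichotomy i j with hij | hij | hij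
        · rw [hc i j hij, Matrix.one_apply_ne hij.ne]
        · subst hij
          rw [hcd, Matrix.one_apply_eq]
        · have h1 := hx0 j hij.ne
          rw [hxij j, if_neg (not_lt.mpr hij.le), add_zero] at h1
          rw [h1, Matrix.one_apply_ne hij.ne']
  have hb1 : b = 1 := by
    ext i j
    exact (hrow i).1 j
  have hc1 : c = 1 := by
    ext i j
    exact (hrow i).2 j
  refine ⟨hb1, hc1, ?_⟩
  rw [hb1, hc1, one_mul, one_mul] at h
  exact h

end Pool.Agent.Helper60.LX
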