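import Pool.Agent.Helper60.LX.SLMan
import Pool.Agent.Helper60.LX.TppMat

/-!
# Project LX: three subgroups of SL(n, ℝ) with the triple product property

PROOFS. UP_DIV: products of upper triangular matrices are upper triangular and (g h) i i = g i i * h i i,
the same for inverses (Matrix.BlockTriangular, blockTriangular_inv_of_blockTriangular; the inverse in
SL(n, ℝ) has the inverse matrix; 1 = (g g⁻¹) i i = g i i * g⁻¹ i i), so the diagonal entries of g * g'⁻¹ are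
g i i / g' i i. LO_DIV: the same for lower triangular (transpose). OR_DIV: for orthogonal g the matrix of
g⁻¹ is the transpose. SL_TPP: tpp_matrix for the matrices of s, t, u (Subtype.ext).
-/

open scoped Matrix.Norms.L2Operator ContDiff Topology Manifold
open Module Matrix

noncomputable section

namespace Pool.Agent.Helper60.LX

/-- Upper triangular matrices in `SL(n, ℝ)` with positive diagonal entries `g i i` and
`∏ (g i i)^i = 1` (`i = 0, ..., n - 1`). -/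
def Up (n : ℕ) : Set (SLn n) :=
  {g | (∀ i j, j < i → (g : Mt n) i j = 0) ∧ (∀ i, 0 < (g : Mt n) i i) ∧
    ∏ i, ((g : Mt n) i i) ^ (i : ℕ) = 1}

/-- Lower unitriangular matrices. -/
def Lo (n : ℕ) : Set (SLn n) :=
  {g | (∀ i j, i < j → (g : Mt n) i j = 0) ∧ ∀ i, (g : Mt n) i i = 1}

/-- Orthogonal matrices. -/
def Or (n : ℕ) : Set (SLn n) := {g | (g : Mt n) * (g : Mt n)ᵀ = 1}

variable {n : ℕ}

private theorem inv_upper {G X : Mt n} (hG : ∀ i j, j < i → G i j = 0) (h : G * X = 1) :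
    ∀ i j, j < i → X i j = 0 := by
  let _ : Invertible G := invertibleOfRightInverse _ _ h
  have hB : Matrix.BlockTriangular G (id : Fin n → Fin n) := fun i j hij => hG i j hij
  have h1 := Matrix.blockTriangular_inv_of_blockTriangular hB
  rw [Matrix.inv_eq_right_inv h] at h1
  exact fun i j hij => h1 hij

private theorem inv_lower {G X : Mt n} (hG : ∀ i j, i < j → G i j = 0) (h : G * X = 1) :
    ∀ i j, i < j → X i j = 0 := by
  have h1 : Gᵀ * Xᵀ = 1 := by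
    rw [← Matrix.transpose_mul, mul_eq_one_comm.1 h, Matrix.transpose_one]
  intro i j hij
  exact inv_upper (G := Gᵀ) (X := Xᵀ) (fun a b hab => hG b a hab) h1 j i hij

private theorem mul_upper {A B : Mt n} (hA : ∀ i j, j < i → A i j = 0)
    (hB : ∀ i j, j < i → B i j = 0) : ∀ i j, j < i → (A * B) i j = 0 := by
  intro i j hij
  rw [Matrix.mul_apply]
  refine Finset.sum_eq_zero fun k _ => ?_
  rcases lt_or_ge k i with hk | hk
  · rw [hA i k hk, zero_mul]
  · rw [hB k j (lt_of_lt_of_le hij hk), mul_zero]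

private theorem mul_lower {A B : Mt n} (hA : ∀ i j, i < j → A i j = 0)
    (hB : ∀ i j, i < j → B i j = 0) : ∀ i j, i < j → (A * B) i j = 0 := by
  intro i j hij
  rw [Matrix.mul_apply]
  refine Finset.sum_eq_zero fun k _ => ?_
  rcases lt_or_ge i k with hk | hk
  · rw [hA i k hk, zero_mul]
  · rw [hB k j (lt_of_le_of_lt hk hij), mul_zero]

private theorem diag_upper {A B : Mt n} (hA : ∀ i j, j < i → A i j = 0)
    (hB : ∀ i j, j < i → B i j = 0) (i : Fin n) : (A * B) i i = A i i * B i i := by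
  rw [Matrix.mul_apply]
  refine Finset.sum_eq_single i (fun k _ hk => ?_) (fun hi => absurd (Finset.mem_univ i) hi)
  rcases lt_or_gt_of_ne hk with hk | hk
  · rw [hA i k hk, zero_mul]
  · rw [hB k i hk, mul_zero]

private theorem diag_lower {A B : Mt n} (hA : ∀ i j, i < j → A i j = 0)
    (hB : ∀ i j, i < j → B i j = 0) (i : Fin n) : (A * B) i i = A i i * B i i := by
  rw [Matrix.mul_apply]
  refine Finset.sum_eq_single i (fun k _ hk => ?_) (fun hi => absurd (Finset.mem_univ i) hi)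
  rcases lt_or_gt_of_ne hk with hk | hk
  · rw [hB k i hk, mul_zero]
  · rw [hA i k hk, zero_mul]

private theorem coe_mul_inv (g : SLn n) : (g : Mt n) * ((g⁻¹ : SLn n) : Mt n) = 1 := by
  rw [← Matrix.SpecialLinearGroup.coe_mul, mul_inv_cancel, Matrix.SpecialLinearGroup.coe_one]

theorem Up_div {g g' : SLn n} (h : g ∈ Up n) (h' : g' ∈ Up n) : g * g'⁻¹ ∈ Up n := by
  have h1 : ∀ i j, j < i → (g : Mt n) i j = 0 := h.1
  have h2 : ∀ i, 0 < (g : Mt n) i i := h.2.1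
  have h3 : ∏ i, ((g : Mt n) i i) ^ (i : ℕ) = 1 := h.2.2
  have h1' : ∀ i j, j < i → (g' : Mt n) i j = 0 := h'.1
  have h2' : ∀ i, 0 < (g' : Mt n) i i := h'.2.1
  have h3' : ∏ i, ((g' : Mt n) i i) ^ (i : ℕ) = 1 := h'.2.2
  have hm := coe_mul_inv g'
  have hinv := inv_upper h1' hm
  have hd : ∀ i, (g' : Mt n) i i * ((g'⁻¹ : SLn n) : Mt n) i i = 1 := by
    intro i
    rw [← diag_upper h1' hinv i, hm, Matrix.one_apply_eq]
  have hc : ((g * g'⁻¹ : SLn n) : Mt n) = (g : Mt n) * ((g'⁻¹ : SLn n) : Mt n) :=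
    Matrix.SpecialLinearGroup.coe_mul _ _
  have hpos : ∀ i, 0 < ((g'⁻¹ : SLn n) : Mt n) i i := by
    intro i
    exact (pos_iff_pos_of_mul_pos (by rw [hd i]; exact one_pos)).1 (h2' i)
  refine ⟨?_, ?_, ?_⟩
  · rw [hc]
    exact mul_upper h1 hinv
  · intro i
    rw [hc, diag_upper h1 hinv i]
    exact mul_pos (h2 i) (hpos i)
  · have e1 : (∏ i, ((g' : Mt n) i i) ^ (i : ℕ)) *
        (∏ i, (((g'⁻¹ : SLn n) : Mt n) i i) ^ (i : ℕ)) = 1 := by
      rw [← Finset.prod_mul_distrib]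
      refine Finset.prod_eq_one fun i _ => ?_
      rw [← mul_pow, hd i, one_pow]
    rw [h3', one_mul] at e1
    have e2 : ∏ i, (((g * g'⁻¹ : SLn n) : Mt n) i i) ^ (i : ℕ) =
        ∏ i, (((g : Mt n) i i) ^ (i : ℕ) * (((g'⁻¹ : SLn n) : Mt n) i i) ^ (i : ℕ)) := by
      refine Finset.prod_congr rfl fun i _ => ?_
      rw [hc, diag_upper h1 hinv i, mul_pow]
    rw [e2, Finset.prod_mul_distrib, h3, e1, one_mul]

theorem Lo_div {g g' : SLn n} (h : g ∈ Lo n) (h' : g' ∈ Lo n) : g * g'⁻¹ ∈ Lo n := by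
  have h1 : ∀ i j, i < j → (g : Mt n) i j = 0 := h.1
  have h2 : ∀ i, (g : Mt n) i i = 1 := h.2
  have h1' : ∀ i j, i < j → (g' : Mt n) i j = 0 := h'.1
  have h2' : ∀ i, (g' : Mt n) i i = 1 := h'.2
  have hm := coe_mul_inv g'
  have hinv := inv_lower h1' hm
  have hd : ∀ i, ((g'⁻¹ : SLn n) : Mt n) i i = 1 := by
    intro i
    have e := diag_lower h1' hinv i
    rw [hm, Matrix.one_apply_eq, h2' i, one_mul] at e
    exact e.symm
  have hc : ((g * g'⁻¹ : SLn n) : Mt n) = (g : Mt n) * ((g'⁻¹ : SLn n) : Mt n) :=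
    Matrix.SpecialLinearGroup.coe_mul _ _
  refine ⟨?_, ?_⟩
  · rw [hc]
    exact mul_lower h1 hinv
  · intro i
    rw [hc, diag_lower h1 hinv i, h2 i, hd i, one_mul]

theorem Or_div {g g' : SLn n} (h : g ∈ Or n) (h' : g' ∈ Or n) : g * g'⁻¹ ∈ Or n := by
  have h1 : (g : Mt n) * (g : Mt n)ᵀ = 1 := h
  have h2 : (g' : Mt n) * (g' : Mt n)ᵀ = 1 := h'
  have h3 : ((g'⁻¹ : SLn n) : Mt n) = (g' : Mt n)ᵀ := by
    have e := coe_mul_inv g'
    have e1 : (g' : Mt n)ᵀ * (g' : Mt n) = 1 := mul_eq_one_comm.1 h2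
    calc ((g'⁻¹ : SLn n) : Mt n) = ((g' : Mt n)ᵀ * (g' : Mt n)) * ((g'⁻¹ : SLn n) : Mt n) := by
          rw [e1, one_mul]
      _ = (g' : Mt n)ᵀ := by rw [Matrix.mul_assoc, e, mul_one]
  have hc : ((g * g'⁻¹ : SLn n) : Mt n) = (g : Mt n) * (g' : Mt n)ᵀ := by
    rw [Matrix.SpecialLinearGroup.coe_mul, h3]
  change ((g * g'⁻¹ : SLn n) : Mt n) * ((g * g'⁻¹ : SLn n) : Mt n)ᵀ = 1
  rw [hc, Matrix.transpose_mul, Matrix.transpose_transpose, Matrix.mul_assoc,
    ← Matrix.mul_assoc (g' : Mt n)ᵀ, mul_eq_one_comm.1 h2, one_mul, h1]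

theorem sl_tpp {s t u : SLn n} (hs : s ∈ Up n) (ht : t ∈ Lo n) (hu : u ∈ Or n)
    (h : s * t * u = 1) : s = 1 ∧ t = 1 ∧ u = 1 := by
  obtain ⟨h1, h2, h3⟩ := hs
  obtain ⟨h4, h5⟩ := ht
  have h6 : (u : Mt n) * (u : Mt n)ᵀ = 1 := hu
  have h7 : (s : Mt n) * (t : Mt n) * (u : Mt n) = 1 := by
    rw [← Matrix.SpecialLinearGroup.coe_mul, ← Matrix.SpecialLinearGroup.coe_mul, h,
      Matrix.SpecialLinearGroup.coe_one]
  obtain ⟨e1, e2, e3⟩ := tpp_matrix h1 h2 h3 h4 h5 h6 h7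
  exact ⟨Subtype.ext e1, Subtype.ext e2, Subtype.ext e3⟩

end Pool.Agent.Helper60.LX
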