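import Pool.Agent.Helper60.LX.SLLie
import Pool.Agent.Helper60.LX.SLGrp

/-!
# Project LX: the Cayley parametrisation of a piece of SO(n)

PROOF. P = {p : Fin n × Fin n // p.1 < p.2}, card P = n (n - 1) / 2; V = P → ℝ is identified with the
skew matrices A (A i j = a (i, j) for i < j, A j i = - a (i, j), A i i = 0). det (1 - A) ≠ 0: if
(1 - A) x = 0 then x = A x, x ⬝ x = x ⬝ A x = 0 (skew), x = 0 (Matrix.exists_mulVec_eq_zero_iff). Cayley:
f a = (1 + A) (1 - A)⁻¹. det (1 + A) = det ((1 - A)^T) = det (1 - A), so det f = 1. Orthogonal: 1 + A, 1 - A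
and their inverses commute, (f a)^T = (1 + A)⁻¹ (1 - A). f a + 1 = 2 (1 - A)⁻¹ is invertible and
(f a - 1) (f a + 1)⁻¹ = A. Left inverse: g ↦ the entries (i, j), i < j, of (g - 1) (g + 1)⁻¹, smooth near f a
(contDiffAt_ringInverse or the formula det⁻¹ • adjugate for the inverse matrix; with the scoped norm
Matrix.Norms.L2Operator, Mt n is a complete normed algebra). Smoothness of f: SL_CRIT and the same for the
inverse matrix (1 - A)⁻¹. Compose with EuclideanSpace ℝ (Fin m) ≃L V (ContinuousLinearEquiv.ofFinrankEq).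
-/

open scoped Matrix.Norms.L2Operator ContDiff Topology Manifold
open Module Matrix

noncomputable section

namespace Pool.Agent.Helper60.LX

private theorem det_one_sub {n : ℕ} {A : Mt n} (hA : Aᵀ = -A) : (1 - A).det ≠ 0 := by
  intro h
  obtain ⟨v, hv, hv0⟩ := Matrix.exists_mulVec_eq_zero_iff.mpr h
  apply hv
  rw [sub_mulVec, one_mulVec, sub_eq_zero] at hv0
  have h1 : v ⬝ᵥ (A *ᵥ v) = -(v ⬝ᵥ (A *ᵥ v)) := by
    conv_lhs => rw [dotProduct_mulVec, ← mulVec_transpose, hA, neg_mulVec, neg_dotProduct,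
      dotProduct_comm]
  have h2 : v ⬝ᵥ v = v ⬝ᵥ (A *ᵥ v) := congrArg (fun w => v ⬝ᵥ w) hv0
  have h3 : v ⬝ᵥ v = 0 := by linarith
  exact dotProduct_self_eq_zero.mp h3

private theorem det_one_add {n : ℕ} {A : Mt n} (hA : Aᵀ = -A) : (1 + A).det = (1 - A).det := by
  rw [← Matrix.det_transpose (1 - A), Matrix.transpose_sub, Matrix.transpose_one, hA,
    sub_neg_eq_add]

/-- The Cayley transform of a skew matrix. -/
private def cay {n : ℕ} (A : Mt n) : Mt n := (1 + A) * (1 - A)⁻¹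

private theorem cay_det {n : ℕ} {A : Mt n} (hA : Aᵀ = -A) : (cay A).det = 1 := by
  rw [cay, Matrix.det_mul, Matrix.det_nonsing_inv, Ring.inverse_eq_inv', det_one_add hA,
    mul_inv_cancel₀ (det_one_sub hA)]

private theorem cay_orth {n : ℕ} {A : Mt n} (hA : Aᵀ = -A) : cay A * (cay A)ᵀ = 1 := by
  have h1 : IsUnit (1 - A).det := isUnit_iff_ne_zero.mpr (det_one_sub hA)
  have h2 : IsUnit (1 + A).det := by
    rw [det_one_add hA]
    exact h1
  have h3 : (cay A)ᵀ = (1 + A)⁻¹ * (1 - A) := by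
    rw [cay, Matrix.transpose_mul, Matrix.transpose_nonsing_inv, Matrix.transpose_sub,
      Matrix.transpose_add, Matrix.transpose_one, hA, sub_neg_eq_add, ← sub_eq_add_neg]
  have h4 : (1 - A)⁻¹ * (1 + A)⁻¹ = (1 + A)⁻¹ * (1 - A)⁻¹ := by
    rw [← Matrix.mul_inv_rev, ← Matrix.mul_inv_rev]
    congr 1
    noncomm_ring
  rw [h3, cay]
  calc (1 + A) * (1 - A)⁻¹ * ((1 + A)⁻¹ * (1 - A))
      = (1 + A) * ((1 - A)⁻¹ * (1 + A)⁻¹) * (1 - A) := by simp only [Matrix.mul_assoc]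
    _ = (1 + A) * (1 + A)⁻¹ * ((1 - A)⁻¹ * (1 - A)) := by
        rw [h4]
        simp only [Matrix.mul_assoc]
    _ = 1 := by rw [Matrix.mul_nonsing_inv _ h2, Matrix.nonsing_inv_mul _ h1, Matrix.one_mul]

private theorem cay_add_one {n : ℕ} {A : Mt n} (hA : Aᵀ = -A) :
    (cay A + 1) * ((1 / 2 : ℝ) • (1 - A)) = 1 := by
  have h1 : IsUnit (1 - A).det := isUnit_iff_ne_zero.mpr (det_one_sub hA)
  rw [cay, Matrix.mul_smul, add_mul, Matrix.mul_assoc, Matrix.nonsing_inv_mul _ h1,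
    Matrix.mul_one, one_mul]
  have h2 : (1 + A + (1 - A) : Mt n) = (2 : ℝ) • 1 := by
    rw [two_smul]
    abel
  rw [h2, smul_smul]
  norm_num

private theorem cay_left {n : ℕ} {A : Mt n} (hA : Aᵀ = -A) :
    (cay A - 1) * (cay A + 1)⁻¹ = A := by
  have h1 : IsUnit (1 - A).det := isUnit_iff_ne_zero.mpr (det_one_sub hA)
  rw [Matrix.inv_eq_right_inv (cay_add_one hA), cay, Matrix.mul_smul, sub_mul,
    Matrix.mul_assoc, Matrix.nonsing_inv_mul _ h1, Matrix.mul_one, one_mul]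
  have h2 : (1 + A - (1 - A) : Mt n) = (2 : ℝ) • A := by
    rw [two_smul]
    abel
  rw [h2, smul_smul]
  norm_num

private theorem cay_add_one_det {n : ℕ} {A : Mt n} (hA : Aᵀ = -A) : (cay A + 1).det ≠ 0 := by
  intro h
  have h1 := congrArg Matrix.det (cay_add_one hA)
  rw [Matrix.det_mul, h, zero_mul, Matrix.det_one] at h1
  exact zero_ne_one h1

private theorem inv_smooth {n : ℕ} {E' : Type} [NormedAddCommGroup E'] [NormedSpace ℝ E']
    {F : E' → Mt n} {x : E'} (hF : ContDiffAt ℝ ∞ F x) (h : (F x).det ≠ 0) :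
    ContDiffAt ℝ ∞ (fun y => (F y)⁻¹) x := by
  have hc : CompleteSpace (Mt n) := FiniteDimensional.complete ℝ (Mt n)
  obtain ⟨u, hu⟩ := (Matrix.isUnit_iff_isUnit_det (F x)).mpr (isUnit_iff_ne_zero.mpr h)
  have h1 : ContDiffAt ℝ ∞ (Ring.inverse : Mt n → Mt n) (F x) := by
    rw [← hu]
    exact contDiffAt_ringInverse ℝ u
  have h2 : (fun y => (F y)⁻¹) = fun y => Ring.inverse (F y) := by
    funext y
    exact Matrix.nonsing_inv_eq_ringInverse _
  rw [h2]
  exact h1.comp x hF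

/-- Pairs `i < j`. -/
private abbrev PP (n : ℕ) : Type := {p : Fin n × Fin n // p.1 < p.2}

private theorem card_PP (n : ℕ) : Fintype.card (PP n) = n * (n - 1) / 2 := by
  have e : PP n ≃ Σ j : Fin n, Fin j :=
    { toFun := fun p => ⟨p.1.2, ⟨p.1.1, p.2⟩⟩
      invFun := fun q => ⟨(⟨q.2, q.2.2.trans q.1.2⟩, q.1), q.2.2⟩
      left_inv := fun p => rfl
      right_inv := fun q => rfl }
  rw [Fintype.card_congr e, Fintype.card_sigma]
  simp only [Fintype.card_fin]
  rw [Fin.sum_univ_eq_sum_range (fun i => i) n, Finset.sum_range_id]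

/-- Skew matrices. -/
private def skew (n : ℕ) : (PP n → ℝ) →ₗ[ℝ] Mt n where
  toFun a := Matrix.of fun i j => if h : i < j then a ⟨(i, j), h⟩ else
    if h' : j < i then - a ⟨(j, i), h'⟩ else 0
  map_add' a b := by
    ext i j
    simp only [Matrix.of_apply, Matrix.add_apply, Pi.add_apply]
    split_ifs
    · rfl
    · rw [neg_add]
    · rw [add_zero]
  map_smul' c a := by
    ext i j
    simp only [Matrix.of_apply, Matrix.smul_apply, Pi.smul_apply, smul_eq_mul, RingHom.id_apply]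
    split_ifs
    · rfl
    · rw [mul_neg]
    · rw [mul_zero]

private theorem skew_transpose {n : ℕ} (a : PP n → ℝ) : (skew n a)ᵀ = - skew n a := by
  ext i j
  rw [Matrix.transpose_apply, Matrix.neg_apply]
  show (if h : j < i then a ⟨(j, i), h⟩ else if h' : i < j then - a ⟨(i, j), h'⟩ else 0) =
    -(if h : i < j then a ⟨(i, j), h⟩ else if h' : j < i then - a ⟨(j, i), h'⟩ else 0)
  rcases lt_trichotomy i j with h | h | h
  · rw [dif_neg h.asymm, dif_pos h, dif_pos h]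
  · rw [h, dif_neg (lt_irrefl _), dif_neg (lt_irrefl _), neg_zero]
  · rw [dif_pos h, dif_neg h.asymm, dif_pos h, neg_neg]

private theorem skew_apply {n : ℕ} (a : PP n → ℝ) (p : PP n) : skew n a p.1.1 p.1.2 = a p := by
  show (if h : p.1.1 < p.1.2 then a ⟨(p.1.1, p.1.2), h⟩ else _) = a p
  rw [dif_pos p.2]

theorem exists_Or (n : ℕ) [NeZero n] :
    ∃ (f : EuclideanSpace ℝ (Fin (n * (n - 1) / 2)) → SLn n)
      (g : SLn n → EuclideanSpace ℝ (Fin (n * (n - 1) / 2))),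
      ContMDiff 𝓘(ℝ, EuclideanSpace ℝ (Fin (n * (n - 1) / 2))) 𝓘(ℝ, slE n) ∞ f ∧
      (∀ x, g (f x) = x) ∧
      (∀ x, ContMDiffAt 𝓘(ℝ, slE n) 𝓘(ℝ, EuclideanSpace ℝ (Fin (n * (n - 1) / 2)))
        ∞ g (f x)) ∧
      ∀ x, f x ∈ Or n := by
  obtain ⟨e⟩ : Nonempty (EuclideanSpace ℝ (Fin (n * (n - 1) / 2)) ≃L[ℝ] (PP n → ℝ)) := by
    refine ⟨ContinuousLinearEquiv.ofFinrankEq ?_⟩
    rw [finrank_euclideanSpace_fin, finrank_fintype_fun_eq_card, card_PP]
  let S : EuclideanSpace ℝ (Fin (n * (n - 1) / 2)) → Mt n := fun x => skew n (e x)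
  have hSsm : ContDiff ℝ ∞ S :=
    ((LinearMap.toContinuousLinearMap (skew n)).comp
      (e : EuclideanSpace ℝ (Fin (n * (n - 1) / 2)) →L[ℝ] (PP n → ℝ))).contDiff
  have hS : ∀ x, (S x)ᵀ = - S x := fun x => skew_transpose (e x)
  let R0 : Mt n →ₗ[ℝ] (PP n → ℝ) :=
    { toFun := fun M p => M p.1.1 p.1.2
      map_add' := fun M N => rfl
      map_smul' := fun c M => rfl }
  let R : Mt n → EuclideanSpace ℝ (Fin (n * (n - 1) / 2)) := fun M => e.symm (R0 M)
  have hRsm : ContDiff ℝ ∞ R :=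
    ((e.symm : (PP n → ℝ) →L[ℝ] EuclideanSpace ℝ (Fin (n * (n - 1) / 2))).comp
      (LinearMap.toContinuousLinearMap R0)).contDiff
  have hRS : ∀ x, R (S x) = x := by
    intro x
    have h1 : R0 (skew n (e x)) = e x := by
      funext p
      exact skew_apply (e x) p
    show e.symm (R0 (skew n (e x))) = x
    rw [h1, e.symm_apply_apply]
  let f : EuclideanSpace ℝ (Fin (n * (n - 1) / 2)) → SLn n := fun x =>
    ⟨cay (S x), cay_det (hS x)⟩
  have hfv : ∀ x, (f x : Mt n) = cay (S x) := fun x => rfl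
  refine ⟨f, fun M => R (((M : Mt n) - 1) * ((M : Mt n) + 1)⁻¹), ?_, ?_, ?_, ?_⟩
  · intro x
    apply sl_crit
    apply ContDiffAt.contMDiffAt
    show ContDiffAt ℝ ∞ (fun y => (1 + S y) * (1 - S y)⁻¹) x
    have h1 : ContDiffAt ℝ ∞ (fun y => 1 + S y) x := contDiffAt_const.add hSsm.contDiffAt
    have h2 : ContDiffAt ℝ ∞ (fun y => 1 - S y) x := contDiffAt_const.sub hSsm.contDiffAt
    exact h1.mul (inv_smooth h2 (det_one_sub (hS x)))
  · intro x
    show R ((cay (S x) - 1) * (cay (S x) + 1)⁻¹) = x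
    rw [cay_left (hS x), hRS]
  · intro x
    have h1 : ContDiffAt ℝ ∞ (fun M : Mt n => R ((M - 1) * (M + 1)⁻¹)) (f x : Mt n) := by
      have h2 : ContDiffAt ℝ ∞ (fun M : Mt n => M - 1) (f x : Mt n) :=
        contDiffAt_id.sub contDiffAt_const
      have h3 : ContDiffAt ℝ ∞ (fun M : Mt n => M + 1) (f x : Mt n) :=
        contDiffAt_id.add contDiffAt_const
      exact hRsm.contDiffAt.comp _ (h2.mul (inv_smooth h3 (cay_add_one_det (hS x))))
    exact h1.contMDiffAt.comp (f x) (sl_val_smooth (f x))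
  · intro x
    exact cay_orth (hS x)

end Pool.Agent.Helper60.LX
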