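import Pool.Agent.Helper60.LX.SLLie
import Pool.Agent.Helper60.LX.SLGrp

/-!
# Project LX: parametrisation of Up n and Lo n

Let P = {p : Fin n × Fin n // p.1 < p.2}, card P = n (n - 1) / 2 (for example by Finset.card of
offDiag: P and its mirror image partition the off-diagonal, n^2 - n elements).
PROOFS. UP: T = {t : Fin n → ℝ | ∑ t i = 0 and ∑ i t i = 0}, finrank T = n - 2 for n ≥ 2 (the kernel of a
surjective linear map to ℝ × ℝ: the two functionals are independent, test on e_0, e_1). V = (P → ℝ) × T,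
f (u, t) = the matrix with diagonal exp (t i), entries u (i, j) for i < j, 0 for i > j; determinant
exp (∑ t i) = 1 (Matrix.det_of_upperTriangular). ∏ (exp (t i))^i = exp (∑ i t i) = 1. Left inverse:
g ↦ ((g i j) for i < j, π (log (g i i))) with π : (Fin n → ℝ) → T a linear projection. Smoothness of f:
SL_CRIT (the matrix is a smooth function: entrywise; for a smooth map into Mt n from smooth entries
write it as a sum of entries times Matrix.single, or use a continuous linear equivalence
(Fin n → Fin n → ℝ) ≃L Mt n in finite dimension). Smoothness of the left inverse at points with positive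
diagonal: sl_val_smooth composed with a smooth function of the matrix. Finally compose with a
continuous linear equivalence EuclideanSpace ℝ (Fin m) ≃L V (equal finrank:
ContinuousLinearEquiv.ofFinrankEq). LO: V = P → ℝ, f l = 1 + (lower part l), determinant 1; left inverse: the
entries g j i, i < j.
-/

open scoped Matrix.Norms.L2Operator ContDiff Topology Manifold
open Module Matrix

noncomputable section

namespace Pool.Agent.Helper60.LX

/-- Pairs `i < j`. -/
private abbrev Pr (n : ℕ) : Type := {p : Fin n × Fin n // p.1 < p.2}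

private theorem card_Pr (n : ℕ) : Fintype.card (Pr n) = n * (n - 1) / 2 := by
  have h1 : Fintype.card (Pr n) = (Finset.univ.filter fun p : Fin n × Fin n => p.1 < p.2).card :=
    Fintype.card_subtype _
  have h2 : (Finset.univ.filter fun p : Fin n × Fin n => p.2 < p.1).card =
      (Finset.univ.filter fun p : Fin n × Fin n => p.1 < p.2).card := by
    refine Finset.card_bij (fun p _ => (p.2, p.1)) ?_ ?_ ?_
    · intro p hp
      simpa using hp
    · intro p _ q _ h
      rw [Prod.mk.injEq] at h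
      exact Prod.ext h.2 h.1
    · intro p hp
      exact ⟨(p.2, p.1), by simpa using hp, rfl⟩
  have h3 : (Finset.univ.filter fun p : Fin n × Fin n => p.1 < p.2).card +
      (Finset.univ.filter fun p : Fin n × Fin n => p.2 < p.1).card = n * n - n := by
    rw [← Finset.card_union_of_disjoint, ← Finset.filter_or]
    · have h4 : (Finset.univ.filter fun p : Fin n × Fin n => p.1 < p.2 ∨ p.2 < p.1) =
          (Finset.univ : Finset (Fin n)).offDiag := by
        ext p
        simp [Finset.mem_offDiag]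
      rw [h4, Finset.offDiag_card, Finset.card_univ, Fintype.card_fin]
    · rw [Finset.disjoint_filter]
      intro p _ h h'
      exact absurd h (not_lt.2 h'.le)
  rw [h2] at h3
  rw [h1, Nat.mul_sub_one]
  omega

/-- Smoothness into matrices from smooth entries. -/
private theorem contDiffAt_matrix {n : ℕ} {V : Type} [NormedAddCommGroup V] [NormedSpace ℝ V]
    {f : V → Mt n} {x : V} (h : ∀ i j, ContDiffAt ℝ ∞ (fun v => f v i j) x) :
    ContDiffAt ℝ ∞ f x := by
  let e : (Fin n → Fin n → ℝ) ≃L[ℝ] Mt n :=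
    (Matrix.ofLinearEquiv ℝ : (Fin n → Fin n → ℝ) ≃ₗ[ℝ] Mt n).toContinuousLinearEquiv
  have h1 : ContDiffAt ℝ ∞ (fun v => fun i j => f v i j) x :=
    contDiffAt_pi.2 fun i => contDiffAt_pi.2 fun j => h i j
  exact e.contDiff.contDiffAt.comp x h1

/-- The entries are smooth functions of the matrix. -/
private theorem contDiff_entry {n : ℕ} (i j : Fin n) : ContDiff ℝ ∞ (fun A : Mt n => A i j) := by
  exact (LinearMap.toContinuousLinearMap (Matrix.entryLinearMap ℝ ℝ i j)).contDiff

section Up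

variable {n : ℕ}

/-- The two linear conditions. -/
private def cond (n : ℕ) : (Fin n → ℝ) →ₗ[ℝ] ℝ × ℝ :=
  (∑ i, LinearMap.proj i).prod (∑ i : Fin n, ((i : ℕ) : ℝ) • LinearMap.proj i)

private theorem cond_apply (t : Fin n → ℝ) :
    cond n t = (∑ i, t i, ∑ i : Fin n, ((i : ℕ) : ℝ) * t i) := by
  simp [cond]

private theorem cond_surj (hn : 2 ≤ n) : Function.Surjective (cond n) := by
  rintro ⟨a, b⟩
  let i0 : Fin n := ⟨0, by omega⟩
  let i1 : Fin n := ⟨1, by omega⟩
  refine ⟨(Pi.single i0 (a - b) : Fin n → ℝ) + Pi.single i1 b, ?_⟩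
  rw [cond_apply]
  simp [Finset.sum_add_distrib, mul_add, i0, i1, Pi.single_apply, Finset.sum_ite_eq']

private abbrev Tn (n : ℕ) : Submodule ℝ (Fin n → ℝ) := LinearMap.ker (cond n)

private theorem finrank_Tn (hn : 2 ≤ n) : finrank ℝ (Tn n) = n - 2 := by
  have h1 := LinearMap.finrank_range_add_finrank_ker (cond n)
  rw [LinearMap.range_eq_top.2 (cond_surj hn), finrank_top, finrank_prod, finrank_self,
    finrank_fin_fun] at h1
  change finrank ℝ (LinearMap.ker (cond n)) = n - 2
  omega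

/-- The matrix. -/
private def upMat (v : (Pr n → ℝ) × Tn n) : Mt n :=
  Matrix.of fun i j => if h : i < j then v.1 ⟨(i, j), h⟩ else
    if i = j then Real.exp ((v.2 : Fin n → ℝ) i) else 0

private theorem upMat_diag (v : (Pr n → ℝ) × Tn n) (i : Fin n) :
    upMat v i i = Real.exp ((v.2 : Fin n → ℝ) i) := by
  simp [upMat]

private theorem upMat_lt (v : (Pr n → ℝ) × Tn n) (p : Pr n) :
    upMat v p.1.1 p.1.2 = v.1 p := by
  have h := p.2
  simp [upMat, h]

private theorem upMat_gt (v : (Pr n → ℝ) × Tn n) {i j : Fin n} (h : j < i) :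
    upMat v i j = 0 := by
  simp [upMat, not_lt.2 h.le, h.ne']

private theorem upMat_det (v : (Pr n → ℝ) × Tn n) : (upMat v).det = 1 := by
  have h1 : (upMat v).BlockTriangular id := by
    intro i j h
    exact upMat_gt v h
  rw [Matrix.det_of_upperTriangular h1]
  simp only [upMat_diag]
  rw [← Real.exp_sum]
  have h2 : cond n (v.2 : Fin n → ℝ) = 0 := v.2.2
  rw [cond_apply] at h2
  rw [(Prod.mk.inj h2).1, Real.exp_zero]

/-- The parametrisation. -/
private def upSL (v : (Pr n → ℝ) × Tn n) : SLn n := ⟨upMat v, upMat_det v⟩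

private theorem upSL_mem (v : (Pr n → ℝ) × Tn n) : upSL v ∈ Up n := by
  refine ⟨fun i j h => upMat_gt v h, fun i => ?_, ?_⟩
  · change 0 < upMat v i i
    rw [upMat_diag]
    exact Real.exp_pos _
  · change ∏ i, (upMat v i i) ^ (i : ℕ) = 1
    simp only [upMat_diag, ← Real.exp_nat_mul]
    rw [← Real.exp_sum]
    have h2 : cond n (v.2 : Fin n → ℝ) = 0 := v.2.2
    rw [cond_apply] at h2
    rw [(Prod.mk.inj h2).2, Real.exp_zero]

private theorem upMat_smooth : ContDiff ℝ ∞ (upMat : (Pr n → ℝ) × Tn n → Mt n) := by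
  rw [contDiff_iff_contDiffAt]
  intro v
  refine contDiffAt_matrix fun i j => ?_
  by_cases h : i < j
  · have h1 : (fun v : (Pr n → ℝ) × Tn n => upMat v i j) = fun v => v.1 ⟨(i, j), h⟩ := by
      funext v
      exact upMat_lt v ⟨(i, j), h⟩
    rw [h1]
    exact ((contDiff_apply ℝ ℝ (⟨(i, j), h⟩ : Pr n)).comp contDiff_fst).contDiffAt
  · by_cases h' : i = j
    · subst h'
      have h1 : (fun v : (Pr n → ℝ) × Tn n => upMat v i i) =
          fun v => Real.exp ((v.2 : Fin n → ℝ) i) := by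
        funext v
        exact upMat_diag v i
      rw [h1]
      have h2 : ContDiff ℝ ∞ fun v : (Pr n → ℝ) × Tn n => (v.2 : Fin n → ℝ) i :=
        (contDiff_apply ℝ ℝ i).comp ((Tn n).subtypeL.contDiff.comp contDiff_snd)
      exact h2.exp.contDiffAt
    · have h1 : (fun v : (Pr n → ℝ) × Tn n => upMat v i j) = fun v => 0 := by
        funext v
        exact upMat_gt v (lt_of_le_of_ne (not_lt.1 h) (Ne.symm h'))
      rw [h1]
      exact contDiffAt_const

end Up

theorem exists_Up (n : ℕ) [NeZero n] (hn : 2 ≤ n) :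
    ∃ (f : EuclideanSpace ℝ (Fin (n * (n - 1) / 2 + (n - 2))) → SLn n)
      (g : SLn n → EuclideanSpace ℝ (Fin (n * (n - 1) / 2 + (n - 2)))),
      ContMDiff 𝓘(ℝ, EuclideanSpace ℝ (Fin (n * (n - 1) / 2 + (n - 2)))) 𝓘(ℝ, slE n) ∞ f ∧
      (∀ x, g (f x) = x) ∧
      (∀ x, ContMDiffAt 𝓘(ℝ, slE n) 𝓘(ℝ, EuclideanSpace ℝ (Fin (n * (n - 1) / 2 + (n - 2))))
        ∞ g (f x)) ∧
      ∀ x, f x ∈ Up n := by
  have hfr : finrank ℝ (EuclideanSpace ℝ (Fin (n * (n - 1) / 2 + (n - 2)))) =
      finrank ℝ ((Pr n → ℝ) × Tn n) := by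
    rw [finrank_euclideanSpace_fin, finrank_prod, finrank_pi, card_Pr, finrank_Tn hn]
  let φ : EuclideanSpace ℝ (Fin (n * (n - 1) / 2 + (n - 2))) ≃L[ℝ] ((Pr n → ℝ) × Tn n) :=
    ContinuousLinearEquiv.ofFinrankEq hfr
  obtain ⟨π, hπ⟩ := (Tn n).subtype.exists_leftInverse_of_injective (Tn n).ker_subtype
  have hπ' : ∀ t : Tn n, π (t : Fin n → ℝ) = t := fun t => LinearMap.congr_fun hπ t
  let πc : (Fin n → ℝ) →L[ℝ] Tn n := LinearMap.toContinuousLinearMap π
  let γ : Mt n → (Pr n → ℝ) × Tn n := fun A =>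
    (fun p => A p.1.1 p.1.2, πc fun i => Real.log (A i i))
  have hγ : ∀ A : Mt n, (∀ i, 0 < A i i) → ContDiffAt ℝ ∞ γ A := by
    intro A hA
    refine ContDiffAt.prodMk ?_ ?_
    · exact contDiffAt_pi.2 fun p => (contDiff_entry _ _).contDiffAt
    · refine πc.contDiff.contDiffAt.comp A ?_
      refine contDiffAt_pi.2 fun i => ?_
      exact (contDiff_entry i i).contDiffAt.log (hA i).ne'
  refine ⟨fun x => upSL (φ x), fun g => φ.symm (γ (g : Mt n)), ?_, ?_, ?_, ?_⟩
  · intro x
    apply sl_crit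
    have h1 : ContDiff ℝ ∞ fun x => upMat (φ x) := upMat_smooth.comp φ.contDiff
    exact h1.contMDiff x
  · intro x
    have h1 : γ (upMat (φ x)) = φ x := by
      refine Prod.ext ?_ ?_
      · funext p
        exact upMat_lt (φ x) p
      · change π (fun i => Real.log (upMat (φ x) i i)) = (φ x).2
        simp only [upMat_diag, Real.log_exp]
        exact hπ' (φ x).2
    change φ.symm (γ (upMat (φ x))) = x
    rw [h1, φ.symm_apply_apply]
  · intro x
    have h1 : ContDiffAt ℝ ∞ (fun A : Mt n => φ.symm (γ A)) ((upSL (φ x) : SLn n) : Mt n) :=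
      φ.symm.contDiff.contDiffAt.comp _ (hγ _ (upSL_mem (φ x)).2.1)
    exact ContMDiffAt.comp (I' := 𝓘(ℝ, Mt n)) (g := fun A : Mt n => φ.symm (γ A))
      (f := fun g : SLn n => (g : Mt n)) (upSL (φ x)) h1.contMDiffAt (sl_val_smooth _)
  · intro x
    exact upSL_mem _

section Lo

variable {n : ℕ}

/-- The matrix. -/
private def loMat (v : Pr n → ℝ) : Mt n :=
  Matrix.of fun i j => if h : j < i then v ⟨(j, i), h⟩ else if i = j then 1 else 0

private theorem loMat_diag (v : Pr n → ℝ) (i : Fin n) : loMat v i i = 1 := by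
  simp [loMat]

private theorem loMat_gt (v : Pr n → ℝ) (p : Pr n) : loMat v p.1.2 p.1.1 = v p := by
  have h := p.2
  simp [loMat, h]

private theorem loMat_lt (v : Pr n → ℝ) {i j : Fin n} (h : i < j) : loMat v i j = 0 := by
  simp [loMat, not_lt.2 h.le, h.ne]

private theorem loMat_det (v : Pr n → ℝ) : (loMat v).det = 1 := by
  have h1 : (loMat v).BlockTriangular OrderDual.toDual := by
    intro i j h
    exact loMat_lt v h
  rw [Matrix.det_of_lowerTriangular _ h1]
  simp only [loMat_diag, Finset.prod_const_one]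

/-- The parametrisation. -/
private def loSL (v : Pr n → ℝ) : SLn n := ⟨loMat v, loMat_det v⟩

private theorem loSL_mem (v : Pr n → ℝ) : loSL v ∈ Lo n :=
  ⟨fun _ _ h => loMat_lt v h, fun i => loMat_diag v i⟩

private theorem loMat_smooth : ContDiff ℝ ∞ (loMat : (Pr n → ℝ) → Mt n) := by
  rw [contDiff_iff_contDiffAt]
  intro v
  refine contDiffAt_matrix fun i j => ?_
  by_cases h : j < i
  · have h1 : (fun v : Pr n → ℝ => loMat v i j) = fun v => v ⟨(j, i), h⟩ := by
      funext v
      exact loMat_gt v ⟨(j, i), h⟩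
    rw [h1]
    exact (contDiff_apply ℝ ℝ (⟨(j, i), h⟩ : Pr n)).contDiffAt
  · have h1 : (fun v : Pr n → ℝ => loMat v i j) = fun v => if i = j then 1 else 0 := by
      funext v
      simp [loMat, h]
    rw [h1]
    exact contDiffAt_const

end Lo

theorem exists_Lo (n : ℕ) [NeZero n] :
    ∃ (f : EuclideanSpace ℝ (Fin (n * (n - 1) / 2)) → SLn n)
      (g : SLn n → EuclideanSpace ℝ (Fin (n * (n - 1) / 2))),
      ContMDiff 𝓘(ℝ, EuclideanSpace ℝ (Fin (n * (n - 1) / 2))) 𝓘(ℝ, slE n) ∞ f ∧
      (∀ x, g (f x) = x) ∧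
      (∀ x, ContMDiffAt 𝓘(ℝ, slE n) 𝓘(ℝ, EuclideanSpace ℝ (Fin (n * (n - 1) / 2)))
        ∞ g (f x)) ∧
      ∀ x, f x ∈ Lo n := by
  have hfr : finrank ℝ (EuclideanSpace ℝ (Fin (n * (n - 1) / 2))) =
      finrank ℝ (Pr n → ℝ) := by
    rw [finrank_euclideanSpace_fin, finrank_pi, card_Pr]
  let φ : EuclideanSpace ℝ (Fin (n * (n - 1) / 2)) ≃L[ℝ] (Pr n → ℝ) :=
    ContinuousLinearEquiv.ofFinrankEq hfr
  let γ : Mt n → Pr n → ℝ := fun A => fun p => A p.1.2 p.1.1
  have hγ : ContDiff ℝ ∞ γ := contDiff_pi.2 fun p => contDiff_entry _ _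
  refine ⟨fun x => loSL (φ x), fun g => φ.symm (γ (g : Mt n)), ?_, ?_, ?_, ?_⟩
  · intro x
    apply sl_crit
    have h1 : ContDiff ℝ ∞ fun x => loMat (φ x) := loMat_smooth.comp φ.contDiff
    exact h1.contMDiff x
  · intro x
    have h1 : γ (loMat (φ x)) = φ x := by
      funext p
      exact loMat_gt (φ x) p
    change φ.symm (γ (loMat (φ x))) = x
    rw [h1, φ.symm_apply_apply]
  · intro x
    have h1 : ContDiff ℝ ∞ (fun A : Mt n => φ.symm (γ A)) := φ.symm.contDiff.comp hγ
    exact ContMDiffAt.comp (I' := 𝓘(ℝ, Mt n)) (g := fun A : Mt n => φ.symm (γ A))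
      (f := fun g : SLn n => (g : Mt n)) (loSL (φ x)) (h1.contMDiff _) (sl_val_smooth _)
  · intro x
    exact loSL_mem _

end Pool.Agent.Helper60.LX
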