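import Pool.Agent.Helper60.LX.SLDef
import Pool.Agent.Helper60.LX.SLData
import Pool.Agent.Helper60.LX.SLUp
import Pool.Agent.Helper60.LX.SLOr
import Pool.Agent.Helper60.LX.EmbTool

/-!
# Project LX: the upper bound for the Lie exponent of SL(n, ℝ)
-/

set_option autoImplicit false

open Set Filter Topology Manifold Module
open scoped Manifold ContDiff

noncomputable section

namespace Pool.Agent.Helper60.LX

open scoped Matrix.Norms.L2Operator in
theorem specialLinear_dim (k : ℕ) : (specialLinear k).dim + 1 = (k + 2) ^ 2 :=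
  sl_dim (k + 2) (by omega)

open scoped Matrix.Norms.L2Operator in
theorem specialLinear_reductive (k : ℕ) : IsReductive (specialLinear k) :=
  sl_reductive (k + 2) (by omega)

open scoped Matrix.Norms.L2Operator in
theorem specialLinear_nonabelian (k : ℕ) : IsNonabelian (specialLinear k) :=
  sl_nonabelian (k + 2) (by omega)

open scoped Matrix.Norms.L2Operator in
theorem specialLinear_rank (k : ℕ) : HasRank (specialLinear k) (k + 1) := by
  obtain ⟨H, hH, h⟩ := sl_rank (k + 2) (by omega)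
  have h' : finrank ℝ H + 1 = (k + 1) + 1 := h
  exact ⟨H, hH, Nat.add_right_cancel h'⟩

open scoped Matrix.Norms.L2Operator in
theorem isSubmanifold_range (k m : ℕ) {f : EuclideanSpace ℝ (Fin m) → SLn (k + 2)}
    {g : SLn (k + 2) → EuclideanSpace ℝ (Fin m)}
    (hf : ContMDiff 𝓘(ℝ, EuclideanSpace ℝ (Fin m)) 𝓘(ℝ, slE (k + 2)) ∞ f)
    (hgf : ∀ x, g (f x) = x)
    (hg : ∀ x, ContMDiffAt 𝓘(ℝ, slE (k + 2)) 𝓘(ℝ, EuclideanSpace ℝ (Fin m)) ∞ g (f x)) :
    IsSubmanifold (specialLinear k) m (Set.range f) :=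
  ⟨EuclideanSpace ℝ (Fin m), inferInstance, inferInstance, inferInstance, f, ⟨0⟩,
    isSmoothEmbedding_of_leftInverse hf hgf hg, rfl⟩

open scoped Matrix.Norms.L2Operator in
theorem lieExponent_specialLinear_le (k : ℕ) (hk : 1 ≤ k) :
    lieExponent (specialLinear k) ≤ ((3 * ((k : ℝ) + 1) / k : ℝ) : EReal) := by
  apply sInf_le
  obtain ⟨f0, g0, hf0, hgf0, hg0, m0⟩ := exists_Up (k + 2) (by omega)
  obtain ⟨f1, g1, hf1, hgf1, hg1, m1⟩ := exists_Lo (k + 2)
  obtain ⟨f2, g2, hf2, hgf2, hg2, m2⟩ := exists_Or (k + 2)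
  have hd := specialLinear_dim k
  have hdR : ((specialLinear k).dim : ℝ) + 1 = ((k : ℝ) + 2) ^ 2 := by exact_mod_cast hd
  have hN : 2 * ((k + 2) * (k + 2 - 1) / 2) = (k + 2) * (k + 1) := by
    have h1 : k + 2 - 1 = k + 1 := by omega
    rw [h1]
    exact Nat.mul_div_cancel' (by
      have := Nat.even_mul_succ_self (k + 1)
      rw [mul_comm]
      exact this.two_dvd)
  have hNR : 2 * (((k + 2) * (k + 2 - 1) / 2 : ℕ) : ℝ) = ((k : ℝ) + 2) * (k + 1) := by
    exact_mod_cast hN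
  have hk0 : (0 : ℝ) < k := by exact_mod_cast hk
  have hden : denom (specialLinear k).dim (k + 1) ((k + 2) * (k + 2 - 1) / 2 + (k + 2 - 2))
      ((k + 2) * (k + 2 - 1) / 2) ((k + 2) * (k + 2 - 1) / 2) = (k : ℝ) / 3 := by
    have h2 : k + 2 - 2 = k := by omega
    unfold denom
    rw [h2]
    push_cast
    push_cast at hNR
    nlinarith
  refine ⟨k + 1, _, _, _, Set.range f0, Set.range f1, Set.range f2, specialLinear_rank k,
    isSubmanifold_range k _ hf0 hgf0 hg0, isSubmanifold_range k _ hf1 hgf1 hg1,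
    isSubmanifold_range k _ hf2 hgf2 hg2, ?_, ?_, ?_⟩
  · rintro s ⟨_, ⟨a, rfl⟩, _, ⟨a', rfl⟩, rfl⟩ t ⟨_, ⟨b, rfl⟩, _, ⟨b', rfl⟩, rfl⟩
      u ⟨_, ⟨c, rfl⟩, _, ⟨c', rfl⟩, rfl⟩ h
    exact sl_tpp (Up_div (m0 a) (m0 a')) (Lo_div (m1 b) (m1 b')) (Or_div (m2 c) (m2 c')) h
  · rw [hden]
    positivity
  · rw [hden]
    congr 1
    push_cast
    field_simp

end Pool.Agent.Helper60.LX
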