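import Mathlib

/-!
# Project LX: SL(n, ℝ) as a manifold modelled on the space of matrices of trace zero

The chart at g0 sends g (with trace (g0⁻¹ g) > 0) to (n / trace (g0⁻¹ g)) g0⁻¹ g - 1; its inverse
sends A (with det (1 + A) > 0) to g0 (1 + A) / det (1 + A)^(1/n).

PROOFS. SL_DET: det (c • X) = c^n det X, and (δ^(-1/n))^n = δ⁻¹ for δ = det (1 + A) > 0. CHART: sources and
targets are preimages of (0, ∞) under continuous maps. left_inv: h = g0⁻¹ g, t = trace h > 0, slProj of
(n/t) h is (n/t) h - 1 (its trace is n), so 1 + A = (n/t) h, det (1 + A) = (n/t)^n (det h = 1), its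
n-th root is n/t, so slBwd gives g0 h = g. right_inv: h = (1 + A)/δ', δ' = δ^(1/n), trace h = n/δ' > 0
(trace A = 0), (n / trace h) h - 1 = A. IS_MANIFOLD: isManifold_of_contDiffOn: the transition
slFwd g1 ∘ slBwd g0 is the composition of A ↦ δ(A)^(-1/n) (1 + A), smooth where det (1 + A) > 0 (det is a
polynomial: ContDiff for Matrix.det by Matrix.det_apply; Real.rpow with positive base), the linear map
X ↦ g1⁻¹ g0 X, and X ↦ slProj ((n / trace X) X), smooth where trace X ≠ 0. For smoothness of a map into the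
subspace slE n: compose with the continuous linear map slProj, or ContDiff for codRestrict.
Continuity of slFwd, slBwd: the same formulas; a map into SL(n, ℝ) is continuous iff its matrix is
(topology induced from matrices).
-/

open scoped Matrix.Norms.L2Operator ContDiff Topology Manifold
open Module Matrix

noncomputable section

namespace Pool.Agent.Helper60.LX

/-- Square matrices of size `n`. -/
abbrev Mt (n : ℕ) : Type := Matrix (Fin n) (Fin n) ℝ

/-- The group `SL(n, ℝ)`. -/
abbrev SLn (n : ℕ) : Type := Matrix.SpecialLinearGroup (Fin n) ℝ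

/-- The space of matrices of trace zero. -/
def slE (n : ℕ) : Submodule ℝ (Mt n) := LinearMap.ker (Matrix.traceLinearMap (Fin n) ℝ ℝ)

theorem mem_slE {n : ℕ} {X : Mt n} : X ∈ slE n ↔ X.trace = 0 := by
  simp [slE]

variable {n : ℕ} [NeZero n]

/-- The projection `X ↦ X - (trace X / n) 1` to the matrices of trace zero. -/
def slProj (n : ℕ) [NeZero n] : Mt n →ₗ[ℝ] slE n where
  toFun X := ⟨X - (X.trace / n) • (1 : Mt n), by
    rw [mem_slE, Matrix.trace_sub, Matrix.trace_smul, Matrix.trace_one, Fintype.card_fin,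
      smul_eq_mul, div_mul_cancel₀ _ (Nat.cast_ne_zero.2 (NeZero.ne n)), sub_self]⟩
  map_add' X Y := by
    apply Subtype.ext
    simp only [Matrix.trace_add, add_div, add_smul, Submodule.coe_add]
    abel
  map_smul' c X := by
    apply Subtype.ext
    simp only [Matrix.trace_smul, smul_eq_mul, mul_div_assoc, mul_smul, RingHom.id_apply,
      Submodule.coe_smul, smul_sub]

/-- The chart at `g0`. -/
def slFwd (g0 g : SLn n) : slE n :=
  slProj n (((n : ℝ) / ((g0⁻¹ * g : SLn n) : Mt n).trace) • ((g0⁻¹ * g : SLn n) : Mt n))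

theorem sl_det {A : Mt n} (h : 0 < (1 + A).det) :
    (((1 + A).det ^ (-(1 / (n : ℝ)))) • (1 + A)).det = 1 := by
  have hn : (n : ℝ) ≠ 0 := Nat.cast_ne_zero.2 (NeZero.ne n)
  rw [Matrix.det_smul, Fintype.card_fin, ← Real.rpow_natCast, ← Real.rpow_mul h.le, neg_mul,
    one_div, inv_mul_cancel₀ hn, Real.rpow_neg_one, inv_mul_cancel₀ h.ne']

open scoped Classical in
/-- The inverse of the chart at `1`. -/
def slExp (A : slE n) : SLn n :=
  if h : 0 < (1 + (A : Mt n)).det then
    ⟨((1 + (A : Mt n)).det ^ (-(1 / (n : ℝ)))) • (1 + (A : Mt n)), sl_det h⟩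
  else 1

private theorem n_ne : (n : ℝ) ≠ 0 := Nat.cast_ne_zero.2 (NeZero.ne n)

private theorem n_pos : (0 : ℝ) < n := Nat.cast_pos.2 (NeZero.pos n)

private theorem slExp_coe {A : slE n} (h : 0 < (1 + (A : Mt n)).det) :
    ((slExp A : SLn n) : Mt n) =
      ((1 + (A : Mt n)).det ^ (-(1 / (n : ℝ)))) • (1 + (A : Mt n)) := by
  have h1 : slExp A = (⟨((1 + (A : Mt n)).det ^ (-(1 / (n : ℝ)))) • (1 + (A : Mt n)),
      sl_det h⟩ : SLn n) := dif_pos h
  exact congrArg Subtype.val h1

omit [NeZero n] in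
private theorem trace_one_add (A : slE n) : (1 + (A : Mt n)).trace = n := by
  rw [Matrix.trace_add, mem_slE.1 A.2, Matrix.trace_one, Fintype.card_fin, add_zero]

private theorem slProj_coe (X : Mt n) (h : X.trace = n) :
    ((slProj n X : slE n) : Mt n) = X - 1 := by
  change X - (X.trace / n) • (1 : Mt n) = X - 1
  rw [h, div_self n_ne, one_smul]

omit [NeZero n] in
private theorem trace_norm {X : Mt n} (h : X.trace ≠ 0) :
    (((n : ℝ) / X.trace) • X).trace = n := by
  rw [Matrix.trace_smul, smul_eq_mul, div_mul_cancel₀ _ h]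

private theorem slFwd_coe {g0 g : SLn n} (h : ((g0⁻¹ * g : SLn n) : Mt n).trace ≠ 0) :
    ((slFwd g0 g : slE n) : Mt n) =
      ((n : ℝ) / ((g0⁻¹ * g : SLn n) : Mt n).trace) • ((g0⁻¹ * g : SLn n) : Mt n) - 1 :=
  slProj_coe _ (trace_norm h)

private theorem slProj_one_add (A : slE n) : slProj n (1 + (A : Mt n)) = A := by
  apply Subtype.ext
  rw [slProj_coe _ (trace_one_add A), add_sub_cancel_left]

private theorem det_fwd {g0 g : SLn n} (h : 0 < ((g0⁻¹ * g : SLn n) : Mt n).trace) :
    (1 + ((slFwd g0 g : slE n) : Mt n)).det =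
      ((n : ℝ) / ((g0⁻¹ * g : SLn n) : Mt n).trace) ^ n := by
  rw [slFwd_coe h.ne', add_sub_cancel, Matrix.det_smul, Fintype.card_fin,
    Matrix.SpecialLinearGroup.det_coe, mul_one]

/-- The transition maps in terms of the matrix `M = g1⁻¹ g0`. -/
private theorem slFwd_mul_slExp (g1 g0 : SLn n) {A : slE n} (h : 0 < (1 + (A : Mt n)).det) :
    slFwd g1 (g0 * slExp A) = slProj n
      (((n : ℝ) / (((g1⁻¹ * g0 : SLn n) : Mt n) * (1 + (A : Mt n))).trace) •
        (((g1⁻¹ * g0 : SLn n) : Mt n) * (1 + (A : Mt n)))) := by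
  have h1 : ((g1⁻¹ * (g0 * slExp A) : SLn n) : Mt n) =
      ((1 + (A : Mt n)).det ^ (-(1 / (n : ℝ)))) •
        (((g1⁻¹ * g0 : SLn n) : Mt n) * (1 + (A : Mt n))) := by
    rw [← mul_assoc, Matrix.SpecialLinearGroup.coe_mul, slExp_coe h, Matrix.mul_smul]
  have h2 : (1 + (A : Mt n)).det ^ (-(1 / (n : ℝ))) ≠ 0 := (Real.rpow_pos_of_pos h _).ne'
  unfold slFwd
  rw [h1, Matrix.trace_smul, smul_smul, smul_eq_mul]
  congr 2
  rw [mul_comm _ (trace _), ← div_div, div_mul_cancel₀ _ h2]

private theorem trace_mul_slExp {A : slE n} (M : SLn n) (h : 0 < (1 + (A : Mt n)).det) :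
    ((M * slExp A : SLn n) : Mt n).trace =
      (1 + (A : Mt n)).det ^ (-(1 / (n : ℝ))) * ((M : Mt n) * (1 + (A : Mt n))).trace := by
  rw [Matrix.SpecialLinearGroup.coe_mul, slExp_coe h, Matrix.mul_smul, Matrix.trace_smul,
    smul_eq_mul]

omit [NeZero n] in
private theorem continuous_coe : Continuous fun g : SLn n => (g : Mt n) :=
  continuous_subtype_val

omit [NeZero n] in
private theorem continuous_trace_mul (g0 : SLn n) :
    Continuous fun g : SLn n => ((g0⁻¹ * g : SLn n) : Mt n).trace :=
  (continuous_coe.comp (continuous_const.mul continuous_id)).matrix_trace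

omit [NeZero n] in
private theorem continuous_det_one_add :
    Continuous fun A : slE n => (1 + (A : Mt n)).det :=
  (continuous_const.add continuous_subtype_val).matrix_det

private theorem continuous_slProj : Continuous (slProj n) :=
  (slProj n).continuous_of_finiteDimensional

private theorem continuousOn_slExp :
    ContinuousOn (slExp : slE n → SLn n) {A | 0 < (1 + (A : Mt n)).det} := by
  have h0 : Topology.IsInducing fun g : SLn n => (g : Mt n) := Topology.IsInducing.subtypeVal
  rw [h0.continuousOn_iff]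
  have h1 : ContinuousOn (fun A : slE n =>
      ((1 + (A : Mt n)).det ^ (-(1 / (n : ℝ)))) • (1 + (A : Mt n)))
      {A | 0 < (1 + (A : Mt n)).det} := by
    have h2 : Continuous fun A : slE n => 1 + (A : Mt n) :=
      continuous_const.add continuous_subtype_val
    have h3 : ContinuousOn (fun A : slE n => (1 + (A : Mt n)).det ^ (-(1 / (n : ℝ))))
        {A | 0 < (1 + (A : Mt n)).det} :=
      continuous_det_one_add.continuousOn.rpow_const fun A hA => Or.inl (ne_of_gt hA)
    exact h3.smul h2.continuousOn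
  exact h1.congr fun A hA => slExp_coe hA

/-- The chart at `g0`. -/
def slChart (g0 : SLn n) : OpenPartialHomeomorph (SLn n) (slE n) where
  toFun := slFwd g0
  invFun := fun A => g0 * slExp A
  source := {g | 0 < ((g0⁻¹ * g : SLn n) : Mt n).trace}
  target := {A | 0 < (1 + (A : Mt n)).det}
  map_source' := by
    intro g hg
    change 0 < (1 + ((slFwd g0 g : slE n) : Mt n)).det
    rw [det_fwd hg]
    exact pow_pos (div_pos n_pos hg) _
  map_target' := by
    intro A hA
    change 0 < ((g0⁻¹ * (g0 * slExp A) : SLn n) : Mt n).trace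
    rw [inv_mul_cancel_left, slExp_coe hA, Matrix.trace_smul, trace_one_add, smul_eq_mul]
    exact mul_pos (Real.rpow_pos_of_pos hA _) n_pos
  left_inv' := by
    intro g hg
    have hg' : 0 < ((g0⁻¹ * g : SLn n) : Mt n).trace := hg
    have h1 : 0 < (1 + ((slFwd g0 g : slE n) : Mt n)).det := by
      rw [det_fwd hg]
      exact pow_pos (div_pos n_pos hg) _
    have h2 : slExp (slFwd g0 g) = g0⁻¹ * g := by
      apply Subtype.ext
      change ((slExp (slFwd g0 g) : SLn n) : Mt n) = ((g0⁻¹ * g : SLn n) : Mt n)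
      have h3 : 0 < (n : ℝ) / ((g0⁻¹ * g : SLn n) : Mt n).trace := div_pos n_pos hg'
      rw [slExp_coe h1, det_fwd hg, slFwd_coe hg'.ne', add_sub_cancel, smul_smul,
        ← Real.rpow_natCast, ← Real.rpow_mul h3.le, mul_neg, mul_one_div_cancel n_ne,
        Real.rpow_neg_one, inv_mul_cancel₀ h3.ne', one_smul]
    change g0 * slExp (slFwd g0 g) = g
    rw [h2, mul_inv_cancel_left]
  right_inv' := by
    intro A hA
    rw [slFwd_mul_slExp g0 g0 hA, inv_mul_cancel, Matrix.SpecialLinearGroup.coe_one, one_mul,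
      trace_one_add, div_self n_ne, one_smul, slProj_one_add]
  open_source := isOpen_lt continuous_const (continuous_trace_mul g0)
  open_target := isOpen_lt continuous_const continuous_det_one_add
  continuousOn_toFun := by
    have h1 : Continuous fun g : SLn n => ((g0⁻¹ * g : SLn n) : Mt n) :=
      continuous_coe.comp (continuous_const.mul continuous_id)
    have h2 : ContinuousOn (fun g : SLn n => (n : ℝ) / ((g0⁻¹ * g : SLn n) : Mt n).trace)
        {g | 0 < ((g0⁻¹ * g : SLn n) : Mt n).trace} :=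
      continuousOn_const.div (continuous_trace_mul g0).continuousOn fun g hg => ne_of_gt hg
    exact continuous_slProj.comp_continuousOn (h2.smul h1.continuousOn)
  continuousOn_invFun := continuousOn_const.mul continuousOn_slExp

theorem mem_slChart_source (g : SLn n) : g ∈ (slChart g).source := by
  change 0 < ((g⁻¹ * g : SLn n) : Mt n).trace
  rw [inv_mul_cancel, Matrix.SpecialLinearGroup.coe_one, Matrix.trace_one, Fintype.card_fin]
  exact n_pos (n := n)

instance slCharted : ChartedSpace (slE n) (SLn n) where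
  atlas := Set.range slChart
  chartAt := slChart
  mem_chart_source := mem_slChart_source
  chart_mem_atlas g := ⟨g, rfl⟩

private theorem contDiffOn_transition (M : Mt n) :
    ContDiffOn ℝ ∞ (fun A : slE n => slProj n
      (((n : ℝ) / (M * (1 + (A : Mt n))).trace) • (M * (1 + (A : Mt n)))))
      {A | 0 < (M * (1 + (A : Mt n))).trace} := by
  have h1 : ContDiff ℝ ∞ fun A : slE n => M * (1 + (A : Mt n)) :=
    contDiff_const.mul (contDiff_const.add (slE n).subtypeL.contDiff)
  have h2 : ContDiff ℝ ∞ fun A : slE n => (M * (1 + (A : Mt n))).trace :=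
    (LinearMap.toContinuousLinearMap (Matrix.traceLinearMap (Fin n) ℝ ℝ)).contDiff.comp h1
  have h3 : ContDiff ℝ ∞ fun X : Mt n => slProj n X :=
    (LinearMap.toContinuousLinearMap (slProj n)).contDiff
  refine h3.comp_contDiffOn ?_
  exact (contDiffOn_const.div h2.contDiffOn fun A hA => ne_of_gt hA).smul h1.contDiffOn

instance slManifold : IsManifold 𝓘(ℝ, slE n) ∞ (SLn n) := by
  refine isManifold_of_contDiffOn 𝓘(ℝ, slE n) ∞ (SLn n) ?_
  rintro _ _ ⟨g0, rfl⟩ ⟨g1, rfl⟩
  have h1 := contDiffOn_transition ((g1⁻¹ * g0 : SLn n) : Mt n)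
  have h2 : ∀ A : slE n, A ∈ ((slChart g0).symm ≫ₕ slChart g1).source →
      0 < (1 + (A : Mt n)).det ∧
        0 < (((g1⁻¹ * g0 : SLn n) : Mt n) * (1 + (A : Mt n))).trace := by
    intro A hA
    rw [OpenPartialHomeomorph.trans_source] at hA
    have hA1 : 0 < (1 + (A : Mt n)).det := hA.1
    have hA2 : 0 < ((g1⁻¹ * (g0 * slExp A) : SLn n) : Mt n).trace := hA.2
    rw [← mul_assoc, trace_mul_slExp _ hA1] at hA2
    exact ⟨hA1, (mul_pos_iff_of_pos_left (Real.rpow_pos_of_pos hA1 _)).1 hA2⟩
  refine (h1.mono (s := {A : slE n | 0 < (((g1⁻¹ * g0 : SLn n) : Mt n) *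
    (1 + (A : Mt n))).trace}) ?_).congr ?_
  · intro A hA
    exact (h2 A hA.1).2
  · intro A hA
    exact slFwd_mul_slExp g1 g0 (h2 A hA.1).1

end Pool.Agent.Helper60.LX
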