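import Pool.Agent.Helper60.LX.Point

/-!
# Project LX: algebra of one point of the leaf

`g = x 0 z`, `y = x i z`, `lam z ∘ Ad g = lam0 = lam z ∘ Ad y` on `h`. Ad g maps h into h, hence onto h
(finite dimension, Ad g is injective: Ad g⁻¹ ∘ Ad g = id); so Ad g⁻¹ maps h into h.

PROOFS. VAL_HH: u = Ad g⁻¹ ζ ∈ h; lam0 u = lam (Ad g u) = lam ζ = 0; for v ∈ h: lam0 (br u v) =
lam (Ad g (br u v)) = lam (br ζ (Ad g v)) = 0 (br u v ∈ h by hbr). AD_HH: k = g⁻¹ * y; Ad k w =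
Ad g⁻¹ (Ad y w) ∈ h; lam0 (Ad k w) = lam (Ad y w) = lam0 w on h; Ad k : h → h is onto, so for
u ∈ hh, v = Ad k v' ∈ h: lam0 (br (Ad k u) (Ad k v')) = lam0 (Ad k (br u v')) = lam0 (br u v') = 0.
-/

open scoped ContDiff Topology
open Module

noncomputable section

namespace Pool.Agent.Helper60.LX

variable {G : Type} [Group G] {E : Type} [NormedAddCommGroup E] [NormedSpace ℝ E]
  {C : Calc G E} {h : Submodule ℝ E}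

private theorem Ad_inv_Ad (C : Calc G E) (g : G) (w : E) : C.Ad g⁻¹ (C.Ad g w) = w := by
  have h1 := C.Ad_mul g⁻¹ g
  rw [inv_mul_cancel, C.Ad_one] at h1
  exact (congrArg (fun f : E →L[ℝ] E => f w) h1).symm

private theorem Ad_Ad_inv (C : Calc G E) (g : G) (w : E) : C.Ad g (C.Ad g⁻¹ w) = w := by
  have h1 := C.Ad_mul g g⁻¹
  rw [mul_inv_cancel, C.Ad_one] at h1
  exact (congrArg (fun f : E →L[ℝ] E => f w) h1).symm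

theorem hh_br (hbr : ∀ u ∈ h, ∀ v ∈ h, C.br u v ∈ h) (lam0 : E →L[ℝ] ℝ) :
    ∀ u ∈ hh C.br h lam0, ∀ v ∈ hh C.br h lam0, C.br u v ∈ hh C.br h lam0 := by
  intro u hu v hv
  refine ⟨hbr u hu.1 v hv.1, hu.2.2 v hv.1, fun w hw => ?_⟩
  rw [C.jacobi, map_sub, hu.2.2 _ (hbr v hv.1 w hw), hv.2.2 _ (hbr u hu.1 w hw), sub_zero]

theorem Ad_inv_mem [FiniteDimensional ℝ E] {g : G} (hg : ∀ w ∈ h, C.Ad g w ∈ h) {w : E}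
    (hw : w ∈ h) : C.Ad g⁻¹ w ∈ h := by
  let f : h →ₗ[ℝ] h := LinearMap.restrict (C.Ad g : E →ₗ[ℝ] E) hg
  have hinj : Function.Injective f := by
    intro a b hab
    have h1 : C.Ad g (a : E) = C.Ad g (b : E) := congrArg Subtype.val hab
    have h2 := congrArg (C.Ad g⁻¹) h1
    rw [Ad_inv_Ad, Ad_inv_Ad] at h2
    exact Subtype.ext h2
  obtain ⟨v, hv⟩ := LinearMap.surjective_of_injective hinj ⟨w, hw⟩
  have h1 : C.Ad g (v : E) = w := congrArg Subtype.val hv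
  rw [← h1, Ad_inv_Ad]
  exact v.2

theorem val_hh [FiniteDimensional ℝ E] (hbr : ∀ u ∈ h, ∀ v ∈ h, C.br u v ∈ h) {g : G}
    (hg : ∀ w ∈ h, C.Ad g w ∈ h) {lam lam0 : E →L[ℝ] ℝ} (hl : ∀ w ∈ h, lam (C.Ad g w) = lam0 w)
    {ζ : E} (h1 : ζ ∈ h) (h2 : lam ζ = 0) (h3 : ∀ w ∈ h, lam (C.br ζ w) = 0) :
    C.Ad g⁻¹ ζ ∈ hh C.br h lam0 := by
  have hu : C.Ad g⁻¹ ζ ∈ h := Ad_inv_mem hg h1
  refine ⟨hu, ?_, fun v hv => ?_⟩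
  · rw [← hl _ hu, Ad_Ad_inv, h2]
  · rw [← hl _ (hbr _ hu v hv), C.Ad_br, Ad_Ad_inv]
    exact h3 _ (hg v hv)

theorem ad_hh [FiniteDimensional ℝ E] (hbr : ∀ u ∈ h, ∀ v ∈ h, C.br u v ∈ h) {g y : G}
    (hg : ∀ w ∈ h, C.Ad g w ∈ h) (hy : ∀ w ∈ h, C.Ad y w ∈ h) {lam lam0 : E →L[ℝ] ℝ}
    (hl : ∀ w ∈ h, lam (C.Ad g w) = lam0 w) (hl' : ∀ w ∈ h, lam (C.Ad y w) = lam0 w)
    {w : E} (hw : w ∈ hh C.br h lam0) : C.Ad (g⁻¹ * y) w ∈ hh C.br h lam0 := by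
  have hk : ∀ v ∈ h, C.Ad (g⁻¹ * y) v ∈ h ∧ lam0 (C.Ad (g⁻¹ * y) v) = lam0 v := by
    intro v hv
    have e : C.Ad (g⁻¹ * y) v = C.Ad g⁻¹ (C.Ad y v) := by rw [C.Ad_mul]; rfl
    have hm : C.Ad g⁻¹ (C.Ad y v) ∈ h := Ad_inv_mem hg (hy v hv)
    refine ⟨by rw [e]; exact hm, ?_⟩
    rw [e, ← hl _ hm, Ad_Ad_inv, hl' v hv]
  refine ⟨(hk w hw.1).1, by rw [(hk w hw.1).2]; exact hw.2.1, fun v hv => ?_⟩
  have hv' : C.Ad (g⁻¹ * y)⁻¹ v ∈ h := Ad_inv_mem (fun u hu => (hk u hu).1) hv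
  have e : v = C.Ad (g⁻¹ * y) (C.Ad (g⁻¹ * y)⁻¹ v) := (Ad_Ad_inv C _ v).symm
  rw [e, ← C.Ad_br, (hk _ (hbr w hw.1 _ hv')).2]
  exact hw.2.2 _ hv'

end Pool.Agent.Helper60.LX
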