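import Pool.Agent.Helper60.LX.StepAlg
import Pool.Agent.Helper60.LX.ConstRank

/-!
# Project LX: the leaf

PROOF OF LEAF. Let ν : F → (Fin 3 → h →L ℝ), ν p i = (lam p ∘ Ad (x i p)) restricted to h, smooth at the
points of U (lsm, C.ad_smooth, compositions; contDiffAt_pi). Its derivative at p ∈ U (product rule,
C.ad_deriv): fderiv ν p X i w = fderiv lam p X (Ad (x i p) w) + lam p (br (dl (x i) p X) (Ad (x i p) w)) =
dn i p X (Ad (x i p) w), w ∈ h. Ad (x i p) maps h ONTO h (it maps h into h by S.ad and has the inverse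
Ad (x i p)⁻¹, finite dimension; or Ad_inv_mem), so ker (fderiv ν p) = ker (dnAll p). So
CONST_RANK_FIBER applies (n = ∞) with K = ker (fderiv ν p₀): V, γ. For q ∈ V, z = γ q ∈ U, ν z = ν p₀ says
lam z (Ad (x i z) w) = lam p₀ (Ad 1 w) = lam p₀ w. And ν ∘ γ is constant on the open set V, so
fderiv ν z (fderiv γ q v) = 0, i.e. dnAll z (fderiv γ q v) = 0.
-/

open scoped ContDiff Topology
open Module

noncomputable section

namespace Pool.Agent.Helper60.LX

variable {G : Type} [Group G] {E : Type} [NormedAddCommGroup E] [NormedSpace ℝ E]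
  {C : Calc G E} {h : Submodule ℝ E}
  {L : Type} [NormedAddCommGroup L] [NormedSpace ℝ L]

private theorem Ad_Ad_inv (C : Calc G E) (g : G) (w : E) : C.Ad g (C.Ad g⁻¹ w) = w := by
  have h1 := C.Ad_mul g g⁻¹
  rw [mul_inv_cancel, C.Ad_one] at h1
  exact (congrArg (fun f : E →L[ℝ] E => f w) h1).symm

/-- the map whose fibre is the leaf -/
private def nu {F : Type} [NormedAddCommGroup F] [NormedSpace ℝ F] (S : Sys C h F L) (p : F) :
    Fin 3 → (h →L[ℝ] ℝ) :=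
  fun i => ((S.lam p).comp (C.Ad (S.x i p))).comp h.subtypeL

private theorem nu_apply {F : Type} [NormedAddCommGroup F] [NormedSpace ℝ F] (S : Sys C h F L)
    (p : F) (i : Fin 3) (w : h) : nu S p i w = S.lam p (C.Ad (S.x i p) w) := rfl

private theorem nu_smooth {F : Type} [NormedAddCommGroup F] [NormedSpace ℝ F] (S : Sys C h F L)
    {p : F} (hp : p ∈ S.U) : ContDiffAt ℝ ∞ (nu S) p := by
  refine contDiffAt_pi.2 (fun i => ?_)
  exact ((S.lsm p hp).clm_comp (C.ad_smooth (S.sm i p hp))).clm_comp contDiffAt_const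

private theorem ev_deriv {F W : Type} [NormedAddCommGroup F] [NormedSpace ℝ F]
    [NormedAddCommGroup W] [NormedSpace ℝ W] {ν : F → W} {p : F} (h1 : DifferentiableAt ℝ ν p)
    (ev : W →L[ℝ] ℝ) {g : F → ℝ} {g' : F →L[ℝ] ℝ} (hg : HasFDerivAt g g' p)
    (he : ∀ q, ev (ν q) = g q) (X : F) : ev (fderiv ℝ ν p X) = g' X := by
  have h3 : HasFDerivAt (fun q => ev (ν q)) (ev.comp (fderiv ℝ ν p)) p :=
    ev.hasFDerivAt.comp p h1.hasFDerivAt
  have e0 : (fun q => ev (ν q)) = g := funext he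
  rw [e0] at h3
  exact DFunLike.congr_fun (h3.unique hg) X

private theorem nu_deriv {F : Type} [NormedAddCommGroup F] [NormedSpace ℝ F] (S : Sys C h F L)
    {p : F} (hp : p ∈ S.U) (X : F) (i : Fin 3) (w : h) :
    fderiv ℝ (nu S) p X i w = S.dn i p X ⟨C.Ad (S.x i p) w, S.ad i p hp w w.2⟩ := by
  have h4 : HasFDerivAt S.lam (fderiv ℝ S.lam p) p :=
    ((S.lsm p hp).differentiableAt (by simp)).hasFDerivAt
  have h5 : HasFDerivAt (fun q => C.Ad (S.x i q)) (fderiv ℝ (fun q => C.Ad (S.x i q)) p) p :=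
    ((C.ad_smooth (S.sm i p hp)).differentiableAt (by simp)).hasFDerivAt
  have h6 : HasFDerivAt (fun q => C.Ad (S.x i q) (w : E))
      ((fderiv ℝ (fun q => C.Ad (S.x i q)) p).flip (w : E)) p := by
    have := h5.clm_apply (hasFDerivAt_const (w : E) p)
    simpa using this
  have h7 : HasFDerivAt (fun q => S.lam q (C.Ad (S.x i q) (w : E)))
      ((S.lam p).comp ((fderiv ℝ (fun q => C.Ad (S.x i q)) p).flip (w : E)) +
        (fderiv ℝ S.lam p).flip (C.Ad (S.x i p) (w : E))) p := h4.clm_apply h6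
  have h8 := ev_deriv (W := Fin 3 → (h →L[ℝ] ℝ)) (ν := nu S)
    ((nu_smooth S hp).differentiableAt (by simp))
    ((ContinuousLinearMap.apply ℝ ℝ w).comp (ContinuousLinearMap.proj i)) h7
    (fun q => rfl) X
  have h9 : fderiv ℝ (nu S) p X i w = S.lam p (fderiv ℝ (fun q => C.Ad (S.x i q)) p X w) +
      fderiv ℝ S.lam p X (C.Ad (S.x i p) w) := h8
  rw [h9, C.ad_deriv (S.sm i p hp) X w, S.dn_apply]
  exact add_comm _ _

private theorem nu_ker [FiniteDimensional ℝ E] {F : Type} [NormedAddCommGroup F]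
    [NormedSpace ℝ F] (S : Sys C h F L) {p : F} (hp : p ∈ S.U) :
    LinearMap.ker (fderiv ℝ (nu S) p : F →ₗ[ℝ] (Fin 3 → (h →L[ℝ] ℝ))) =
      LinearMap.ker (S.dnAll p : F →ₗ[ℝ] (Fin 3 → (h →L[ℝ] ℝ))) := by
  ext X
  rw [LinearMap.mem_ker, LinearMap.mem_ker]
  constructor
  · intro hX
    have hX' : fderiv ℝ (nu S) p X = 0 := hX
    have goal : S.dnAll p X = 0 := by
      funext i
      have goal' : S.dn i p X = 0 := by
        ext w
        have hw : C.Ad (S.x i p)⁻¹ (w : E) ∈ h := Ad_inv_mem (S.ad i p hp) w.2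
        have h1 := nu_deriv S hp X i ⟨_, hw⟩
        rw [hX'] at h1
        have e : (⟨C.Ad (S.x i p) (C.Ad (S.x i p)⁻¹ (w : E)), S.ad i p hp _ hw⟩ : h) = w :=
          Subtype.ext (Ad_Ad_inv C _ _)
        have h2 : (0 : ℝ) = S.dn i p X
          ⟨C.Ad (S.x i p) (C.Ad (S.x i p)⁻¹ (w : E)), S.ad i p hp _ hw⟩ := h1
        rw [e] at h2
        exact h2.symm
      exact goal'
    exact goal
  · intro hX
    have hX' : S.dnAll p X = 0 := hX
    have goal : fderiv ℝ (nu S) p X = 0 := by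
      funext i
      ext w
      rw [nu_deriv S hp X i w]
      have h1 : S.dn i p X = 0 := congrFun hX' i
      rw [h1]
      rfl
    exact goal

theorem leaf [FiniteDimensional ℝ E]
    {F : Type} [NormedAddCommGroup F] [NormedSpace ℝ F] [FiniteDimensional ℝ F]
    (S : Sys C h F L) {p₀ : F} (hp : p₀ ∈ S.U) (h1 : ∀ i, S.x i p₀ = 1)
    (hc : ∀ p ∈ S.U, finrank ℝ (LinearMap.ker (S.dnAll p : F →ₗ[ℝ] (Fin 3 → (h →L[ℝ] ℝ)))) =
      finrank ℝ (LinearMap.ker (S.dnAll p₀ : F →ₗ[ℝ] (Fin 3 → (h →L[ℝ] ℝ))))) :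
    ∃ (K : Submodule ℝ F) (V : Set K) (γ : K → F),
      finrank ℝ K = finrank ℝ (LinearMap.ker (S.dnAll p₀ : F →ₗ[ℝ] (Fin 3 → (h →L[ℝ] ℝ)))) ∧
      IsOpen V ∧ 0 ∈ V ∧ γ 0 = p₀ ∧
      ∀ q ∈ V, ContDiffAt ℝ ∞ γ q ∧ γ q ∈ S.U ∧ Function.Injective (fderiv ℝ γ q) ∧
        (∀ i, ∀ w ∈ h, S.lam (γ q) (C.Ad (S.x i (γ q)) w) = S.lam p₀ w) ∧
        ∀ v, S.dnAll (γ q) (fderiv ℝ γ q v) = 0 := by
  obtain ⟨V, γ, hV, h0, hγ0, hq, -⟩ := const_rank_fiber (n := ∞) (Or.inr rfl) S.isOpen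
    (ν := nu S) (fun p hp => nu_smooth S hp) hp (fun p hp' => by
      rw [nu_ker S hp', nu_ker S hp]
      exact hc p hp')
  refine ⟨_, V, γ, by rw [nu_ker S hp], hV, h0, hγ0, ?_⟩
  intro q hqV
  obtain ⟨h2, h3, h4, h5⟩ := hq q hqV
  refine ⟨h2, h3, h5, ?_, ?_⟩
  · intro i w hw
    have h6 : nu S (γ q) i ⟨w, hw⟩ = nu S p₀ i ⟨w, hw⟩ := by rw [h4]
    rw [nu_apply, nu_apply, h1 i, C.Ad_one] at h6
    exact h6
  · intro v
    have h6 : HasFDerivAt (fun q => nu S (γ q)) ((fderiv ℝ (nu S) (γ q)).comp (fderiv ℝ γ q)) q :=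
      (((nu_smooth S h3).differentiableAt (by simp)).hasFDerivAt).comp q
        (h2.differentiableAt (by simp)).hasFDerivAt
    have h7 : HasFDerivAt (fun q => nu S (γ q)) (0 : _ →L[ℝ] _) q := by
      refine (hasFDerivAt_const (nu S p₀) q).congr_of_eventuallyEq ?_
      filter_upwards [hV.mem_nhds hqV] with q' hq'
      exact (hq q' hq').2.2.1
    have h8 := DFunLike.congr_fun (h6.unique h7) v
    have h9 : fderiv ℝ (nu S) (γ q) (fderiv ℝ γ q v) = 0 := h8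
    have h10 : fderiv ℝ γ q v ∈
        LinearMap.ker (fderiv ℝ (nu S) (γ q) : F →ₗ[ℝ] (Fin 3 → (h →L[ℝ] ℝ))) := h9
    rw [nu_ker S h3] at h10
    exact h10

end Pool.Agent.Helper60.LX
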