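import Pool.Agent.Helper60.LX.StepNu

/-!
# Project LX: the system on the leaf

PROOF OF STEP. Take K, V, γ from LEAF. Write z = γ q, X' = fderiv γ q v, η X = fderiv lam z X,
ζ i X = dl (x i) z X, lam0 = lam p₀. NEW SYSTEM over h'' = hh br h lam0: let X_j ∈ F, j < r = the rank of
resL h'' (fderiv lam p₀), with resL h'' (fderiv lam p₀) X_j linearly independent. Domain
K × (Fin r → ℝ), U'' = V' × univ, V' ⊆ V the open set of the q such that the r forms
fderiv lam (γ q) X_j ∘ Ad (x 0 (γ q)) restricted to h'' are linearly independent (contains 0;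
openness: independence is an open condition in finite dimension and the family is continuous).
  x'' i (q, t) = (x 0 (γ q))⁻¹ * x i (γ q), m'' i (q, t) = m i (γ q),
  lam'' (q, t) = ∑ j, t j • (fderiv lam (γ q) X_j).comp (Ad (x 0 (γ q))).
sm, msm, lsm: compositions (fderiv lam is smooth at points of U: ContDiffAt.fderiv_right).
tpp: the product for x'' at (q, q', q'') is (x 0 q)⁻¹ P (x 0 q) where P is the product for x (x'' 0 = 1).
dl (x'' i) (q, t) (v, τ) = Ad (x 0 z)⁻¹ (ζ i X' - ζ 0 X') (dl_mul, dl_comp; 0 = dl (x⁻¹ * x) gives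
dl x⁻¹ = - Ad x⁻¹ dl x). val: VAL_HH with ζ = ζ i X' - ζ 0 X': lam ζ = 0 by perp; lam (br ζ w) = 0
because dn i z X' w = 0 = dn 0 z X' w. ad: AD_HH. perp: lam'' (dl (x'' i)) = ∑ t j η X_j (ζ i X' - ζ 0 X')
= 0 by ETA_PERP; and dl (x'' 0) = 0. imm: if fderiv (m'' i) (q,t) (v,τ) = fderiv (m i) z X' = 0 for all i
then ζ i X' = 0 by imm of S, and dn i z X' = 0 says η X' = 0 on h, so X' = 0, v = 0 (fderiv γ q injective).
Then dl (x'' i) (v, τ) = 0, and fderiv lam'' (q,t) (0, τ) = ∑ τ j (η X_j) ∘ Ad (x 0 z), which is zero on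
h'' only for τ = 0. finrank (K × (Fin r → ℝ)) = finrank K + r. Apply IH.
-/

open scoped ContDiff Topology
open Module

noncomputable section

namespace Pool.Agent.Helper60.LX

variable {G : Type} [Group G] {E : Type} [NormedAddCommGroup E] [NormedSpace ℝ E]
  {C : Calc G E} {h : Submodule ℝ E}
  {L : Type} [NormedAddCommGroup L] [NormedSpace ℝ L]

private theorem Ad_inv_Ad' (C : Calc G E) (g : G) (w : E) : C.Ad g (C.Ad g⁻¹ w) = w := by
  have h1 := C.Ad_mul g g⁻¹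
  rw [mul_inv_cancel, C.Ad_one] at h1
  exact (congrArg (fun f : E →L[ℝ] E => f w) h1).symm

/-- the logarithmic derivative of `u⁻¹ * v` -/
private theorem dl_inv_mul {F' : Type} [NormedAddCommGroup F'] [NormedSpace ℝ F'] {u v : F' → G}
    {p : F'} (hu : C.Sm u p) (hv : C.Sm v p) (w : F') :
    C.dl (fun q => (u q)⁻¹ * v q) p w = C.Ad (u p)⁻¹ (C.dl v p w - C.dl u p w) := by
  have hi := C.sm_inv hu
  have h1 := C.dl_mul hi hu
  have e : (fun q => (u q)⁻¹ * u q) = fun _ => (1 : G) := by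
    funext q
    exact inv_mul_cancel _
  rw [e, C.dl_const] at h1
  have h2 := C.dl_mul hi hv
  have h3 : C.dl (fun q => (u q)⁻¹) p w = -(C.Ad (u p)⁻¹ (C.dl u p w)) := by
    have h4 := congrArg (fun f : F' →L[ℝ] E => f w) h1
    simp only [ContinuousLinearMap.zero_apply, ContinuousLinearMap.add_apply,
      ContinuousLinearMap.comp_apply] at h4
    exact eq_neg_of_add_eq_zero_left h4.symm
  rw [h2, ContinuousLinearMap.add_apply, ContinuousLinearMap.comp_apply, h3, map_sub]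
  abel

/-- the linear forms of the new family -/
private def fam {F : Type} [NormedAddCommGroup F] [NormedSpace ℝ F] (S : Sys C h F L) (X : F) (z : F) : E →L[ℝ] ℝ :=
  (fderiv ℝ S.lam z X).comp (C.Ad (S.x 0 z))

private theorem fam_smooth {F : Type} [NormedAddCommGroup F] [NormedSpace ℝ F] (S : Sys C h F L) (X : F) {z : F} (hz : z ∈ S.U) :
    ContDiffAt ℝ ∞ (fam S X) z := by
  unfold fam
  have h1 : ContDiffAt ℝ ∞ (fun z => fderiv ℝ S.lam z X) z :=
    ((S.lsm z hz).fderiv_right (by simp)).clm_apply contDiffAt_const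
  exact h1.clm_comp (C.ad_smooth (S.sm 0 z hz))

private theorem exists_indep {F' W' : Type} [AddCommGroup F'] [Module ℝ F'] [AddCommGroup W']
    [Module ℝ W'] [FiniteDimensional ℝ F'] (R : F' →ₗ[ℝ] W') :
    ∃ X : Fin (finrank ℝ (LinearMap.range R)) → F', LinearIndependent ℝ (fun j => R (X j)) := by
  let b := Module.finBasis ℝ (LinearMap.range R)
  have hb : ∀ j, ∃ Y : F', R Y = (b j : W') := fun j => (b j).2
  choose X hX using hb
  refine ⟨X, ?_⟩
  have e : (fun j => R (X j)) = fun j => ((LinearMap.range R).subtype (b j)) := by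
    funext j
    exact hX j
  rw [e]
  exact b.linearIndependent.map' _ (Submodule.ker_subtype _)

theorem step [FiniteDimensional ℝ E] (hbr : ∀ u ∈ h, ∀ v ∈ h, C.br u v ∈ h)
    {F : Type} [NormedAddCommGroup F] [NormedSpace ℝ F] [FiniteDimensional ℝ F]
    (S : Sys C h F L) {p₀ : F} (hp : p₀ ∈ S.U) (h1 : ∀ i, S.x i p₀ = 1)
    (hc : ∀ p ∈ S.U, finrank ℝ (LinearMap.ker (S.dnAll p : F →ₗ[ℝ] (Fin 3 → (h →L[ℝ] ℝ)))) =
      finrank ℝ (LinearMap.ker (S.dnAll p₀ : F →ₗ[ℝ] (Fin 3 → (h →L[ℝ] ℝ)))))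
    {N : ℕ} (IH : ∀ (F'' : Type) [NormedAddCommGroup F''] [NormedSpace ℝ F'']
      [FiniteDimensional ℝ F''], Sys C (hh C.br h (S.lam p₀)) F'' L → 2 * finrank ℝ F'' ≤ N) :
    2 * (finrank ℝ (LinearMap.ker (S.dnAll p₀ : F →ₗ[ℝ] (Fin 3 → (h →L[ℝ] ℝ)))) +
      finrank ℝ (LinearMap.range (resL (hh C.br h (S.lam p₀)) (fderiv ℝ S.lam p₀) :
        F →ₗ[ℝ] (hh C.br h (S.lam p₀) →L[ℝ] ℝ)))) ≤ N := by
  classical
  obtain ⟨K, V, γ, hK, hVo, hV0, hγ0, hV⟩ := leaf S hp h1 hc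
  set k := hh C.br h (S.lam p₀) with hk
  set R : F →ₗ[ℝ] (k →L[ℝ] ℝ) := (resL k (fderiv ℝ S.lam p₀) : F →ₗ[ℝ] (k →L[ℝ] ℝ)) with hR
  set r := finrank ℝ (LinearMap.range R) with hr
  -- the vectors
  obtain ⟨X, hX⟩ : ∃ X : Fin r → F, LinearIndependent ℝ (fun j => R (X j)) := exists_indep R
  -- the open set
  set W : Set K := {q | q ∈ V ∧ LinearIndependent ℝ
    (fun j : Fin r => (fam S (X j) (γ q)).comp k.subtypeL)} with hW
  have hW0 : (0 : K) ∈ W := by
    refine ⟨hV0, ?_⟩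
    have e : (fun j : Fin r => (fam S (X j) (γ 0)).comp k.subtypeL) = fun j => R (X j) := by
      funext j
      ext w
      unfold fam
      rw [hγ0, h1, C.Ad_one]
      rfl
    rw [e]
    exact hX
  have hWo : IsOpen W := by
    rw [isOpen_iff_mem_nhds]
    rintro q ⟨hq, hq'⟩
    obtain ⟨g1, g2, -⟩ := hV q hq
    have hcont : ContinuousAt (fun q : K => fun j : Fin r =>
        (fam S (X j) (γ q)).comp k.subtypeL) q := by
      rw [continuousAt_pi]
      intro j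
      have c1 : ContinuousAt (fun q : K => fam S (X j) (γ q)) q :=
        ((fam_smooth S (X j) g2).continuousAt).comp g1.continuousAt
      exact c1.clm_comp continuousAt_const
    have h2 := hcont.preimage_mem_nhds
      ((isOpen_setOf_linearIndependent (𝕜 := ℝ) (E := k →L[ℝ] ℝ) (ι := Fin r)).mem_nhds hq')
    filter_upwards [hVo.mem_nhds hq, h2] with q' a1 a2
    exact ⟨a1, a2⟩
  -- facts at a point of `W`
  have hγs : ∀ y : K × (Fin r → ℝ), y.1 ∈ W → ContDiffAt ℝ ∞ (fun y : K × (Fin r → ℝ) => γ y.1) y :=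
    fun y hy => ContDiffAt.comp y (hV y.1 hy.1).1 contDiffAt_fst
  have hγd : ∀ y : K × (Fin r → ℝ), y.1 ∈ W → ∀ w : K × (Fin r → ℝ),
      fderiv ℝ (fun y : K × (Fin r → ℝ) => γ y.1) y w = fderiv ℝ γ y.1 w.1 := by
    intro y hy w
    have g := ((hV y.1 hy.1).1.differentiableAt (by simp)).hasFDerivAt
    have g2 := g.comp y (hasFDerivAt_fst (𝕜 := ℝ) (E := K) (F := Fin r → ℝ) (p := y))
    have e : fderiv ℝ (fun y : K × (Fin r → ℝ) => γ y.1) y =
        (fderiv ℝ γ y.1).comp (ContinuousLinearMap.fst ℝ K (Fin r → ℝ)) := g2.fderiv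
    rw [e]
    rfl
  have hsm : ∀ i, ∀ y : K × (Fin r → ℝ), y.1 ∈ W →
      C.Sm (fun y : K × (Fin r → ℝ) => S.x i (γ y.1)) y := fun i y hy =>
    C.sm_comp (S.sm i _ (hV y.1 hy.1).2.1) (hγs y hy)
  have hdl : ∀ i, ∀ y : K × (Fin r → ℝ), y.1 ∈ W → ∀ w : K × (Fin r → ℝ),
      C.dl (fun y : K × (Fin r → ℝ) => (S.x 0 (γ y.1))⁻¹ * S.x i (γ y.1)) y w =
        C.Ad (S.x 0 (γ y.1))⁻¹ (C.dl (S.x i) (γ y.1) (fderiv ℝ γ y.1 w.1) -
          C.dl (S.x 0) (γ y.1) (fderiv ℝ γ y.1 w.1)) := by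
    intro i y hy w
    rw [dl_inv_mul (hsm 0 y hy) (hsm i y hy) w]
    have e : ∀ i, C.dl (fun y : K × (Fin r → ℝ) => S.x i (γ y.1)) y w =
        C.dl (S.x i) (γ y.1) (fderiv ℝ γ y.1 w.1) := by
      intro i
      rw [C.dl_comp (x := S.x i) (f := fun y : K × (Fin r → ℝ) => γ y.1) (p := y)
        (S.sm i _ (hV y.1 hy.1).2.1) (hγs y hy), ContinuousLinearMap.comp_apply, hγd y hy w]
    rw [e, e]
  have hdn : ∀ i, ∀ q ∈ W, ∀ v : K, ∀ w ∈ h,
      fderiv ℝ S.lam (γ q) (fderiv ℝ γ q v) w +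
        S.lam (γ q) (C.br (C.dl (S.x i) (γ q) (fderiv ℝ γ q v)) w) = 0 := by
    intro i q hq v w hw
    have g1 := (hV q hq.1).2.2.2.2 v
    have g2 : S.dn i (γ q) (fderiv ℝ γ q v) = 0 := congrFun g1 i
    have g3 := S.dn_apply i (γ q) (fderiv ℝ γ q v) ⟨w, hw⟩
    rw [g2] at g3
    exact g3.symm
  have hlamz : ∀ j : Fin r, ∀ i, ∀ q ∈ W, ∀ v : K,
      fderiv ℝ S.lam (γ q) (X j) (C.dl (S.x i) (γ q) (fderiv ℝ γ q v)) =
        fderiv ℝ S.lam (γ q) (X j) (C.dl (S.x 0) (γ q) (fderiv ℝ γ q v)) := fun j i q hq v =>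
    eta_perp S (hV q hq.1).2.1 i (X j) _ ((hV q hq.1).2.2.2.2 v)
  -- the new family of linear forms
  set lam' : K × (Fin r → ℝ) → E →L[ℝ] ℝ := fun y => ∑ j, y.2 j • fam S (X j) (γ y.1) with hlam'
  have hlsm : ∀ y : K × (Fin r → ℝ), y.1 ∈ W → ContDiffAt ℝ ∞ lam' y := by
    intro y hy
    apply ContDiffAt.sum
    intro j _
    have a1 : ContDiffAt ℝ ∞ (fun y : K × (Fin r → ℝ) => y.2 j) y :=
      ((contDiff_apply ℝ ℝ j).comp contDiff_snd).contDiffAt
    have a2 : ContDiffAt ℝ ∞ (fun y : K × (Fin r → ℝ) => fam S (X j) (γ y.1)) y :=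
      ContDiffAt.comp y (fam_smooth S (X j) (hV y.1 hy.1).2.1) (hγs y hy)
    exact a1.smul a2
  have hlamd : ∀ y : K × (Fin r → ℝ), y.1 ∈ W → ∀ τ : Fin r → ℝ,
      fderiv ℝ lam' y (0, τ) = ∑ j, τ j • fam S (X j) (γ y.1) := by
    intro y hy τ
    have a1 : HasFDerivAt lam' (fderiv ℝ lam' y) (y.1, y.2) :=
      ((hlsm y hy).differentiableAt (by simp)).hasFDerivAt
    have a2 := a1.comp y.2 (hasFDerivAt_prodMk_right (𝕜 := ℝ) y.1 y.2)
    let T : (Fin r → ℝ) →L[ℝ] (E →L[ℝ] ℝ) :=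
      ∑ j, (ContinuousLinearMap.proj (R := ℝ) (φ := fun _ : Fin r => ℝ) j).smulRight
        (fam S (X j) (γ y.1))
    have a3 : (lam' ∘ fun t => (y.1, t)) = fun t => T t := by
      funext t
      simp only [hlam', T, Function.comp_apply, sum_apply,
        ContinuousLinearMap.smulRight_apply, ContinuousLinearMap.proj_apply]
    rw [a3] at a2
    have a4 := a2.unique T.hasFDerivAt
    have a5 := congrArg (fun f : (Fin r → ℝ) →L[ℝ] (E →L[ℝ] ℝ) => f τ) a4
    simp only [ContinuousLinearMap.comp_apply, ContinuousLinearMap.inr_apply] at a5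
    rw [a5]
    simp only [T, sum_apply,
      ContinuousLinearMap.smulRight_apply, ContinuousLinearMap.proj_apply]
  have hfin : 2 * finrank ℝ (K × (Fin r → ℝ)) ≤ N := by
    refine IH (K × (Fin r → ℝ))
      { U := {y | y.1 ∈ W}
        isOpen := hWo.preimage continuous_fst
        nonempty := ⟨(0, 0), hW0⟩
        x := fun i y => (S.x 0 (γ y.1))⁻¹ * S.x i (γ y.1)
        m := fun i y => S.m i (γ y.1)
        lam := lam'
        sm := fun i y hy => C.sm_mul (C.sm_inv (hsm 0 y hy)) (hsm i y hy)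
        msm := fun i y hy => ContDiffAt.comp y (S.msm i _ (hV y.1 hy.1).2.1) (hγs y hy)
        lsm := hlsm
        tpp := ?_
        val := ?_
        ad := ?_
        perp := ?_
        imm := ?_ }
    · intro p hp p' hp' p'' hp'' hpr
      refine S.tpp _ (hV p.1 hp.1).2.1 _ (hV p'.1 hp'.1).2.1 _ (hV p''.1 hp''.1).2.1 ?_
      have e : S.x 0 (γ p.1) * (S.x 0 (γ p'.1))⁻¹ * (S.x 1 (γ p'.1) * (S.x 1 (γ p''.1))⁻¹) *
          (S.x 2 (γ p''.1) * (S.x 2 (γ p.1))⁻¹) = S.x 0 (γ p.1) *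
          ((S.x 0 (γ p.1))⁻¹ * S.x 0 (γ p.1) * ((S.x 0 (γ p'.1))⁻¹ * S.x 0 (γ p'.1))⁻¹ *
            ((S.x 0 (γ p'.1))⁻¹ * S.x 1 (γ p'.1) * ((S.x 0 (γ p''.1))⁻¹ * S.x 1 (γ p''.1))⁻¹) *
            ((S.x 0 (γ p''.1))⁻¹ * S.x 2 (γ p''.1) * ((S.x 0 (γ p.1))⁻¹ * S.x 2 (γ p.1))⁻¹)) *
          (S.x 0 (γ p.1))⁻¹ := by
        group
      rw [e, hpr, mul_one, mul_inv_cancel]
    · intro i y hy w
      rw [hdl i y hy w]
      have hz := (hV y.1 hy.1).2.1
      refine val_hh hbr (S.ad 0 _ hz) (lam := S.lam (γ y.1)) ((hV y.1 hy.1).2.2.2.1 0) ?_ ?_ ?_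
      · exact h.sub_mem (S.val i _ hz _) (S.val 0 _ hz _)
      · rw [map_sub, S.perp i _ hz, sub_self]
      · intro v hv
        have b1 := hdn i y.1 hy w.1 v hv
        have b2 := hdn 0 y.1 hy w.1 v hv
        rw [map_sub, ContinuousLinearMap.sub_apply, map_sub]
        linarith
    · intro i y hy w hw
      have hz := (hV y.1 hy.1).2.1
      exact ad_hh hbr (S.ad 0 _ hz) (S.ad i _ hz) ((hV y.1 hy.1).2.2.2.1 0)
        ((hV y.1 hy.1).2.2.2.1 i) hw
    · intro i y hy w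
      rw [hdl i y hy w, hdl 0 y hy w, sub_self, map_zero, map_zero]
      simp only [hlam', sum_apply, ContinuousLinearMap.smul_apply, fam,
        ContinuousLinearMap.comp_apply, Ad_inv_Ad']
      apply Finset.sum_eq_zero
      intro j _
      rw [map_sub, hlamz j i y.1 hy w.1, sub_self, smul_zero]
    · intro y hy w hw
      have hz := (hV y.1 hy.1).2.1
      have b1 : ∀ i, fderiv ℝ (S.m i) (γ y.1) (fderiv ℝ γ y.1 w.1) = 0 := by
        intro i
        have b2 := hw i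
        have b3 : fderiv ℝ (fun y : K × (Fin r → ℝ) => S.m i (γ y.1)) y =
            (fderiv ℝ (S.m i) (γ y.1)).comp (fderiv ℝ (fun y : K × (Fin r → ℝ) => γ y.1) y) :=
          fderiv_comp y ((S.msm i _ hz).differentiableAt (by simp))
            ((hγs y hy).differentiableAt (by simp))
        rw [b3, ContinuousLinearMap.comp_apply, hγd y hy w] at b2
        exact b2
      obtain ⟨c1, c2⟩ := S.imm _ hz _ b1
      have c3 : fderiv ℝ γ y.1 w.1 = 0 := by
        apply c2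
        intro v hv
        have b2 := hdn 0 y.1 hy w.1 v hv
        rw [c1 0, map_zero, ContinuousLinearMap.zero_apply, map_zero, add_zero] at b2
        exact b2
      have c4 : w.1 = 0 := by
        apply (hV y.1 hy.1).2.2.1
        rw [c3, map_zero]
      refine ⟨fun i => ?_, fun hz' => ?_⟩
      · rw [hdl i y hy w, c1 i, c1 0, sub_self, map_zero]
      · have c5 : w = (0, w.2) := Prod.ext c4 rfl
        have c6 : ∑ j, w.2 j • (fam S (X j) (γ y.1)).comp k.subtypeL = 0 := by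
          ext v
          have d1 := hz' v.1 v.2
          rw [c5, hlamd y hy w.2] at d1
          simpa [sum_apply] using d1
        have c7 := Fintype.linearIndependent_iff.mp hy.2 w.2 c6
        rw [c5]
        exact Prod.ext rfl (funext c7)
  rw [Module.finrank_prod, hK, Module.finrank_fin_fun] at hfin
  exact hfin

end Pool.Agent.Helper60.LX
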